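import Pool.Agent.Helper3.DB.Stm

/-!
# MP_aa8fd2_nt, project DB: assembly of the main theorem
-/

set_option autoImplicit false

namespace Pool.Agent.Helper3.DB

open IsLocalRing MZ

section L

variable {k : Type} [Field k] {G : Type} [Group G] [TopologicalSpace G] {n : ℕ} {T : Type} [CommRing T]
  [IsLocalRing T] [Algebra k T]

lemma obs_add (ρ : G →* GL (Fin n) k) (γ' : G → Mt n T) (l l' : T →ₗ[k] k) :
    obs ρ γ' (l + l') = obs ρ γ' l + obs ρ γ' l' := by
  funext p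
  simp only [obs, Pi.add_apply]
  rw [← add_mul]
  congr 1

lemma obs_smul (ρ : G →* GL (Fin n) k) (γ' : G → Mt n T) (a : k) (l : T →ₗ[k] k) :
    obs ρ γ' (a • l) = a • obs ρ γ' l := by
  funext p
  simp only [obs, Pi.smul_apply]
  rw [← Matrix.smul_mul]
  congr 1

/-- the obstruction map `Hom(J/mJ, k) → Z2S` -/
noncomputable def obsL0 (ρ : G →* GL (Fin n) k) {ι : Type} (c : ι → G) (J : Ideal T) (γ' : G → Mt n T)
    (h : ∀ l : T →ₗ[k] k, (∀ x ∈ maximalIdeal T * J, l x = 0) → obs ρ γ' l ∈ Z2S ρ c) :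
    (Submodule.restrictScalars k (maximalIdeal T * J)).dualAnnihilator →ₗ[k] Z2S ρ c where
  toFun l := ⟨obs ρ γ' l.1, h l.1 (fun x hx => (Submodule.mem_dualAnnihilator _).mp l.2 x hx)⟩
  map_add' l l' := Subtype.ext (obs_add ρ γ' l.1 l'.1)
  map_smul' a l := Subtype.ext (obs_smul ρ γ' a l.1)

/-- the obstruction map `Hom(J/mJ, k) → H2S` -/
noncomputable def obsL (ρ : G →* GL (Fin n) k) {ι : Type} (c : ι → G) (J : Ideal T) (γ' : G → Mt n T)
    (h : ∀ l : T →ₗ[k] k, (∀ x ∈ maximalIdeal T * J, l x = 0) → obs ρ γ' l ∈ Z2S ρ c) :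
    (Submodule.restrictScalars k (maximalIdeal T * J)).dualAnnihilator →ₗ[k] H2S ρ c :=
  (Submodule.mkQ _).comp (obsL0 ρ c J γ' h)

lemma obsL_eq_zero (ρ : G →* GL (Fin n) k) {ι : Type} (c : ι → G) (J : Ideal T) (γ' : G → Mt n T)
    (h : ∀ l : T →ₗ[k] k, (∀ x ∈ maximalIdeal T * J, l x = 0) → obs ρ γ' l ∈ Z2S ρ c)
    (l : (Submodule.restrictScalars k (maximalIdeal T * J)).dualAnnihilator)
    (hl : obsL ρ c J γ' h l = 0) : obs ρ γ' l.1 ∈ B2S ρ c := by
  unfold obsL at hl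
  rw [LinearMap.comp_apply, Submodule.mkQ_apply, Submodule.Quotient.mk_eq_zero] at hl
  exact hl

end L

lemma dimNat (R : Type) [CommRing R] [IsLocalRing R] [IsNoetherianRing R] :
    ∃ d : ℕ, ringKrullDim R = (d : WithBot ℕ∞) := by
  have h1 : ringKrullDim R ≠ ⊤ := ringKrullDim_ne_top
  have h2 : ringKrullDim R ≠ ⊥ := ringKrullDim_ne_bot
  cases hd : ringKrullDim R with
  | bot => exact absurd hd h2
  | coe d =>
    cases d with
    | top => exact absurd hd h1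
    | coe d => exact ⟨d, rfl⟩

theorem main_of (hSCH : S_SCH) (hCNT : S_CNT) (hZORN : S_ZORN) (hSEC : S_SEC) (hOB1 : S_OB1)
    (hOB2 : S_OB2) (hNAK : S_NAK) (hTRING : S_TRING) (hTDIM : S_TDIM) (hTAN : S_TAN) (hFI1 : S_FI1)
    (hFI2 : S_FI2) (hFI3 : S_FI3) : S_MAIN := by
  intro k _ _ _ G _ _ _ _ _ n hn ρ hρ hirr ι _ c hc hc1 hinj hZ1 hH2 hloc R ρu hu
  haveI : Fact (Nat.Prime 2) := ⟨Nat.prime_two⟩
  obtain ⟨m, rfl⟩ : ∃ m, n = m + 1 := ⟨n - 1, by omega⟩
  obtain ⟨hfin2, hcnt⟩ := hCNT k G (m + 1) ρ ι c hc hρ hZ1 hH2 hloc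
  have hsch := hSCH k G (m + 1) ρ hn hρ hirr hZ1
  -- the relative tangent space
  have hle : Z1S ρ c ≤ Z1 ρ := fun φ hφ => hφ.1
  haveI : Module.Finite k (Z1S ρ c) :=
    Module.Finite.of_injective (Submodule.inclusion hle) (Submodule.inclusion_injective hle)
  set z := Module.finrank k (Z1S ρ c) with hz
  let b := Module.finBasis k (Z1S ρ c)
  let φ : Fin z → G → Mt (m + 1) k := fun j => (b j : G → Mt (m + 1) k)
  have hφ : ∀ j, φ j ∈ Z1S ρ c := fun j => (b j).2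
  have hind : LinearIndependent k φ :=
    b.linearIndependent.map' (Z1S ρ c).subtype (Submodule.ker_subtype _)
  -- the ring `T`
  have hA : ∀ i, (ρ (c i) : Mt (m + 1) k) * (ρ (c i) : Mt (m + 1) k) = 1 := by
    intro i
    rw [← Units.val_mul, ← map_mul, hc i, map_one, Units.val_one]
  obtain ⟨hl, hcpl, hg⟩ := hTRING k (m + 1) ι z (fun i => (ρ (c i) : Mt (m + 1) k)) hA
  have hdim := hTDIM k (m + 1) ι z (fun i => (ρ (c i) : Mt (m + 1) k)) hA
  let T := TT z (fun i => (ρ (c i) : Mt (m + 1) k))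
  let C := CC z (fun i => (ρ (c i) : Mt (m + 1) k))
  let x := xx z (fun i => (ρ (c i) : Mt (m + 1) k))
  letI iT : IsLocalRing T := hl
  haveI iC : IsAdicComplete (maximalIdeal T) T := hcpl
  have hgood : Good (fun i => (ρ (c i) : Mt (m + 1) k)) C x := hg
  have hJ1 : entI (fun i => (ρ (c i) : Mt (m + 1) k)) C ⊔ maximalIdeal T ^ 2 ≤ maximalIdeal T :=
    sup_le hgood.ent (Ideal.pow_le_self (by norm_num))
  have htan := hTAN k T G (m + 1) ρ ι c C z x hρ hgood φ hφ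
  obtain ⟨J, γ, hJJ, hPL, hnear, hmin⟩ := hZORN k T hgood.resk G (m + 1) ρ ι c C _ _ hJ1 htan
  have hJm : J ≤ maximalIdeal T := hJJ.trans hJ1
  obtain ⟨γ', hsec⟩ := hSEC k T hgood.resk G (m + 1) ρ ι c C J γ hinj hc1 hJm hPL
  have hob1 := hOB1 k T hgood.resk G (m + 1) ρ ι c C J γ γ' hρ hc hgood.sq hJm hPL hsec
  have hob2 := hOB2 k T hgood.resk G (m + 1) ρ ι c C J γ γ' hρ hJm hPL hmin hsec
  obtain ⟨s, hs, hsJ⟩ := hNAK k T hgood.resk J (H2S ρ c) (obsL ρ c J γ' hob1) (by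
    intro l hl0 y hy
    exact hob2 l.1 (fun x hx => (Submodule.mem_dualAnnihilator _).mp l.2 x hx)
      (obsL_eq_zero ρ c J γ' hob1 l hl0) y hy)
  -- the bound for `dim T/J`
  obtain ⟨f, M, hf0, hfm, hfr, hM0, hM1, hMg⟩ := hFI1 2 k T hgood.resk G m ρ J γ hJm hPL.mul hPL.one
    hPL.res hPL.cont R ρu hu
  have hgen := hFI2 2 k T G m ρ ι c C z x hgood φ hind J γ hPL hJJ hnear R ρu hu.1 f M hfm hfr hM1 hMg
  have hJtop : J ≠ ⊤ := fun h => (maximalIdeal.isMaximal T).ne_top (top_le_iff.mp (h ▸ hJm))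
  haveI : Nontrivial (T ⧸ J) := Ideal.Quotient.nontrivial_iff.mpr hJtop
  haveI : IsLocalRing (T ⧸ J) :=
    IsLocalRing.of_surjective' (Ideal.Quotient.mk J) Ideal.Quotient.mk_surjective
  have hmk : ∀ t ∈ maximalIdeal T, Ideal.Quotient.mk J t ∈ maximalIdeal (T ⧸ J) := by
    intro t ht
    rw [mem_maximalIdeal, mem_nonunits_iff]
    intro hun
    obtain ⟨u, hu⟩ := hun.exists_right_inv
    obtain ⟨u, rfl⟩ := Ideal.Quotient.mk_surjective u
    have h2 : t * u - 1 ∈ J := by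
      rw [← Ideal.Quotient.eq, map_mul, hu, map_one]
    have h3 : (1 : T) ∈ maximalIdeal T := by
      have := (maximalIdeal T).sub_mem ((maximalIdeal T).mul_mem_right u ht) (hJm h2)
      simpa using this
    exact (maximalIdeal.isMaximal T).ne_top ((Ideal.eq_top_iff_one _).mpr h3)
  have hmax : maximalIdeal (T ⧸ J) ≤ (maximalIdeal T).map (Ideal.Quotient.mk J) := by
    intro y hy
    obtain ⟨t, rfl⟩ := Ideal.Quotient.mk_surjective y
    refine Ideal.mem_map_of_mem _ ?_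
    rw [mem_maximalIdeal, mem_nonunits_iff]
    intro hun
    exact (mem_maximalIdeal _).mp hy (hun.map (Ideal.Quotient.mk J))
  classical
  let E : Fin (m + 1) × Fin (m + 1) → T ⧸ J := fun q => ((M : Mt (m + 1) (T ⧸ J)) - 1) q.1 q.2
  let S : Finset (T ⧸ J) := ((Finset.univ : Finset (Fin (m + 1) × Fin (m + 1))).erase (0, 0)).image E
  have hScard : S.card ≤ (m + 1) ^ 2 - 1 := by
    refine Finset.card_image_le.trans ?_
    rw [Finset.card_erase_of_mem (Finset.mem_univ _), Finset.card_univ, Fintype.card_prod,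
      Fintype.card_fin, pow_two]
  have hE0 : E (0, 0) = 0 := by
    simp only [E, Matrix.sub_apply, hM0, Matrix.one_apply_eq, sub_self]
  have hspan : Ideal.span (Set.range E) ≤ Ideal.span (S : Set (T ⧸ J)) := by
    rw [Ideal.span_le]
    rintro _ ⟨q, rfl⟩
    by_cases hq : q = (0, 0)
    · rw [hq, hE0]; exact zero_mem _
    · exact Ideal.subset_span (Finset.mem_coe.mpr (Finset.mem_image_of_mem E
        (Finset.mem_erase.mpr ⟨hq, Finset.mem_univ q⟩)))
  have hfi3 := hFI3 R.A (T ⧸ J) f ((2 : ℕ) : R.A) (by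
      rw [mem_maximalIdeal, mem_nonunits_iff]
      intro hun
      have h1 := hun.map R.res
      rw [map_natCast] at h1
      have h2 : ((2 : ℕ) : k) = 0 := CharP.cast_eq_zero k 2
      rw [h2] at h1
      exact not_isUnit_zero h1) hf0 (by
      intro r hr
      obtain ⟨t, ht, hte⟩ := hfm r hr
      rw [← hte]; exact hmk t ht) S (by
      intro y hy
      obtain ⟨q, -, rfl⟩ := Finset.mem_image.mp hy
      obtain ⟨t, ht, hte⟩ := hM1 q.1 q.2
      change ((M : Mt (m + 1) (T ⧸ J)) - 1) q.1 q.2 ∈ _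
      rw [← hte]; exact hmk t ht) (hmax.trans (hgen.trans (sup_le_sup le_rfl hspan)))
  -- Krull
  have hkr : ringKrullDim T ≤ ringKrullDim (T ⧸ Ideal.span (s : Set T)) + s.card := by
    apply ringKrullDim_le_ringKrullDim_quotient_add_card
    rw [IsLocalRing.ringJacobson_eq_maximalIdeal]
    intro y hy
    exact hJm (hsJ ▸ Ideal.subset_span hy)
  rw [hsJ] at hkr
  -- arithmetic
  have hR2 : Ideal.span {((2 : ℕ) : R.A)} ≠ ⊤ := by
    intro h
    rw [Ideal.span_singleton_eq_top] at h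
    have h1 := h.map R.res
    rw [map_natCast] at h1
    have h2 : ((2 : ℕ) : k) = 0 := CharP.cast_eq_zero k 2
    rw [h2] at h1
    exact not_isUnit_zero h1
  haveI : Nontrivial (R.A ⧸ Ideal.span {((2 : ℕ) : R.A)}) := Ideal.Quotient.nontrivial_iff.mpr hR2
  haveI : IsLocalRing (R.A ⧸ Ideal.span {((2 : ℕ) : R.A)}) :=
    IsLocalRing.of_surjective' (Ideal.Quotient.mk _) Ideal.Quotient.mk_surjective
  obtain ⟨d, hd⟩ := dimNat (R.A ⧸ Ideal.span {((2 : ℕ) : R.A)})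
  obtain ⟨e, he⟩ := dimNat (T ⧸ J)
  rw [hd, he] at hfi3
  rw [he] at hkr
  have h3 := hdim.trans hkr
  rw [hd]
  have h4 : e ≤ d + S.card := by exact_mod_cast hfi3
  have h5 : Fintype.card ι * (2 * ((m + 1) / 2) * (m + 1 - (m + 1) / 2)) + z ≤ e + s.card := by
    exact_mod_cast h3
  have h6 : h1 ρ + Fintype.card ι * (2 * ((m + 1) / 2) * (m + 1 - (m + 1) / 2)) ≤
      d + (h2 ρ + ∑ i, ((m + 1) ^ 2 - h0 ρ (c i))) := by
    have hpos : 1 ≤ (m + 1) ^ 2 := Nat.one_le_pow _ _ (Nat.succ_pos m)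
    omega
  exact_mod_cast h6

end Pool.Agent.Helper3.DB
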