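import Pool.Agent.Helper3.DB.Stm2

/-!
# The centraliser of a square-zero endomorphism (helper71)
-/

set_option autoImplicit false

namespace Pool.Agent.Helper3.DB.CEN

open Module LinearMap

section

variable {k V : Type} [Field k] [AddCommGroup V] [Module k V] [FiniteDimensional k V]

/-- the endomorphisms commuting with `N` -/
def cent (N : V →ₗ[k] V) : Submodule k (V →ₗ[k] V) where
  carrier := {X | X ∘ₗ N = N ∘ₗ X}
  add_mem' := by
    intro X Y hX hY
    change (X + Y) ∘ₗ N = N ∘ₗ (X + Y)
    rw [add_comp, comp_add, hX, hY]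
  zero_mem' := by
    change (0 : V →ₗ[k] V) ∘ₗ N = N ∘ₗ 0
    rw [zero_comp, comp_zero]
  smul_mem' := by
    intro a X hX
    change (a • X) ∘ₗ N = N ∘ₗ (a • X)
    rw [smul_comp, comp_smul, hX]

/-- an adapted basis -/
theorem adapted (N : V →ₗ[k] V) (hN : ∀ x, N (N x) = 0) :
    ∃ (r m : ℕ) (b : Basis ((Fin r ⊕ Fin m) ⊕ Fin r) k V), finrank k (range N) = r ∧
      finrank k (ker N) = r + m ∧
      (∀ i, N (b (Sum.inl (Sum.inl i))) = 0) ∧ (∀ j, N (b (Sum.inl (Sum.inr j))) = 0) ∧
      ∀ i, N (b (Sum.inr i)) = b (Sum.inl (Sum.inl i)) := by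
  classical
  have hle : range N ≤ ker N := by
    rintro _ ⟨x, rfl⟩
    exact hN x
  set R : Submodule k (ker N) := (range N).comap (ker N).subtype with hR
  obtain ⟨C, hC⟩ := Submodule.exists_isCompl R
  have hmap : R.map (ker N).subtype = range N := by
    rw [hR, Submodule.map_comap_subtype, inf_eq_right]
    exact hle
  have hrR : finrank k R = finrank k (range N) := by
    rw [← hmap]
    exact (LinearEquiv.finrank_eq (Submodule.equivMapOfInjective (ker N).subtype
      (Submodule.injective_subtype _) R))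
  set r := finrank k R with hr
  set m := finrank k C with hm
  let bR : Basis (Fin r) k R := finBasis k R
  let bC : Basis (Fin m) k C := finBasis k C
  let bK : Basis (Fin r ⊕ Fin m) k (ker N) :=
    (bR.prod bC).map (Submodule.prodEquivOfIsCompl R C hC)
  have hK1 : ∀ i, bK (Sum.inl i) = (bR i : ker N) := by
    intro i
    change (Submodule.prodEquivOfIsCompl R C hC) ((bR.prod bC) (Sum.inl i)) = _
    rw [Submodule.coe_prodEquivOfIsCompl', Basis.prod_apply_inl_fst, Basis.prod_apply_inl_snd,
      Submodule.coe_zero, add_zero]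
  have hf : ∀ i : Fin r, ∃ f : V, N f = ((bR i : ker N) : V) := fun i => (bR i).2
  choose f hf using hf
  have hcard : finrank k (ker N) = r + m := by
    rw [finrank_eq_card_basis bK, Fintype.card_sum, Fintype.card_fin, Fintype.card_fin]
  have hLI1 : LinearIndependent k fun i : Fin r ⊕ Fin m => ((bK i : ker N) : V) :=
    bK.linearIndependent.map' (ker N).subtype (Submodule.ker_subtype _)
  have hLIe : LinearIndependent k fun i : Fin r => ((bR i : ker N) : V) := by
    have h1 := hLI1.comp Sum.inl Sum.inl_injective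
    have h2 : ((fun i : Fin r ⊕ Fin m => ((bK i : ker N) : V)) ∘ Sum.inl) =
        fun i : Fin r => ((bR i : ker N) : V) := by
      funext i
      change ((bK (Sum.inl i) : ker N) : V) = _
      rw [hK1]
    rw [h2] at h1
    exact h1
  have hLI2 : LinearIndependent k f := by
    refine LinearIndependent.of_comp N ?_
    have h2 : (N ∘ f) = fun i : Fin r => ((bR i : ker N) : V) := funext hf
    rw [h2]
    exact hLIe
  have hdis : Disjoint (Submodule.span k (Set.range fun i : Fin r ⊕ Fin m => ((bK i : ker N) : V)))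
      (Submodule.span k (Set.range f)) := by
    rw [Submodule.disjoint_def]
    intro x hx1 hx2
    have hxK : N x = 0 := by
      have h1 : Submodule.span k (Set.range fun i : Fin r ⊕ Fin m => ((bK i : ker N) : V)) ≤
          ker N := by
        rw [Submodule.span_le]
        rintro _ ⟨i, rfl⟩
        exact (bK i).2
      exact h1 hx1
    rw [Submodule.mem_span_range_iff_exists_fun] at hx2
    obtain ⟨c, rfl⟩ := hx2
    rw [map_sum] at hxK
    simp only [map_smul, hf] at hxK
    have h2 := Fintype.linearIndependent_iff.1 hLIe c hxK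
    exact Finset.sum_eq_zero fun i _ => by rw [h2 i, zero_smul]
  have hLI := hLI1.sum_type hLI2 hdis
  have hn : Fintype.card ((Fin r ⊕ Fin m) ⊕ Fin r) = finrank k V := by
    have h1 := LinearMap.finrank_range_add_finrank_ker N
    rw [← hrR, hcard] at h1
    simp only [Fintype.card_sum, Fintype.card_fin]
    omega
  have : Nonempty ((Fin r ⊕ Fin m) ⊕ Fin r) ∨ IsEmpty ((Fin r ⊕ Fin m) ⊕ Fin r) :=
    (isEmpty_or_nonempty _).symm
  let b : Basis ((Fin r ⊕ Fin m) ⊕ Fin r) k V := basisOfLinearIndependentOfCardEqFinrank' _ hLI hn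
  have hb : ∀ i, b i = Sum.elim (fun i : Fin r ⊕ Fin m => ((bK i : ker N) : V)) f i := by
    intro i
    simp [b]
  refine ⟨r, m, b, hrR.symm, hcard, ?_, ?_, ?_⟩
  · intro i
    rw [hb]
    exact (bK (Sum.inl i)).2
  · intro j
    rw [hb]
    exact (bK (Sum.inr j)).2
  · intro i
    rw [hb, hb]
    change N (f i) = ((bK (Sum.inl i) : ker N) : V)
    rw [hf, hK1]

theorem cen_aux (N : V →ₗ[k] V) (hN : ∀ x, N (N x) = 0) :
    2 * finrank k (range N) ≤ finrank k V ∧
      finrank k (cent N) + 2 * finrank k (range N) * (finrank k V - finrank k (range N)) =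
        finrank k V ^ 2 := by
  classical
  obtain ⟨r, m, b, hr, hK, h1, h2, h3⟩ := adapted N hN
  have hn : finrank k V = r + m + r := by
    rw [finrank_eq_card_basis b]
    simp only [Fintype.card_sum, Fintype.card_fin]
  let Ψ : cent N →ₗ[k] (Fin r → V) × (Fin m → ker N) :=
    { toFun := fun X => (fun i => X.1 (b (Sum.inr i)), fun j => ⟨X.1 (b (Sum.inl (Sum.inr j))), by
        rw [LinearMap.mem_ker]
        have h := DFunLike.congr_fun X.2 (b (Sum.inl (Sum.inr j)))
        rw [comp_apply, comp_apply, h2, map_zero] at h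
        exact h.symm⟩)
      map_add' := fun X Y => rfl
      map_smul' := fun a X => rfl }
  have hinj : Function.Injective Ψ := by
    rw [← LinearMap.ker_eq_bot, LinearMap.ker_eq_bot']
    intro X hX
    have e1 : ∀ i, X.1 (b (Sum.inr i)) = 0 := fun i => congrFun (congrArg Prod.fst hX) i
    have e2 : ∀ j, X.1 (b (Sum.inl (Sum.inr j))) = 0 := fun j =>
      congrArg Subtype.val (congrFun (congrArg Prod.snd hX) j)
    apply Subtype.ext
    refine b.ext fun i => ?_
    rcases i with (i | j) | i
    · have h := DFunLike.congr_fun X.2 (b (Sum.inr i))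
      rw [comp_apply, comp_apply, h3, e1, map_zero] at h
      exact h
    · exact e2 j
    · exact e1 i
  have hsurj : Function.Surjective Ψ := by
    rintro ⟨u, w⟩
    let X : V →ₗ[k] V := b.constr k (Sum.elim (Sum.elim (fun i => N (u i)) fun j => ((w j : ker N) : V)) u)
    have x1 : ∀ i, X (b (Sum.inl (Sum.inl i))) = N (u i) := fun i => by
      simp [X]
    have x2 : ∀ j, X (b (Sum.inl (Sum.inr j))) = ((w j : ker N) : V) := fun j => by
      simp [X]
    have x3 : ∀ i, X (b (Sum.inr i)) = u i := fun i => by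
      simp [X]
    have hX : X ∈ cent N := by
      change X ∘ₗ N = N ∘ₗ X
      refine b.ext fun i => ?_
      rw [comp_apply, comp_apply]
      rcases i with (i | j) | i
      · rw [h1, map_zero, x1, hN]
      · rw [h2, map_zero, x2]
        exact (w j).2.symm
      · rw [h3, x1, x3]
    refine ⟨⟨X, hX⟩, Prod.ext ?_ ?_⟩
    · funext i
      exact x3 i
    · funext j
      exact Subtype.ext (x2 j)
  have hdim : finrank k (cent N) = r * (r + m + r) + m * (r + m) := by
    rw [LinearEquiv.finrank_eq (LinearEquiv.ofBijective Ψ ⟨hinj, hsurj⟩), finrank_prod,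
      Module.finrank_pi_fintype, Module.finrank_pi_fintype]
    simp only [Finset.sum_const, Finset.card_univ, Fintype.card_fin, smul_eq_mul, hn, hK]
  rw [hdim, hr, hn]
  refine ⟨by omega, ?_⟩
  have h4 : r + m + r - r = r + m := by omega
  rw [h4]
  ring

end

theorem main : S_CEN := by
  intro k _ _ G _ _ n ρ c hc
  classical
  set M : Mt n k := (ρ c : Mt n k) with hM
  have hMM : M * M = 1 := by
    have h1 : ρ c * ρ c = 1 := by rw [← map_mul, hc, map_one]
    have h2 := congrArg (fun g : GL (Fin n) k => (g : Mt n k)) h1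
    exact h2
  set N : (Fin n → k) →ₗ[k] (Fin n → k) := (M - 1).mulVecLin with hN
  have h2 : (2 : Mt n k) = 0 := by
    have : (2 : k) = 0 := CharTwo.two_eq_zero
    have h3 : (2 : Mt n k) = (2 : k) • (1 : Mt n k) := by
      rw [two_smul]
      norm_num
    rw [h3, this, zero_smul]
  have hsq : (M - 1) * (M - 1) = 0 := by
    have h3 : (M - 1) * (M - 1) = M * M + 1 - 2 * M := by noncomm_ring
    rw [h3, hMM, h2, zero_mul, sub_zero]
    have : (1 : Mt n k) + 1 = 2 := by norm_num
    rw [this, h2]
  have hNN : ∀ x, N (N x) = 0 := by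
    intro x
    rw [hN, Matrix.mulVecLin_apply, Matrix.mulVecLin_apply, Matrix.mulVec_mulVec, hsq,
      Matrix.zero_mulVec]
  have hrank : (M - 1).rank = finrank k (range N) := rfl
  have hV : finrank k (Fin n → k) = n := by rw [finrank_fin_fun]
  have hker : finrank k (LinearMap.ker (ad ρ c - LinearMap.id)) = finrank k (cent N) := by
    have hmem : ∀ X : Mt n k, X ∈ LinearMap.ker (ad ρ c - LinearMap.id) ↔
        Matrix.toLin' X ∈ cent N := by
      intro X
      have hinv : ((ρ c)⁻¹ : GL (Fin n) k) = ρ c := by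
        rw [inv_eq_iff_mul_eq_one, ← map_mul, hc, map_one]
      have e1 : X ∈ LinearMap.ker (ad ρ c - LinearMap.id) ↔ M * X * M = X := by
        rw [LinearMap.mem_ker, LinearMap.sub_apply, sub_eq_zero]
        change (ρ c : Mt n k) * X * ((ρ c)⁻¹ : GL (Fin n) k) = X ↔ _
        rw [hinv]
      have e2 : M * X * M = X ↔ X * (M - 1) = (M - 1) * X := by
        rw [mul_sub, sub_mul, mul_one, one_mul]
        constructor
        · intro h
          have h4 : M * X = X * M := by
            calc M * X = M * X * (M * M) := by rw [hMM, mul_one]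
              _ = M * X * M * M := by rw [← mul_assoc]
              _ = X * M := by rw [h]
          rw [h4]
        · intro h
          have h4 : X * M = M * X := sub_left_injective h
          rw [← h4, mul_assoc, hMM, mul_one]
      have e3 : X * (M - 1) = (M - 1) * X ↔ Matrix.toLin' X ∈ cent N := by
        change _ ↔ Matrix.toLin' X ∘ₗ N = N ∘ₗ Matrix.toLin' X
        have h5 : N = Matrix.toLin' (M - 1) := rfl
        rw [h5, ← Matrix.toLin'_mul, ← Matrix.toLin'_mul, EmbeddingLike.apply_eq_iff_eq]
      rw [e1, e2, e3]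
    refine LinearEquiv.finrank_eq (LinearEquiv.ofSubmodules (Matrix.toLin' (R := k) (m := Fin n) (n := Fin n))
      (LinearMap.ker (ad ρ c - LinearMap.id)) (cent N) ?_)
    ext Y
    rw [Submodule.mem_map]
    constructor
    · rintro ⟨X, hX, rfl⟩
      exact (hmem X).1 hX
    · intro hY
      refine ⟨Matrix.toLin'.symm Y, (hmem _).2 ?_, ?_⟩
      · rw [LinearEquiv.apply_symm_apply]
        exact hY
      · exact LinearEquiv.apply_symm_apply _ Y
  obtain ⟨h6, h7⟩ := cen_aux N hNN
  rw [hV] at h6 h7
  rw [hrank]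
  refine ⟨h6, ?_⟩
  change finrank k (LinearMap.ker (ad ρ c - LinearMap.id)) + _ = _
  rw [hker]
  exact h7

end Pool.Agent.Helper3.DB.CEN
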