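import Pool.Agent.Helper3.DB.Stm

/-!
# DB, module CHN (helper63): a chain of primes from a map to a power series ring
-/

set_option autoImplicit false

namespace Pool.Agent.Helper3.DB.CHN

open Pool.Agent.Helper3.DB

open Classical in
/-- putting the variables in `S` equal to zero, the underlying map -/
noncomputable def cut {k : Type} [Field k] {V : Type} (S : Set V) (g : MvPowerSeries V k) :
    MvPowerSeries V k :=
  fun m => if ∀ w ∈ S, m w = 0 then MvPowerSeries.coeff m g else 0

open Classical in
theorem coeff_cut {k : Type} [Field k] {V : Type} (S : Set V) (g : MvPowerSeries V k) (m : V →₀ ℕ) :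
    MvPowerSeries.coeff m (cut S g) = if ∀ w ∈ S, m w = 0 then MvPowerSeries.coeff m g else 0 := rfl

/-- putting the variables in `S` equal to zero -/
noncomputable def setz (k : Type) [Field k] {V : Type} (S : Set V) :
    MvPowerSeries V k →+* MvPowerSeries V k where
  toFun := cut S
  map_one' := by
    classical
    ext m
    rw [coeff_cut, MvPowerSeries.coeff_one]
    by_cases h : m = 0
    · subst h; simp
    · simp [h]
  map_mul' f g := by
    classical
    ext m
    rw [coeff_cut, MvPowerSeries.coeff_mul, MvPowerSeries.coeff_mul]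
    simp only [coeff_cut]
    by_cases h : ∀ w ∈ S, m w = 0
    · rw [if_pos h]
      refine Finset.sum_congr rfl fun p hp => ?_
      have hp' := Finset.HasAntidiagonal.mem_antidiagonal.mp hp
      have h1 : ∀ w ∈ S, p.1 w = 0 := fun w hw => by
        have := h w hw
        rw [← hp', Finsupp.add_apply] at this
        omega
      have h2 : ∀ w ∈ S, p.2 w = 0 := fun w hw => by
        have := h w hw
        rw [← hp', Finsupp.add_apply] at this
        omega
      rw [if_pos h1, if_pos h2]
    · rw [if_neg h]
      symm
      refine Finset.sum_eq_zero fun p hp => ?_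
      have hp' := Finset.HasAntidiagonal.mem_antidiagonal.mp hp
      by_cases h1 : ∀ w ∈ S, p.1 w = 0
      · by_cases h2 : ∀ w ∈ S, p.2 w = 0
        · exfalso
          apply h
          intro w hw
          rw [← hp', Finsupp.add_apply, h1 w hw, h2 w hw]
        · rw [if_neg h2, mul_zero]
      · rw [if_neg h1, zero_mul]
  map_zero' := by
    classical
    ext m
    rw [coeff_cut]
    simp
  map_add' f g := by
    classical
    ext m
    rw [map_add, coeff_cut, coeff_cut, coeff_cut]
    split_ifs <;> simp

open Classical in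
theorem coeff_setz {k : Type} [Field k] {V : Type} (S : Set V) (g : MvPowerSeries V k) (m : V →₀ ℕ) :
    MvPowerSeries.coeff m (setz k S g) = if ∀ w ∈ S, m w = 0 then MvPowerSeries.coeff m g else 0 := rfl

theorem setz_eq_zero {k : Type} [Field k] {V : Type} (S : Set V) (g : MvPowerSeries V k) :
    setz k S g = 0 ↔ ∀ m : V →₀ ℕ, (∀ w ∈ S, m w = 0) → MvPowerSeries.coeff m g = 0 := by
  classical
  constructor
  · intro h m hm
    have := coeff_setz S g m
    rw [h, if_pos hm] at this
    simpa using this.symm
  · intro h
    ext m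
    rw [coeff_setz]
    by_cases hm : ∀ w ∈ S, m w = 0
    · rw [if_pos hm, h m hm]; simp
    · rw [if_neg hm]; simp

/-- the prime of `T` -/
noncomputable def pr {k : Type} [Field k] {V : Type} {T : Type} [CommRing T]
    (Φ : T →+* MvPowerSeries V k) (S : Set V) : PrimeSpectrum T :=
  ⟨RingHom.ker ((setz k S).comp Φ), by
    have : IsDomain (MvPowerSeries V k) := NoZeroDivisors.to_isDomain _
    exact RingHom.ker_isPrime _⟩

theorem mem_pr {k : Type} [Field k] {V : Type} {T : Type} [CommRing T]
    (Φ : T →+* MvPowerSeries V k) (S : Set V) (t : T) :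
    t ∈ (pr Φ S).asIdeal ↔ ∀ m : V →₀ ℕ, (∀ w ∈ S, m w = 0) → MvPowerSeries.coeff m (Φ t) = 0 := by
  rw [← setz_eq_zero]
  rfl

theorem main : S_CHN := by
  classical
  intro k _ V _ _ T _ Φ hΦ
  let e : Fin (Fintype.card V) ≃o V := Fintype.orderIsoFinOfCardEq V rfl
  let S : ℕ → Set V := fun i => {w | Fintype.card V ≤ (e.symm w : ℕ) + i}
  have hlt : ∀ i < Fintype.card V, pr Φ (S i) < pr Φ (S (i + 1)) := by
    intro i hi
    have hj : Fintype.card V - 1 - i < Fintype.card V := by omega
    let v : V := e ⟨Fintype.card V - 1 - i, hj⟩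
    have hv : (e.symm v : ℕ) = Fintype.card V - 1 - i := by simp [v]
    have hle : ∀ w, w ∈ S (i + 1) ↔ v ≤ w := by
      intro w
      rw [← e.symm.le_iff_le, ← Fin.val_fin_le, hv]
      change Fintype.card V ≤ (e.symm w : ℕ) + (i + 1) ↔ _
      omega
    have hltw : ∀ w, w ∈ S i → v < w := by
      intro w hw
      rw [← e.symm.lt_iff_lt, ← Fin.val_fin_lt, hv]
      change Fintype.card V ≤ (e.symm w : ℕ) + i at hw
      omega
    rw [lt_iff_le_and_ne]
    refine ⟨?_, ?_⟩
    · change (pr Φ (S i)).asIdeal ≤ (pr Φ (S (i + 1))).asIdeal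
      intro t ht
      rw [mem_pr] at ht ⊢
      intro m hm
      exact ht m fun w hw => hm w ((hle w).2 (hltw w hw).le)
    · intro heq
      obtain ⟨f, δ, hf, m, hm, hδ⟩ := hΦ v
      have h1 : f ∈ (pr Φ (S (i + 1))).asIdeal := by
        rw [mem_pr]
        intro m' hm'
        exact MvPowerSeries.X_dvd_iff.1 ⟨δ, hf⟩ m' (hm' v ((hle v).2 le_rfl))
      rw [← heq, mem_pr] at h1
      apply hδ
      have := h1 (Finsupp.single v 1 + m) (fun w hw => by
        have hvw := hltw w hw
        rw [Finsupp.add_apply, hm w hvw.le, Finsupp.single_apply, if_neg hvw.ne])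
      rw [hf, MvPowerSeries.X, MvPowerSeries.coeff_add_monomial_mul, one_mul] at this
      exact this
  let p : LTSeries (PrimeSpectrum T) :=
    { length := Fintype.card V
      toFun := fun i => pr Φ (S i)
      step := fun i => hlt i i.2 }
  exact Order.LTSeries.length_le_krullDim p

end Pool.Agent.Helper3.DB.CHN
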