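import Pool.Agent.Helper3.DB.Stm

set_option autoImplicit false

namespace Pool.Agent.Helper3.DB.CNT

open IsLocalRing MZ Module

section General

variable {k : Type} [Field k]

theorem range_bound {E P V : Type} [AddCommGroup E] [Module k E] [AddCommGroup P] [Module k P]
    [Module.Finite k P] [AddCommGroup V] [Module k V] (δ : E →ₗ[k] V) (e : E →ₗ[k] P)
    (h : LinearMap.ker e ≤ LinearMap.ker δ) (U : Submodule k E) (hU : ∀ x ∈ U, δ x = 0) :
    Module.Finite k (LinearMap.range δ) ∧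
      finrank k (LinearMap.range δ) + finrank k (U.map e) ≤ finrank k P := by
  obtain ⟨s, hs⟩ := LinearMap.exists_rightInverse_of_surjective e.rangeRestrict
    (LinearMap.range_rangeRestrict e)
  have hs' : ∀ y, e.rangeRestrict (s y) = y := fun y => LinearMap.congr_fun hs y
  obtain ⟨g, hgdef⟩ : ∃ g : LinearMap.range e →ₗ[k] V, g = δ ∘ₗ s := ⟨_, rfl⟩
  have hg : ∀ x : E, δ x = g (e.rangeRestrict x) := by
    intro x
    have h1 : x - s (e.rangeRestrict x) ∈ LinearMap.ker e := by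
      rw [LinearMap.mem_ker, map_sub, sub_eq_zero]
      have h2 := congrArg Subtype.val (hs' (e.rangeRestrict x))
      exact h2.symm
    have h2 := h h1
    rw [LinearMap.mem_ker, map_sub, sub_eq_zero] at h2
    rw [h2, hgdef]
    rfl
  have hrange : LinearMap.range δ = LinearMap.range g := by
    apply le_antisymm
    · rintro _ ⟨x, rfl⟩
      exact ⟨e.rangeRestrict x, (hg x).symm⟩
    · rintro _ ⟨y, rfl⟩
      refine ⟨s y, ?_⟩
      rw [hg, hs']
  rw [hrange]
  refine ⟨inferInstance, ?_⟩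
  have h1 := LinearMap.finrank_range_add_finrank_ker g
  have h2 : finrank k (U.map e) ≤ finrank k (LinearMap.ker g) := by
    rw [← Submodule.finrank_map_subtype_eq (LinearMap.range e) (LinearMap.ker g)]
    refine Submodule.finrank_mono ?_
    rintro _ ⟨x, hx, rfl⟩
    refine ⟨e.rangeRestrict x, ?_, rfl⟩
    rw [SetLike.mem_coe, LinearMap.mem_ker, ← hg]
    exact hU x hx
  have h3 : finrank k (LinearMap.range e) ≤ finrank k P := Submodule.finrank_le _
  omega

theorem quot_dim {M : Type} [AddCommGroup M] [Module k M] [Module.Finite k M] (T : M →ₗ[k] M)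
    (hT : LinearMap.range T ≤ LinearMap.ker T) :
    finrank k ((LinearMap.ker T).map (LinearMap.range T).mkQ) + finrank k (LinearMap.range T) =
      finrank k (LinearMap.ker T) := by
  obtain ⟨f, hf⟩ : ∃ f, f = (LinearMap.range T).mkQ ∘ₗ (LinearMap.ker T).subtype := ⟨_, rfl⟩
  have h1 := LinearMap.finrank_range_add_finrank_ker f
  have h2 : LinearMap.range f = (LinearMap.ker T).map (LinearMap.range T).mkQ := by
    rw [hf, LinearMap.range_comp, Submodule.range_subtype]
  have h3 : LinearMap.ker f = (LinearMap.range T).comap (LinearMap.ker T).subtype := by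
    rw [hf, LinearMap.ker_comp, Submodule.ker_mkQ]
  rw [h2, h3, (Submodule.comapSubtypeEquivOfLe hT).finrank_eq] at h1
  exact h1

end General

variable {k : Type} [Field k] [CharP k 2] {G : Type} [Group G] [TopologicalSpace G] {n : ℕ}

omit [TopologicalSpace G] in
theorem add_self (X : Mt n k) : X + X = 0 := by
  ext a b
  simp [CharTwo.add_self_eq_zero]

theorem neg_self (X : Mt n k) : -X = X := neg_eq_of_add_eq_zero_left (add_self X)

omit [CharP k 2] [TopologicalSpace G] in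
theorem ad_one (ρ : G →* GL (Fin n) k) (X : Mt n k) : ad ρ 1 X = X := by
  simp [ad]

omit [CharP k 2] [TopologicalSpace G] in
theorem ad_mul (ρ : G →* GL (Fin n) k) (g h : G) (X : Mt n k) :
    ad ρ (g * h) X = ad ρ g (ad ρ h X) := by
  simp [ad, mul_inv_rev, Matrix.mul_assoc]

theorem main : S_CNT := by
  classical
  intro k _ _ G _ _ _ n ρ ι _ c hc hker hZ1 hH2 hloc
  -- the operators
  obtain ⟨T, hT⟩ : ∃ T : ι → (Mt n k →ₗ[k] Mt n k), T = fun i => ad ρ (c i) - LinearMap.id :=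
    ⟨_, rfl⟩
  have hTa : ∀ i X, T i X = ad ρ (c i) X - X := by
    intro i X
    rw [hT]
    rfl
  have hT' : ∀ i X, T i X = ad ρ (c i) X + X := by
    intro i X
    rw [hTa, sub_eq_add_neg, neg_self]
  have hTT : ∀ i, LinearMap.range (T i) ≤ LinearMap.ker (T i) := by
    rintro i _ ⟨X, rfl⟩
    rw [LinearMap.mem_ker, hT', hT', map_add, ← ad_mul, hc, ad_one]
    calc X + ad ρ (c i) X + (ad ρ (c i) X + X) =
        (X + X) + (ad ρ (c i) X + ad ρ (c i) X) := by abel
      _ = 0 := by rw [add_self, add_self, add_zero]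
  have hh0 : ∀ i, h0 ρ (c i) = finrank k (LinearMap.ker (T i)) := by
    intro i
    rw [hT]
    rfl
  have hrk : ∀ i, finrank k (LinearMap.range (T i)) = n ^ 2 - h0 ρ (c i) := by
    intro i
    have h1 := LinearMap.finrank_range_add_finrank_ker (T i)
    rw [hh0]
    have h2 : finrank k (Mt n k) = n ^ 2 := by
      rw [Module.finrank_matrix]
      simp [pow_two]
    omega
  have hkq := fun i => quot_dim (T i) (hTT i)
  -- the map H2S → H2
  have hle : Z2S ρ c ≤ Z2 ρ := fun f hf => hf.1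
  have hleB : B2S ρ c ≤ B2 ρ := by
    rintro f ⟨φ, h1, -, -, h2⟩
    exact ⟨φ, h1, h2⟩
  obtain ⟨α, hα⟩ : ∃ α : H2S ρ c →ₗ[k] H2 ρ, ∀ f : Z2S ρ c,
      α (Submodule.Quotient.mk f) = Submodule.Quotient.mk (Submodule.inclusion hle f) := by
    refine ⟨Submodule.mapQ _ _ (Submodule.inclusion hle) ?_, fun f => rfl⟩
    intro f hf
    rw [Submodule.mem_comap] at hf ⊢
    exact hleB hf
  -- the map β
  have hd11 : ∀ φ : G → Mt n k, d1 ρ φ (1, 1) = φ 1 := by
    intro φ
    show ad ρ 1 (φ 1) - φ (1 * 1) + φ 1 = φ 1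
    rw [ad_one, mul_one, sub_self, zero_add]
  have hdcc : ∀ (φ : G → Mt n k) (i : ι), d1 ρ φ (c i, c i) = T i (φ (c i)) - φ 1 := by
    intro φ i
    show ad ρ (c i) (φ (c i)) - φ (c i * c i) + φ (c i) = _
    rw [hc, hT']
    abel
  obtain ⟨β1, hβ1⟩ : ∃ β1 : Z2 ρ →ₗ[k] (∀ i, Mt n k ⧸ LinearMap.range (T i)),
      ∀ (f : Z2 ρ) (i : ι), β1 f i =
        (LinearMap.range (T i)).mkQ (f.1 (c i, c i) - ad ρ (c i) (f.1 (1, 1))) := by
    refine ⟨LinearMap.pi fun i => (LinearMap.range (T i)).mkQ ∘ₗ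
      ((LinearMap.proj (R := k) (φ := fun _ : G × G => Mt n k) (c i, c i)) -
        (ad ρ (c i)) ∘ₗ (LinearMap.proj (R := k) (φ := fun _ : G × G => Mt n k) (1, 1))) ∘ₗ
        (Z2 ρ).subtype, fun f i => rfl⟩
  have hβker : (B2 ρ).comap (Z2 ρ).subtype ≤ LinearMap.ker β1 := by
    intro f hf
    rw [Submodule.mem_comap] at hf
    obtain ⟨φ, -, hφ⟩ := hf
    rw [LinearMap.mem_ker]
    funext i
    rw [hβ1, Pi.zero_apply, Submodule.mkQ_apply, Submodule.Quotient.mk_eq_zero]
    have h1 : f.1 = d1 ρ φ := hφ.symm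
    rw [h1, hdcc, hd11]
    have h2 : T i (φ (c i)) - φ 1 - ad ρ (c i) (φ 1) = T i (φ (c i)) - T i (φ 1) := by
      rw [hT' i (φ 1)]
      abel
    rw [h2, ← map_sub]
    exact LinearMap.mem_range_self _ _
  obtain ⟨β, hβ⟩ : ∃ β : H2 ρ →ₗ[k] (∀ i, Mt n k ⧸ LinearMap.range (T i)),
      ∀ f : Z2 ρ, β (Submodule.Quotient.mk f) = β1 f :=
    ⟨Submodule.liftQ _ β1 hβker, fun f => Submodule.liftQ_apply _ _ _⟩
  -- range α ≤ ker β
  have hαβ : LinearMap.range α ≤ LinearMap.ker β := by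
    rintro _ ⟨x, rfl⟩
    obtain ⟨f, rfl⟩ := Submodule.Quotient.mk_surjective _ x
    rw [hα, LinearMap.mem_ker, hβ]
    funext i
    rw [hβ1, Pi.zero_apply, Submodule.mkQ_apply, Submodule.Quotient.mk_eq_zero]
    have h1 : (Submodule.inclusion hle f).1 = f.1 := rfl
    rw [h1, f.2.2.1, f.2.2.2 i, map_zero, sub_zero]
    exact zero_mem _
  -- the range of β is large
  have hβr : ∑ i, finrank k ((LinearMap.ker (T i)).map (LinearMap.range (T i)).mkQ) ≤
      finrank k (LinearMap.range β) := by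
    have hfree : ∀ i, Module.Free k ((LinearMap.ker (T i)).map (LinearMap.range (T i)).mkQ :
        Submodule k (Mt n k ⧸ LinearMap.range (T i))) := fun i => Module.Free.of_divisionRing k _
    have hfin : ∀ i, Module.Finite k ((LinearMap.ker (T i)).map (LinearMap.range (T i)).mkQ :
        Submodule k (Mt n k ⧸ LinearMap.range (T i))) := fun i => inferInstance
    have hpi := Module.finrank_pi_fintype k
      (M := fun i => ((LinearMap.ker (T i)).map (LinearMap.range (T i)).mkQ :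
        Submodule k (Mt n k ⧸ LinearMap.range (T i))))
    rw [← hpi]
    obtain ⟨J, hJ⟩ : ∃ J : (∀ i, ((LinearMap.ker (T i)).map (LinearMap.range (T i)).mkQ :
        Submodule k (Mt n k ⧸ LinearMap.range (T i)))) →ₗ[k]
          (∀ i, Mt n k ⧸ LinearMap.range (T i)), ∀ v i, J v i = (v i).1 :=
      ⟨LinearMap.pi fun i => (Submodule.subtype _) ∘ₗ LinearMap.proj i, fun v i => rfl⟩
    have hJr : ∀ v, J v ∈ LinearMap.range β := by
      intro v
      have h1 : ∀ i, ∃ m : Mt n k, ad ρ (c i) m = m ∧ (LinearMap.range (T i)).mkQ m = (v i).1 := by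
        intro i
        obtain ⟨m, hm, hm'⟩ := (v i).2
        refine ⟨m, ?_, hm'⟩
        rw [SetLike.mem_coe, LinearMap.mem_ker, hTa, sub_eq_zero] at hm
        exact hm
      choose m hm hm' using h1
      obtain ⟨f, hf, hf1, hfc⟩ := hloc m hm
      refine ⟨Submodule.Quotient.mk ⟨f, hf⟩, ?_⟩
      rw [hβ]
      funext i
      obtain ⟨u, hu⟩ := hfc i
      rw [hβ1, hJ, ← hm']
      show (LinearMap.range (T i)).mkQ (f (c i, c i) - ad ρ (c i) (f (1, 1))) = _
      rw [hf1, map_zero, sub_zero, hu, ← hT', map_add]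
      have h2 : (LinearMap.range (T i)).mkQ (T i u) = 0 := by
        rw [Submodule.mkQ_apply, Submodule.Quotient.mk_eq_zero]
        exact LinearMap.mem_range_self _ _
      rw [h2, add_zero]
    refine LinearMap.finrank_le_finrank_of_injective (f := J.codRestrict (LinearMap.range β) hJr) ?_
    intro v w hvw
    have h1 := congrArg Subtype.val hvw
    funext i
    apply Subtype.ext
    rw [← hJ, ← hJ]
    exact congrFun h1 i
  have hβrk := LinearMap.finrank_range_add_finrank_ker β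
  have hαrk : finrank k (LinearMap.range α) ≤ finrank k (LinearMap.ker β) :=
    Submodule.finrank_mono hαβ
  -- the space E
  obtain ⟨E, hE⟩ : ∃ E : Submodule k (G → Mt n k), ∀ φ, φ ∈ E ↔ IsLocallyConstant φ ∧ d1 ρ φ ∈ Z2S ρ c := by
    refine ⟨{ carrier := {φ | IsLocallyConstant φ ∧ d1 ρ φ ∈ Z2S ρ c}
              add_mem' := ?_
              zero_mem' := ?_
              smul_mem' := ?_ }, fun φ => Iff.rfl⟩
    · rintro φ ψ ⟨h1, h2⟩ ⟨h3, h4⟩
      refine ⟨h1.add h3, ?_⟩
      rw [map_add]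
      exact add_mem h2 h4
    · refine ⟨IsLocallyConstant.const 0, ?_⟩
      rw [map_zero]
      exact zero_mem _
    · rintro a φ ⟨h1, h2⟩
      refine ⟨h1.comp (fun X => a • X), ?_⟩
      rw [map_smul]
      exact Submodule.smul_mem _ a h2
  have hE1 : ∀ φ ∈ E, φ 1 = 0 := by
    intro φ hφ
    have h1 := ((hE φ).1 hφ).2.2.1
    rwa [hd11] at h1
  have hEc : ∀ φ ∈ E, ∀ i, T i (φ (c i)) = 0 := by
    intro φ hφ i
    have h1 := ((hE φ).1 hφ).2.2.2 i
    rwa [hdcc, hE1 φ hφ, sub_zero] at h1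
  obtain ⟨e, he⟩ : ∃ e : E →ₗ[k] (∀ i, LinearMap.ker (T i)), ∀ (φ : E) i, (e φ i).1 = φ.1 (c i) :=
    ⟨LinearMap.pi fun i => LinearMap.codRestrict (LinearMap.ker (T i))
      ((LinearMap.proj (R := k) (φ := fun _ : G => Mt n k) (c i)) ∘ₗ E.subtype)
      (fun φ => by rw [LinearMap.mem_ker]; exact hEc φ.1 φ.2 i), fun φ i => rfl⟩
  obtain ⟨δ1, hδ1⟩ : ∃ δ1 : E →ₗ[k] Z2S ρ c, ∀ φ : E, (δ1 φ).1 = d1 ρ φ.1 :=
    ⟨LinearMap.codRestrict (Z2S ρ c) (d1 ρ ∘ₗ E.subtype) (fun φ => ((hE φ.1).1 φ.2).2),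
      fun φ => rfl⟩
  obtain ⟨δ, hδ⟩ : ∃ δ : E →ₗ[k] H2S ρ c, ∀ φ : E, δ φ = Submodule.Quotient.mk (δ1 φ) :=
    ⟨(Submodule.mkQ _) ∘ₗ δ1, fun φ => rfl⟩
  have hkerE : LinearMap.ker e ≤ LinearMap.ker δ := by
    intro φ hφ
    rw [LinearMap.mem_ker] at hφ ⊢
    rw [hδ, Submodule.Quotient.mk_eq_zero, Submodule.mem_comap]
    refine ⟨φ.1, ((hE φ.1).1 φ.2).1, hE1 φ.1 φ.2, fun i => ?_, (hδ1 φ).symm⟩
    rw [← he, hφ]
    rfl
  -- cocycles
  have hZE : Z1 ρ ≤ E := by
    intro φ hφ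
    rw [hE]
    refine ⟨hφ.1, ?_⟩
    have h1 : d1 ρ φ = 0 := by
      funext p
      show ad ρ p.1 (φ p.2) - φ (p.1 * p.2) + φ p.1 = 0
      rw [hφ.2]
      abel
    rw [h1]
    exact zero_mem _
  have hU : ∀ x ∈ (Z1 ρ).comap E.subtype, δ x = 0 := by
    intro φ hφ
    rw [Submodule.mem_comap] at hφ
    have h1 : d1 ρ φ.1 = 0 := by
      funext p
      show ad ρ p.1 (φ.1 p.2) - φ.1 (p.1 * p.2) + φ.1 p.1 = 0
      have h2 : φ.1 (p.1 * p.2) = φ.1 p.1 + ad ρ p.1 (φ.1 p.2) := hφ.2 p.1 p.2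
      rw [h2]
      abel
    have h2 : δ1 φ = 0 := Subtype.ext (by rw [hδ1, h1]; rfl)
    rw [hδ, h2]
    rfl
  obtain ⟨hδfin, hδrk⟩ := range_bound δ e hkerE ((Z1 ρ).comap E.subtype) hU
  have hkerα : LinearMap.ker α ≤ LinearMap.range δ := by
    intro x hx
    obtain ⟨f, rfl⟩ := Submodule.Quotient.mk_surjective _ x
    rw [LinearMap.mem_ker, hα, Submodule.Quotient.mk_eq_zero, Submodule.mem_comap] at hx
    obtain ⟨φ, hφ1, hφ2⟩ := hx
    have h1 : d1 ρ φ = f.1 := hφ2
    have hφE : φ ∈ E := by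
      rw [hE, h1]
      exact ⟨hφ1, f.2⟩
    refine ⟨⟨φ, hφE⟩, ?_⟩
    rw [hδ]
    congr 1
    apply Subtype.ext
    rw [hδ1, h1]
  -- dimension of the image of the cocycles
  have hZdim : finrank k (((Z1 ρ).comap E.subtype).map e) + finrank k (Z1S ρ c) =
      finrank k (Z1 ρ) := by
    obtain ⟨g, hg⟩ : ∃ g, g = e ∘ₗ Submodule.inclusion hZE := ⟨_, rfl⟩
    have h1 := LinearMap.finrank_range_add_finrank_ker g
    have h2 : LinearMap.range g = ((Z1 ρ).comap E.subtype).map e := by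
      apply le_antisymm
      · rintro _ ⟨φ, rfl⟩
        rw [hg]
        exact ⟨Submodule.inclusion hZE φ, φ.2, rfl⟩
      · rintro _ ⟨φ, hφ, rfl⟩
        refine ⟨⟨φ.1, hφ⟩, ?_⟩
        rw [hg]
        rfl
    have hZle : Z1S ρ c ≤ Z1 ρ := fun φ hφ => hφ.1
    have h3 : LinearMap.ker g = (Z1S ρ c).comap (Z1 ρ).subtype := by
      ext φ
      rw [LinearMap.mem_ker, Submodule.mem_comap, hg]
      constructor
      · intro h
        refine ⟨φ.2, fun i => ?_⟩
        have h4 := congrFun h i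
        have h5 := congrArg Subtype.val h4
        rw [LinearMap.comp_apply, he] at h5
        exact h5
      · rintro ⟨-, h⟩
        funext i
        apply Subtype.ext
        rw [LinearMap.comp_apply, he]
        exact h i
    rw [h2, h3, (Submodule.comapSubtypeEquivOfLe hZle).finrank_eq] at h1
    exact h1
  -- finiteness of H2S
  have hkerfin : Module.Finite k (LinearMap.ker α) :=
    Module.Finite.of_injective (Submodule.inclusion hkerα) (Submodule.inclusion_injective hkerα)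
  have hfin : Module.Finite k (H2S ρ c) := by
    have h1 : Module.Finite k (H2S ρ c ⧸ LinearMap.ker α) :=
      Module.Finite.equiv (LinearMap.quotKerEquivRange α).symm
    exact Module.Finite.of_submodule_quotient (LinearMap.ker α)
  refine ⟨hfin, ?_⟩
  have hrn := LinearMap.finrank_range_add_finrank_ker α
  have hk1 : finrank k (LinearMap.ker α) ≤ finrank k (LinearMap.range δ) :=
    Submodule.finrank_mono hkerα
  rw [Module.finrank_pi_fintype] at hδrk
  have hsum : ∑ i, finrank k (LinearMap.ker (T i)) =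
      ∑ i, finrank k ((LinearMap.ker (T i)).map (LinearMap.range (T i)).mkQ) +
        ∑ i, (n ^ 2 - h0 ρ (c i)) := by
    rw [← Finset.sum_add_distrib]
    refine Finset.sum_congr rfl fun i _ => ?_
    rw [← hrk, hkq]
  rw [hsum] at hδrk
  have hh2 : h2 ρ = finrank k (H2 ρ) := rfl
  rw [hh2]
  omega

end Pool.Agent.Helper3.DB.CNT
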