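import Pool.Agent.Helper3.DB.Stm

/-!
# COR: local surjectivity from quadratic characters, by corestriction (project DB of helper3; this module by helper11)
-/

set_option autoImplicit false

namespace Pool.Agent.Helper3.DB.COR

open IsLocalRing MZ Pool.Agent.Helper3.DB Filter Topology

variable {k : Type} [Field k] {G : Type} [Group G] {n : ℕ}

lemma ad_mul (ρ : G →* GL (Fin n) k) (g h : G) (X : Mt n k) : ad ρ (g * h) X = ad ρ g (ad ρ h X) := by
  simp only [ad, LinearMap.coe_mk, AddHom.coe_mk, map_mul, mul_inv_rev, Units.val_mul, Matrix.mul_assoc]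

lemma ad_one (ρ : G →* GL (Fin n) k) (X : Mt n k) : ad ρ 1 X = X := by
  simp [ad]

lemma ad_congr (ρ : G →* GL (Fin n) k) {g h : G} (e : ρ g = ρ h) (X : Mt n k) : ad ρ g X = ad ρ h X := by
  simp only [ad, LinearMap.coe_mk, AddHom.coe_mk, e]

/-- the additive character with values in `k` -/
def e2 (k : Type) [Field k] [CharP k 2] (z : Multiplicative (ZMod 2)) : k :=
  ZMod.castHom (dvd_refl 2) k (Multiplicative.toAdd z)

lemma e2_mul [CharP k 2] (z w : Multiplicative (ZMod 2)) : e2 k (z * w) = e2 k z + e2 k w := by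
  unfold e2
  rw [toAdd_mul, map_add]

lemma e2_one [CharP k 2] : e2 k 1 = 0 := by
  unfold e2
  rw [toAdd_one, map_zero]

lemma zmod2 : ∀ a : ZMod 2, a ≠ 0 → a = 1 := by decide

lemma e2_ne [CharP k 2] {z : Multiplicative (ZMod 2)} (h : z ≠ 1) : e2 k z = 1 := by
  have h1 : Multiplicative.toAdd z = 1 := zmod2 _ fun h2 => h (by
    rw [← ofAdd_toAdd z, h2, ofAdd_zero])
  unfold e2
  rw [h1, map_one]

lemma lc_of_ker [TopologicalSpace G] [IsTopologicalGroup G] {A : Type*} [Group A] (f : G →* A)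
    (h : IsOpen (f.ker : Set G)) : IsLocallyConstant f := by
  rw [IsLocallyConstant.iff_eventually_eq]
  intro g
  have h2 : Tendsto (fun x => g⁻¹ * x) (𝓝 g) (𝓝 (1 : G)) := by
    have : Continuous fun x : G => g⁻¹ * x := by fun_prop
    have h3 := this.tendsto g
    rwa [inv_mul_cancel] at h3
  filter_upwards [h2.eventually (h.mem_nhds (one_mem f.ker))] with x hx
  have hx' : f (g⁻¹ * x) = 1 := hx
  rw [map_mul, map_inv, inv_mul_eq_one] at hx'
  exact hx'.symm

section Single

variable (H : Subgroup G)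

/-- the representative of a coset -/
noncomputable def r (x : G ⧸ H) : G := Quotient.out x

lemma mk_r (x : G ⧸ H) : ((r H x : G) : G ⧸ H) = x := QuotientGroup.out_eq' x

lemma smul_mk (g : G) (x : G ⧸ H) : g • x = ((g * r H x : G) : G ⧸ H) := by
  conv_lhs => rw [← mk_r H x]
  rfl

lemma kx_mem (g : G) (x : G ⧸ H) : (r H (g • x))⁻¹ * (g * r H x) ∈ H := by
  rw [← QuotientGroup.eq, mk_r, smul_mk]

/-- `g r(x) = r(g x) kx(g, x)` -/
noncomputable def kx (g : G) (x : G ⧸ H) : H := ⟨(r H (g • x))⁻¹ * (g * r H x), kx_mem H g x⟩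

lemma kx_mul (g g' : G) (x : G ⧸ H) : kx H (g * g') x = kx H g (g' • x) * kx H g' x := by
  apply Subtype.ext
  change (r H ((g * g') • x))⁻¹ * (g * g' * r H x) =
    (r H (g • g' • x))⁻¹ * (g * r H (g' • x)) * ((r H (g' • x))⁻¹ * (g' * r H x))
  rw [mul_smul]
  group

lemma kx_one (x : G ⧸ H) : kx H 1 x = 1 := by
  apply Subtype.ext
  change (r H ((1 : G) • x))⁻¹ * (1 * r H x) = 1
  rw [one_smul]
  group

end Single

open Classical in
lemma single [CharP k 2] [TopologicalSpace G] [IsTopologicalGroup G] [CompactSpace G] (ρ : G →* GL (Fin n) k)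
    (hρ : IsOpen (ρ.ker : Set G)) {ι : Type} (c : ι → G) (hc : ∀ i, c i * c i = 1) (i : ι)
    (H : Subgroup G) (hH : ∀ g, g ∈ H ↔ (ρ g = 1 ∨ ρ g = ρ (c i)))
    (χ : H →* Multiplicative (ZMod 2)) (hχ : IsOpen (χ.ker.map H.subtype : Set G))
    (hcj : ∀ j g (h : g * c j * g⁻¹ ∈ H), χ ⟨g * c j * g⁻¹, h⟩ ≠ 1 ↔ (j = i ∧ g ∈ H))
    (m : Mt n k) (hm : ad ρ (c i) m = m) :
    ∃ φ ∈ Z1 ρ, ∀ j, ∃ u, φ (c j) = (if j = i then m else 0) + (ad ρ (c j) u + u) := by
  have hHo : IsOpen (H : Set G) := Subgroup.isOpen_mono (H₁ := ρ.ker) (fun g hg => (hH g).2 (Or.inl hg)) hρ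
  have : Finite (G ⧸ H) := Subgroup.quotient_finite_of_isOpen H hHo
  have : Fintype (G ⧸ H) := Fintype.ofFinite _
  have hfix : ∀ h ∈ H, ad ρ h m = m := by
    intro h hh
    rcases (hH h).1 hh with h1 | h1
    · rw [ad_congr ρ (h := 1) (by rw [h1, map_one]), ad_one]
    · rw [ad_congr ρ h1, hm]
  set mx : G ⧸ H → Mt n k := fun x => ad ρ (r H x) m with hmx
  have hmx1 : ∀ g x, ad ρ g (mx x) = mx (g • x) := by
    intro g x
    have h1 : g * r H x = r H (g • x) * (kx H g x : G) := by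
      change g * r H x = r H (g • x) * ((r H (g • x))⁻¹ * (g * r H x))
      group
    simp only [hmx]
    rw [← ad_mul, h1, ad_mul, hfix _ (kx H g x).2]
  have hmx2 : mx ((1 : G) : G ⧸ H) = m := by
    apply hfix
    have : (((r H ((1 : G) : G ⧸ H)) : G) : G ⧸ H) = ((1 : G) : G ⧸ H) := mk_r H _
    rw [QuotientGroup.eq] at this
    rw [← H.inv_mem_iff]
    simpa using this
  set φ : G → Mt n k := fun g => ∑ x, e2 k (χ (kx H g x)) • mx (g • x) with hφ
  have hcoc : ∀ g h, φ (g * h) = φ g + ad ρ g (φ h) := by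
    intro g h
    have e1 : ∀ x, e2 k (χ (kx H (g * h) x)) • mx ((g * h) • x) =
        e2 k (χ (kx H g (h • x))) • mx (g • (h • x)) + ad ρ g (e2 k (χ (kx H h x)) • mx (h • x)) := by
      intro x
      rw [kx_mul, map_mul, e2_mul, add_smul, map_smul, hmx1, mul_smul]
    simp only [hφ]
    rw [Finset.sum_congr rfl fun x _ => e1 x, Finset.sum_add_distrib, map_sum]
    congr 1
    exact Equiv.sum_comp (MulAction.toPerm h) fun x => e2 k (χ (kx H g x)) • mx (g • x)
  have hφ1 : φ 1 = 0 := by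
    have := hcoc 1 1
    rw [mul_one, ad_one] at this
    simpa using this
  have hlc : IsLocallyConstant φ := by
    rw [IsLocallyConstant.iff_eventually_eq]
    intro g
    have h1 : ∀ᶠ u in 𝓝 (1 : G), ∀ x, (r H x)⁻¹ * u * r H x ∈ (χ.ker.map H.subtype : Set G) := by
      rw [Filter.eventually_all]
      intro x
      have h2 : Tendsto (fun u => (r H x)⁻¹ * u * r H x) (𝓝 (1 : G)) (𝓝 (1 : G)) := by
        have : Continuous fun u : G => (r H x)⁻¹ * u * r H x := by fun_prop
        have h3 := this.tendsto 1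
        rwa [mul_one, inv_mul_cancel] at h3
      exact h2.eventually (hχ.mem_nhds (one_mem (χ.ker.map H.subtype)))
    have h4 : ∀ᶠ u in 𝓝 (1 : G), φ u = 0 := by
      filter_upwards [h1] with u hu
      simp only [hφ]
      refine Finset.sum_eq_zero fun x _ => ?_
      obtain ⟨z, hz, hz'⟩ := hu x
      have hz1 : χ z = 1 := hz
      have hz2 : (z : G) = (r H x)⁻¹ * u * r H x := hz'
      have hux : u • x = x := by
        rw [smul_mk]
        conv_rhs => rw [← mk_r H x]
        symm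
        rw [QuotientGroup.eq, ← mul_assoc, ← hz2]
        exact z.2
      have hk : kx H u x = z := by
        apply Subtype.ext
        change (r H (u • x))⁻¹ * (u * r H x) = z
        rw [hux, hz2]
        group
      rw [hk, hz1, e2_one, zero_smul]
    have h2 : Tendsto (fun x => g⁻¹ * x) (𝓝 g) (𝓝 (1 : G)) := by
      have : Continuous fun x : G => g⁻¹ * x := by fun_prop
      have h3 := this.tendsto g
      rwa [inv_mul_cancel] at h3
    filter_upwards [h2.eventually h4] with x hx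
    have := hcoc g (g⁻¹ * x)
    rw [mul_inv_cancel_left, hx, map_zero, add_zero] at this
    exact this
  refine ⟨φ, ⟨hlc, hcoc⟩, fun j => ?_⟩
  -- the value at `c j`
  set B : Submodule k (Mt n k) := LinearMap.range (ad ρ (c j) + LinearMap.id) with hB
  set F : G ⧸ H → Mt n k := fun x => e2 k (χ (kx H (c j) x)) • mx (c j • x) with hF
  set δ : G ⧸ H → Mt n k := fun x => if j = i ∧ x = ((1 : G) : G ⧸ H) then m else 0 with hδ
  have hcc : ∀ x : G ⧸ H, c j • c j • x = x := by
    intro x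
    rw [← mul_smul, hc, one_smul]
  have hfixed : ∀ x : G ⧸ H, c j • x = x → F x = δ x := by
    intro x hx
    have hmem : (r H x)⁻¹ * c j * (r H x)⁻¹⁻¹ ∈ H := by
      have := kx_mem H (c j) x
      rw [hx] at this
      rwa [inv_inv, mul_assoc]
    have hk : kx H (c j) x = ⟨(r H x)⁻¹ * c j * (r H x)⁻¹⁻¹, hmem⟩ := by
      apply Subtype.ext
      change (r H (c j • x))⁻¹ * (c j * r H x) = (r H x)⁻¹ * c j * (r H x)⁻¹⁻¹
      rw [hx]
      group
    have hbase : (r H x)⁻¹ ∈ H ↔ x = ((1 : G) : G ⧸ H) := by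
      conv_rhs => rw [← mk_r H x]
      rw [QuotientGroup.eq, mul_one]
    have h5 := hcj j (r H x)⁻¹ hmem
    rw [← hk, hbase] at h5
    simp only [hF, hδ]
    by_cases h6 : j = i ∧ x = ((1 : G) : G ⧸ H)
    · rw [if_pos h6, e2_ne (h5.2 h6), one_smul, hx, h6.2, hmx2]
    · rw [if_neg h6]
      have h7 : χ (kx H (c j) x) = 1 := by
        by_contra h8
        exact h6 (h5.1 h8)
      rw [h7, e2_one, zero_smul]
  have hδ0 : ∀ x : G ⧸ H, c j • x ≠ x → δ x = 0 := by
    intro x hx
    simp only [hδ]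
    rw [if_neg]
    rintro ⟨rfl, rfl⟩
    apply hx
    change (((c j * 1 : G)) : G ⧸ H) = ((1 : G) : G ⧸ H)
    rw [QuotientGroup.eq, mul_one, mul_one]
    exact H.inv_mem ((hH _).2 (Or.inr rfl))
  have hpair : ∀ x : G ⧸ H, F x + F (c j • x) ∈ B := by
    intro x
    have h1 : χ (kx H (c j) (c j • x)) * χ (kx H (c j) x) = 1 := by
      rw [← map_mul, ← kx_mul, hc, kx_one, map_one]
    have h2 : e2 k (χ (kx H (c j) (c j • x))) + e2 k (χ (kx H (c j) x)) = 0 := by
      rw [← e2_mul, h1, e2_one]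
    have h3 : e2 k (χ (kx H (c j) (c j • x))) = e2 k (χ (kx H (c j) x)) := by
      have := CharTwo.add_self_eq_zero (e2 k (χ (kx H (c j) x)))
      have h4 := h2.trans this.symm
      exact add_right_cancel h4
    refine ⟨e2 k (χ (kx H (c j) x)) • mx x, ?_⟩
    simp only [hF]
    rw [hcc x, h3, LinearMap.add_apply, map_smul, hmx1]
    rfl
  have hsum : ∑ x, B.mkQ (F x - δ x) = 0 := by
    refine Finset.sum_involution (fun x _ => c j • x) (fun x _ => ?_) (fun x _ hx => ?_)
      (fun x _ => Finset.mem_univ _) (fun x _ => hcc x)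
    · by_cases h : c j • x = x
      · rw [h, hfixed x h, sub_self, map_zero, add_zero]
      · have h' : c j • (c j • x) ≠ c j • x := by
          rw [hcc x]
          exact fun h' => h h'.symm
        rw [hδ0 x h, hδ0 _ h', sub_zero, sub_zero, ← map_add]
        exact (Submodule.Quotient.mk_eq_zero B).2 (hpair x)
    · intro h
      apply hx
      rw [hfixed x h, sub_self, map_zero]
  rw [← map_sum, Finset.sum_sub_distrib] at hsum
  have hsδ : ∑ x, δ x = if j = i then m else 0 := by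
    simp only [hδ]
    by_cases hji : j = i
    · simp only [hji, true_and, if_true]
      rw [Finset.sum_ite_eq' Finset.univ ((1 : G) : G ⧸ H) fun _ => m]
      simp
    · simp only [hji, false_and, if_false]
      exact Finset.sum_const_zero
  rw [hsδ] at hsum
  obtain ⟨u, hu⟩ := (Submodule.Quotient.mk_eq_zero B).1 hsum
  refine ⟨u, ?_⟩
  have hu' : ad ρ (c j) u + u = φ (c j) - if j = i then m else 0 := hu
  rw [hu']
  abel

open Classical in
theorem main : S_COR := by
  intro k _ _ G _ _ _ _ n ρ ι _ c hc hρ H hH ε hε hεc χ hχ hcj m hm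
  choose φ hφ u hu using fun i => single ρ hρ c hc i (H i) (hH i) (χ i) (hχ i) (fun j g h => hcj i j g h) (m i) (hm i)
  set Φ : G → Mt n k := ∑ i, φ i with hΦ
  have hΦ1 : Φ ∈ Z1 ρ := Submodule.sum_mem _ fun i _ => hφ i
  have hΦ2 : ∀ j, ∃ v, Φ (c j) = m j + (ad ρ (c j) v + v) := by
    intro j
    refine ⟨∑ i, u i j, ?_⟩
    simp only [hΦ, Finset.sum_apply]
    rw [Finset.sum_congr rfl fun i _ => hu i j, Finset.sum_add_distrib, Finset.sum_add_distrib, map_sum]
    congr 1
    rw [Finset.sum_ite_eq Finset.univ j m]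
    simp
  have hΦ3 : ∀ j, ad ρ (c j) (Φ (c j)) = Φ (c j) := by
    intro j
    have h0 : Φ 1 = 0 := by
      have := hΦ1.2 1 1
      rw [mul_one, ad_one] at this
      simpa using this
    have h1 := hΦ1.2 (c j) (c j)
    rw [hc, h0] at h1
    have h2 : Φ (c j) + Φ (c j) = 0 := by
      ext a b
      exact CharTwo.add_self_eq_zero _
    exact (add_left_cancel (h1.symm.trans h2.symm))
  refine ⟨fun p => e2 k (ε p.1) • ad ρ p.1 (Φ p.2), ⟨?_, ?_⟩, ?_, ?_⟩
  · have h1 : IsLocallyConstant (fun p : G × G => ε p.1) := (lc_of_ker ε hε).comp_continuous continuous_fst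
    have h2 : IsLocallyConstant (fun p : G × G => ρ p.1) := (lc_of_ker ρ hρ).comp_continuous continuous_fst
    have h3 : IsLocallyConstant (fun p : G × G => Φ p.2) := hΦ1.1.comp_continuous continuous_snd
    exact ((h1.prodMk h2).prodMk h3).comp fun q : (Multiplicative (ZMod 2) × GL (Fin n) k) × Mt n k =>
      e2 k q.1.1 • ((q.1.2 : Mt n k) * q.2 * ((q.1.2)⁻¹ : GL (Fin n) k))
  · intro g h l
    simp only [map_smul]
    rw [map_mul, e2_mul, hΦ1.2 h l, map_add, ← ad_mul]
    module
  · simp only [map_one, e2_one, zero_smul]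
  · intro i
    obtain ⟨v, hv⟩ := hΦ2 i
    refine ⟨v, ?_⟩
    simp only
    rw [e2_ne (hεc i), one_smul, hΦ3, hv]

end Pool.Agent.Helper3.DB.COR
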