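import Pool.Agent.Helper3.DB.Stm2
import Pool.Graph.R_seed8.W178.MZ.K6

/-!
# MP_aa8fd2_nt, project DB, module DEL (helper40): complex conjugations and the formula for `δ`
-/

set_option autoImplicit false

namespace Pool.Agent.Helper3.DB.DEL

open MZ NumberField IsDedekindDomain

/-- the statement `S_DEL` without the injectivity of `c` -/
def S_DEL' : Prop :=
  ∀ (F Ω : Type) [Field F] [NumberField F] [Field Ω] [Algebra F Ω] [IsAlgClosure F Ω]
    (S : Set (HeightOneSpectrum (𝓞 F))),
    (∀ v : HeightOneSpectrum (𝓞 F), (2 : 𝓞 F) ∈ v.asIdeal → v ∈ S) →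
    ∀ (k : Type) [Field k] [CharP k 2] (n : ℕ), Odd n → ∀ (ρ : GFS Ω S →* GL (Fin n) k)
      (w : InfinitePlace F → InfinitePlace (FSmax S : IntermediateField F Ω)),
      (∀ v : InfinitePlace F,
        (w v).comap (algebraMap F (FSmax S : IntermediateField F Ω)) = v) →
      ∃ (c : {v : InfinitePlace F // v.IsReal} → GFS Ω S)
        (φ : {v : InfinitePlace F // v.IsReal} → ((FSmax S : IntermediateField F Ω) →+* ℂ)),
        (∀ v, ComplexEmbedding.IsConj (φ v) (c v)) ∧ (∀ v, c v ≠ 1) ∧ (∀ v, c v * c v = 1) ∧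
        (∀ v, InfinitePlace.mk ((φ v).comp (algebraMap F (FSmax S : IntermediateField F Ω))) = v.1) ∧
        (∀ v g, g ∈ MulAction.stabilizer (GFS Ω S) (w v.1) ↔ g = 1 ∨ g = c v) ∧
        delta S ρ w = 1 + (InfinitePlace.nrComplexPlaces F : ℤ) * (n : ℤ) ^ 2 +
          ∑ᶠ v, ((n : ℤ) ^ 2 - (h0 ρ (c v) : ℤ))

section lin

variable {k : Type} [Field k] [CharP k 2] {G : Type} [Group G] [TopologicalSpace G] {n : ℕ}

theorem odd_cast (hn : Odd n) : (n : k) = 1 := by
  obtain ⟨m, rfl⟩ := hn
  push_cast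
  rw [CharTwo.two_eq_zero, zero_mul, zero_add]

omit [CharP k 2] in
theorem finrank_trace (hn : (n : k) ≠ 0) :
    Module.finrank k (LinearMap.ker (Matrix.traceLinearMap (Fin n) k k)) + 1 = n ^ 2 := by
  have h1 := LinearMap.finrank_range_add_finrank_ker (Matrix.traceLinearMap (Fin n) k k)
  have h2 : LinearMap.range (Matrix.traceLinearMap (Fin n) k k) = ⊤ := by
    rw [LinearMap.range_eq_top]
    intro c
    refine ⟨(c / n) • 1, ?_⟩
    rw [map_smul, Matrix.traceLinearMap_apply, Matrix.trace_one, Fintype.card_fin, smul_eq_mul,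
      div_mul_cancel₀ _ hn]
  rw [h2, finrank_top, Module.finrank_self, Module.finrank_matrix, Module.finrank_self] at h1
  simp only [Fintype.card_fin, mul_one] at h1
  rw [sq]
  omega

omit [CharP k 2] [TopologicalSpace G] in
theorem mem_ker_ad (ρ : G →* GL (Fin n) k) (c : G) (X : Mt n k) :
    X ∈ LinearMap.ker (ad ρ c - LinearMap.id) ↔ (ρ c : Mt n k) * X = X * (ρ c : Mt n k) := by
  rw [LinearMap.mem_ker, LinearMap.sub_apply, LinearMap.id_apply, sub_eq_zero]
  have h1 : ((ρ c)⁻¹ : GL (Fin n) k).val * (ρ c : Mt n k) = 1 := Units.inv_mul _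
  have h2 : (ρ c : Mt n k) * ((ρ c)⁻¹ : GL (Fin n) k).val = 1 := Units.mul_inv _
  constructor
  · intro h
    have h3 : (ρ c : Mt n k) * X * ((ρ c)⁻¹ : GL (Fin n) k).val = X := h
    calc (ρ c : Mt n k) * X = (ρ c : Mt n k) * X * (((ρ c)⁻¹ : GL (Fin n) k).val * (ρ c : Mt n k)) := by
          rw [h1, mul_one]
      _ = (ρ c : Mt n k) * X * ((ρ c)⁻¹ : GL (Fin n) k).val * (ρ c : Mt n k) := by
          rw [mul_assoc ((ρ c : Mt n k) * X)]
      _ = X * (ρ c : Mt n k) := by rw [h3]
  · intro h
    show (ρ c : Mt n k) * X * ((ρ c)⁻¹ : GL (Fin n) k).val = X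
    rw [h, mul_assoc, h2, mul_one]

/-- real places -/
theorem rank_real (hn : (n : k) ≠ 0) (ρ : G →* GL (Fin n) k) (c : G) (D : Subgroup G)
    (hD : ∀ g, g ∈ D ↔ g = 1 ∨ g = c) :
    Module.finrank k (ad0Inv ρ D) + 1 = h0 ρ c := by
  set Z : Submodule k (Mt n k) := LinearMap.ker (ad ρ c - LinearMap.id) with hZ
  have h1 := LinearMap.finrank_range_add_finrank_ker
    ((Matrix.traceLinearMap (Fin n) k k).domRestrict Z)
  have h2 : LinearMap.range ((Matrix.traceLinearMap (Fin n) k k).domRestrict Z) = ⊤ := by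
    rw [LinearMap.range_eq_top]
    intro a
    refine ⟨⟨(a / n) • 1, ?_⟩, ?_⟩
    · rw [hZ, mem_ker_ad]
      simp
    · rw [LinearMap.domRestrict_apply, map_smul, Matrix.traceLinearMap_apply, Matrix.trace_one,
        Fintype.card_fin, smul_eq_mul, div_mul_cancel₀ _ hn]
  rw [h2, finrank_top, Module.finrank_self] at h1
  have h3 : ad0Inv ρ D = (LinearMap.ker ((Matrix.traceLinearMap (Fin n) k k).domRestrict Z)).map
      Z.subtype := by
    ext X
    constructor
    · rintro ⟨hX1, hX2⟩
      have hXZ : X ∈ Z := by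
        rw [hZ, mem_ker_ad]
        exact hX2 c ((hD c).2 (Or.inr rfl))
      exact ⟨⟨X, hXZ⟩, hX1, rfl⟩
    · rintro ⟨Y, hY, rfl⟩
      refine ⟨hY, fun g hg => ?_⟩
      rcases (hD g).1 hg with rfl | rfl
      · simp
      · exact (mem_ker_ad ρ g Y.1).1 Y.2
  rw [h3, Submodule.finrank_map_subtype_eq, add_comm]
  exact h1

omit [CharP k 2] [TopologicalSpace G] in
/-- complex places -/
theorem rank_complex (hn : (n : k) ≠ 0) (ρ : G →* GL (Fin n) k) (D : Subgroup G)
    (hD : ∀ g, g ∈ D → g = 1) :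
    Module.finrank k (ad0Inv ρ D) + 1 = n ^ 2 := by
  rw [← finrank_trace (k := k) hn]
  have : ad0Inv ρ D = LinearMap.ker (Matrix.traceLinearMap (Fin n) k k) := by
    ext X
    constructor
    · rintro ⟨hX1, hX2⟩
      exact hX1
    · intro hX
      refine ⟨hX, fun g hg => ?_⟩
      rw [hD g hg]
      simp
  rw [this]

/-- injectivity of `c` from surjectivity of the localisation -/
theorem inj (hn : Odd n) (ρ : G →* GL (Fin n) k) {ι : Type} (c : ι → G) (h : LocSurj ρ c) :
    Function.Injective c := by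
  classical
  intro i j hij
  by_contra hne
  obtain ⟨f, -, -, hf⟩ := h (fun l => if l = i then 1 else 0) (by
    intro l
    show ad ρ (c l) (if l = i then 1 else 0) = if l = i then 1 else 0
    split_ifs
    · show (ρ (c l) : Mt n k) * 1 * ((ρ (c l))⁻¹ : GL (Fin n) k).val = 1
      rw [mul_one]
      exact Units.mul_inv _
    · exact map_zero _)
  have htr : ∀ (g : G) (u : Mt n k), Matrix.trace (ad ρ g u + u) = 0 := by
    intro g u
    have h1 : Matrix.trace (ad ρ g u) = Matrix.trace u := by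
      show Matrix.trace ((ρ g : Mt n k) * u * ((ρ g)⁻¹ : GL (Fin n) k).val) = _
      rw [Matrix.trace_mul_comm, ← mul_assoc]
      have : ((ρ g)⁻¹ : GL (Fin n) k).val * (ρ g : Mt n k) = 1 := Units.inv_mul _
      rw [this, one_mul]
    rw [Matrix.trace_add, h1, CharTwo.add_self_eq_zero]
  obtain ⟨u, hu⟩ := hf i
  obtain ⟨u', hu'⟩ := hf j
  have e1 := congrArg Matrix.trace hu
  have e2 := congrArg Matrix.trace hu'
  rw [Matrix.trace_add, htr, add_zero] at e1 e2
  simp only [if_true] at e1
  rw [if_neg (Ne.symm hne), Matrix.trace_zero, ← hij, e1, Matrix.trace_one, Fintype.card_fin,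
    odd_cast hn] at e2
  exact one_ne_zero e2

end lin

section fld

variable {F Ω : Type} [Field F] [NumberField F] [Field Ω] [Algebra F Ω] [IsAlgClosure F Ω]

/-- `√-1 ∈ F_S` -/
theorem exists_I (S : Set (HeightOneSpectrum (𝓞 F)))
    (hS : ∀ v : HeightOneSpectrum (𝓞 F), (2 : 𝓞 F) ∈ v.asIdeal → v ∈ S) :
    ∃ x : (FSmax S : IntermediateField F Ω), x ^ 2 = -1 := by
  have hac : IsAlgClosed Ω := IsAlgClosure.isAlgClosed F
  obtain ⟨i, hi⟩ := IsAlgClosed.exists_pow_nat_eq (-1 : Ω) (n := 2) (by norm_num)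
  set E := IntermediateField.adjoin F {i} with hE
  have hint : IsIntegral F i := by
    refine IsIntegral.of_pow (n := 2) (by norm_num) ?_
    rw [hi]
    exact isIntegral_one.neg
  have hfd : FiniteDimensional F E := IntermediateField.adjoin.finiteDimensional hint
  have hnf : NumberField E := NumberField.of_module_finite F E
  have hiE : i ∈ E := IntermediateField.mem_adjoin_simple_self F i
  have hun : UnramifiedOutside S E := by
    intro w hw
    have h2 : (2 : 𝓞 E) ∉ w.asIdeal := by
      intro h2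
      have hprime : (w.asIdeal.comap (algebraMap (𝓞 F) (𝓞 E))).IsPrime := Ideal.comap_isPrime _ _
      have h2' : (2 : 𝓞 F) ∈ w.asIdeal.comap (algebraMap (𝓞 F) (𝓞 E)) := by
        rw [Ideal.mem_comap, map_ofNat]
        exact h2
      have hne : w.asIdeal.comap (algebraMap (𝓞 F) (𝓞 E)) ≠ ⊥ := by
        intro h0
        rw [h0, Ideal.mem_bot] at h2'
        exact two_ne_zero h2'
      exact hw ⟨_, hprime, hne⟩ (hS ⟨_, hprime, hne⟩ h2') rfl
    refine Pool.Agent.W178.MZK.unram_sqrt (M := F) (E := E) ⟨i, hiE⟩ (-1) (by norm_num) ?_ 0 ?_ ?_ ?_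
      w h2
    · apply Subtype.ext
      show i ^ 2 = _
      rw [hi]
      simp
    · rw [pow_zero, one_mul]
      exact isIntegral_one.neg
    · rw [pow_zero, one_mul, inv_neg, inv_one]
      exact isIntegral_one.neg
    · have h3 := IntermediateField.adjoin_simple_toSubalgebra_of_isAlgebraic
        (hint.isAlgebraic)
      have h4 : (Algebra.adjoin F {(⟨i, hiE⟩ : E)}).map (IntermediateField.val E) =
          (⊤ : Subalgebra F E).map (IntermediateField.val E) := by
        rw [← Algebra.adjoin_image, Set.image_singleton]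
        show Algebra.adjoin F {i} = _
        rw [← h3]
        ext x
        constructor
        · intro hx
          exact ⟨⟨x, hx⟩, trivial, rfl⟩
        · rintro ⟨y, -, rfl⟩
          exact y.2
      exact Subalgebra.map_injective Subtype.val_injective h4
  have hle : E ≤ FSmax S :=
    le_iSup (fun K : {K : IntermediateField F Ω //
      FiniteDimensional F K ∧ UnramifiedOutside S K} => K.1) ⟨E, hfd, hun⟩
  exact ⟨⟨i, hle hiE⟩, Subtype.ext hi⟩

theorem not_real {E : Type} [Field E] {x : E} (hx : x ^ 2 = -1) (φ : E →+* ℂ) :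
    ¬ ComplexEmbedding.IsReal φ := by
  intro h
  have h1 : (starRingEnd ℂ) (φ x) = φ x := RingHom.congr_fun h x
  obtain ⟨r, hr⟩ := Complex.conj_eq_iff_real.1 h1
  have h2 : (φ x) ^ 2 = -1 := by rw [← map_pow, hx, map_neg, map_one]
  rw [hr] at h2
  have h3 : r ^ 2 = -1 := by exact_mod_cast h2
  nlinarith [sq_nonneg r]

end fld

theorem main : S_DEL' := by
  classical
  intro F Ω _ _ _ _ _ S hS k _ _ n hn ρ w hw
  have hgal : IsGalois F (FSmax S : IntermediateField F Ω) := Pool.Agent.W178.MZK.K7 F Ω S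
  obtain ⟨x, hx⟩ := exists_I (F := F) (Ω := Ω) S hS
  have hn1 : (n : k) ≠ 0 := by rw [odd_cast hn]; exact one_ne_zero
  have hmk : ∀ v : InfinitePlace F, InfinitePlace.mk
      ((w v).embedding.comp (algebraMap F (FSmax S : IntermediateField F Ω))) = v := by
    intro v
    rw [← InfinitePlace.comap_mk, InfinitePlace.mk_embedding, hw]
  have hc : ∀ v : {v : InfinitePlace F // v.IsReal}, ∃ c : GFS Ω S,
      ComplexEmbedding.IsConj (w v.1).embedding c := by
    intro v
    refine InfinitePlace.exists_isConj_of_isRamified ?_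
    rw [InfinitePlace.isRamified_iff, InfinitePlace.mk_embedding, hw]
    refine ⟨?_, v.2⟩
    rw [← InfinitePlace.not_isReal_iff_isComplex, ← InfinitePlace.mk_embedding (w v.1),
      InfinitePlace.isReal_mk_iff]
    exact not_real hx _
  choose c hc using hc
  have hc1 : ∀ v, c v ≠ 1 := by
    intro v h1
    have h2 := hc v
    rw [h1, ComplexEmbedding.isConj_one_iff] at h2
    exact not_real hx _ h2
  have hcc : ∀ v, c v * c v = 1 := by
    intro v
    apply AlgEquiv.ext
    intro y
    apply (w v.1).embedding.injective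
    show (w v.1).embedding (c v (c v y)) = (w v.1).embedding y
    rw [(hc v).eq, (hc v).eq, star_star]
  have hstab : ∀ v g, g ∈ MulAction.stabilizer (GFS Ω S) (w v.1) ↔ g = 1 ∨ g = c v := by
    intro v g
    conv_lhs => rw [← InfinitePlace.mk_embedding (w v.1)]
    rw [InfinitePlace.mem_stabilizer_mk_iff]
    refine or_congr Iff.rfl ⟨fun h => h.ext (hc v), fun h => h ▸ hc v⟩
  have hstab' : ∀ v : InfinitePlace F, ¬ v.IsReal →
      ∀ g, g ∈ MulAction.stabilizer (GFS Ω S) (w v) → g = 1 := by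
    intro v hv g hg
    rw [← InfinitePlace.mk_embedding (w v), InfinitePlace.mem_stabilizer_mk_iff] at hg
    rcases hg with h | h
    · exact h
    · exfalso
      apply hv
      have h1 := h.isReal_comp
      rw [← InfinitePlace.isReal_mk_iff, hmk] at h1
      exact h1
  refine ⟨c, fun v => (w v.1).embedding, hc, hc1, hcc, fun v => hmk v.1, hstab, ?_⟩
  have hreal : ∀ v : {v : InfinitePlace F // v.IsReal},
      (Module.finrank k (ad0Inv ρ (MulAction.stabilizer (GFS Ω S) (w v.1))) : ℤ) =
        (h0 ρ (c v) : ℤ) - 1 := by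
    intro v
    have := rank_real hn1 ρ (c v) _ (hstab v)
    omega
  have hcplx : ∀ v : {v : InfinitePlace F // ¬ v.IsReal},
      (Module.finrank k (ad0Inv ρ (MulAction.stabilizer (GFS Ω S) (w v.1))) : ℤ) =
        (n : ℤ) ^ 2 - 1 := by
    intro v
    have := rank_complex hn1 ρ _ (hstab' v.1 v.2)
    have h2 : ((Module.finrank k (ad0Inv ρ (MulAction.stabilizer (GFS Ω S) (w v.1))) + 1 : ℕ) : ℤ) =
      ((n ^ 2 : ℕ) : ℤ) := by rw [this]
    push_cast at h2
    linarith
  have hcardC : Fintype.card {v : InfinitePlace F // ¬ v.IsReal} =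
      InfinitePlace.nrComplexPlaces F := by
    unfold InfinitePlace.nrComplexPlaces
    exact Fintype.card_congr (Equiv.subtypeEquivRight fun v => InfinitePlace.not_isReal_iff_isComplex)
  have hrank := InfinitePlace.card_add_two_mul_card_eq_rank F
  unfold delta
  rw [← Fintype.sum_subtype_add_sum_subtype (fun v : InfinitePlace F => v.IsReal),
    Finset.sum_congr rfl fun v _ => hreal v, Finset.sum_congr rfl fun v _ => hcplx v,
    Finset.sum_const, Finset.card_univ, hcardC, finsum_eq_sum_of_fintype, Finset.sum_sub_distrib,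
    Finset.sum_sub_distrib, Finset.sum_const, Finset.sum_const, Finset.card_univ, ← hrank]
  have hcardR : Fintype.card {v : InfinitePlace F // v.IsReal} =
      InfinitePlace.nrRealPlaces F := by
    unfold InfinitePlace.nrRealPlaces
    convert rfl
  rw [hcardR]
  simp only [nsmul_eq_mul]
  push_cast
  ring

end Pool.Agent.Helper3.DB.DEL
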