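import Pool.Graph.R_seed8.W566.MZ.Defs

/-!
# Deformation rings and involutions in characteristic 2: definitions (MP_aa8fd2_nt)

`G` is a (profinite) group, `ρ : G →* GL_n(k)` a residual representation. Continuous cochains with values in
`Ad ρ = M_n(k)` are locally constant functions.
-/

set_option autoImplicit false

namespace Pool.Agent.Helper3.DB

open IsLocalRing MZ

/-- `n × n` matrices -/
abbrev Mt (n : ℕ) (A : Type) : Type := Matrix (Fin n) (Fin n) A

section Coh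

variable {k : Type} [Field k] {G : Type} [Group G] [TopologicalSpace G] {n : ℕ}

/-- the adjoint action `X ↦ ρ(g) X ρ(g)⁻¹` on `Ad ρ = M_n(k)` -/
def ad (ρ : G →* GL (Fin n) k) (g : G) : Mt n k →ₗ[k] Mt n k where
  toFun X := (ρ g : Mt n k) * X * ((ρ g)⁻¹ : GL (Fin n) k)
  map_add' X Y := by rw [mul_add, add_mul]
  map_smul' a X := by simp [Matrix.mul_smul, Matrix.smul_mul]

/-- continuous 1-cocycles of `G` in `Ad ρ` -/
def Z1 (ρ : G →* GL (Fin n) k) : Submodule k (G → Mt n k) where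
  carrier := {φ | IsLocallyConstant φ ∧ ∀ g h, φ (g * h) = φ g + ad ρ g (φ h)}
  add_mem' := by
    rintro φ ψ ⟨h1, h2⟩ ⟨h3, h4⟩
    refine ⟨h1.add h3, fun g h => ?_⟩
    simp only [Pi.add_apply, h2 g h, h4 g h, map_add]
    abel
  zero_mem' := ⟨IsLocallyConstant.const 0, fun g h => by simp⟩
  smul_mem' := by
    rintro a φ ⟨h1, h2⟩
    refine ⟨h1.comp (fun X => a • X), fun g h => ?_⟩
    simp only [Pi.smul_apply, h2 g h, smul_add, map_smul]

/-- the coboundary of `X ∈ Ad ρ` : `g ↦ g X - X` -/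
def d0 (ρ : G →* GL (Fin n) k) : Mt n k →ₗ[k] (G → Mt n k) where
  toFun X g := ad ρ g X - X
  map_add' X Y := by funext g; simp only [map_add, Pi.add_apply]; abel
  map_smul' a X := by funext g; simp [smul_sub]

/-- `H¹(G, Ad ρ)` -/
abbrev H1 (ρ : G →* GL (Fin n) k) : Type :=
  (Z1 ρ) ⧸ (LinearMap.range (d0 ρ)).comap (Z1 ρ).subtype

/-- `h¹ = dim H¹(G, Ad ρ)` -/
noncomputable def h1 (ρ : G →* GL (Fin n) k) : ℕ := Module.finrank k (H1 ρ)

/-- the coboundary of a 1-cochain -/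
def d1 (ρ : G →* GL (Fin n) k) : (G → Mt n k) →ₗ[k] (G × G → Mt n k) where
  toFun φ p := ad ρ p.1 (φ p.2) - φ (p.1 * p.2) + φ p.1
  map_add' φ ψ := by funext p; simp only [Pi.add_apply, map_add]; abel
  map_smul' a φ := by funext p; simp [smul_sub, smul_add]

/-- continuous 2-cocycles of `G` in `Ad ρ` -/
def Z2 (ρ : G →* GL (Fin n) k) : Submodule k (G × G → Mt n k) where
  carrier := {f | IsLocallyConstant f ∧
    ∀ g h l, ad ρ g (f (h, l)) - f (g * h, l) + f (g, h * l) - f (g, h) = 0}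
  add_mem' := by
    rintro φ ψ ⟨h1, h2⟩ ⟨h3, h4⟩
    refine ⟨h1.add h3, fun g h l => ?_⟩
    have e1 := h2 g h l
    have e2 := h4 g h l
    simp only [Pi.add_apply, map_add]
    calc _ = (ad ρ g (φ (h, l)) - φ (g * h, l) + φ (g, h * l) - φ (g, h)) +
        (ad ρ g (ψ (h, l)) - ψ (g * h, l) + ψ (g, h * l) - ψ (g, h)) := by abel
      _ = 0 := by rw [e1, e2, add_zero]
  zero_mem' := ⟨IsLocallyConstant.const 0, fun g h l => by simp⟩
  smul_mem' := by
    rintro a φ ⟨h1, h2⟩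
    refine ⟨h1.comp (fun X => a • X), fun g h l => ?_⟩
    simp only [Pi.smul_apply, map_smul, ← smul_add, ← smul_sub, h2 g h l, smul_zero]

/-- continuous 2-coboundaries -/
def B2 (ρ : G →* GL (Fin n) k) : Submodule k (G × G → Mt n k) where
  carrier := {f | ∃ φ : G → Mt n k, IsLocallyConstant φ ∧ d1 ρ φ = f}
  add_mem' := by
    rintro _ _ ⟨φ, h1, rfl⟩ ⟨ψ, h2, rfl⟩
    exact ⟨φ + ψ, h1.add h2, map_add _ _ _⟩
  zero_mem' := ⟨0, IsLocallyConstant.const 0, map_zero _⟩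
  smul_mem' := by
    rintro a _ ⟨φ, h1, rfl⟩
    exact ⟨a • φ, h1.comp (fun X => a • X), map_smul _ _ _⟩

/-- `H²(G, Ad ρ)` -/
abbrev H2 (ρ : G →* GL (Fin n) k) : Type := (Z2 ρ) ⧸ (B2 ρ).comap (Z2 ρ).subtype

/-- `h² = dim H²(G, Ad ρ)` -/
noncomputable def h2 (ρ : G →* GL (Fin n) k) : ℕ := Module.finrank k (H2 ρ)

/-- `dim H⁰(⟨c⟩, Ad ρ)`, the dimension of the centraliser of `ρ(c)` -/
noncomputable def h0 (ρ : G →* GL (Fin n) k) (c : G) : ℕ :=
  Module.finrank k (LinearMap.ker (ad ρ c - LinearMap.id))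

/-- The restriction map `H²(G, Ad ρ) → ⨁ H²(⟨c_i⟩, Ad ρ)` is surjective, for involutions `c_i` and `k` of
characteristic 2. Here `H²(⟨c⟩, M) = M^c / (1 + c) M` by `f ↦ f(c, c)` for the cocycles with `f(1, 1) = 0`
(every class contains one). -/
def LocSurj (ρ : G →* GL (Fin n) k) {ι : Type} (c : ι → G) : Prop :=
  ∀ m : ι → Mt n k, (∀ i, ad ρ (c i) (m i) = m i) →
    ∃ f ∈ Z2 ρ, f (1, 1) = 0 ∧ ∀ i, ∃ u : Mt n k, f (c i, c i) = m i + (ad ρ (c i) u + u)

/-- 1-cocycles vanishing at all `c_i` -/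
def Z1S (ρ : G →* GL (Fin n) k) {ι : Type} (c : ι → G) : Submodule k (G → Mt n k) where
  carrier := {φ | φ ∈ Z1 ρ ∧ ∀ i, φ (c i) = 0}
  add_mem' := by
    rintro φ ψ ⟨h1, h2⟩ ⟨h3, h4⟩
    exact ⟨add_mem h1 h3, fun i => by simp [h2 i, h4 i]⟩
  zero_mem' := ⟨zero_mem _, fun i => rfl⟩
  smul_mem' := by
    rintro a φ ⟨h1, h2⟩
    exact ⟨Submodule.smul_mem _ a h1, fun i => by simp [h2 i]⟩

/-- 2-cocycles `f` with `f(1,1) = 0` and `f(c_i, c_i) = 0` -/
def Z2S (ρ : G →* GL (Fin n) k) {ι : Type} (c : ι → G) : Submodule k (G × G → Mt n k) where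
  carrier := {f | f ∈ Z2 ρ ∧ f (1, 1) = 0 ∧ ∀ i, f (c i, c i) = 0}
  add_mem' := by
    rintro φ ψ ⟨h1, h2, h3⟩ ⟨h4, h5, h6⟩
    exact ⟨add_mem h1 h4, by simp [h2, h5], fun i => by simp [h3 i, h6 i]⟩
  zero_mem' := ⟨zero_mem _, rfl, fun i => rfl⟩
  smul_mem' := by
    rintro a φ ⟨h1, h2, h3⟩
    exact ⟨Submodule.smul_mem _ a h1, by simp [h2], fun i => by simp [h3 i]⟩

/-- coboundaries of the cochains vanishing at `1` and at all `c_i` -/
def B2S (ρ : G →* GL (Fin n) k) {ι : Type} (c : ι → G) : Submodule k (G × G → Mt n k) where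
  carrier := {f | ∃ φ : G → Mt n k, IsLocallyConstant φ ∧ φ 1 = 0 ∧ (∀ i, φ (c i) = 0) ∧ d1 ρ φ = f}
  add_mem' := by
    rintro _ _ ⟨φ, h1, h2, h3, rfl⟩ ⟨ψ, h4, h5, h6, rfl⟩
    exact ⟨φ + ψ, h1.add h4, by simp [h2, h5], fun i => by simp [h3 i, h6 i], map_add _ _ _⟩
  zero_mem' := ⟨0, IsLocallyConstant.const 0, rfl, fun i => rfl, map_zero _⟩
  smul_mem' := by
    rintro a _ ⟨φ, h1, h2, h3, rfl⟩
    exact ⟨a • φ, h1.comp (fun X => a • X), by simp [h2], fun i => by simp [h3 i], map_smul _ _ _⟩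

/-- the relative group `H²(G, {c_i} ; Ad ρ)` -/
abbrev H2S (ρ : G →* GL (Fin n) k) {ι : Type} (c : ι → G) : Type :=
  (Z2S ρ c) ⧸ (B2S ρ c).comap (Z2S ρ c).subtype

end Coh

section Rings

/-- the residue field of the `k`-algebra `T` is `k` -/
def ResK (k T : Type) [Field k] [CommRing T] [IsLocalRing T] [Algebra k T] : Prop :=
  ∀ t : T, ∃ a : k, t - algebraMap k T a ∈ maximalIdeal T

variable {k : Type} [Field k] {G : Type} [Group G] [TopologicalSpace G] {n : ℕ}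

/-- `γ` is a continuous lift of `ρ` to `GL_n(T/J)` (written as a map to `M_n(T)`, everything modulo `J`) with
`γ(c_i) = C_i`. -/
structure PL {T : Type} [CommRing T] [IsLocalRing T] [Algebra k T] (ρ : G →* GL (Fin n) k)
    {ι : Type} (c : ι → G) (C : ι → Mt n T) (J : Ideal T) (γ : G → Mt n T) : Prop where
  mul : ∀ g h a b, (γ (g * h) - γ g * γ h) a b ∈ J
  one : ∀ a b, (γ 1 - 1) a b ∈ J
  res : ∀ g a b, (γ g - (ρ g : Mt n k).map (algebraMap k T)) a b ∈ maximalIdeal T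
  cont : ∀ j : ℕ, IsOpen {g : G | ∀ a b, (γ g - 1) a b ∈ maximalIdeal T ^ j ⊔ J}
  val : ∀ i a b, (γ (c i) - C i) a b ∈ J

/-- the ideal generated by the entries of `C_i - A_i` -/
def entI {T : Type} [CommRing T] [Algebra k T] {ι : Type} (A : ι → Mt n k) (C : ι → Mt n T) : Ideal T :=
  Ideal.span (Set.range fun q : ι × Fin n × Fin n =>
    (C q.1 - (A q.1).map (algebraMap k T)) q.2.1 q.2.2)

/-- `T` is generated over `k` by the entries of the involutions `C_i` (lifting `A_i`) and by `x_1, …, x_z` -/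
structure Good {T : Type} [CommRing T] [IsLocalRing T] [Algebra k T] {ι : Type} {z : ℕ}
    (A : ι → Mt n k) (C : ι → Mt n T) (x : Fin z → T) : Prop where
  resk : ResK k T
  sq : ∀ i, C i * C i = 1
  ent : entI A C ≤ maximalIdeal T
  xm : ∀ j, x j ∈ maximalIdeal T
  gen : maximalIdeal T ≤ entI A C ⊔ Ideal.span (Set.range x)

/-- the power series ring in the entries of the matrices `X_i` and in `x_1, …, x_z` -/
abbrev PSR (k : Type) [Field k] (n : ℕ) (ι : Type) (z : ℕ) : Type :=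
  MvPowerSeries ((ι × Fin n × Fin n) ⊕ Fin z) k

/-- the matrix of variables `X_i` -/
noncomputable def Xm (k : Type) [Field k] (n : ℕ) (ι : Type) (z : ℕ) (i : ι) : Mt n (PSR k n ι z) :=
  fun a b => MvPowerSeries.X (Sum.inl (i, a, b))

/-- the relations `(A_i + X_i)² = 1` -/
noncomputable def relI {ι : Type} (z : ℕ) (A : ι → Mt n k) : Ideal (PSR k n ι z) :=
  Ideal.span (Set.range fun q : ι × Fin n × Fin n =>
    (((A q.1).map (algebraMap k (PSR k n ι z)) + Xm k n ι z q.1) *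
      ((A q.1).map (algebraMap k (PSR k n ι z)) + Xm k n ι z q.1) - 1) q.2.1 q.2.2)

/-- `k[[X_i, x]] / ((A_i + X_i)² = 1)` -/
abbrev TT {ι : Type} (z : ℕ) (A : ι → Mt n k) : Type := PSR k n ι z ⧸ relI z A

/-- `C_i = A_i + X_i` in `TT` -/
noncomputable def CC {ι : Type} (z : ℕ) (A : ι → Mt n k) (i : ι) : Mt n (TT z A) :=
  ((A i).map (algebraMap k (PSR k n ι z)) + Xm k n ι z i).map (Ideal.Quotient.mk (relI z A))

/-- the variables `x_j` in `TT` -/
noncomputable def xx {ι : Type} (z : ℕ) (A : ι → Mt n k) (j : Fin z) : TT z A :=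
  Ideal.Quotient.mk (relI z A) (MvPowerSeries.X (Sum.inr j))

end Rings

end Pool.Agent.Helper3.DB
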