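import Pool.Agent.Helper3.DB.Stm

/-!
Module FI1: the universal property applied to a lift modulo `J`.
-/

set_option autoImplicit false

namespace Pool.Agent.Helper3.DB.FI1

open IsLocalRing MZ

/-- quotients of precomplete modules are precomplete -/
theorem precomplete_of_surj {R M N : Type} [CommRing R] [AddCommGroup M] [AddCommGroup N] [Module R M]
    [Module R N] (I : Ideal R) (f : M →ₗ[R] N) (hf : Function.Surjective f) [IsPrecomplete I M] :
    IsPrecomplete I N := by
  rw [← AdicCompletion.of_surjective_iff]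
  intro x
  obtain ⟨y, rfl⟩ := AdicCompletion.map_surjective I hf x
  obtain ⟨m, rfl⟩ := AdicCompletion.of_surjective I M y
  exact ⟨f m, by rw [AdicCompletion.map_of]⟩

section ring

variable {T : Type} [CommRing T] [IsLocalRing T] {J : Ideal T}

lemma loc (hJ : J ≤ maximalIdeal T) : IsLocalRing (T ⧸ J) := by
  have hne : J ≠ ⊤ := fun h => (maximalIdeal.isMaximal T).ne_top (top_le_iff.mp (h ▸ hJ))
  have hnt : Nontrivial (T ⧸ J) := Ideal.Quotient.nontrivial_iff.mpr hne
  exact IsLocalRing.of_surjective' (Ideal.Quotient.mk J) Ideal.Quotient.mk_surjective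

lemma mk_mem (hJ : J ≤ maximalIdeal T) (t : T) :
    letI := loc hJ
    Ideal.Quotient.mk J t ∈ maximalIdeal (T ⧸ J) ↔ t ∈ maximalIdeal T := by
  let := loc hJ
  constructor
  · intro h
    by_contra hf
    have hu : IsUnit t := by
      by_contra h
      exact hf ((mem_maximalIdeal _).mpr h)
    exact (mem_nonunits_iff.mp ((mem_maximalIdeal _).mp h)) (hu.map _)
  · intro ht
    rw [mem_maximalIdeal, mem_nonunits_iff]
    intro hu
    obtain ⟨u, hu⟩ := hu.exists_right_inv
    obtain ⟨g, rfl⟩ := Ideal.Quotient.mk_surjective u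
    rw [← map_mul, ← map_one (Ideal.Quotient.mk J), Ideal.Quotient.eq] at hu
    have h1 := hJ hu
    have h2 : (1 : T) ∈ maximalIdeal T := by
      have h3 := (maximalIdeal T).sub_mem ((maximalIdeal T).mul_mem_right g ht) h1
      rwa [sub_sub_cancel] at h3
    exact (Ideal.ne_top_iff_one _).1 (maximalIdeal.isMaximal T).ne_top h2

lemma max_eq (hJ : J ≤ maximalIdeal T) :
    letI := loc hJ
    maximalIdeal (T ⧸ J) = (maximalIdeal T).map (Ideal.Quotient.mk J) := by
  let := loc hJ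
  apply le_antisymm
  · intro t ht
    obtain ⟨f, rfl⟩ := Ideal.Quotient.mk_surjective t
    exact Ideal.mem_map_of_mem _ ((mk_mem hJ f).1 ht)
  · rw [Ideal.map_le_iff_le_comap]
    intro f hf
    exact (mk_mem hJ f).2 hf

lemma compl [IsNoetherianRing T] [IsAdicComplete (maximalIdeal T) T] (hJ : J ≤ maximalIdeal T) :
    letI := loc hJ
    IsAdicComplete (maximalIdeal (T ⧸ J)) (T ⧸ J) := by
  let := loc hJ
  have hP : IsPrecomplete (maximalIdeal T) (T ⧸ J) :=
    precomplete_of_surj _ (Submodule.mkQ J) (Submodule.mkQ_surjective _)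
  have hP' : IsPrecomplete (maximalIdeal (T ⧸ J)) (T ⧸ J) := by
    rw [max_eq hJ]
    exact (IsPrecomplete.map_algebraMap_iff (I := maximalIdeal T) (S := T ⧸ J)
      (M := T ⧸ J)).mpr hP
  have hN : IsNoetherianRing (T ⧸ J) := inferInstance
  exact { toIsHausdorff := inferInstance, toIsPrecomplete := hP' }

variable {k : Type} [Field k] [Algebra k T]

lemma exists_res (hres : ResK k T) (hJ : J ≤ maximalIdeal T) :
    ∃ r : (T ⧸ J) →+* k, ∀ (t : T) (a : k), r (Ideal.Quotient.mk J t) = a ↔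
      t - algebraMap k T a ∈ maximalIdeal T := by
  have hb : Function.Bijective (algebraMap k (T ⧸ maximalIdeal T)) := by
    constructor
    · have : Nontrivial (T ⧸ maximalIdeal T) :=
        Ideal.Quotient.nontrivial_iff.mpr (maximalIdeal.isMaximal T).ne_top
      exact (algebraMap k (T ⧸ maximalIdeal T)).injective
    · intro x
      obtain ⟨t, rfl⟩ := Ideal.Quotient.mk_surjective x
      obtain ⟨a, ha⟩ := hres t
      exact ⟨a, (Ideal.Quotient.eq.2 ha).symm⟩
  let e := RingEquiv.ofBijective (algebraMap k (T ⧸ maximalIdeal T)) hb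
  refine ⟨(e.symm : (T ⧸ maximalIdeal T) →+* k).comp (Ideal.Quotient.factor hJ), fun t a => ?_⟩
  have h1 : ((e.symm : (T ⧸ maximalIdeal T) →+* k).comp (Ideal.Quotient.factor hJ))
      (Ideal.Quotient.mk J t) = e.symm (Ideal.Quotient.mk (maximalIdeal T) t) := rfl
  rw [h1, RingEquiv.symm_apply_eq, ← Ideal.Quotient.eq]
  exact Iff.rfl

end ring

/-- the object `T ⧸ J` -/
noncomputable def obj (p : ℕ) [Fact p.Prime] (k : Type) [Field k] [CharP k p] (T : Type)
    [CommRing T] [IsLocalRing T] [IsNoetherianRing T] [IsAdicComplete (maximalIdeal T) T]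
    [Algebra k T] (J : Ideal T) (hJ : J ≤ maximalIdeal T) (r : (T ⧸ J) →+* k)
    (hr : ∀ (t : T) (a : k), r (Ideal.Quotient.mk J t) = a ↔
      t - algebraMap k T a ∈ maximalIdeal T) : CNL p k :=
  letI := loc hJ
  letI := compl hJ
  { A := T ⧸ J
    alg := ((algebraMap k (T ⧸ J)).comp WittVector.constantCoeff).toAlgebra
    res := r
    res_surj := fun a => ⟨Ideal.Quotient.mk J (algebraMap k T a), (hr _ _).2 (by
      rw [sub_self]; exact zero_mem _)⟩
    res_coeff := fun w => (hr (algebraMap k T (w.coeff 0)) (w.coeff 0)).2 (by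
      rw [sub_self]; exact zero_mem _) }

theorem main : S_FI1 := by
  intro p _ k _ _ _ T _ _ _ _ _ hres G _ _ n ρ J γ hJ hmul hone hrs hop R ρu hU
  obtain ⟨r, hr⟩ := exists_res hres hJ
  have hlocB := loc hJ
  let B : CNL p k := obj p k T J hJ r hr
  let q : T →+* T ⧸ J := Ideal.Quotient.mk J
  -- the representation modulo `J`
  let Mh : G →* Mt (n + 1) (T ⧸ J) :=
    { toFun := fun g => q.mapMatrix (γ g)
      map_one' := by
        rw [← map_one (q.mapMatrix (m := Fin (n + 1))), ← sub_eq_zero, ← map_sub]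
        ext1 a b
        exact Ideal.Quotient.eq_zero_iff_mem.2 (hone a b)
      map_mul' := fun g h => by
        rw [← map_mul, ← sub_eq_zero, ← map_sub]
        ext1 a b
        exact Ideal.Quotient.eq_zero_iff_mem.2 (hmul g h a b) }
  let ρ' : G →* GL (Fin (n + 1)) (T ⧸ J) := Mh.toHomUnits
  have hρ' : ∀ g, (ρ' g : Mt (n + 1) (T ⧸ J)) = (γ g).map q := fun g => rfl
  have hrmem : ∀ x : T ⧸ J, r x = 0 → ∃ t ∈ maximalIdeal T, q t = x := by
    intro x hx
    obtain ⟨t, rfl⟩ := Ideal.Quotient.mk_surjective x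
    refine ⟨t, ?_, rfl⟩
    have := (hr t 0).1 hx
    rwa [map_zero, sub_zero] at this
  have hlift : IsLift ρ B ρ' := by
    constructor
    · intro g
      apply Units.ext
      ext1 a b
      exact (hr (γ g a b) ((ρ g : Mt (n + 1) k) a b)).2 (hrs g a b)
    · intro j
      have e : {g : G | ∀ a b : Fin (n + 1),
          ((ρ' g : Mt (n + 1) (T ⧸ J)) - 1) a b ∈ maximalIdeal (T ⧸ J) ^ j} =
          {g : G | ∀ a b, (γ g - 1) a b ∈ maximalIdeal T ^ j ⊔ J} := by
        ext g
        refine forall_congr' fun a => forall_congr' fun b => ?_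
        have h1 : ((ρ' g : Mt (n + 1) (T ⧸ J)) - 1) a b = q ((γ g - 1) a b) := by
          rw [hρ', Matrix.sub_apply, Matrix.sub_apply, map_sub, Matrix.map_apply]
          congr 1
          by_cases hab : a = b
          · subst hab; rw [Matrix.one_apply_eq, Matrix.one_apply_eq, map_one]
          · rw [Matrix.one_apply_ne hab, Matrix.one_apply_ne hab, map_zero]
        rw [h1, max_eq hJ, ← Ideal.map_pow, ← Ideal.mem_comap,
          Ideal.comap_map_of_surjective _ Ideal.Quotient.mk_surjective, ← RingHom.ker_eq_comap_bot,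
          Ideal.mk_ker]
      have h2 := hop j
      rw [← e] at h2
      exact h2
  obtain ⟨f, ⟨hf1, M, hM1, hM2⟩, -⟩ := hU.2 B ρ' hlift
  let F : R.A →+* T ⧸ J := (f : R.A →+* B.A)
  have hF : ∀ x, F x = f x := fun _ => rfl
  have hfr : ∀ x, r (F x) = R.res x := hf1
  have hfW : ∀ w : WittVector p k, F (algebraMap (WittVector p k) R.A w) =
      algebraMap k (T ⧸ J) (w.coeff 0) := fun w => f.commutes w
  let M0 : GL (Fin (n + 1)) (T ⧸ J) := M
  have hM1' : ∀ a b, r ((M0 : Mt (n + 1) (T ⧸ J)) a b) = (1 : Mt (n + 1) k) a b := by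
    intro a b
    have h1 := congrArg (fun X : GL (Fin (n + 1)) k => (X : Mt (n + 1) k) a b) hM1
    exact h1
  have hM2' : ∀ g, (ρ' g : Mt (n + 1) (T ⧸ J)) * (M0 : Mt (n + 1) (T ⧸ J)) =
      (M0 : Mt (n + 1) (T ⧸ J)) * ((ρu g : Mt (n + 1) R.A).map F) := by
    intro g
    have h1 : ρ' g = M0 * Matrix.GeneralLinearGroup.map F (ρu g) * M0⁻¹ := hM2 g
    have h2 : ρ' g * M0 = M0 * Matrix.GeneralLinearGroup.map F (ρu g) := by
      rw [h1, inv_mul_cancel_right]
    have h3 := congrArg (fun X : GL (Fin (n + 1)) (T ⧸ J) => (X : Mt (n + 1) (T ⧸ J))) h2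
    exact h3
  -- the entry `M 0 0` is a unit
  obtain ⟨t0, ht0⟩ := Ideal.Quotient.mk_surjective ((M0 : Mt (n + 1) (T ⧸ J)) 0 0)
  have hu0 : IsUnit ((M0 : Mt (n + 1) (T ⧸ J)) 0 0) := by
    rw [← ht0]
    apply IsUnit.map
    have h1 := hM1' 0 0
    rw [← ht0, Matrix.one_apply_eq, hr, map_one] at h1
    by_contra hc
    have h2 : t0 ∈ maximalIdeal T := (mem_maximalIdeal _).2 hc
    have h3 := (maximalIdeal T).sub_mem h2 h1
    rw [sub_sub_cancel] at h3
    exact (Ideal.ne_top_iff_one _).1 (maximalIdeal.isMaximal T).ne_top h3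
  obtain ⟨u, hu⟩ := hu0
  have hru : r (u : T ⧸ J) = 1 := by rw [hu, hM1', Matrix.one_apply_eq]
  have hrui : r ((u⁻¹ : (T ⧸ J)ˣ) : T ⧸ J) = 1 := by
    have h1 : r ((u⁻¹ : (T ⧸ J)ˣ) : T ⧸ J) * r (u : T ⧸ J) = 1 := by
      rw [← map_mul, Units.inv_mul, map_one]
    rwa [hru, mul_one] at h1
  let D : GL (Fin (n + 1)) (T ⧸ J) := Units.map (Matrix.scalar (Fin (n + 1))).toMonoidHom u⁻¹
  have hD : (D : Mt (n + 1) (T ⧸ J)) = Matrix.scalar (Fin (n + 1)) ((u⁻¹ : (T ⧸ J)ˣ) : T ⧸ J) := rfl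
  have hDM : ∀ X : Mt (n + 1) (T ⧸ J), (D : Mt (n + 1) (T ⧸ J)) * X =
      ((u⁻¹ : (T ⧸ J)ˣ) : T ⧸ J) • X := by
    intro X
    rw [hD, Matrix.scalar_apply, ← Matrix.smul_eq_diagonal_mul]
  have hN : ((D * M0 : GL (Fin (n + 1)) (T ⧸ J)) : Mt (n + 1) (T ⧸ J)) =
      ((u⁻¹ : (T ⧸ J)ˣ) : T ⧸ J) • (M0 : Mt (n + 1) (T ⧸ J)) := by
    rw [Units.val_mul, hDM]
  refine ⟨F, D * M0, ?_, ?_, ?_, ?_, ?_, ?_⟩
  · rw [map_natCast]
    have h1 : ((p : ℕ) : T ⧸ J) = algebraMap k (T ⧸ J) ((p : ℕ) : k) :=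
      (map_natCast (algebraMap k (T ⧸ J)) p).symm
    rw [h1, CharP.cast_eq_zero, map_zero]
  · intro x hx
    apply hrmem
    rw [hfr]
    by_contra hc
    have h1 : IsUnit x := by
      by_contra h2
      have h3 : RingHom.ker R.res = maximalIdeal R.A :=
        IsLocalRing.eq_maximalIdeal (RingHom.ker_isMaximal_of_surjective R.res R.res_surj)
      rw [← h3] at hx
      exact hc hx
    exact (mem_nonunits_iff.mp ((mem_maximalIdeal _).mp hx)) h1
  · intro x
    have h3 : RingHom.ker R.res = maximalIdeal R.A :=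
      IsLocalRing.eq_maximalIdeal (RingHom.ker_isMaximal_of_surjective R.res R.res_surj)
    have h4 : x - algebraMap (WittVector p k) R.A (WittVector.teichmuller p (R.res x)) ∈
        maximalIdeal R.A := by
      rw [← h3, RingHom.mem_ker, map_sub, R.res_coeff, WittVector.teichmuller_coeff_zero, sub_self]
    have h5 := Ideal.mem_map_of_mem F h4
    rwa [map_sub, hfW, WittVector.teichmuller_coeff_zero] at h5
  · rw [hN, Matrix.smul_apply, ← hu, smul_eq_mul, Units.inv_mul]
  · intro a b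
    apply hrmem
    rw [Matrix.sub_apply, map_sub, hN, Matrix.smul_apply, smul_eq_mul, map_mul, hrui, one_mul, hM1',
      sub_eq_zero]
    by_cases hab : a = b
    · subst hab; rw [Matrix.one_apply_eq, Matrix.one_apply_eq, map_one]
    · rw [Matrix.one_apply_ne hab, Matrix.one_apply_ne hab, map_zero]
  · intro g
    rw [hN, Matrix.mul_smul, Matrix.smul_mul]
    congr 1
    exact hM2' g

end Pool.Agent.Helper3.DB.FI1

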