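import Pool.Agent.Helper3.DB.Stm

/-!
# Project DB, module FI2: the maximal ideal of `T ⧸ J` is generated by `f(m_R)` and the entries of `M - 1`
-/

set_option autoImplicit false

namespace Pool.Agent.Helper3.DB.FI2

open IsLocalRing MZ

/-- the values of linearly independent functions span -/
theorem span_of_indep {k : Type} [Field k] {G : Type} {n z : ℕ} (φ : Fin z → G → Mt n k)
    (hφ : LinearIndependent k φ) (W : Submodule k (Fin z → k))
    (hW : ∀ g a b, (fun j => φ j g a b) ∈ W) : W = ⊤ := by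
  by_contra hne
  obtain ⟨u, hu, hu'⟩ := Submodule.exists_le_ker_of_lt_top W (lt_top_iff_ne_top.mpr hne)
  -- coefficients of the functional
  let e : Fin z → (Fin z → k) := fun j => Pi.single j 1
  have hrep : ∀ w : Fin z → k, u w = ∑ j, w j * u (e j) := by
    intro w
    have : w = ∑ j, w j • e j := by
      ext i
      simp [e, Finset.sum_apply, Pi.single_apply]
    conv_lhs => rw [this]
    simp [map_sum, map_smul]
  have hz : ∑ j, u (e j) • φ j = 0 := by
    funext g
    ext a b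
    have h1 := hu' (hW g a b)
    rw [LinearMap.mem_ker, hrep] at h1
    simp only [Finset.sum_apply, Pi.smul_apply, Matrix.sum_apply, Matrix.smul_apply, smul_eq_mul,
      Pi.zero_apply, Matrix.zero_apply]
    rw [← h1]
    exact Finset.sum_congr rfl fun j _ => mul_comm _ _
  have h0 := (Fintype.linearIndependent_iff.mp hφ) (fun j => u (e j)) hz
  apply hu
  refine LinearMap.ext fun w => ?_
  rw [hrep]
  simp [h0]

theorem main : S_FI2 := by
  intro p _ k _ _ T _ _ _ _ G _ _ n ρ ι c C z x hG φ hφ J γ hPL hJ hγ R ρu hρu f M hf1 hf2 hM1 hM2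
  set 𝔞 : Ideal (T ⧸ J) := (maximalIdeal R.A).map f ⊔
    Ideal.span (Set.range fun q : Fin (n + 1) × Fin (n + 1) => ((M : Mt (n + 1) (T ⧸ J)) - 1) q.1 q.2)
    with h𝔞
  set 𝔟 : Ideal T := 𝔞.comap (Ideal.Quotient.mk J) with h𝔟
  have hJb : J ≤ 𝔟 := by
    intro y hy
    rw [h𝔟, Ideal.mem_comap, Ideal.Quotient.eq_zero_iff_mem.mpr hy]
    exact zero_mem _
  -- work modulo `𝔞`
  let q : (T ⧸ J) →+* (T ⧸ J) ⧸ 𝔞 := Ideal.Quotient.mk 𝔞
  have hMq : (M : Mt (n + 1) (T ⧸ J)).map q = 1 := by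
    have h1 : ((M : Mt (n + 1) (T ⧸ J)) - 1).map q = 0 := by
      ext a b
      rw [Matrix.map_apply, Matrix.zero_apply]
      exact Ideal.Quotient.eq_zero_iff_mem.mpr
        (Ideal.mem_sup_right (Ideal.subset_span ⟨(a, b), rfl⟩))
    rw [Matrix.map_sub _ (map_sub _), Matrix.map_one _ (map_zero _) (map_one _), sub_eq_zero] at h1
    exact h1
  have hfq : ∀ r : R.A, q (f r) = q (algebraMap k (T ⧸ J) (R.res r)) := by
    intro r
    rw [← sub_eq_zero, ← map_sub]
    exact Ideal.Quotient.eq_zero_iff_mem.mpr (Ideal.mem_sup_left (hf2 r))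
  have hρq : ∀ g, (((ρu g : Mt (n + 1) R.A).map f)).map q =
      ((ρ g : Mt (n + 1) k).map (algebraMap k (T ⧸ J))).map q := by
    intro g
    ext a b
    simp only [Matrix.map_apply]
    rw [hfq]
    have h1 := hρu.1 g
    have h2 : R.res ((ρu g : Mt (n + 1) R.A) a b) = (ρ g : Mt (n + 1) k) a b := by
      rw [← h1]
      rfl
    rw [h2]
  have hγρ : ∀ g a b, (γ g - (ρ g : Mt (n + 1) k).map (algebraMap k T)) a b ∈ 𝔟 := by
    intro g a b
    have h1 := congrArg (fun N : Mt (n + 1) (T ⧸ J) => N.map q) (hM2 g)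
    have h1 : ((γ g).map (Ideal.Quotient.mk J) * (M : Mt (n + 1) (T ⧸ J))).map q =
        ((M : Mt (n + 1) (T ⧸ J)) * ((ρu g : Mt (n + 1) R.A).map f)).map q := h1
    rw [Matrix.map_mul, Matrix.map_mul, hMq, mul_one, one_mul, hρq] at h1
    have h2 := congrFun (congrFun h1 a) b
    simp only [Matrix.map_apply] at h2
    rw [h𝔟, Ideal.mem_comap]
    rw [← Ideal.Quotient.eq_zero_iff_mem]
    show q (Ideal.Quotient.mk J _) = 0
    rw [Matrix.sub_apply, map_sub, map_sub, sub_eq_zero, h2]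
    rfl
  -- the entries of `C_i - ρ(c_i)`
  have hent : entI (fun i => (ρ (c i) : Mt (n + 1) k)) C ≤ 𝔟 := by
    rw [entI, Ideal.span_le]
    rintro _ ⟨⟨i, a, b⟩, rfl⟩
    have h1 := hγρ (c i) a b
    have h2 := hJb (hPL.val i a b)
    have h3 := sub_mem h1 h2
    rw [SetLike.mem_coe]
    convert h3 using 1
    simp only [Matrix.sub_apply]
    ring
  have hbm : entI (fun i => (ρ (c i) : Mt (n + 1) k)) C ⊔ maximalIdeal T ^ 2 ≤
      𝔟 ⊔ maximalIdeal T ^ 2 := sup_le_sup_right hent _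
  -- the first order term
  have hS : ∀ g a b, ((∑ j, x j • (φ j g).map (algebraMap k T)) *
      (ρ g : Mt (n + 1) k).map (algebraMap k T)) a b ∈ 𝔟 ⊔ maximalIdeal T ^ 2 := by
    intro g a b
    have h1 : _ ∈ 𝔟 ⊔ maximalIdeal T ^ 2 := Ideal.mem_sup_left (hγρ g a b)
    have h2 := hbm (hγ g a b)
    have h3 := sub_mem h1 h2
    convert h3 using 1
    simp only [gam1, Matrix.add_mul, one_mul, Matrix.sub_apply, Matrix.add_apply]
    ring
  have hinv : ∀ g, (ρ g : Mt (n + 1) k).map (algebraMap k T) *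
      (((ρ g)⁻¹ : GL (Fin (n + 1)) k) : Mt (n + 1) k).map (algebraMap k T) = 1 := by
    intro g
    rw [← Matrix.map_mul, ← Units.val_mul, mul_inv_cancel, Units.val_one,
      Matrix.map_one _ (map_zero _) (map_one _)]
  have hS' : ∀ g a b, (∑ j, x j • (φ j g).map (algebraMap k T)) a b ∈ 𝔟 ⊔ maximalIdeal T ^ 2 := by
    intro g a b
    have h1 : (∑ j, x j • (φ j g).map (algebraMap k T)) =
        ((∑ j, x j • (φ j g).map (algebraMap k T)) * (ρ g : Mt (n + 1) k).map (algebraMap k T)) *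
          (((ρ g)⁻¹ : GL (Fin (n + 1)) k) : Mt (n + 1) k).map (algebraMap k T) := by
      rw [mul_assoc, hinv, mul_one]
    rw [h1, Matrix.mul_apply]
    exact Ideal.sum_mem _ fun i _ => Ideal.mul_mem_right _ _ (hS g a i)
  -- all `x_j` lie in `𝔟 + m²`
  let W : Submodule k (Fin z → k) :=
    { carrier := {w | ∑ j, algebraMap k T (w j) * x j ∈ 𝔟 ⊔ maximalIdeal T ^ 2}
      add_mem' := by
        intro w w' h h'
        have h2 : ∑ j, algebraMap k T (w j) * x j ∈ 𝔟 ⊔ maximalIdeal T ^ 2 := h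
        have h2' : ∑ j, algebraMap k T (w' j) * x j ∈ 𝔟 ⊔ maximalIdeal T ^ 2 := h'
        have := add_mem h2 h2'
        rw [← Finset.sum_add_distrib] at this
        show ∑ j, algebraMap k T ((w + w') j) * x j ∈ 𝔟 ⊔ maximalIdeal T ^ 2
        simp only [Pi.add_apply, map_add, add_mul]
        exact this
      zero_mem' := by
        simp
      smul_mem' := by
        intro a w h
        have h2 : ∑ j, algebraMap k T (w j) * x j ∈ 𝔟 ⊔ maximalIdeal T ^ 2 := h
        have := Ideal.mul_mem_left (𝔟 ⊔ maximalIdeal T ^ 2) (algebraMap k T a) h2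
        rw [Finset.mul_sum] at this
        show ∑ j, algebraMap k T ((a • w) j) * x j ∈ 𝔟 ⊔ maximalIdeal T ^ 2
        simp only [Pi.smul_apply, smul_eq_mul, map_mul, mul_assoc]
        exact this }
  have hWtop : W = ⊤ := by
    apply span_of_indep φ hφ W
    intro g a b
    show ∑ j, algebraMap k T (φ j g a b) * x j ∈ 𝔟 ⊔ maximalIdeal T ^ 2
    have h1 := hS' g a b
    convert h1 using 1
    rw [Matrix.sum_apply]
    refine Finset.sum_congr rfl fun j _ => ?_
    rw [Matrix.smul_apply, Matrix.map_apply, smul_eq_mul, mul_comm]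
  have hx : ∀ j, x j ∈ 𝔟 ⊔ maximalIdeal T ^ 2 := by
    intro j
    have h1 : (Pi.single j 1 : Fin z → k) ∈ W := by rw [hWtop]; trivial
    have h2 : ∑ i, algebraMap k T ((Pi.single j 1 : Fin z → k) i) * x i ∈
      𝔟 ⊔ maximalIdeal T ^ 2 := h1
    have h3 : ∑ i, algebraMap k T ((Pi.single j 1 : Fin z → k) i) * x i = x j := by
      rw [Finset.sum_eq_single j]
      · simp
      · intro i _ hi
        simp [hi]
      · intro h
        exact absurd (Finset.mem_univ j) h
    rwa [h3] at h2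
  have hm : maximalIdeal T ≤ 𝔟 ⊔ maximalIdeal T ^ 2 := by
    refine hG.gen.trans (sup_le (hent.trans le_sup_left) ?_)
    rw [Ideal.span_le]
    rintro _ ⟨j, rfl⟩
    exact hx j
  have hm' : maximalIdeal T ≤ 𝔟 := by
    apply Submodule.le_of_le_smul_of_le_jacobson_bot (I := maximalIdeal T)
      (IsNoetherian.noetherian _) (maximalIdeal_le_jacobson _)
    rw [smul_eq_mul, ← pow_two]
    exact hm
  rw [Ideal.map_le_iff_le_comap]
  exact hm'

end Pool.Agent.Helper3.DB.FI2
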