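import Pool.Agent.Helper3.DB.Stm

set_option autoImplicit false

namespace Pool.Agent.Helper3.DB.FI3

open IsLocalRing

theorem main : S_FI3 := by
  classical
  intro R B _ _ _ _ _ _ f a ha hfa hloc s hs hm
  have hne : Ideal.span {a} ≠ (⊤ : Ideal R) := by
    intro h
    have h1 : (⊤ : Ideal R) ≤ maximalIdeal R := by
      rw [← h, Ideal.span_le, Set.singleton_subset_iff]
      exact ha
    exact (Ideal.IsPrime.ne_top inferInstance) (top_le_iff.1 h1)
  have : Nontrivial (R ⧸ Ideal.span {a}) := Ideal.Quotient.nontrivial_iff.2 hne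
  have : IsLocalRing (R ⧸ Ideal.span {a}) :=
    IsLocalRing.of_surjective' (Ideal.Quotient.mk (Ideal.span {a})) Ideal.Quotient.mk_surjective
  have hker : ∀ x ∈ Ideal.span {a}, f x = 0 := by
    intro x hx
    obtain ⟨y, rfl⟩ := Ideal.mem_span_singleton'.1 hx
    rw [map_mul, hfa, mul_zero]
  obtain ⟨f', hf'⟩ : ∃ f' : R ⧸ Ideal.span {a} →+* B,
      f' = Ideal.Quotient.lift (Ideal.span {a}) f hker := ⟨_, rfl⟩
  have hf'mk : ∀ x, f' (Ideal.Quotient.mk _ x) = f x := by
    intro x
    rw [hf', Ideal.Quotient.lift_mk]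
  -- the maximal ideal of the quotient
  have hmq : ∀ r : R, Ideal.Quotient.mk (Ideal.span {a}) r ∈ maximalIdeal (R ⧸ Ideal.span {a}) ↔
      r ∈ maximalIdeal R := by
    intro r
    rw [mem_maximalIdeal, mem_maximalIdeal, mem_nonunits_iff, mem_nonunits_iff, not_iff_not]
    constructor
    · intro hu
      by_contra hc
      have hr : r ∈ maximalIdeal R := hc
      obtain ⟨y, hy⟩ := hu.exists_right_inv
      obtain ⟨z, rfl⟩ := Ideal.Quotient.mk_surjective y
      rw [← map_mul, ← map_one (Ideal.Quotient.mk (Ideal.span {a})), Ideal.Quotient.eq] at hy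
      have h1 : r * z - 1 ∈ maximalIdeal R := by
        have h2 : Ideal.span {a} ≤ maximalIdeal R := by
          rw [Ideal.span_le, Set.singleton_subset_iff]
          exact ha
        exact h2 hy
      have h3 : (1 : R) ∈ maximalIdeal R := by
        have h4 := Ideal.sub_mem _ (Ideal.mul_mem_right z _ hr) h1
        rwa [sub_sub_cancel] at h4
      exact (Ideal.IsPrime.ne_top inferInstance) ((Ideal.eq_top_iff_one _).2 h3)
    · intro hu
      exact hu.map _
  obtain ⟨t, ht, htc⟩ := Ideal.exists_finset_card_eq_height_of_isNoetherianRing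
    (maximalIdeal (R ⧸ Ideal.span {a}))
  have hmin : maximalIdeal B ∈ (Ideal.span ((t.image f' ∪ s : Finset B) : Set B)).minimalPrimes := by
    refine ⟨⟨inferInstance, ?_⟩, ?_⟩
    · rw [Ideal.span_le]
      intro y hy
      rw [Finset.mem_coe, Finset.mem_union, Finset.mem_image] at hy
      rcases hy with ⟨x, hx, rfl⟩ | hy
      · obtain ⟨r, rfl⟩ := Ideal.Quotient.mk_surjective x
        rw [hf'mk]
        apply hloc
        rw [← hmq]
        exact ht.1.2 (Ideal.subset_span hx)
      · exact hs y hy
    · rintro P ⟨hP, hPle⟩ -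
      have h1 : Ideal.span (t : Set (R ⧸ Ideal.span {a})) ≤ P.comap f' := by
        rw [Ideal.span_le]
        intro x hx
        exact hPle (Ideal.subset_span (by
          rw [Finset.mem_coe, Finset.mem_union, Finset.mem_image]
          exact Or.inl ⟨x, hx, rfl⟩))
      have : (P.comap f').IsPrime := Ideal.comap_isPrime f' P
      have h2 : P.comap f' ≤ maximalIdeal (R ⧸ Ideal.span {a}) :=
        IsLocalRing.le_maximalIdeal (Ideal.IsPrime.ne_top inferInstance)
      have h3 : maximalIdeal (R ⧸ Ideal.span {a}) ≤ P.comap f' := ht.2 ⟨inferInstance, h1⟩ h2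
      refine hm.trans (sup_le ?_ ?_)
      · rw [Ideal.map_le_iff_le_comap]
        intro r hr
        have h4 := h3 ((hmq r).2 hr)
        rw [Ideal.mem_comap, hf'mk] at h4
        exact h4
      · rw [Ideal.span_le]
        intro y hy
        exact hPle (Ideal.subset_span (by
          rw [Finset.mem_coe, Finset.mem_union]
          exact Or.inr hy))
  have h1 := Ideal.height_le_card_of_mem_minimalPrimes_span_finset hmin
  have h2 : (t.image f' ∪ s).card ≤ t.card + s.card :=
    (Finset.card_union_le _ _).trans (Nat.add_le_add_right Finset.card_image_le _)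
  have h3 : (maximalIdeal B).height ≤ (maximalIdeal (R ⧸ Ideal.span {a})).height + (s.card : ℕ∞) := by
    rw [← htc]
    exact h1.trans (by exact_mod_cast h2)
  rw [← IsLocalRing.maximalIdeal_height_eq_ringKrullDim (R := B),
    ← IsLocalRing.maximalIdeal_height_eq_ringKrullDim (R := R ⧸ Ideal.span {a})]
  exact_mod_cast h3

end Pool.Agent.Helper3.DB.FI3
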