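import Pool.Agent.Helper3.DB.Stm

/-!
# LIM (helper91): chains of ideals in a complete noetherian local ring with finite residue field
-/

set_option autoImplicit false

namespace Pool.Agent.Helper3.DB.LIM

open IsLocalRing MZ

variable {T : Type} [CommRing T] [IsLocalRing T] [IsNoetherianRing T]

/-- ideals are closed -/
theorem closed (I : Ideal T) {x : T} (h : ∀ j : ℕ, x ∈ maximalIdeal T ^ j ⊔ I) : x ∈ I := by
  have h1 := Ideal.iInf_pow_smul_eq_bot_of_isLocalRing (R := T) (M := T ⧸ I) (maximalIdeal T)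
    (IsLocalRing.maximalIdeal.isMaximal T).ne_top
  have h2 : Ideal.Quotient.mk I x ∈ (⨅ i : ℕ, maximalIdeal T ^ i • ⊤ : Submodule T (T ⧸ I)) := by
    rw [Submodule.mem_iInf]
    intro j
    obtain ⟨a, ha, b, hb, rfl⟩ := Submodule.mem_sup.1 (h j)
    rw [map_add, Ideal.Quotient.eq_zero_iff_mem.2 hb, add_zero]
    have : Ideal.Quotient.mk I a = a • (1 : T ⧸ I) := by
      rw [Algebra.smul_def, mul_one]
      rfl
    rw [this]
    exact Submodule.smul_mem_smul ha Submodule.mem_top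
  rw [h1, Submodule.mem_bot] at h2
  exact Ideal.Quotient.eq_zero_iff_mem.1 h2

omit [IsNoetherianRing T] in
theorem complete [IsAdicComplete (maximalIdeal T) T] (f : ℕ → T)
    (hf : ∀ j, f (j + 1) - f j ∈ maximalIdeal T ^ j) : ∃ y, ∀ j, y - f j ∈ maximalIdeal T ^ j := by
  have h1 : ∀ i j, i ≤ j → f j - f i ∈ maximalIdeal T ^ i := by
    intro i j hij
    induction j, hij using Nat.le_induction with
    | base => rw [sub_self]; exact zero_mem _
    | succ j hij ih =>
      have : f (j + 1) - f i = (f (j + 1) - f j) + (f j - f i) := by ring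
      rw [this]
      exact add_mem (Ideal.pow_le_pow_right hij (hf j)) ih
  obtain ⟨y, hy⟩ := IsPrecomplete.prec (I := maximalIdeal T) (M := T) inferInstance (f := f) (by
    intro i j hij
    rw [SModEq.sub_mem, smul_eq_mul, Ideal.mul_top, ← neg_sub]
    exact neg_mem (h1 i j hij))
  refine ⟨y, fun j => ?_⟩
  have := hy j
  rw [SModEq.sub_mem, smul_eq_mul, Ideal.mul_top, ← neg_sub] at this
  exact neg_mem_iff.1 this

theorem fin_quot {k : Type} [Field k] [Finite k] [Algebra k T] (hk : ResK k T) (j : ℕ) :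
    Finite (T ⧸ maximalIdeal T ^ j) := by
  have h1 : Finite (T ⧸ maximalIdeal T) := by
    refine Finite.of_surjective (fun a : k => Ideal.Quotient.mk (maximalIdeal T) (algebraMap k T a)) ?_
    intro t
    obtain ⟨t, rfl⟩ := Ideal.Quotient.mk_surjective t
    obtain ⟨a, ha⟩ := hk t
    refine ⟨a, ?_⟩
    exact (Ideal.Quotient.eq.2 ha).symm
  exact Ideal.finite_quotient_pow (IsNoetherian.noetherian _) j

/-- a minimal sum -/
theorem exists_min {k : Type} [Field k] [Finite k] [Algebra k T] (hk : ResK k T) (j : ℕ)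
    {S : Set (Ideal T)} (hS : S.Nonempty) (hc : IsChain (· ≤ ·) S) :
    ∃ I ∈ S, ∀ J ∈ S, I ≤ maximalIdeal T ^ j ⊔ J := by
  have := fin_quot (T := T) hk j
  have hf : (Set.range fun s : S => (s.1).map (Ideal.Quotient.mk (maximalIdeal T ^ j))).Finite :=
    Set.toFinite _
  obtain ⟨_, ⟨I, rfl⟩, hI⟩ := hf.exists_minimal (by
    obtain ⟨I, hI⟩ := hS
    exact ⟨_, ⟨⟨I, hI⟩, rfl⟩⟩)
  refine ⟨I.1, I.2, fun J hJ => ?_⟩
  rcases hc.total I.2 hJ with h | h
  · exact h.trans le_sup_right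
  · have h1 := hI ⟨⟨J, hJ⟩, rfl⟩ (Ideal.map_mono h)
    intro x hx
    have h2 : Ideal.Quotient.mk (maximalIdeal T ^ j) x ∈
        J.map (Ideal.Quotient.mk (maximalIdeal T ^ j)) := h1 (Ideal.mem_map_of_mem _ hx)
    rw [Ideal.mem_quotient_iff_mem_sup] at h2
    rwa [sup_comm] at h2

theorem key [IsAdicComplete (maximalIdeal T) T] {S : Set (Ideal T)} (I : ℕ → Ideal T)
    (h : ∀ j, ∀ J ∈ S, I j ≤ maximalIdeal T ^ j ⊔ J) (hI : ∀ j, I j ∈ S) (j : ℕ) :
    I j ≤ maximalIdeal T ^ j ⊔ sInf S := by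
  intro u hu
  have hstep : ∀ i : ℕ, ∀ v : {t // t ∈ I (j + i)}, ∃ v' : {t // t ∈ I (j + (i + 1))},
      v'.1 - v.1 ∈ maximalIdeal T ^ (j + i) := by
    intro i v
    obtain ⟨a, ha, b, hb, hab⟩ := Submodule.mem_sup.1 (h (j + i) _ (hI (j + (i + 1))) v.2)
    refine ⟨⟨b, hb⟩, ?_⟩
    have : b - v.1 = -a := by rw [← hab]; ring
    rw [this]
    exact neg_mem ha
  choose F hF using hstep
  obtain ⟨v, hv0, hv⟩ : ∃ v : ∀ i : ℕ, {t // t ∈ I (j + i)}, v 0 = ⟨u, hu⟩ ∧
      ∀ i, v (i + 1) = F i (v i) := by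
    refine ⟨fun i => Nat.rec (motive := fun i => {t // t ∈ I (j + i)}) ⟨u, hu⟩
      (fun i w => F i w) i, rfl, fun i => rfl⟩
  have hd : ∀ i, (v (i + 1)).1 - (v i).1 ∈ maximalIdeal T ^ (j + i) := by
    intro i
    rw [hv i]
    exact hF i (v i)
  have h0 : ∀ i, (v i).1 - u ∈ maximalIdeal T ^ j := by
    intro i
    induction i with
    | zero => rw [hv0, sub_self]; exact zero_mem _
    | succ i ih =>
      have : (v (i + 1)).1 - u = ((v (i + 1)).1 - (v i).1) + ((v i).1 - u) := by ring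
      rw [this]
      exact add_mem (Ideal.pow_le_pow_right (Nat.le_add_right j i) (hd i)) ih
  obtain ⟨y, hy⟩ := complete (fun i => (v i).1) fun i =>
    Ideal.pow_le_pow_right (Nat.le_add_left i j) (hd i)
  have hyS : y ∈ sInf S := by
    rw [Submodule.mem_sInf]
    intro J hJ
    refine closed J fun i => ?_
    have h1 := hy i
    have h2 := h (j + i) J hJ (v i).2
    have h3 : maximalIdeal T ^ (j + i) ⊔ J ≤ maximalIdeal T ^ i ⊔ J :=
      sup_le_sup_right (Ideal.pow_le_pow_right (Nat.le_add_left i j)) _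
    have : y = (y - (v i).1) + (v i).1 := by ring
    rw [this]
    exact add_mem (Ideal.mem_sup_left h1) (h3 h2)
  have : u = ((y - (v j).1) * (-1) + ((v j).1 - u) * (-1)) + y := by ring
  rw [this]
  refine add_mem (Ideal.mem_sup_left (add_mem ?_ ?_)) (Ideal.mem_sup_right hyS)
  · exact Ideal.mul_mem_right _ _ (hy j)
  · exact Ideal.mul_mem_right _ _ (h0 j)

theorem main : S_LIM := by
  intro k _ _ T _ _ _ _ _ hk S hS hc
  choose I hI hmin using fun j => exists_min (T := T) hk j hS hc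
  have hK := key I hmin hI
  refine ⟨fun x hx => ?_, fun j => ⟨I j, hI j, hK j⟩⟩
  have hdiff : ∀ j, x (I (j + 1)) - x (I j) ∈ maximalIdeal T ^ j ⊔ sInf S := by
    intro j
    rcases hc.total (hI (j + 1)) (hI j) with h | h
    · exact hK j (hx _ (hI j) _ (hI (j + 1)) h)
    · have h1 := hx _ (hI (j + 1)) _ (hI j) h
      rw [← neg_sub]
      have h2 : maximalIdeal T ^ (j + 1) ⊔ sInf S ≤ maximalIdeal T ^ j ⊔ sInf S :=
        sup_le_sup_right (Ideal.pow_le_pow_right (Nat.le_succ j)) _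
      exact neg_mem (h2 (hK (j + 1) h1))
  have hdiff' : ∀ j, ∃ κ ∈ sInf S, x (I (j + 1)) - x (I j) - κ ∈ maximalIdeal T ^ j := by
    intro j
    obtain ⟨a, ha, b, hb, hab⟩ := Submodule.mem_sup.1 (hdiff j)
    refine ⟨b, hb, ?_⟩
    rw [← hab, add_sub_cancel_right]
    exact ha
  choose κ hκ hκ2 using hdiff'
  obtain ⟨y, hy⟩ := complete (fun j => x (I j) - ∑ i ∈ Finset.range j, κ i) (by
    intro j
    have : (x (I (j + 1)) - ∑ i ∈ Finset.range (j + 1), κ i) -
        (x (I j) - ∑ i ∈ Finset.range j, κ i) = x (I (j + 1)) - x (I j) - κ j := by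
      rw [Finset.sum_range_succ]
      ring
    rw [this]
    exact hκ2 j)
  refine ⟨y, fun J hJ => closed J fun j => ?_⟩
  have hsum : ∑ i ∈ Finset.range j, κ i ∈ J := by
    refine sum_mem fun i _ => ?_
    exact (sInf_le hJ : sInf S ≤ J) (hκ i)
  have h1 : x (I j) - x J ∈ maximalIdeal T ^ j ⊔ J := by
    rcases hc.total (hI j) hJ with h | h
    · exact Ideal.mem_sup_right (hx J hJ _ (hI j) h)
    · have h2 := hx _ (hI j) J hJ h
      rw [← neg_sub]
      exact neg_mem (hmin j J hJ h2)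
  have : y - x J = (y - (x (I j) - ∑ i ∈ Finset.range j, κ i)) + (x (I j) - x J) +
      (-∑ i ∈ Finset.range j, κ i) := by ring
  rw [this]
  exact add_mem (add_mem (Ideal.mem_sup_left (hy j)) h1) (Ideal.mem_sup_right (neg_mem hsum))

end Pool.Agent.Helper3.DB.LIM
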