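import Pool.Agent.Helper3.DB.Stm

/-!
# MP_aa8fd2_nt, project DB, module NAK: generators from functionals (helper95)
-/

set_option autoImplicit false

namespace Pool.Agent.Helper3.DB.NAK

open IsLocalRing MZ

theorem fac {k A B V : Type} [Field k] [AddCommGroup A] [Module k A] [AddCommGroup B] [Module k B]
    [AddCommGroup V] [Module k V] [Module.Finite k V] (L : A →ₗ[k] V) (r : A →ₗ[k] B)
    (h : ∀ a, L a = 0 → r a = 0) :
    Module.Finite k (LinearMap.range r) ∧
      Module.finrank k (LinearMap.range r) ≤ Module.finrank k V := by
  have hker : LinearMap.ker L ≤ LinearMap.ker r := fun a ha => h a ha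
  let F : LinearMap.range L →ₗ[k] B :=
    (Submodule.liftQ (LinearMap.ker L) r hker).comp L.quotKerEquivRange.symm.toLinearMap
  have hF : LinearMap.range F = LinearMap.range r := by
    rw [LinearMap.range_comp, LinearEquiv.range, Submodule.map_top, Submodule.range_liftQ]
  constructor
  · rw [← hF]
    infer_instance
  · rw [← hF]
    exact (LinearMap.finrank_range_le F).trans (Submodule.finrank_le _)

theorem aux {k E V : Type} [Field k] [AddCommGroup E] [Module k E] [AddCommGroup V] [Module k V]
    [Module.Finite k V] (N P : Submodule k E) (hNP : N ≤ P) (L : N.dualAnnihilator →ₗ[k] V)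
    (hL : ∀ l, L l = 0 → ∀ x ∈ P, (l : Module.Dual k E) x = 0) :
    Module.Finite k (P ⧸ (N.comap P.subtype)) ∧
      Module.finrank k (P ⧸ (N.comap P.subtype)) ≤ Module.finrank k V := by
  -- restriction of functionals to `P`
  let res : N.dualAnnihilator →ₗ[k] Module.Dual k P :=
    (Module.Dual.transpose (R := k) P.subtype).comp N.dualAnnihilator.subtype
  have hres : ∀ (l : N.dualAnnihilator) (x : P), res l x = (l : Module.Dual k E) x := fun l x => rfl
  -- the range of `res` is small
  have hfr : Module.Finite k (LinearMap.range res) ∧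
      Module.finrank k (LinearMap.range res) ≤ Module.finrank k V := by
    refine fac (A := N.dualAnnihilator) L res fun l hl => ?_
    ext x
    rw [hres]
    exact hL l hl x.1 x.2
  obtain ⟨hfin, hrank⟩ := hfr
  -- functionals on `P / N`
  let D : Module.Dual k (P ⧸ (N.comap P.subtype)) →ₗ[k] Module.Dual k P :=
    Module.Dual.transpose (R := k) (N.comap P.subtype).mkQ
  have hD : Function.Injective D := by
    intro φ ψ h
    ext x
    exact congrArg (fun g : Module.Dual k P => g x) h
  have hDr : LinearMap.range D ≤ LinearMap.range res := by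
    rintro _ ⟨φ, rfl⟩
    obtain ⟨g, hg⟩ := LinearMap.exists_extend (φ.comp (N.comap P.subtype).mkQ)
    have hg' : ∀ x : P, g x = φ ((N.comap P.subtype).mkQ x) := fun x =>
      congrArg (fun h : P →ₗ[k] k => h x) hg
    have hgN : g ∈ N.dualAnnihilator := by
      rw [Submodule.mem_dualAnnihilator]
      intro x hx
      have h0 : (N.comap P.subtype).mkQ ⟨x, hNP hx⟩ = 0 := by
        rw [Submodule.mkQ_apply, Submodule.Quotient.mk_eq_zero]
        exact hx
      have h1 := hg' ⟨x, hNP hx⟩
      rw [h0, map_zero] at h1
      exact h1
    refine ⟨⟨g, hgN⟩, ?_⟩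
    ext x
    rw [hres]
    exact hg' x
  have hDfin : Module.Finite k (Module.Dual k (P ⧸ (N.comap P.subtype))) := by
    have h1 : Module.Finite k (LinearMap.range D) := Submodule.finiteDimensional_of_le hDr
    exact Module.Finite.equiv (LinearEquiv.ofInjective D hD).symm
  refine ⟨(Module.finite_dual_iff k).1 hDfin, ?_⟩
  rw [← Subspace.dual_finrank_eq, LinearEquiv.finrank_eq (LinearEquiv.ofInjective D hD)]
  exact (Submodule.finrank_mono hDr).trans hrank

theorem main : S_NAK := by
  intro k _ T _ _ _ _ _ J V _ _ _ L hL
  have hNP : Submodule.restrictScalars k (maximalIdeal T * J) ≤ Submodule.restrictScalars k J :=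
    fun x hx => (Ideal.mul_le_right : maximalIdeal T * J ≤ J) hx
  obtain ⟨hWfin, hW⟩ := aux (Submodule.restrictScalars k (maximalIdeal T * J))
    (Submodule.restrictScalars k J) hNP L hL
  -- a basis
  let b := Module.finBasis k ((Submodule.restrictScalars k J) ⧸
    ((Submodule.restrictScalars k (maximalIdeal T * J)).comap (Submodule.restrictScalars k J).subtype))
  have hs : ∀ i, ∃ x : Submodule.restrictScalars k J,
      ((Submodule.restrictScalars k (maximalIdeal T * J)).comap
        (Submodule.restrictScalars k J).subtype).mkQ x = b i := fun i =>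
    Submodule.mkQ_surjective _ (b i)
  choose s hs using hs
  classical
  refine ⟨Finset.univ.image fun i => (s i : T), ?_, ?_⟩
  · refine Finset.card_image_le.trans ?_
    rw [Finset.card_univ, Fintype.card_fin]
    exact hW
  · rw [Finset.coe_image, Finset.coe_univ, Set.image_univ]
    refine le_antisymm ?_ ?_
    · rw [Ideal.span_le]
      rintro _ ⟨i, rfl⟩
      exact (s i).2
    · refine Submodule.le_of_le_smul_of_le_jacobson_bot (I := maximalIdeal T)
        (IsNoetherian.noetherian J) ?_ ?_
      · rw [IsLocalRing.jacobson_eq_maximalIdeal ⊥ bot_ne_top]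
      · intro x hx
        let xP : Submodule.restrictScalars k J := ⟨x, hx⟩
        obtain ⟨c, hc⟩ : ∃ c : Fin (Module.finrank k ((Submodule.restrictScalars k J) ⧸
            ((Submodule.restrictScalars k (maximalIdeal T * J)).comap
              (Submodule.restrictScalars k J).subtype))) → k,
            ∑ i, c i • b i = ((Submodule.restrictScalars k (maximalIdeal T * J)).comap
              (Submodule.restrictScalars k J).subtype).mkQ xP :=
          ⟨_, b.sum_repr _⟩
        have h2 : xP - ∑ i, c i • s i ∈ (Submodule.restrictScalars k (maximalIdeal T * J)).comap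
              (Submodule.restrictScalars k J).subtype := by
          rw [← Submodule.Quotient.mk_eq_zero, ← Submodule.mkQ_apply, map_sub, map_sum, sub_eq_zero,
            ← hc]
          refine Finset.sum_congr rfl fun i _ => ?_
          rw [map_smul, hs]
        have h3 : x - ∑ i, c i • (s i : T) ∈ maximalIdeal T * J := by
          have h4 := Submodule.mem_comap.1 h2
          rw [map_sub, map_sum, Submodule.restrictScalars_mem] at h4
          exact h4
        rw [Submodule.mem_sup]
        refine ⟨∑ i, c i • (s i : T), ?_, _, h3, by abel⟩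
        refine Submodule.sum_mem _ fun i _ => ?_
        rw [Algebra.smul_def]
        exact Ideal.mul_mem_left _ _ (Ideal.subset_span ⟨i, rfl⟩)

end Pool.Agent.Helper3.DB.NAK
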