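import Pool.Agent.Helper3.DB.Stm

/-!
Module OB1: the obstruction cochain is a relative 2-cocycle.
-/

set_option autoImplicit false

namespace Pool.Agent.Helper3.DB.OB1

open IsLocalRing MZ Topology Filter

lemma artinRees (T : Type) [CommRing T] [IsLocalRing T] [IsNoetherianRing T] (J : Ideal T) :
    ∃ j : ℕ, (maximalIdeal T ^ j ⊔ maximalIdeal T * J) ⊓ J ≤ maximalIdeal T * J := by
  obtain ⟨k, hk⟩ := Ideal.exists_pow_inf_eq_pow_smul (M := T) (maximalIdeal T) J
  refine ⟨k + 1, ?_⟩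
  have h := hk (k + 1) (Nat.le_succ k)
  rw [Nat.add_sub_cancel_left, pow_one, smul_eq_mul, smul_eq_mul, smul_eq_mul, Ideal.mul_top,
    Ideal.mul_top] at h
  rintro x ⟨hx1, hx2⟩
  obtain ⟨a, ha, b, hb, rfl⟩ := Submodule.mem_sup.1 hx1
  have hbJ : b ∈ J := (Ideal.mul_le_right.trans le_rfl : maximalIdeal T * J ≤ J) hb
  have haJ : a ∈ J := by
    have := J.sub_mem hx2 hbJ
    simpa using this
  have h1 : a ∈ maximalIdeal T * (maximalIdeal T ^ k ⊓ J) := by
    rw [← h]
    exact ⟨ha, haJ⟩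
  exact Ideal.add_mem _ (Ideal.mul_mono_right inf_le_right h1) hb

/-- reduction of matrices modulo `I` -/
noncomputable def Q {T : Type} [CommRing T] (n : ℕ) (I : Ideal T) : Mt n T →+* Mt n (T ⧸ I) :=
  (Ideal.Quotient.mk I).mapMatrix

lemma Q_apply {T : Type} [CommRing T] (n : ℕ) (I : Ideal T) (X : Mt n T) :
    Q n I X = X.map (Ideal.Quotient.mk I) := rfl

lemma Q_eq_zero {T : Type} [CommRing T] {n : ℕ} {I : Ideal T} {X : Mt n T} :
    Q n I X = 0 ↔ ∀ a b, X a b ∈ I := by
  constructor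
  · intro h a b
    have := congrFun (congrFun h a) b
    exact Ideal.Quotient.eq_zero_iff_mem.1 this
  · intro h
    ext1 a b
    exact Ideal.Quotient.eq_zero_iff_mem.2 (h a b)

lemma Q_eq {T : Type} [CommRing T] {n : ℕ} {I : Ideal T} {X Y : Mt n T} :
    Q n I X = Q n I Y ↔ ∀ a b, (X - Y) a b ∈ I := by
  rw [← sub_eq_zero, ← map_sub, Q_eq_zero]

theorem main : S_OB1 := by
  intro k _ T _ _ _ _ hres G _ _ _ n ρ ι c C J γ γ' hker hc hC hJ hPL hSec l hl
  have hγ : ∀ g, Q n J (γ' g) = Q n J (γ g) := fun g => Q_eq.2 (hSec.near g)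
  have hmul : ∀ g h, Q n J (γ (g * h)) = Q n J (γ g) * Q n J (γ h) := by
    intro g h
    rw [← map_mul]
    exact Q_eq.2 (hPL.mul g h)
  -- the defect
  let F : G → G → Mt n T := fun g h => γ' g * γ' h - γ' (g * h)
  have hF : ∀ g h a b, F g h a b ∈ J := by
    intro g h
    rw [← Q_eq_zero]
    change Q n J (γ' g * γ' h - γ' (g * h)) = 0
    rw [map_sub, map_mul, hγ, hγ, hγ, hmul, sub_self]
  -- the residues
  have hr : ∀ g a b, γ' g a b - algebraMap k T ((ρ g : Mt n k) a b) ∈ maximalIdeal T := by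
    intro g a b
    have h1 := hJ (hSec.near g a b)
    have h2 := hPL.res g a b
    have h3 := Ideal.add_mem _ h1 h2
    have e : (γ' g - γ g) a b + (γ g - (ρ g : Mt n k).map (algebraMap k T)) a b =
        γ' g a b - algebraMap k T ((ρ g : Mt n k) a b) := by
      simp only [Matrix.sub_apply, Matrix.map_apply]
      ring
    rwa [e] at h3
  have hlm : ∀ (t y : T) (a : k), t - algebraMap k T a ∈ maximalIdeal T → y ∈ J →
      l (t * y) = a * l y := by
    intro t y a ht hy
    have h1 : t * y = (t - algebraMap k T a) * y + a • y := by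
      rw [Algebra.smul_def]
      ring
    rw [h1, map_add, hl _ (Ideal.mul_mem_mul ht hy), zero_add, map_smul, smul_eq_mul]
  have hL : ∀ g (X : Mt n T), (∀ a b, X a b ∈ J) →
      (γ' g * X).map l = (ρ g : Mt n k) * X.map l := by
    intro g X hX
    ext1 a b
    rw [Matrix.map_apply, Matrix.mul_apply, Matrix.mul_apply, map_sum]
    exact Finset.sum_congr rfl fun d _ => hlm _ _ _ (hr g a d) (hX d b)
  have hR : ∀ g (X : Mt n T), (∀ a b, X a b ∈ J) →
      (X * γ' g).map l = X.map l * (ρ g : Mt n k) := by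
    intro g X hX
    ext1 a b
    rw [Matrix.map_apply, Matrix.mul_apply, Matrix.mul_apply, map_sum]
    refine Finset.sum_congr rfl fun d _ => ?_
    rw [mul_comm, hlm _ _ _ (hr g d b) (hX a d), mul_comm]
    rfl
  have hobs : ∀ g h, obs ρ γ' l (g, h) =
      (F g h).map l * (((ρ (g * h))⁻¹ : GL (Fin n) k) : Mt n k) := fun _ _ => rfl
  refine ⟨⟨?_, ?_⟩, ?_, ?_⟩
  · -- local constancy
    obtain ⟨j, hj⟩ := artinRees T J
    have hlc := hSec.lc j
    rw [IsLocallyConstant.iff_eventually_eq] at hlc ⊢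
    rintro ⟨g, h⟩
    have hρ : ∀ g₀ : G, ∀ᶠ g' in 𝓝 g₀, ρ g' = ρ g₀ := by
      intro g₀
      have h1 : Continuous fun g' : G => g₀⁻¹ * g' := continuous_const.mul continuous_id
      have h2 : (fun g' : G => g₀⁻¹ * g') ⁻¹' (ρ.ker : Set G) ∈ 𝓝 g₀ := by
        refine (hker.preimage h1).mem_nhds ?_
        simp only [Set.mem_preimage, inv_mul_cancel]
        exact ρ.ker.one_mem
      filter_upwards [h2] with g' hg'
      have h3 : ρ (g₀⁻¹ * g') = 1 := hg'
      rw [map_mul, map_inv, inv_mul_eq_one] at h3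
      exact h3.symm
    have c1 : Tendsto (fun p : G × G => p.1) (𝓝 (g, h)) (𝓝 g) := continuous_fst.tendsto (g, h)
    have c2 : Tendsto (fun p : G × G => p.2) (𝓝 (g, h)) (𝓝 h) := continuous_snd.tendsto (g, h)
    have c3 : Tendsto (fun p : G × G => p.1 * p.2) (𝓝 (g, h)) (𝓝 (g * h)) :=
      continuous_mul.tendsto (g, h)
    filter_upwards [c1.eventually (hlc g), c2.eventually (hlc h), c3.eventually (hlc (g * h)),
      c3.eventually (hρ (g * h))] with p h1 h2 h3 h4
    obtain ⟨g', h'⟩ := p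
    have e1 : Q n (maximalIdeal T ^ j ⊔ maximalIdeal T * J) (γ' g') =
        Q n (maximalIdeal T ^ j ⊔ maximalIdeal T * J) (γ' g) := h1
    have e2 : Q n (maximalIdeal T ^ j ⊔ maximalIdeal T * J) (γ' h') =
        Q n (maximalIdeal T ^ j ⊔ maximalIdeal T * J) (γ' h) := h2
    have e3 : Q n (maximalIdeal T ^ j ⊔ maximalIdeal T * J) (γ' (g' * h')) =
        Q n (maximalIdeal T ^ j ⊔ maximalIdeal T * J) (γ' (g * h)) := h3
    have e4 : Q n (maximalIdeal T ^ j ⊔ maximalIdeal T * J) (F g' h') =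
        Q n (maximalIdeal T ^ j ⊔ maximalIdeal T * J) (F g h) := by
      change Q n _ (γ' g' * γ' h' - γ' (g' * h')) = Q n _ (γ' g * γ' h - γ' (g * h))
      rw [map_sub, map_sub, map_mul, map_mul, e1, e2, e3]
    rw [Q_eq] at e4
    have e5 : (F g' h').map l = (F g h).map l := by
      ext1 a b
      rw [Matrix.map_apply, Matrix.map_apply, ← sub_eq_zero, ← map_sub]
      apply hl
      exact hj ⟨e4 a b, J.sub_mem (hF g' h' a b) (hF g h a b)⟩
    have e6 : ρ (g' * h') = ρ (g * h) := h4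
    rw [hobs, hobs, e5, e6]
  · -- the cocycle identity
    intro g h d
    have key : γ' g * F h d - F (g * h) d + F g (h * d) - F g h * γ' d = 0 := by
      change γ' g * (γ' h * γ' d - γ' (h * d)) - (γ' (g * h) * γ' d - γ' (g * h * d)) +
        (γ' g * γ' (h * d) - γ' (g * (h * d))) - (γ' g * γ' h - γ' (g * h)) * γ' d = 0
      rw [mul_assoc g h d, mul_sub, sub_mul, mul_assoc (γ' g) (γ' h) (γ' d)]
      abel
    have key2 : (ρ g : Mt n k) * (F h d).map l - (F (g * h) d).map l + (F g (h * d)).map l -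
        (F g h).map l * (ρ d : Mt n k) = 0 := by
      rw [← hL g _ (hF h d), ← hR d _ (hF g h)]
      have h1 : (γ' g * F h d - F (g * h) d + F g (h * d) - F g h * γ' d).map l =
          (0 : Mt n T).map l := by rw [key]
      rw [← Matrix.map_sub _ (map_sub l), ← Matrix.map_add _ (map_add l),
        ← Matrix.map_sub _ (map_sub l), h1]
      ext1 a b
      exact map_zero l
    have e1 : ad ρ g (obs ρ γ' l (h, d)) = (ρ g : Mt n k) * (F h d).map l *
        (((ρ (g * h * d))⁻¹ : GL (Fin n) k) : Mt n k) := by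
      change (ρ g : Mt n k) * ((F h d).map l * (((ρ (h * d))⁻¹ : GL (Fin n) k) : Mt n k)) *
        (((ρ g)⁻¹ : GL (Fin n) k) : Mt n k) = _
      rw [mul_assoc g h d, map_mul ρ g (h * d), mul_inv_rev, Units.val_mul]
      simp only [mul_assoc]
    have e2 : obs ρ γ' l (g, h) = (F g h).map l * (ρ d : Mt n k) *
        (((ρ (g * h * d))⁻¹ : GL (Fin n) k) : Mt n k) := by
      rw [hobs, map_mul ρ (g * h) d, mul_inv_rev, Units.val_mul, mul_assoc,
        ← mul_assoc (ρ d : Mt n k), ← Units.val_mul, mul_inv_cancel, Units.val_one, one_mul]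
    have e3 : obs ρ γ' l (g, h * d) = (F g (h * d)).map l *
        (((ρ (g * h * d))⁻¹ : GL (Fin n) k) : Mt n k) := by
      rw [hobs, mul_assoc g h d]
    rw [e1, e2, e3, hobs (g * h) d, ← sub_mul, ← add_mul, ← sub_mul, key2, zero_mul]
  · -- the value at (1, 1)
    have e : F 1 1 = 0 := by
      change γ' 1 * γ' 1 - γ' (1 * 1) = 0
      rw [mul_one, hSec.one, mul_one, sub_self]
    rw [hobs, e]
    have e' : (0 : Mt n T).map l = 0 := by
      ext1 a b
      exact map_zero l
    rw [e', zero_mul]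
  · intro i
    have e : F (c i) (c i) = 0 := by
      change γ' (c i) * γ' (c i) - γ' (c i * c i) = 0
      rw [hc, hSec.one, hSec.val, hC, sub_self]
    rw [hobs, e]
    have e' : (0 : Mt n T).map l = 0 := by
      ext1 a b
      exact map_zero l
    rw [e', zero_mul]

end Pool.Agent.Helper3.DB.OB1

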