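import Pool.Agent.Helper3.DB.Stm

/-!
# Module OB2: a vanishing obstruction contradicts minimality
-/

set_option autoImplicit false

namespace Pool.Agent.Helper3.DB.OB2

open IsLocalRing MZ Pool.Agent.Helper3.DB

section

variable {k : Type} [Field k] {T : Type} [CommRing T] [IsLocalRing T] [Algebra k T]

/-- the ideal `J ∩ ker l` -/
def Jk (hres : ResK k T) (J : Ideal T) (l : T →ₗ[k] k) (hl : ∀ x ∈ maximalIdeal T * J, l x = 0) :
    Ideal T where
  carrier := {x | x ∈ J ∧ l x = 0}
  add_mem' := by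
    rintro x y ⟨h1, h2⟩ ⟨h3, h4⟩
    exact ⟨add_mem h1 h3, by rw [map_add, h2, h4, add_zero]⟩
  zero_mem' := ⟨zero_mem _, map_zero _⟩
  smul_mem' := by
    rintro t x ⟨h1, h2⟩
    refine ⟨J.mul_mem_left t h1, ?_⟩
    obtain ⟨a, ha⟩ := hres t
    have e : t • x = a • x + (t - algebraMap k T a) * x := by
      rw [smul_eq_mul, Algebra.smul_def]
      ring
    rw [e, map_add, map_smul, h2, smul_zero, zero_add]
    exact hl _ (Ideal.mul_mem_mul ha h1)

theorem mem_Jk {hres : ResK k T} {J : Ideal T} {l : T →ₗ[k] k}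
    {hl : ∀ x ∈ maximalIdeal T * J, l x = 0} {x : T} : x ∈ Jk hres J l hl ↔ x ∈ J ∧ l x = 0 :=
  Iff.rfl

/-- a matrix congruent to a constant matrix -/
theorem l_mul {n : ℕ} {J : Ideal T} {l : T →ₗ[k] k} (hl : ∀ x ∈ maximalIdeal T * J, l x = 0) {e : T}
    (he : e ∈ J) (hle : l e = 1) (Y : Mt n T) (Y₀ : Mt n k)
    (h : (Ideal.Quotient.mk (maximalIdeal T)).mapMatrix Y =
      (Ideal.Quotient.mk (maximalIdeal T)).mapMatrix ((algebraMap k T).mapMatrix Y₀)) (a b : Fin n) :
    l (e * Y a b) = Y₀ a b := by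
  have h1 := congrFun (congrFun h a) b
  rw [RingHom.mapMatrix_apply, RingHom.mapMatrix_apply, RingHom.mapMatrix_apply, Matrix.map_apply,
    Matrix.map_apply, Matrix.map_apply, Ideal.Quotient.eq] at h1
  have e1 : e * Y a b = (Y₀ a b) • e + (Y a b - algebraMap k T (Y₀ a b)) * e := by
    rw [Algebra.smul_def]
    ring
  rw [e1, map_add, map_smul, hle, hl _ (Ideal.mul_mem_mul h1 he)]
  simp

omit [IsLocalRing T] in
theorem P_smul {n : ℕ} (I : Ideal T) {e : T} (he : e ∈ I) (X : Mt n T) :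
    (Ideal.Quotient.mk I).mapMatrix (e • X) = 0 := by
  ext a b
  rw [RingHom.mapMatrix_apply, Matrix.map_apply, Matrix.smul_apply, smul_eq_mul, Matrix.zero_apply,
    Ideal.Quotient.eq_zero_iff_mem]
  exact I.mul_mem_right _ he

omit [IsLocalRing T] in
theorem P_eq {n : ℕ} (I : Ideal T) (X Y : Mt n T) :
    (Ideal.Quotient.mk I).mapMatrix X = (Ideal.Quotient.mk I).mapMatrix Y ↔
      ∀ a b, (X - Y) a b ∈ I := by
  constructor
  · intro h a b
    have h1 := congrFun (congrFun h a) b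
    rw [RingHom.mapMatrix_apply, RingHom.mapMatrix_apply, Matrix.map_apply, Matrix.map_apply,
      Ideal.Quotient.eq] at h1
    exact h1
  · intro h
    ext a b
    rw [RingHom.mapMatrix_apply, RingHom.mapMatrix_apply, Matrix.map_apply, Matrix.map_apply,
      Ideal.Quotient.eq]
    exact h a b

end

theorem main : S_OB2 := by
  intro k _ T _ _ _ _ hres G _ _ _ n ρ ι c C J γ γ' hopen hJ hPL hMin hSec l hl hobs
  by_contra hcon
  push Not at hcon
  obtain ⟨e₀, he₀, hle₀⟩ := hcon
  set e : T := (l e₀)⁻¹ • e₀ with he'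
  have he : e ∈ J := by
    rw [he', Algebra.smul_def]
    exact J.mul_mem_left _ he₀
  have hle : l e = 1 := by
    rw [he', map_smul, smul_eq_mul, inv_mul_cancel₀ hle₀]
  have hem : e ∈ maximalIdeal T := hJ he
  obtain ⟨φ, hφ, hφ1, hφc, hd⟩ := hobs
  set A := (algebraMap k T).mapMatrix (m := Fin n) with hA
  obtain ⟨γ'', hγ''⟩ : ∃ γ'' : G → Mt n T, ∀ g, γ'' g = (1 - e • A (φ g)) * γ' g :=
    ⟨_, fun _ => rfl⟩
  set J' := Jk hres J l hl with hJ'
  have hJJ : J' ≤ J := fun x hx => hx.1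
  have hmJ : maximalIdeal T * J ≤ J' := fun x hx => ⟨Ideal.mul_le_right hx, hl x hx⟩
  -- reductions modulo `J` and `m`
  have hγJ : ∀ g, (Ideal.Quotient.mk J).mapMatrix (γ' g) = (Ideal.Quotient.mk J).mapMatrix (γ g) :=
    fun g => (P_eq J _ _).2 (hSec.near g)
  have hγm : ∀ g, (Ideal.Quotient.mk (maximalIdeal T)).mapMatrix (γ' g) =
      (Ideal.Quotient.mk (maximalIdeal T)).mapMatrix (A (ρ g : Mt n k)) := by
    intro g
    rw [P_eq]
    intro a b
    have h1 := hJ (hSec.near g a b)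
    have h2 := hPL.res g a b
    have h3 := add_mem h1 h2
    have e1 : (γ' g - γ g) a b + (γ g - (ρ g : Mt n k).map (algebraMap k T)) a b =
        (γ' g - A (ρ g : Mt n k)) a b := by
      rw [hA, RingHom.mapMatrix_apply, ← Matrix.add_apply, sub_add_sub_cancel]
    rwa [e1] at h3
  have hmulJ : ∀ g h, (Ideal.Quotient.mk J).mapMatrix (γ g * γ h) =
      (Ideal.Quotient.mk J).mapMatrix (γ (g * h)) := fun g h =>
    ((P_eq J _ _).2 (hPL.mul g h)).symm
  have hnear : ∀ g, (Ideal.Quotient.mk J).mapMatrix (γ'' g) =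
      (Ideal.Quotient.mk J).mapMatrix (γ g) := by
    intro g
    rw [hγ'', map_mul, map_sub, map_one, P_smul J he, sub_zero, one_mul, hγJ]
  -- the multiplicativity
  have hmul : ∀ g h a b, (γ'' (g * h) - γ'' g * γ'' h) a b ∈ J' := by
    intro g h a b
    have h1 : (γ'' (g * h) - γ'' g * γ'' h) a b ∈ J := by
      refine (P_eq J _ _).1 ?_ a b
      rw [map_mul (Ideal.Quotient.mk J).mapMatrix (γ'' g) (γ'' h), hnear, hnear, hnear, ← map_mul,
        hmulJ]
    refine ⟨h1, ?_⟩
    set D : Mt n T := γ' g * γ' h - γ' (g * h) with hD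
    set Y : Mt n T := A (φ g) * γ' g * γ' h + γ' g * A (φ h) * γ' h -
      e • (A (φ g) * γ' g * A (φ h) * γ' h) - A (φ (g * h)) * γ' (g * h) with hY
    set Y₀ : Mt n k := φ g * (ρ g : Mt n k) * (ρ h : Mt n k) + (ρ g : Mt n k) * φ h * (ρ h : Mt n k) -
      φ (g * h) * (ρ (g * h) : Mt n k) with hY₀
    have e1 : γ'' (g * h) - γ'' g * γ'' h = e • Y - D := by
      rw [hγ'', hγ'', hγ'', hY, hD]
      simp only [sub_mul, mul_sub, one_mul, Matrix.smul_mul, Matrix.mul_smul, smul_sub,
        smul_add, Matrix.mul_assoc]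
      abel
    have e2 : (Ideal.Quotient.mk (maximalIdeal T)).mapMatrix Y =
        (Ideal.Quotient.mk (maximalIdeal T)).mapMatrix (A Y₀) := by
      rw [hY, hY₀]
      simp only [map_sub, map_add, map_mul, P_smul (maximalIdeal T) hem, hγm, sub_zero]
    have e3 : D.map l = Y₀ := by
      have f1 := congrFun hd (g, h)
      have f2 : D.map l = obs ρ γ' l (g, h) * (ρ (g * h) : Mt n k) := by
        unfold obs
        dsimp only
        rw [Matrix.mul_assoc, ← Matrix.GeneralLinearGroup.coe_mul, inv_mul_cancel,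
          Matrix.GeneralLinearGroup.coe_one, Matrix.mul_one]
      rw [f2, ← f1, hY₀]
      change ((ρ g : Mt n k) * φ h * ((ρ g)⁻¹ : GL (Fin n) k) - φ (g * h) + φ g) * _ = _
      have f3 : (ρ (g * h) : Mt n k) = (ρ g : Mt n k) * (ρ h : Mt n k) := by
        rw [map_mul, Matrix.GeneralLinearGroup.coe_mul]
      have f4 : (((ρ g)⁻¹ : GL (Fin n) k) : Mt n k) * (ρ g : Mt n k) = 1 := by
        rw [← Matrix.GeneralLinearGroup.coe_mul, inv_mul_cancel, Matrix.GeneralLinearGroup.coe_one]
      have f5 : (ρ g : Mt n k) * φ h * (((ρ g)⁻¹ : GL (Fin n) k) : Mt n k) *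
          ((ρ g : Mt n k) * (ρ h : Mt n k)) = (ρ g : Mt n k) * φ h * (ρ h : Mt n k) := by
        rw [Matrix.mul_assoc, ← Matrix.mul_assoc _ (ρ g : Mt n k), f4, Matrix.one_mul]
      rw [f3, add_mul, sub_mul, f5, Matrix.mul_assoc (φ g)]
      abel
    have e4 : (γ'' (g * h) - γ'' g * γ'' h) a b = e * Y a b - D a b := by
      rw [e1]
      rfl
    have e5 : l (D a b) = Y₀ a b := by
      rw [← e3]
      rfl
    rw [e4, map_sub, l_mul hl he hle Y Y₀ e2, e5, sub_self]
  have hPL' : PL ρ c C J' γ'' := by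
    refine ⟨hmul, ?_, ?_, ?_, ?_⟩
    · intro a b
      have : γ'' 1 - 1 = 0 := by
        rw [hγ'', hφ1, map_zero, smul_zero, sub_zero, one_mul, hSec.one, sub_self]
      rw [this]
      exact zero_mem _
    · intro g
      refine (P_eq (maximalIdeal T) _ _).1 ?_
      rw [hγ'', map_mul, map_sub, map_one, P_smul _ hem, sub_zero, one_mul, hγm]
      rfl
    · intro j
      set I := maximalIdeal T ^ j ⊔ maximalIdeal T * J with hI
      have hII : I ≤ maximalIdeal T ^ j ⊔ J' := sup_le_sup le_rfl hmJ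
      have hlc : IsLocallyConstant fun g => (γ'' g).map (Ideal.Quotient.mk I) := by
        have h1 : (fun g => (γ'' g).map (Ideal.Quotient.mk I)) =
            fun g => (Ideal.Quotient.mk I).mapMatrix (1 - e • A (φ g)) *
              (γ' g).map (Ideal.Quotient.mk I) := by
          funext g
          rw [hγ'', ← RingHom.mapMatrix_apply, map_mul]
          rfl
        rw [h1]
        exact (hφ.comp (fun X => (Ideal.Quotient.mk I).mapMatrix (1 - e • A X))).comp₂
          (hSec.lc j) (fun X Y => X * Y)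
      have h2 : {g : G | ∀ a b, (γ'' g - 1) a b ∈ maximalIdeal T ^ j ⊔ J'} =
          (fun g => (γ'' g).map (Ideal.Quotient.mk I)) ⁻¹'
            {X | ∀ Z : Mt n T, Z.map (Ideal.Quotient.mk I) = X →
              ∀ a b, (Z - 1) a b ∈ maximalIdeal T ^ j ⊔ J'} := by
        ext g
        constructor
        · intro hg Z hZ a b
          have h3 : ∀ a b, (Z - γ'' g) a b ∈ I := (P_eq I _ _).1 hZ
          have h4 := add_mem (hII (h3 a b)) (hg a b)
          rwa [← Matrix.add_apply, sub_add_sub_cancel] at h4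
        · intro hg
          exact hg (γ'' g) rfl
      rw [h2]
      exact hlc _
    · intro i a b
      have : γ'' (c i) - C i = 0 := by
        rw [hγ'', hφc i, map_zero, smul_zero, sub_zero, one_mul, hSec.val, sub_self]
      rw [this]
      exact zero_mem _
  have hfin := hMin J' γ'' hJJ hPL' (fun g => (P_eq J _ _).1 (hnear g))
  have : e ∈ J' := by
    rw [hfin]
    exact he
  have h1 := this.2
  rw [hle] at h1
  exact one_ne_zero h1

end Pool.Agent.Helper3.DB.OB2
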