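import Pool.Agent.Helper3.DB.Stm

/-! # SCH: Schur's lemma -/

set_option autoImplicit false

namespace Pool.Agent.Helper3.DB.SCH

open MZ

variable {k : Type} [Field k] {G : Type} [Group G] [TopologicalSpace G] {n : ℕ}

lemma comm {ρ : G →* GL (Fin n) k} {X : Mt n k} (hX : d0 ρ X = 0) (g : G) :
    (ρ g : Mt n k) * X = X * (ρ g : Mt n k) := by
  have h1 : ad ρ g X - X = 0 := congrFun hX g
  have h2 : (ρ g : Mt n k) * X * ((ρ g)⁻¹ : GL (Fin n) k) = X := sub_eq_zero.1 h1
  have h3 : (((ρ g)⁻¹ : GL (Fin n) k) : Mt n k) * (ρ g : Mt n k) = 1 := by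
    rw [← Units.val_mul, inv_mul_cancel, Units.val_one]
  calc (ρ g : Mt n k) * X = ((ρ g : Mt n k) * X * ((ρ g)⁻¹ : GL (Fin n) k)) * (ρ g : Mt n k) := by
        rw [mul_assoc _ _ (ρ g : Mt n k), h3, mul_one]
    _ = X * (ρ g : Mt n k) := by rw [h2]

lemma scalar {ρ : G →* GL (Fin n) k} (hn : 1 ≤ n) (hρ : AbsIrred ρ) {X : Mt n k}
    (hX : d0 ρ X = 0) : ∃ a : k, X = a • (1 : Mt n k) := by
  classical
  set K := AlgebraicClosure k with hK
  set f : k →+* K := algebraMap k K with hf
  set Y : Matrix (Fin n) (Fin n) K := X.map f with hY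
  have : Inhabited (Fin n) := ⟨⟨0, hn⟩⟩
  have : Nontrivial (Fin n → K) := Pi.nontrivial
  obtain ⟨c, hc⟩ := Module.End.exists_eigenvalue (K := K) (Matrix.toLin' Y)
  have hV := hρ (Module.End.eigenspace (Matrix.toLin' Y) c) (by
    intro g x hx
    rw [Module.End.mem_eigenspace_iff, Matrix.toLin'_apply] at hx ⊢
    have e1 : Y * ((ρ g : Mt n k).map f) = ((ρ g : Mt n k).map f) * Y := by
      have := congrArg (fun M : Mt n k => M.map f) (comm hX g)
      simp only [Matrix.map_mul] at this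
      exact this.symm
    rw [Matrix.mulVec_mulVec, e1, ← Matrix.mulVec_mulVec, hx, Matrix.mulVec_smul])
  have htop : Module.End.eigenspace (Matrix.toLin' Y) c = ⊤ := by
    rcases hV with h | h
    · exact absurd h hc
    · exact h
  have hYc : Y = c • (1 : Matrix (Fin n) (Fin n) K) := by
    apply Matrix.toLin'.injective
    apply LinearMap.ext
    intro x
    have hx : x ∈ Module.End.eigenspace (Matrix.toLin' Y) c := by
      rw [htop]
      exact Submodule.mem_top
    rw [Module.End.mem_eigenspace_iff] at hx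
    rw [hx, map_smul, LinearMap.smul_apply, Matrix.toLin'_one, LinearMap.id_apply]
  refine ⟨X ⟨0, hn⟩ ⟨0, hn⟩, ?_⟩
  have hentry : ∀ i j, f (X i j) = c * (1 : Matrix (Fin n) (Fin n) K) i j := by
    intro i j
    have := congrFun (congrFun hYc i) j
    simpa [hY, Matrix.map_apply, Matrix.smul_apply] using this
  have h0 : f (X ⟨0, hn⟩ ⟨0, hn⟩) = c := by
    rw [hentry, Matrix.one_apply_eq, mul_one]
  ext i j
  apply f.injective
  rw [hentry, Matrix.smul_apply, smul_eq_mul, map_mul, h0]
  congr 1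
  by_cases hij : i = j
  · subst hij
    rw [Matrix.one_apply_eq, Matrix.one_apply_eq, map_one]
  · rw [Matrix.one_apply_ne hij, Matrix.one_apply_ne hij, map_zero]

lemma ker_le {ρ : G →* GL (Fin n) k} (hn : 1 ≤ n) (hρ : AbsIrred ρ) :
    Module.finrank k (LinearMap.ker (d0 ρ)) ≤ 1 := by
  have h1 : LinearMap.ker (d0 ρ) ≤ Submodule.span k {(1 : Mt n k)} := by
    intro X hX
    obtain ⟨a, ha⟩ := scalar hn hρ (LinearMap.mem_ker.1 hX)
    rw [ha]
    exact Submodule.smul_mem _ _ (Submodule.mem_span_singleton_self _)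
  refine (Submodule.finrank_mono h1).trans ?_
  have h2 := finrank_span_finset_le_card (R := k) ({(1 : Mt n k)} : Finset (Mt n k))
  rw [Finset.coe_singleton, Finset.card_singleton] at h2
  exact h2

lemma range_le [IsTopologicalGroup G] {ρ : G →* GL (Fin n) k} (ho : IsOpen (ρ.ker : Set G)) :
    LinearMap.range (d0 ρ) ≤ Z1 ρ := by
  rintro _ ⟨X, rfl⟩
  constructor
  · rw [IsLocallyConstant.iff_exists_open]
    intro g
    refine ⟨(fun h => g⁻¹ * h) ⁻¹' (ρ.ker : Set G), ho.preimage (continuous_const.mul continuous_id),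
      by simp, ?_⟩
    intro h hh
    have h1 : ρ h = ρ g := by
      have : ρ (g⁻¹ * h) = 1 := hh
      rw [map_mul, map_inv, inv_mul_eq_one] at this
      exact this.symm
    show ad ρ h X - X = ad ρ g X - X
    unfold ad
    simp only [LinearMap.coe_mk, AddHom.coe_mk, h1]
  · intro g h
    show ad ρ (g * h) X - X = (ad ρ g X - X) + ad ρ g (ad ρ h X - X)
    have h1 : ad ρ (g * h) X = ad ρ g (ad ρ h X) := by
      unfold ad
      simp only [LinearMap.coe_mk, AddHom.coe_mk, map_mul, mul_inv_rev, Units.val_mul]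
      simp only [mul_assoc]
    rw [h1, map_sub]
    abel

theorem main : S_SCH := by
  intro k _ G _ _ _ n ρ hn ho hρ hfin
  have hr := range_le ho
  have h2 := LinearMap.finrank_range_add_finrank_ker (d0 ρ)
  have h3 := ker_le hn hρ
  have h4 : Module.finrank k (Mt n k) = n ^ 2 := by
    rw [Module.finrank_matrix]
    simp [sq]
  rw [h4] at h2
  have h5 := Submodule.finrank_quotient_add_finrank
    ((LinearMap.range (d0 ρ)).comap (Z1 ρ).subtype)
  have h6 : Module.finrank k ((LinearMap.range (d0 ρ)).comap (Z1 ρ).subtype) =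
      Module.finrank k (LinearMap.range (d0 ρ)) :=
    (Submodule.comapSubtypeEquivOfLe hr).finrank_eq
  have h7 : h1 ρ = Module.finrank k
      ((Z1 ρ) ⧸ (LinearMap.range (d0 ρ)).comap (Z1 ρ).subtype) := rfl
  omega

end Pool.Agent.Helper3.DB.SCH
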