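import Pool.Agent.Helper3.DB.Stm

/-!
# SEC: continuous modification of a lift (project DB of helper3; this module by helper11)
-/

set_option autoImplicit false

namespace Pool.Agent.Helper3.DB.SEC

open IsLocalRing MZ Pool.Agent.Helper3.DB Filter Topology

/-- a `k`-linear projection onto `J` modulo `m J` killing `m ^ j₀` -/
lemma proj {k : Type} [Field k] {T : Type} [CommRing T] [IsLocalRing T] [IsNoetherianRing T] [Algebra k T]
    (J : Ideal T) : ∃ (j₀ : ℕ) (π : T →ₗ[k] T), (∀ t, π t ∈ J) ∧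
      (∀ t ∈ J, t - π t ∈ maximalIdeal T * J) ∧ ∀ t ∈ maximalIdeal T ^ j₀, π t = 0 := by
  obtain ⟨j, hj⟩ := Ideal.exists_pow_inf_eq_pow_smul (M := T) (maximalIdeal T) J
  have hAR : maximalIdeal T ^ (j + 1) ⊓ J ≤ maximalIdeal T * J := by
    have h1 := hj (j + 1) (by omega)
    have h2 : maximalIdeal T ^ (j + 1) ⊓ J = (maximalIdeal T ^ (j + 1) • (⊤ : Submodule T T)) ⊓ J := by
      rw [smul_eq_mul, Ideal.mul_top]
    rw [h2, h1, Nat.add_sub_cancel_left, pow_one, smul_eq_mul]
    exact Ideal.mul_mono_right inf_le_right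
  have hmJ : maximalIdeal T * J ≤ J := Ideal.mul_le.2 fun r _ s hs => J.mul_mem_left r hs
  set W : Submodule k T := (maximalIdeal T ^ (j + 1) ⊔ maximalIdeal T * J).restrictScalars k with hW
  set Jk : Submodule k T := J.restrictScalars k with hJk
  set Mk : Submodule k T := (maximalIdeal T * J).restrictScalars k with hMk
  have hMJ : Mk ≤ Jk := fun x hx => hmJ hx
  have hMW : Mk ≤ W := fun x hx => (le_sup_right : _ ≤ maximalIdeal T ^ (j + 1) ⊔ maximalIdeal T * J) hx
  have hJW : Jk ⊓ W ≤ Mk := by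
    rintro x ⟨hx, hx'⟩
    change x ∈ J at hx
    change x ∈ maximalIdeal T ^ (j + 1) ⊔ maximalIdeal T * J at hx'
    change x ∈ maximalIdeal T * J
    obtain ⟨a, ha, b, hb, rfl⟩ := Submodule.mem_sup.1 hx'
    have ha' : a ∈ J := by
      have := J.sub_mem hx (hmJ hb)
      rwa [add_sub_cancel_right] at this
    exact add_mem (hAR ⟨ha, ha'⟩) hb
  -- complement of `Mk` in `Jk`
  obtain ⟨D₀, hD₀⟩ := exists_isCompl Mk
  set D : Submodule k T := D₀ ⊓ Jk with hD
  have hDM : Disjoint W D := by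
    rw [disjoint_iff, eq_bot_iff]
    rintro x ⟨hx1, hx2, hx3⟩
    have h1 : x ∈ Mk := hJW ⟨hx3, hx1⟩
    have h2 : x ∈ Mk ⊓ D₀ := ⟨h1, hx2⟩
    rwa [hD₀.inf_eq_bot] at h2
  obtain ⟨E, hWE, hE⟩ := hDM.exists_isCompl
  refine ⟨j + 1, D.subtype ∘ₗ D.projectionOnto E hE.symm, fun t => ?_, fun t ht => ?_, fun t ht => ?_⟩
  · exact (D.projectionOnto E hE.symm t).2.2
  · obtain ⟨m, hm, d, hd, hmd⟩ : ∃ m ∈ Mk, ∃ d ∈ D₀, m + d = t := by
      have : t ∈ Mk ⊔ D₀ := by rw [hD₀.sup_eq_top]; trivial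
      exact Submodule.mem_sup.1 this
    have hdJ : d ∈ Jk := by
      have h3 : t ∈ Jk := ht
      have := sub_mem h3 (hMJ hm)
      rwa [← hmd, add_sub_cancel_left] at this
    have hdD : d ∈ D := ⟨hd, hdJ⟩
    have h4 : D.projectionOnto E hE.symm m = 0 :=
      (Submodule.projectionOnto_apply_eq_zero_iff hE.symm).2 (hWE (hMW hm))
    have h5 : D.projectionOnto E hE.symm d = ⟨d, hdD⟩ :=
      Submodule.projectionOnto_apply_left hE.symm ⟨d, hdD⟩
    rw [← hmd, LinearMap.comp_apply, map_add, h4, h5, zero_add]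
    change m + d - d ∈ _
    rw [add_sub_cancel_right]
    exact hm
  · have h4 : D.projectionOnto E hE.symm t = 0 :=
      (Submodule.projectionOnto_apply_eq_zero_iff hE.symm).2
        (hWE ((le_sup_left : maximalIdeal T ^ (j + 1) ≤ maximalIdeal T ^ (j + 1) ⊔ maximalIdeal T * J) ht))
    rw [LinearMap.comp_apply, h4]
    rfl

/-- products of congruent matrices -/
lemma mul_near {T : Type} [CommRing T] {n : ℕ} {I : Ideal T} {A B : Mt n T}
    (h : ∀ a b, (B - 1) a b ∈ I) : ∀ a b, (A * B - A) a b ∈ I := by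
  intro a b
  have : A * B - A = A * (B - 1) := by rw [mul_sub, mul_one]
  rw [this, Matrix.mul_apply]
  exact Ideal.sum_mem _ fun x _ => I.mul_mem_left _ (h x b)

/-- a lift is locally constant modulo `m ^ j ⊔ J` -/
lemma loc {k : Type} [Field k] {T : Type} [CommRing T] [IsLocalRing T] [Algebra k T]
    {G : Type} [Group G] [TopologicalSpace G] [IsTopologicalGroup G] {n : ℕ} {ρ : G →* GL (Fin n) k} {ι : Type}
    {c : ι → G} {C : ι → Mt n T} {J : Ideal T} {γ : G → Mt n T} (h : PL ρ c C J γ) (j : ℕ) (g : G) :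
    ∀ᶠ x in 𝓝 g, ∀ a b, (γ x - γ g) a b ∈ maximalIdeal T ^ j ⊔ J := by
  have h1 : ∀ᶠ u in 𝓝 (1 : G), ∀ a b, (γ u - 1) a b ∈ maximalIdeal T ^ j ⊔ J :=
    (h.cont j).mem_nhds fun a b => (le_sup_right : J ≤ maximalIdeal T ^ j ⊔ J) (h.one a b)
  have h2 : Tendsto (fun x => g⁻¹ * x) (𝓝 g) (𝓝 (1 : G)) := by
    have : Continuous fun x : G => g⁻¹ * x := by fun_prop
    have h3 := this.tendsto g
    rwa [inv_mul_cancel] at h3
  filter_upwards [h2.eventually h1] with x hx a b
  have e1 := h.mul g (g⁻¹ * x) a b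
  rw [mul_inv_cancel_left] at e1
  have e2 := mul_near (A := γ g) hx a b
  have : (γ x - γ g) a b = (γ x - γ g * γ (g⁻¹ * x)) a b + (γ g * γ (g⁻¹ * x) - γ g) a b := by
    simp only [Matrix.sub_apply]
    ring
  rw [this]
  exact add_mem ((le_sup_right : J ≤ maximalIdeal T ^ j ⊔ J) e1) e2

theorem main : S_SEC := by
  intro k _ _ T _ _ _ _ _ hres G _ _ _ _ _ n ρ ι _ c C J γ hc hc1 hJ h
  classical
  obtain ⟨j₀, π, hπ1, hπ2, hπ3⟩ := proj (k := k) J
  -- the points
  set P : Option ι → G := fun o => o.elim 1 c with hP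
  have hPinj : Function.Injective P := by
    rintro (_ | i) (_ | j) hij
    · rfl
    · exact absurd hij.symm (hc1 j)
    · exact absurd hij (hc1 i)
    · exact congrArg some (hc hij)
  set Dv : Option ι → Mt n T := fun o => o.elim 1 C with hDv
  have hV : ∀ o, ∃ V : Set G, IsClopen V ∧ P o ∈ V ∧ ∀ o', o' ≠ o → P o' ∉ V := by
    intro o
    have hfin : (P '' {o' | o' ≠ o}).Finite := Set.toFinite _
    obtain ⟨V, h1, h2, h3⟩ := compact_exists_isClopen_in_isOpen (x := P o) hfin.isClosed.isOpen_compl (by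
      rintro ⟨o', ho', he⟩
      exact ho' (hPinj he))
    exact ⟨V, h1, h2, fun o' ho' hm => h3 hm ⟨o', ho', rfl⟩⟩
  choose V hV1 hV2 hV3 using hV
  have : Fintype ι := Fintype.ofFinite ι
  set γ₁ : G → Mt n T := fun g => γ g - (γ g).map π with hγ₁
  set γ₂ : G → Mt n T := fun g => γ₁ g + ∑ o, if g ∈ V o then Dv o - γ₁ (P o) else 0 with hγ₂
  have hPd : ∀ o a b, (Dv o - γ (P o)) a b ∈ J := by
    rintro (_ | i) a b
    · have := h.one a b
      have h' : (Dv none - γ (P none)) a b = -((γ 1 - 1) a b) := by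
        simp only [hDv, hP, Option.elim, Matrix.sub_apply]
        ring
      rw [h']
      exact J.neg_mem this
    · have := h.val i a b
      have h' : (Dv (some i) - γ (P (some i))) a b = -((γ (c i) - C i) a b) := by
        simp only [hDv, hP, Option.elim, Matrix.sub_apply]
        ring
      rw [h']
      exact J.neg_mem this
  have hnear : ∀ g a b, (γ₁ g - γ g) a b ∈ J := by
    intro g a b
    have : (γ₁ g - γ g) a b = -π (γ g a b) := by
      simp only [hγ₁, Matrix.sub_apply, Matrix.map_apply]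
      ring
    rw [this]
    exact J.neg_mem (hπ1 _)
  have hPd' : ∀ o a b, (Dv o - γ₁ (P o)) a b ∈ J := by
    intro o a b
    have : (Dv o - γ₁ (P o)) a b = (Dv o - γ (P o)) a b - (γ₁ (P o) - γ (P o)) a b := by
      simp only [Matrix.sub_apply]
      ring
    rw [this]
    exact sub_mem (hPd o a b) (hnear _ a b)
  have hval : ∀ o, γ₂ (P o) = Dv o := by
    intro o
    have : (∑ o', if P o ∈ V o' then Dv o' - γ₁ (P o') else 0) = Dv o - γ₁ (P o) := by
      rw [Finset.sum_eq_single o]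
      · rw [if_pos (hV2 o)]
      · intro o' _ ho'
        rw [if_neg (hV3 o' o (Ne.symm ho'))]
      · intro h
        exact absurd (Finset.mem_univ _) h
    simp only [hγ₂, this]
    abel
  refine ⟨γ₂, ?_, hval none, fun i => hval (some i), ?_⟩
  · intro g a b
    have : (γ₂ g - γ g) a b = (γ₁ g - γ g) a b +
        (∑ o, if g ∈ V o then Dv o - γ₁ (P o) else 0 : Mt n T) a b := by
      simp only [hγ₂, Matrix.sub_apply, Matrix.add_apply]
      ring
    rw [this]
    refine add_mem (hnear g a b) ?_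
    rw [Matrix.sum_apply]
    refine Ideal.sum_mem _ fun o _ => ?_
    by_cases ho : g ∈ V o
    · rw [if_pos ho]
      exact hPd' o a b
    · rw [if_neg ho]
      exact J.zero_mem
  · intro j
    rw [IsLocallyConstant.iff_eventually_eq]
    intro g
    have hVe : ∀ᶠ x in 𝓝 g, ∀ o, (x ∈ V o ↔ g ∈ V o) := by
      rw [Filter.eventually_all]
      intro o
      by_cases ho : g ∈ V o
      · filter_upwards [(hV1 o).isOpen.mem_nhds ho] with x hx
        exact ⟨fun _ => ho, fun _ => hx⟩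
      · filter_upwards [(hV1 o).compl.isOpen.mem_nhds ho] with x hx
        exact ⟨fun h => absurd h hx, fun h => absurd h ho⟩
    filter_upwards [hVe, loc h (max j j₀) g] with x hx1 hx2
    ext a b
    simp only [Matrix.map_apply]
    rw [Ideal.Quotient.eq]
    have e1 : γ₂ x a b - γ₂ g a b = (γ x - γ g) a b - π ((γ x - γ g) a b) := by
      obtain ⟨S, hS⟩ : ∃ S : Mt n T, S = ∑ o, if g ∈ V o then Dv o - γ₁ (P o) else 0 := ⟨_, rfl⟩
      have hS' : (∑ o, if x ∈ V o then Dv o - γ₁ (P o) else 0 : Mt n T) = S := by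
        rw [hS]
        exact Finset.sum_congr rfl fun o _ => by simp only [hx1 o]
      have k1 : γ₂ x = γ₁ x + S := by rw [← hS']
      have k2 : γ₂ g = γ₁ g + S := by rw [hS]
      rw [k1, k2]
      simp only [hγ₁, Matrix.sub_apply, Matrix.add_apply, Matrix.map_apply, map_sub]
      ring
    rw [e1]
    obtain ⟨u, hu, v, hv, huv⟩ := Submodule.mem_sup.1 (hx2 a b)
    rw [← huv, map_add, hπ3 u (Ideal.pow_le_pow_right (le_max_right _ _) hu)]
    have : u + v - (0 + π v) = u + (v - π v) := by ring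
    rw [this]
    exact Submodule.add_mem_sup (Ideal.pow_le_pow_right (le_max_left _ _) hu) (hπ2 v hv)

end Pool.Agent.Helper3.DB.SEC
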