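import Pool.Agent.Helper3.DB.Stm

/-!
# MP_aa8fd2_nt, project DB, module TAN: the first order family is a lift
-/

set_option autoImplicit false

namespace Pool.Agent.Helper3.DB.TAN

open IsLocalRing MZ

section

variable {k : Type} [Field k] {T : Type} [CommRing T] [Algebra k T]
  {G : Type} [Group G] [TopologicalSpace G] {n : ℕ}

/-- `∑ x_j φ_j(g)` -/
def PP {z : ℕ} (x : Fin z → T) (ψ : Fin z → Mt n k) : Mt n T :=
  ∑ j, x j • (ψ j).map (algebraMap k T)

lemma PP_add {z : ℕ} (x : Fin z → T) (ψ ψ' : Fin z → Mt n k) :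
    PP x (fun j => ψ j + ψ' j) = PP x ψ + PP x ψ' := by
  simp only [PP]
  rw [← Finset.sum_add_distrib]
  refine Finset.sum_congr rfl fun j _ => ?_
  rw [← smul_add]
  congr 1
  ext a b
  simp

lemma map_mul' (X Y : Mt n k) :
    (X * Y).map (algebraMap k T) = X.map (algebraMap k T) * Y.map (algebraMap k T) :=
  Matrix.map_mul

lemma PP_ad {z : ℕ} (ρ : G →* GL (Fin n) k) (x : Fin z → T) (ψ : Fin z → Mt n k) (g : G) :
    (ρ g : Mt n k).map (algebraMap k T) * PP x ψ =
      PP x (fun j => ad ρ g (ψ j)) * (ρ g : Mt n k).map (algebraMap k T) := by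
  simp only [PP, Finset.mul_sum, Finset.sum_mul]
  refine Finset.sum_congr rfl fun j _ => ?_
  rw [Matrix.mul_smul, Matrix.smul_mul, ← map_mul', ← map_mul']
  congr 2
  change _ = (ρ g : Mt n k) * ψ j * (((ρ g)⁻¹ : GL (Fin n) k) : Mt n k) * (ρ g : Mt n k)
  rw [mul_assoc, ← Units.val_mul, inv_mul_cancel, Units.val_one, mul_one]

lemma ad_one (ρ : G →* GL (Fin n) k) (X : Mt n k) : ad ρ 1 X = X := by
  change (ρ 1 : Mt n k) * X * (((ρ 1)⁻¹ : GL (Fin n) k) : Mt n k) = X
  rw [map_one, inv_one, Units.val_one, one_mul, mul_one]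

lemma Z1_one {ρ : G →* GL (Fin n) k} {φ : G → Mt n k} (hφ : φ ∈ Z1 ρ) : φ 1 = 0 := by
  have h := hφ.2 1 1
  rw [mul_one, ad_one] at h
  simpa using h

lemma PP_zero {z : ℕ} (x : Fin z → T) (ψ : Fin z → Mt n k) (h : ∀ j, ψ j = 0) : PP x ψ = 0 := by
  simp only [PP, h]
  refine Finset.sum_eq_zero fun j _ => ?_
  ext a b
  simp

lemma PP_mem {z : ℕ} (I : Ideal T) (x : Fin z → T) (hx : ∀ j, x j ∈ I) (ψ : Fin z → Mt n k) (a b : Fin n) :
    PP x ψ a b ∈ I := by
  simp only [PP, Matrix.sum_apply, Matrix.smul_apply, smul_eq_mul]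
  exact Ideal.sum_mem _ fun j _ => Ideal.mul_mem_right _ _ (hx j)

lemma mulR_mem (I : Ideal T) (X Y : Mt n T) (h : ∀ a b, X a b ∈ I) (a b : Fin n) : (X * Y) a b ∈ I := by
  rw [Matrix.mul_apply]
  exact Ideal.sum_mem _ fun j _ => Ideal.mul_mem_right _ _ (h a j)

lemma mul2_mem (I I' : Ideal T) (X Y : Mt n T) (h : ∀ a b, X a b ∈ I) (h' : ∀ a b, Y a b ∈ I')
    (a b : Fin n) : (X * Y) a b ∈ I * I' := by
  rw [Matrix.mul_apply]
  exact Ideal.sum_mem _ fun j _ => Ideal.mul_mem_mul (h a j) (h' j b)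

lemma lc_rho [IsTopologicalGroup G] (ρ : G →* GL (Fin n) k) (hρ : IsOpen (ρ.ker : Set G)) :
    IsLocallyConstant (fun g => ρ g) := by
  rw [IsLocallyConstant.iff_exists_open]
  intro g
  refine ⟨(fun h => g⁻¹ * h) ⁻¹' (ρ.ker : Set G), hρ.preimage (continuous_const_mul g⁻¹), ?_, ?_⟩
  · change g⁻¹ * g ∈ ρ.ker
    rw [inv_mul_cancel]; exact one_mem _
  · intro h hh
    have h1 : ρ (g⁻¹ * h) = 1 := hh
    rw [map_mul, map_inv, inv_mul_eq_one] at h1
    exact h1.symm

end

theorem main : S_TAN := by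
  intro k _ T _ _ _ G _ _ _ n ρ ι c C z x hρ hg φ hφ
  have hgam : ∀ g, gam1 ρ x φ g = (1 + PP x (fun j => φ j g)) * (ρ g : Mt n k).map (algebraMap k T) :=
    fun g => rfl
  have hm2 : maximalIdeal T ^ 2 ≤ entI (fun i => (ρ (c i) : Mt n k)) C ⊔ maximalIdeal T ^ 2 := le_sup_right
  refine ⟨?_, ?_, ?_, ?_, ?_⟩
  · intro g h a b
    apply hm2
    have e1 : gam1 ρ x φ (g * h) - gam1 ρ x φ g * gam1 ρ x φ h =
        -((PP x (fun j => φ j g) * PP x (fun j => ad ρ g (φ j h))) *
          ((ρ g : Mt n k).map (algebraMap k T) * (ρ h : Mt n k).map (algebraMap k T))) := by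
      have e2 : PP x (fun j => φ j (g * h)) = PP x (fun j => φ j g) + PP x (fun j => ad ρ g (φ j h)) := by
        rw [← PP_add]
        congr 1
        funext j
        exact (hφ j).1.2 g h
      have e3 : ((ρ (g * h) : GL (Fin n) k) : Mt n k).map (algebraMap k T) =
          (ρ g : Mt n k).map (algebraMap k T) * (ρ h : Mt n k).map (algebraMap k T) := by
        rw [map_mul, Units.val_mul, map_mul']
      rw [hgam, hgam, hgam, e2, e3]
      have e4 := PP_ad ρ x (fun j => φ j h) g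
      have e5 : (1 + PP x (fun j => φ j g)) * (ρ g : Mt n k).map (algebraMap k T) *
          ((1 + PP x (fun j => φ j h)) * (ρ h : Mt n k).map (algebraMap k T)) =
          (1 + PP x (fun j => φ j g)) * (1 + PP x (fun j => ad ρ g (φ j h))) *
          ((ρ g : Mt n k).map (algebraMap k T) * (ρ h : Mt n k).map (algebraMap k T)) := by
        rw [mul_assoc (1 + PP x (fun j => φ j g)), ← mul_assoc ((ρ g : Mt n k).map (algebraMap k T)),
          mul_add ((ρ g : Mt n k).map (algebraMap k T)), mul_one, e4]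
        noncomm_ring
      rw [e5]
      noncomm_ring
    rw [e1, Matrix.neg_apply]
    refine (Ideal.neg_mem_iff _).mpr (mulR_mem _ _ _ (fun a b => ?_) a b)
    rw [pow_two]
    exact mul2_mem _ _ _ _ (fun a b => PP_mem _ x hg.xm _ a b) (fun a b => PP_mem _ x hg.xm _ a b) a b
  · intro a b
    have : gam1 ρ x φ 1 = 1 := by
      rw [hgam, PP_zero x _ (fun j => Z1_one (hφ j).1), add_zero, one_mul, map_one, Units.val_one]
      exact Matrix.map_one _ (map_zero _) (map_one _)
    rw [this, sub_self]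
    exact zero_mem _
  · intro g a b
    have : gam1 ρ x φ g - (ρ g : Mt n k).map (algebraMap k T) =
        PP x (fun j => φ j g) * (ρ g : Mt n k).map (algebraMap k T) := by
      rw [hgam]; noncomm_ring
    rw [this]
    exact mulR_mem _ _ _ (fun a b => PP_mem _ x hg.xm _ a b) a b
  · intro j
    have hlc : IsLocallyConstant (fun g => ((fun j => φ j g : Fin z → Mt n k), ρ g)) :=
      IsLocallyConstant.prodMk ((IsLocallyConstant.iff_exists_open _).mpr (by
        intro g
        choose U hU hgU hc using fun j => ((hφ j).1.1).exists_open g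
        refine ⟨⋂ j, U j, isOpen_iInter_of_finite hU, Set.mem_iInter.mpr hgU, ?_⟩
        intro g' hg'
        funext j
        exact hc j g' (Set.mem_iInter.mp hg' j))) (lc_rho ρ hρ)
    exact hlc {p | ∀ a b, (((1 + PP x p.1) * (p.2 : Mt n k).map (algebraMap k T) - 1 : Mt n T)) a b ∈
      maximalIdeal T ^ j ⊔ (entI (fun i => (ρ (c i) : Mt n k)) C ⊔ maximalIdeal T ^ 2)}
  · intro i a b
    have : gam1 ρ x φ (c i) = (ρ (c i) : Mt n k).map (algebraMap k T) := by
      rw [hgam, PP_zero x _ (fun j => (hφ j).2 i), add_zero, one_mul]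
    rw [this]
    refine Ideal.mem_sup_left ?_
    rw [← Ideal.neg_mem_iff]
    have : -(((ρ (c i) : Mt n k).map (algebraMap k T) - C i) a b) =
        (C i - (ρ (c i) : Mt n k).map (algebraMap k T)) a b := by
      simp only [Matrix.sub_apply]; ring
    rw [this]
    exact Ideal.subset_span ⟨(i, a, b), rfl⟩

end Pool.Agent.Helper3.DB.TAN
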