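import Pool.Agent.Helper3.DB.CHN

/-!
# DB, module TDIM (helper63): the dimension of `TT`
-/

set_option autoImplicit false

namespace Pool.Agent.Helper3.DB.TDIM

open Pool.Agent.Helper3.DB Matrix

theorem between {k V : Type} [Field k] [AddCommGroup V] [Module k V] [FiniteDimensional k V]
    (A B : Submodule k V) (hAB : A ≤ B) (r : ℕ) (h1 : Module.finrank k A ≤ r)
    (h2 : r ≤ Module.finrank k B) : ∃ W : Submodule k V, A ≤ W ∧ W ≤ B ∧ Module.finrank k W = r := by
  induction r, h1 using Nat.le_induction with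
  | base => exact ⟨A, le_rfl, hAB, rfl⟩
  | succ r hr ih =>
    obtain ⟨W, hW1, hW2, hW3⟩ := ih (by omega)
    have hlt : W < B := by
      refine lt_of_le_of_ne hW2 ?_
      rintro rfl
      omega
    obtain ⟨v, hvB, hvW⟩ := SetLike.exists_of_lt hlt
    refine ⟨W ⊔ k ∙ v, hW1.trans le_sup_left, sup_le hW2 ?_, ?_⟩
    · rw [Submodule.span_singleton_le_iff_mem]
      exact hvB
    · have h3 : W < W ⊔ k ∙ v := by
        refine lt_of_le_of_ne le_sup_left ?_
        intro h
        apply hvW
        rw [h]
        exact Submodule.mem_sup_right (Submodule.mem_span_singleton_self v)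
      have h4 := Submodule.finrank_lt_finrank_of_lt h3
      have h5 := Submodule.finrank_add_le_finrank_add_finrank W (k ∙ v)
      have h6 : Module.finrank k (k ∙ v) ≤ 1 := by
        have := finrank_span_le_card (R := k) ({v} : Set V)
        simpa using this
      omega

theorem normal_form (k : Type) [Field k] (n : ℕ) (N : Mt n k) (hN : N * N = 0) :
    ∃ (P : Matrix (Fin n) (Fin (n / 2) ⊕ Fin (n - n / 2)) k)
      (Q : Matrix (Fin (n / 2) ⊕ Fin (n - n / 2)) (Fin n) k)
      (B : Matrix (Fin (n / 2)) (Fin (n - n / 2)) k), P * Q = 1 ∧ Q * P = 1 ∧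
        N = P * (Matrix.fromBlocks 0 B 0 0 :
          Matrix (Fin (n / 2) ⊕ Fin (n - n / 2)) (Fin (n / 2) ⊕ Fin (n - n / 2)) k) * Q := by
  classical
  let f : (Fin n → k) →ₗ[k] (Fin n → k) := Matrix.toLin' N
  have hf : f ∘ₗ f = 0 := by
    rw [← Matrix.toLin'_mul, hN, map_zero]
  have hff : ∀ x, f (f x) = 0 := fun x => by
    have := LinearMap.congr_fun hf x
    simpa using this
  have hle : LinearMap.range f ≤ LinearMap.ker f := by
    rintro _ ⟨x, rfl⟩
    rw [LinearMap.mem_ker]
    exact hff x
  have hsum := LinearMap.finrank_range_add_finrank_ker f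
  have hn : Module.finrank k (Fin n → k) = n := by simp
  have hle2 := Submodule.finrank_mono hle
  obtain ⟨W, hW1, hW2, hW3⟩ := between (LinearMap.range f) (LinearMap.ker f) hle (n / 2)
    (by omega) (by omega)
  obtain ⟨W', hW'⟩ := Submodule.exists_isCompl W
  have hdim := Submodule.finrank_add_eq_of_isCompl hW'
  have hW'3 : Module.finrank k W' = n - n / 2 := by omega
  let b1 : Module.Basis (Fin (n / 2)) k W := Module.finBasisOfFinrankEq k W hW3
  let b2 : Module.Basis (Fin (n - n / 2)) k W' := Module.finBasisOfFinrankEq k W' hW'3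
  let b : Module.Basis (Fin (n / 2) ⊕ Fin (n - n / 2)) k (Fin n → k) :=
    (b1.prod b2).map (Submodule.prodEquivOfIsCompl W W' hW')
  let e := Pi.basisFun k (Fin n)
  have hinl : ∀ j, b (Sum.inl j) = (b1 j : Fin n → k) := fun j => by
    simp [b]
  have hker : ∀ j, f (b (Sum.inl j)) = 0 := fun j => by
    rw [hinl]
    exact LinearMap.mem_ker.1 (hW2 (b1 j).2)
  have hrepr : ∀ w : W, ∀ i, b.repr (w : Fin n → k) (Sum.inr i) = 0 := by
    intro w i
    simp [b]
  have hmat : LinearMap.toMatrix b b f = Matrix.fromBlocks 0 (LinearMap.toMatrix b b f).toBlocks₁₂ 0 0 := by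
    ext i j
    rcases i with i | i <;> rcases j with j | j
    · rw [LinearMap.toMatrix_apply, hker j]; simp
    · rfl
    · rw [LinearMap.toMatrix_apply, hker j]; simp
    · rw [LinearMap.toMatrix_apply]
      exact hrepr ⟨f (b (Sum.inr j)), hW1 ⟨_, rfl⟩⟩ i
  refine ⟨e.toMatrix b, b.toMatrix e, (LinearMap.toMatrix b b f).toBlocks₁₂,
    Module.Basis.toMatrix_mul_toMatrix_flip e b, Module.Basis.toMatrix_mul_toMatrix_flip b e, ?_⟩
  rw [← hmat, basis_toMatrix_mul_linearMap_toMatrix_mul_basis_toMatrix]
  simp [e, f]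

/-- the family of square zero matrices -/
def fam {S : Type} [CommRing S] {r q : ℕ} (Y : Matrix (Fin r) (Fin q) S) (Z : Matrix (Fin q) (Fin r) S) :
    Matrix (Fin r ⊕ Fin q) (Fin r ⊕ Fin q) S :=
  Matrix.fromBlocks (-(Y * Z)) Y (-(Z * Y * Z)) (Z * Y)

theorem fam_sq {S : Type} [CommRing S] {r q : ℕ} (Y : Matrix (Fin r) (Fin q) S)
    (Z : Matrix (Fin q) (Fin r) S) : fam Y Z * fam Y Z = 0 := by
  unfold fam
  rw [Matrix.fromBlocks_multiply]
  have h11 : -(Y * Z) * -(Y * Z) + Y * -(Z * Y * Z) = 0 := by
    simp only [Matrix.neg_mul, Matrix.mul_neg, neg_neg, Matrix.mul_assoc]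
    exact add_neg_cancel _
  have h12 : -(Y * Z) * Y + Y * (Z * Y) = 0 := by
    simp only [Matrix.neg_mul, Matrix.mul_assoc]
    exact neg_add_cancel _
  have h21 : -(Z * Y * Z) * -(Y * Z) + Z * Y * -(Z * Y * Z) = 0 := by
    simp only [Matrix.neg_mul, Matrix.mul_neg, neg_neg, Matrix.mul_assoc]
    exact add_neg_cancel _
  have h22 : -(Z * Y * Z) * Y + Z * Y * (Z * Y) = 0 := by
    simp only [Matrix.neg_mul, Matrix.mul_assoc]
    exact neg_add_cancel _
  rw [h11, h12, h21, h22, Matrix.fromBlocks_zero]

theorem fam_map {S T : Type} [CommRing S] [CommRing T] (f : S →+* T) {r q : ℕ}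
    (Y : Matrix (Fin r) (Fin q) S) (Z : Matrix (Fin q) (Fin r) S) :
    (fam Y Z).map f = fam (Y.map f) (Z.map f) := by
  unfold fam
  rw [Matrix.fromBlocks_map, Matrix.map_mul, Matrix.map_neg f (map_neg f), Matrix.map_neg f (map_neg f),
    Matrix.map_mul, Matrix.map_mul, Matrix.map_mul]

section fix

variable (k : Type) [Field k] (V : Type)

theorem setz_X (S : Set V) (w : V) (hw : w ∉ S) :
    CHN.setz k S (MvPowerSeries.X w) = MvPowerSeries.X w := by
  classical
  ext m
  rw [CHN.coeff_setz, MvPowerSeries.coeff_X]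
  by_cases h : m = Finsupp.single w 1
  · subst h
    rw [if_pos rfl, if_pos]
    intro w' hw'
    rw [Finsupp.single_apply, if_neg]
    rintro rfl
    exact hw hw'
  · rw [if_neg h]
    simp

theorem setz_C (S : Set V) (c : k) :
    CHN.setz k S (algebraMap k (MvPowerSeries V k) c) = algebraMap k (MvPowerSeries V k) c := by
  classical
  ext m
  rw [CHN.coeff_setz, MvPowerSeries.algebraMap_apply, MvPowerSeries.coeff_C]
  by_cases h : m = 0
  · subst h
    simp
  · rw [if_neg h]
    simp

end fix

/-- the determinant does not vanish and contains only the variables `Y` -/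
theorem det_ne (k : Type) [Field k] {r q : ℕ} (hrq : r ≤ q) (B : Matrix (Fin r) (Fin q) k) (V : Type)
    (y : Fin r → Fin q → V) (hy : Function.Injective fun p : Fin r × Fin q => y p.1 p.2) (S : Set V)
    (hS : ∀ a b, y a b ∉ S) :
    ∃ m : V →₀ ℕ, (∀ w ∈ S, m w = 0) ∧ MvPowerSeries.coeff m
      (((B.map (algebraMap k (MvPowerSeries V k)) + Matrix.of fun a b => MvPowerSeries.X (y a b)).submatrix
        id (Fin.castLE hrq)).det) ≠ 0 := by
  classical
  set δ := (((B.map (algebraMap k (MvPowerSeries V k)) + Matrix.of fun a b =>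
    MvPowerSeries.X (y a b)).submatrix id (Fin.castLE hrq)).det) with hδ
  have h1 : δ ≠ 0 := by
    let D : MvPolynomial V k := ((B.map (MvPolynomial.C (σ := V)) + Matrix.of fun a b =>
      MvPolynomial.X (y a b)).submatrix id (Fin.castLE hrq)).det
    have hD : MvPolynomial.coeToMvPowerSeries.ringHom D = δ := by
      rw [RingHom.map_det]
      rw [hδ]
      congr 1
      ext1 a b
      simp [MvPowerSeries.algebraMap_apply]
    have hD1 : D ≠ 0 := by
      intro h0
      let ev : V → k := fun v => ∑ a, ∑ b, if y a b = v then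
        ((if Fin.castLE hrq a = b then 1 else 0) - B a b) else 0
      have hev : ∀ a b, ev (y a b) = (if Fin.castLE hrq a = b then 1 else 0) - B a b := by
        intro a b
        have : ∀ a' b', (y a' b' = y a b) ↔ (a' = a ∧ b' = b) := by
          intro a' b'
          constructor
          · intro h
            have := hy (a₁ := (a', b')) (a₂ := (a, b)) h
            simpa using this
          · rintro ⟨rfl, rfl⟩; rfl
        simp only [ev, this]
        rw [Finset.sum_eq_single a, Finset.sum_eq_single b]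
        · simp
        · intro b' _ hb'
          simp [hb']
        · simp
        · intro a' _ ha'
          refine Finset.sum_eq_zero fun b' _ => ?_
          simp [ha']
        · simp
      have h2 : MvPolynomial.eval ev D = 1 := by
        rw [RingHom.map_det]
        have : (MvPolynomial.eval ev).mapMatrix ((B.map (MvPolynomial.C (σ := V)) + Matrix.of fun a b =>
            MvPolynomial.X (y a b)).submatrix id (Fin.castLE hrq)) = 1 := by
          ext1 a b
          simp only [RingHom.mapMatrix_apply, Matrix.map_apply, Matrix.submatrix_apply, Matrix.add_apply,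
            Matrix.of_apply, map_add, MvPolynomial.eval_C, MvPolynomial.eval_X, hev, id, Matrix.one_apply,
            Fin.castLE_inj]
          ring
        rw [this, Matrix.det_one]
      rw [h0, map_zero] at h2
      exact zero_ne_one h2
    rw [← hD]
    intro h
    apply hD1
    exact MvPolynomial.coe_injective V k (by simpa using h)
  have h2 : CHN.setz k S δ = δ := by
    rw [hδ, RingHom.map_det]
    congr 1
    ext1 a b
    simp only [RingHom.mapMatrix_apply, Matrix.map_apply, Matrix.submatrix_apply, Matrix.add_apply,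
      Matrix.of_apply, map_add, setz_C, setz_X k V S _ (hS _ _)]
  by_contra hcon
  push Not at hcon
  apply h1
  rw [← h2, CHN.setz_eq_zero]
  exact hcon

section mainpart

variable {k : Type} [Field k] {n : ℕ} {ι : Type} {z : ℕ}

/-- the variables -/
abbrev VV (ι : Type) (r q z : ℕ) : Type := (ι × Fin r × Fin q) ⊕ ((ι × Fin q × Fin r) ⊕ Fin z)

/-- the matrix `B + Y` -/
noncomputable def BY {r q : ℕ} (z : ℕ) (B : ι → Matrix (Fin r) (Fin q) k) (i : ι) :
    Matrix (Fin r) (Fin q) (MvPowerSeries (VV ι r q z) k) :=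
  (B i).map (algebraMap k _) + Matrix.of fun a b => MvPowerSeries.X (Sum.inl (i, a, b))

/-- the matrix `Z` -/
noncomputable def ZZ (k : Type) [Field k] {ι : Type} (r q z : ℕ) (i : ι) :
    Matrix (Fin q) (Fin r) (MvPowerSeries (VV ι r q z) k) :=
  Matrix.of fun b a => MvPowerSeries.X (Sum.inr (Sum.inl (i, b, a)))

/-- constants as matrices over the power series ring -/
noncomputable abbrev mC {a b : Type} (V : Type) (M : Matrix a b k) : Matrix a b (MvPowerSeries V k) :=
  M.map (algebraMap k (MvPowerSeries V k))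

theorem mC_cc {a b : Type} (V : Type) (M : Matrix a b k) :
    (mC V M).map (MvPowerSeries.constantCoeff (σ := V) (R := k)) = M := by
  ext s t
  simp [MvPowerSeries.algebraMap_apply]

theorem BY_cc {r q : ℕ} (z : ℕ) (B : ι → Matrix (Fin r) (Fin q) k) (i : ι) :
    (BY z B i).map (MvPowerSeries.constantCoeff (σ := VV ι r q z) (R := k)) = B i := by
  ext a b
  simp [BY, MvPowerSeries.algebraMap_apply]

theorem ZZ_cc (r q z : ℕ) (i : ι) :
    (ZZ k r q z i).map (MvPowerSeries.constantCoeff (σ := VV ι r q z) (R := k)) = 0 := by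
  ext a b
  simp [ZZ]

/-- the constant block matrix -/
abbrev blk {r q : ℕ} (B : Matrix (Fin r) (Fin q) k) : Matrix (Fin r ⊕ Fin q) (Fin r ⊕ Fin q) k :=
  Matrix.fromBlocks 0 B 0 0

/-- the image of the matrix of variables -/
noncomputable def imM {r q : ℕ} (z : ℕ) (P : ι → Matrix (Fin n) (Fin r ⊕ Fin q) k)
    (Q : ι → Matrix (Fin r ⊕ Fin q) (Fin n) k) (B : ι → Matrix (Fin r) (Fin q) k) (i : ι) :
    Mt n (MvPowerSeries (VV ι r q z) k) :=
  mC (VV ι r q z) (P i) * (fam (BY z B i) (ZZ k r q z i) - mC (VV ι r q z) (blk (B i))) *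
      mC (VV ι r q z) (Q i)

/-- the images of the variables -/
noncomputable def im {r q : ℕ} (z : ℕ) (P : ι → Matrix (Fin n) (Fin r ⊕ Fin q) k)
    (Q : ι → Matrix (Fin r ⊕ Fin q) (Fin n) k) (B : ι → Matrix (Fin r) (Fin q) k) :
    (ι × Fin n × Fin n) ⊕ Fin z → MvPowerSeries (VV ι r q z) k :=
  Sum.elim (fun p => imM z P Q B p.1 p.2.1 p.2.2) fun j => MvPowerSeries.X (Sum.inr (Sum.inr j))

theorem im_cc {r q : ℕ} (z : ℕ) (P : ι → Matrix (Fin n) (Fin r ⊕ Fin q) k)
    (Q : ι → Matrix (Fin r ⊕ Fin q) (Fin n) k) (B : ι → Matrix (Fin r) (Fin q) k)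
    (s : (ι × Fin n × Fin n) ⊕ Fin z) : MvPowerSeries.constantCoeff (im z P Q B s) = 0 := by
  rcases s with ⟨i, s, t⟩ | j
  · have h1 : (fam (BY z B i) (ZZ k r q z i)).map
        (MvPowerSeries.constantCoeff (σ := VV ι r q z) (R := k)) = blk (B i) := by
      rw [fam_map, BY_cc, ZZ_cc]
      unfold fam
      simp
    have h3 : (imM z P Q B i).map
        (MvPowerSeries.constantCoeff (σ := VV ι r q z) (R := k)) = 0 := by
      rw [imM, Matrix.map_mul, Matrix.map_mul, Matrix.map_sub _ (map_sub _), h1]
      simp only [mC_cc, sub_self, Matrix.mul_zero, Matrix.zero_mul]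
    exact congrFun (congrFun h3 s) t
  · simp [im]

theorem main (hchn : S_CHN) : S_TDIM := by
  classical
  intro k _ _ n ι _ z A hA
  have hN : ∀ i, (A i - 1) * (A i - 1) = 0 := by
    intro i
    have h2 : (2 : k) = 0 := CharTwo.two_eq_zero
    have : (A i - 1) * (A i - 1) = A i * A i + 1 - (2 : k) • A i := by
      rw [two_smul]
      noncomm_ring
    rw [this, hA, h2, zero_smul, sub_zero]
    have : (1 : Mt n k) + 1 = (2 : k) • 1 := by rw [two_smul]
    rw [this, h2, zero_smul]
  choose P Q B hPQ hQP hN2 using fun i => normal_form k n (A i - 1) (hN i)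
  have hrq : n / 2 ≤ n - n / 2 := by omega
  generalize n / 2 = r at P Q B hPQ hQP hN2 hrq ⊢
  generalize n - r = q at P Q B hPQ hQP hN2 hrq ⊢
  let V := VV ι r q z
  let S := MvPowerSeries V k
  have ha : MvPowerSeries.HasSubst (im z P Q B) :=
    MvPowerSeries.hasSubst_of_constantCoeff_zero (im_cc z P Q B)
  let Φ0 : PSR k n ι z →ₐ[k] S := MvPowerSeries.substAlgHom ha
  have hX : ∀ s, Φ0 (MvPowerSeries.X s) = im z P Q B s := fun s => MvPowerSeries.substAlgHom_X ha s
  have hPQ' : ∀ i, mC V (P i) * mC V (Q i) = 1 := fun i => by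
    rw [mC, mC, ← Matrix.map_mul, hPQ, Matrix.map_one _ (map_zero _) (map_one _)]
  have hQP' : ∀ i, mC V (Q i) * mC V (P i) = 1 := fun i => by
    rw [mC, mC, ← Matrix.map_mul, hQP, Matrix.map_one _ (map_zero _) (map_one _)]
  let F : ∀ i, Matrix (Fin r ⊕ Fin q) (Fin r ⊕ Fin q) S := fun i => fam (BY z B i) (ZZ k r q z i)
  have hF : ∀ i, F i * F i = 0 := fun i => fam_sq _ _
  have hM : ∀ i, ((A i).map (algebraMap k (PSR k n ι z)) + Xm k n ι z i).map Φ0 =
      1 + mC V (P i) * F i * mC V (Q i) := by
    intro i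
    have e1 : ((A i).map (algebraMap k (PSR k n ι z)) + Xm k n ι z i).map Φ0 =
        mC V (A i) + mC V (P i) * (F i - mC V (blk (B i))) * mC V (Q i) := by
      ext1 s t
      rw [Matrix.map_apply, Matrix.add_apply, Matrix.add_apply, map_add, Matrix.map_apply,
        AlgHom.commutes, Xm, hX]
      rfl
    have e2 : A i = 1 + P i * blk (B i) * Q i := by
      rw [← hN2 i]; abel
    have e3 : mC V (A i) = 1 + mC V (P i) * mC V (blk (B i)) * mC V (Q i) := by
      conv_lhs => rw [e2]
      rw [mC, Matrix.map_add _ (map_add _), Matrix.map_mul, Matrix.map_mul,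
        Matrix.map_one _ (map_zero _) (map_one _)]
    rw [e1, e3, Matrix.mul_sub, Matrix.sub_mul]
    abel
  have h2S : (2 : S) = 0 := by
    have : (2 : S) = algebraMap k S 2 := (map_ofNat (algebraMap k S) 2).symm
    rw [this, CharTwo.two_eq_zero, map_zero]
  have hMM : ∀ i, (1 + mC V (P i) * F i * mC V (Q i)) * (1 + mC V (P i) * F i * mC V (Q i)) = 1 := by
    intro i
    have e1 : mC V (P i) * F i * mC V (Q i) * (mC V (P i) * F i * mC V (Q i)) = 0 := by
      calc _ = mC V (P i) * F i * (mC V (Q i) * mC V (P i)) * F i * mC V (Q i) := by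
            simp only [Matrix.mul_assoc]
        _ = mC V (P i) * (F i * F i) * mC V (Q i) := by
            rw [hQP', Matrix.mul_one]; simp only [Matrix.mul_assoc]
        _ = 0 := by rw [hF]; simp
    have e2 : (1 + mC V (P i) * F i * mC V (Q i)) * (1 + mC V (P i) * F i * mC V (Q i)) =
        1 + (2 : S) • (mC V (P i) * F i * mC V (Q i)) +
          mC V (P i) * F i * mC V (Q i) * (mC V (P i) * F i * mC V (Q i)) := by
      rw [two_smul, Matrix.add_mul, Matrix.mul_add, Matrix.mul_add]
      simp only [Matrix.one_mul, Matrix.mul_one]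
      abel
    rw [e2, e1, h2S, zero_smul, add_zero, add_zero]
  have hrel : ∀ t ∈ relI z A, Φ0 t = 0 := by
    intro t ht
    have hle : relI z A ≤ RingHom.ker (Φ0 : PSR k n ι z →+* S) := by
      rw [relI, Ideal.span_le]
      rintro _ ⟨p, rfl⟩
      rw [SetLike.mem_coe, RingHom.mem_ker]
      have : (((A p.1).map (algebraMap k (PSR k n ι z)) + Xm k n ι z p.1) *
          ((A p.1).map (algebraMap k (PSR k n ι z)) + Xm k n ι z p.1) - 1).map
          (Φ0 : PSR k n ι z →+* S) = 0 := by
        rw [Matrix.map_sub _ (map_sub _), Matrix.map_mul, Matrix.map_one _ (map_zero _) (map_one _)]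
        have := hM p.1
        change _ = _ at this
        erw [this, hMM, sub_self]
      exact congrFun (congrFun this p.2.1) p.2.2
    exact hle ht
  let Φ : TT z A →+* S := Ideal.Quotient.lift (relI z A) (Φ0 : PSR k n ι z →+* S) hrel
  have hΦC : ∀ c : k, Φ (algebraMap k (TT z A) c) = algebraMap k S c := fun c => Φ0.commutes c
  have hΦM : ∀ i, (CC z A i).map Φ = 1 + mC V (P i) * F i * mC V (Q i) := by
    intro i
    rw [← hM i]
    rfl
  have hΦx : ∀ j, Φ (xx z A j) = MvPowerSeries.X (Sum.inr (Sum.inr j)) := fun j => hX (Sum.inr j)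
  let G : ∀ i, Matrix (Fin r ⊕ Fin q) (Fin r ⊕ Fin q) (TT z A) := fun i =>
    (Q i).map (algebraMap k (TT z A)) * (CC z A i - 1) * (P i).map (algebraMap k (TT z A))
  have hCmap : ∀ {a b : Type} (M : Matrix a b k), (M.map (algebraMap k (TT z A))).map Φ = mC V M := by
    intro a b M
    ext1 s t
    exact hΦC _
  have hG : ∀ i, (G i).map Φ = F i := by
    intro i
    rw [Matrix.map_mul, Matrix.map_mul, Matrix.map_sub _ (map_sub _), hCmap, hCmap, hΦM,
      Matrix.map_one _ (map_zero _) (map_one _), add_sub_cancel_left]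
    calc _ = (mC V (Q i) * mC V (P i)) * F i * (mC V (Q i) * mC V (P i)) := by
          simp only [Matrix.mul_assoc]
      _ = F i := by rw [hQP', Matrix.one_mul, Matrix.mul_one]
  let ord : V → ℕ := Sum.elim (fun y => (Fintype.equivFin (ι × Fin r × Fin q) y : ℕ))
    (fun w => Fintype.card (ι × Fin r × Fin q) + (Fintype.equivFin ((ι × Fin q × Fin r) ⊕ Fin z) w : ℕ))
  have hord : Function.Injective ord := by
    rintro (y | w) (y' | w') h
    · simp only [ord, Sum.elim_inl] at h
      have := (Fintype.equivFin (ι × Fin r × Fin q)).injective (Fin.ext h)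
      rw [this]
    · exfalso
      simp only [ord, Sum.elim_inl, Sum.elim_inr] at h
      have := (Fintype.equivFin (ι × Fin r × Fin q) y).2
      omega
    · exfalso
      simp only [ord, Sum.elim_inl, Sum.elim_inr] at h
      have := (Fintype.equivFin (ι × Fin r × Fin q) y').2
      omega
    · simp only [ord, Sum.elim_inr] at h
      have := (Fintype.equivFin ((ι × Fin q × Fin r) ⊕ Fin z)).injective
        (Fin.ext (Nat.add_left_cancel h))
      rw [this]
  let _ : LinearOrder V := LinearOrder.lift' ord hord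
  have hle : ∀ v w : V, v ≤ w → ord v ≤ ord w := fun v w h => h
  have key := hchn k V (TT z A) Φ (by
    rintro (⟨i, a, b⟩ | ⟨i, b, a⟩ | j)
    · refine ⟨G i (Sum.inl a) (Sum.inr b) - algebraMap k (TT z A) (B i a b), 1, ?_, 0, by simp, by simp⟩
      rw [map_sub, hΦC, mul_one]
      have : Φ (G i (Sum.inl a) (Sum.inr b)) = F i (Sum.inl a) (Sum.inr b) :=
        congrFun (congrFun (hG i) (Sum.inl a)) (Sum.inr b)
      rw [this]
      simp only [F, fam, Matrix.fromBlocks_apply₁₂, BY, Matrix.add_apply, Matrix.map_apply,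
        Matrix.of_apply]
      exact add_sub_cancel_left _ _
    · let G12 : Matrix (Fin r) (Fin r) (TT z A) := (G i).toBlocks₁₂.submatrix id (Fin.castLE hrq)
      let G22 : Matrix (Fin q) (Fin r) (TT z A) := (G i).toBlocks₂₂.submatrix id (Fin.castLE hrq)
      let D : Matrix (Fin r) (Fin r) S := (BY z (ι := ι) B i).submatrix id (Fin.castLE hrq)
      have h12 : G12.map Φ = D := by
        ext1 s t
        have := congrFun (congrFun (hG i) (Sum.inl s)) (Sum.inr (Fin.castLE hrq t))
        exact this
      have h22 : G22.map Φ = ZZ k r q z i * D := by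
        ext1 s t
        have := congrFun (congrFun (hG i) (Sum.inr s)) (Sum.inr (Fin.castLE hrq t))
        exact this
      refine ⟨(G22 * G12.adjugate) b a, D.det, ?_, ?_⟩
      · have h1 : (G22 * G12.adjugate).map Φ = D.det • ZZ k r q z i := by
          rw [Matrix.map_mul]
          have h2 : G12.adjugate.map Φ = (G12.map Φ).adjugate := RingHom.map_adjugate Φ G12
          rw [h2, h12, h22, Matrix.mul_assoc, Matrix.mul_adjugate, Matrix.mul_smul, Matrix.mul_one]
        have h3 := congrFun (congrFun h1 b) a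
        change Φ ((G22 * G12.adjugate) b a) = _ at h3
        rw [h3, Matrix.smul_apply, smul_eq_mul, mul_comm]
        rfl
      · obtain ⟨m, hm1, hm2⟩ := det_ne k hrq (B i) V (fun a b => Sum.inl (i, a, b))
          (fun p p' h => by
            have h' := Sum.inl_injective h
            exact Prod.ext (congrArg (fun x => x.2.1) h') (congrArg (fun x => x.2.2) h'))
          (Set.range Sum.inr) (by simp)
        refine ⟨m, fun w hw => ?_, hm2⟩
        have h1 := hle _ _ hw
        rcases w with y | w
        · exfalso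
          simp only [ord, Sum.elim_inl, Sum.elim_inr] at h1
          have := (Fintype.equivFin (ι × Fin r × Fin q) y).2
          omega
        · exact hm1 _ ⟨w, rfl⟩
    · exact ⟨xx z A j, 1, by rw [hΦx, mul_one], 0, by simp, by simp⟩)
  refine le_trans (le_of_eq ?_) key
  congr 1
  simp only [V, VV, Fintype.card_sum, Fintype.card_prod, Fintype.card_fin]
  ring

end mainpart

end Pool.Agent.Helper3.DB.TDIM
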