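import Pool.Agent.Helper3.DB.Stm

/-!
# Project DB, module TRING: structure of `TT z A`
-/

set_option autoImplicit false

namespace Pool.Agent.Helper3.DB.TRING

open IsLocalRing

section PS

variable {k σ : Type} [Field k] [Finite σ]

/-- a power series with zero constant coefficient lies in the ideal of the variables -/
theorem mem_span_X (f : MvPowerSeries σ k) (hf : MvPowerSeries.constantCoeff f = 0) :
    f ∈ Ideal.span (Set.range (MvPowerSeries.X : σ → MvPowerSeries σ k)) := by
  classical
  have : Fintype σ := Fintype.ofFinite σ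
  -- choose an index in the support of every nonzero monomial
  have hex : ∀ m : σ →₀ ℕ, m ≠ 0 → ∃ i, m i ≠ 0 := by
    intro m hm
    by_contra h
    push Not at h
    exact hm (Finsupp.ext h)
  rcases isEmpty_or_nonempty σ with he | hne0
  · have : f = 0 := by
      ext m
      rw [Subsingleton.elim m 0, MvPowerSeries.coeff_zero_eq_constantCoeff_apply, hf]
      simp
    rw [this]
    exact zero_mem _
  choose! w hw using hex
  let g : σ → MvPowerSeries σ k := fun i m =>
    if w (m + Finsupp.single i 1) = i then MvPowerSeries.coeff (m + Finsupp.single i 1) f else 0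
  have hsum : f = ∑ i, MvPowerSeries.X i * g i := by
    ext m
    rw [map_sum]
    by_cases hm : m = 0
    · subst hm
      have e1 : MvPowerSeries.coeff 0 f = 0 := by
        rw [MvPowerSeries.coeff_zero_eq_constantCoeff_apply]; exact hf
      rw [e1]
      symm
      apply Finset.sum_eq_zero
      intro i _
      rw [MvPowerSeries.coeff_zero_eq_constantCoeff_apply, map_mul,
        MvPowerSeries.constantCoeff_X, zero_mul]
    · have key : ∀ i, MvPowerSeries.coeff m (MvPowerSeries.X i * g i) =
          if i = w m then MvPowerSeries.coeff m f else 0 := by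
        intro i
        by_cases hi : m i = 0
        · have e1 : MvPowerSeries.coeff m (MvPowerSeries.X i * g i) = 0 := by
            have := (MvPowerSeries.X_dvd_iff (s := i) (φ := MvPowerSeries.X i * g i)).mp
              (Dvd.intro _ rfl) m hi
            exact this
          have hne : i ≠ w m := by
            rintro rfl
            exact hw m hm hi
          rw [e1, if_neg hne]
        · obtain ⟨m', rfl⟩ : ∃ m', m = m' + Finsupp.single i 1 := by
            refine ⟨m - Finsupp.single i 1, ?_⟩
            rw [tsub_add_cancel_of_le]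
            intro j
            by_cases hj : j = i
            · subst hj; simp only [Finsupp.single_eq_same]; omega
            · rw [Finsupp.single_apply, if_neg (fun h => hj h.symm)]; exact Nat.zero_le _
          have e1 : MvPowerSeries.coeff (m' + Finsupp.single i 1) (MvPowerSeries.X i * g i) =
              MvPowerSeries.coeff m' (g i) := by
            rw [mul_comm]
            rw [MvPowerSeries.X, MvPowerSeries.coeff_add_mul_monomial, mul_one]
          rw [e1]
          have e2 : MvPowerSeries.coeff m' (g i) =
              if w (m' + Finsupp.single i 1) = i then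
                MvPowerSeries.coeff (m' + Finsupp.single i 1) f else 0 := rfl
          rw [e2]
          by_cases h : w (m' + Finsupp.single i 1) = i
          · rw [if_pos h, if_pos h.symm]
          · rw [if_neg h, if_neg (fun h' => h h'.symm)]
      rw [Finset.sum_congr rfl fun i _ => key i, Finset.sum_ite_eq' Finset.univ (w m),
        if_pos (Finset.mem_univ _)]
  rw [hsum]
  exact Ideal.sum_mem _ fun i _ => Ideal.mul_mem_right _ _ (Ideal.subset_span ⟨i, rfl⟩)

omit [Finite σ] in
/-- membership in the maximal ideal of the power series ring -/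
theorem mem_max (f : MvPowerSeries σ k) :
    f ∈ maximalIdeal (MvPowerSeries σ k) ↔ MvPowerSeries.constantCoeff f = 0 := by
  rw [mem_maximalIdeal, mem_nonunits_iff, MvPowerSeries.isUnit_iff_constantCoeff, isUnit_iff_ne_zero,
    not_not]

theorem max_eq : maximalIdeal (MvPowerSeries σ k) =
    Ideal.span (Set.range (MvPowerSeries.X : σ → MvPowerSeries σ k)) := by
  apply le_antisymm
  · intro f hf
    exact mem_span_X f ((mem_max f).mp hf)
  · rw [Ideal.span_le]
    rintro _ ⟨i, rfl⟩
    exact (mem_max _).mpr (MvPowerSeries.constantCoeff_X i)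

instance : IsAdicComplete (maximalIdeal (MvPowerSeries σ k)) (MvPowerSeries σ k) := by
  rw [max_eq]
  infer_instance

end PS

/-- quotients of precomplete modules are precomplete -/
theorem precomplete_of_surj {R M N : Type} [CommRing R] [AddCommGroup M] [AddCommGroup N] [Module R M]
    [Module R N] (I : Ideal R) (f : M →ₗ[R] N) (hf : Function.Surjective f) [IsPrecomplete I M] :
    IsPrecomplete I N := by
  rw [← AdicCompletion.of_surjective_iff]
  intro x
  obtain ⟨y, rfl⟩ := AdicCompletion.map_surjective I hf x
  obtain ⟨m, rfl⟩ := AdicCompletion.of_surjective I M y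
  exact ⟨f m, by rw [AdicCompletion.map_of]⟩

theorem main : S_TRING := by
  intro k _ n ι _ z A hA
  have hfin : Finite ((ι × Fin n × Fin n) ⊕ Fin z) := inferInstance
  have hrel : relI z A ≤ maximalIdeal (PSR k n ι z) := by
    rw [relI, Ideal.span_le]
    rintro _ ⟨⟨i, a, b⟩, rfl⟩
    rw [SetLike.mem_coe, mem_max]
    have hX : ∀ a b, MvPowerSeries.constantCoeff (Xm k n ι z i a b) = 0 := fun a b =>
      MvPowerSeries.constantCoeff_X _
    have hmap : (((A i).map (algebraMap k (PSR k n ι z)) + Xm k n ι z i) *
      ((A i).map (algebraMap k (PSR k n ι z)) + Xm k n ι z i) - 1).map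
        (MvPowerSeries.constantCoeff (σ := (ι × Fin n × Fin n) ⊕ Fin z) (R := k)) = 0 := by
      have e1 : ((A i).map (algebraMap k (PSR k n ι z)) + Xm k n ι z i).map
          (MvPowerSeries.constantCoeff (σ := (ι × Fin n × Fin n) ⊕ Fin z) (R := k)) = A i := by
        ext a b
        simp only [Matrix.map_apply, Matrix.add_apply, map_add, hX, add_zero]
        rfl
      rw [Matrix.map_sub _ (map_sub _), Matrix.map_mul, e1, hA, Matrix.map_one _ (map_zero _) (map_one _),
        sub_self]
    exact congrFun (congrFun hmap a) b
  have hne : relI z A ≠ ⊤ := fun h => (maximalIdeal.isMaximal (PSR k n ι z)).ne_top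
    (top_le_iff.mp (h ▸ hrel))
  have hnt : Nontrivial (TT z A) := Ideal.Quotient.nontrivial_iff.mpr hne
  have hloc : IsLocalRing (TT z A) :=
    IsLocalRing.of_surjective' (Ideal.Quotient.mk (relI z A)) Ideal.Quotient.mk_surjective
  have hmk : ∀ f : PSR k n ι z, MvPowerSeries.constantCoeff f = 0 →
      Ideal.Quotient.mk (relI z A) f ∈ maximalIdeal (TT z A) := by
    intro f hf
    rw [mem_maximalIdeal, mem_nonunits_iff]
    intro hu
    obtain ⟨u, hu⟩ := hu.exists_right_inv
    obtain ⟨g, rfl⟩ := Ideal.Quotient.mk_surjective u
    rw [← map_mul, ← map_one (Ideal.Quotient.mk (relI z A)), Ideal.Quotient.eq] at hu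
    have h1 := (mem_max _).mp (hrel hu)
    rw [map_sub, map_mul, hf, zero_mul, map_one, zero_sub, neg_eq_zero] at h1
    exact one_ne_zero h1
  have hmax : maximalIdeal (TT z A) =
      (maximalIdeal (PSR k n ι z)).map (Ideal.Quotient.mk (relI z A)) := by
    apply le_antisymm
    · intro t ht
      obtain ⟨f, rfl⟩ := Ideal.Quotient.mk_surjective t
      apply Ideal.mem_map_of_mem
      by_contra hf
      have hu : IsUnit f := by
        by_contra h
        exact hf ((mem_maximalIdeal _).mpr h)
      exact (mem_nonunits_iff.mp ((mem_maximalIdeal _).mp ht)) (hu.map _)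
    · rw [Ideal.map_le_iff_le_comap]
      intro f hf
      exact hmk f ((mem_max f).mp hf)
  refine ⟨hloc, ?_, ?_⟩
  · have hP : IsPrecomplete (maximalIdeal (PSR k n ι z)) (TT z A) :=
      precomplete_of_surj _ (Submodule.mkQ (relI z A)) (Submodule.mkQ_surjective _)
    have hP' : IsPrecomplete (maximalIdeal (TT z A)) (TT z A) := by
      rw [hmax]
      exact (IsPrecomplete.map_algebraMap_iff (I := maximalIdeal (PSR k n ι z)) (S := TT z A)
        (M := TT z A)).mpr hP
    have hN : IsNoetherianRing (TT z A) := inferInstance
    exact { toIsHausdorff := inferInstance, toIsPrecomplete := hP' }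
  · have hCA : ∀ i a b, (CC z A i - (A i).map (algebraMap k (TT z A))) a b =
        Ideal.Quotient.mk (relI z A) (MvPowerSeries.X (Sum.inl (i, a, b))) := by
      intro i a b
      have e1 : algebraMap k (TT z A) (A i a b) =
          Ideal.Quotient.mk (relI z A) (algebraMap k (PSR k n ι z) (A i a b)) := rfl
      simp only [CC, Matrix.sub_apply, Matrix.map_apply, Matrix.add_apply, map_add, e1, Xm,
        add_sub_cancel_left]
    refine ⟨?_, ?_, ?_, ?_, ?_⟩
    · intro t
      obtain ⟨f, rfl⟩ := Ideal.Quotient.mk_surjective t
      refine ⟨MvPowerSeries.constantCoeff f, ?_⟩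
      have e1 : algebraMap k (TT z A) (MvPowerSeries.constantCoeff f) =
          Ideal.Quotient.mk (relI z A) (MvPowerSeries.C (MvPowerSeries.constantCoeff f)) := rfl
      rw [e1, ← map_sub]
      apply hmk
      rw [map_sub, MvPowerSeries.constantCoeff_C, sub_self]
    · intro i
      ext a b
      have e1 : (CC z A i * CC z A i - 1) a b = Ideal.Quotient.mk (relI z A)
          ((((A i).map (algebraMap k (PSR k n ι z)) + Xm k n ι z i) *
            ((A i).map (algebraMap k (PSR k n ι z)) + Xm k n ι z i) - 1) a b) := by
        have e2 : CC z A i * CC z A i - 1 = ((((A i).map (algebraMap k (PSR k n ι z)) + Xm k n ι z i) *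
            ((A i).map (algebraMap k (PSR k n ι z)) + Xm k n ι z i) - 1)).map
              (Ideal.Quotient.mk (relI z A)) := by
          rw [Matrix.map_sub _ (map_sub _), Matrix.map_mul, Matrix.map_one _ (map_zero _) (map_one _)]
          rfl
        rw [e2]
        rfl
      have e3 : Ideal.Quotient.mk (relI z A)
          ((((A i).map (algebraMap k (PSR k n ι z)) + Xm k n ι z i) *
            ((A i).map (algebraMap k (PSR k n ι z)) + Xm k n ι z i) - 1) a b) = 0 := by
        rw [Ideal.Quotient.eq_zero_iff_mem]
        exact Ideal.subset_span ⟨(i, a, b), rfl⟩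
      rw [e3, Matrix.sub_apply, sub_eq_zero] at e1
      exact e1
    · rw [entI, Ideal.span_le]
      rintro _ ⟨⟨i, a, b⟩, rfl⟩
      rw [SetLike.mem_coe]
      show (CC z A i - (A i).map (algebraMap k (TT z A))) a b ∈ _
      rw [hCA]
      exact hmk _ (MvPowerSeries.constantCoeff_X _)
    · intro j
      exact hmk _ (MvPowerSeries.constantCoeff_X _)
    · rw [hmax, max_eq, Ideal.map_span, Ideal.span_le]
      rintro _ ⟨_, ⟨v, rfl⟩, rfl⟩
      rw [SetLike.mem_coe]
      rcases v with ⟨i, a, b⟩ | j
      · apply Ideal.mem_sup_left
        rw [← hCA]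
        exact Ideal.subset_span ⟨(i, a, b), rfl⟩
      · apply Ideal.mem_sup_right
        exact Ideal.subset_span ⟨j, rfl⟩

end Pool.Agent.Helper3.DB.TRING
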