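import Pool.Agent.Helper3.DB.Stm

/-!
# ZORN (helper91): minimal lifts
-/

set_option autoImplicit false

namespace Pool.Agent.Helper3.DB.ZORN

open IsLocalRing MZ

variable {T : Type} [CommRing T]

theorem ent_mul {n : ℕ} (I : Ideal T) {A A' B B' : Mt n T} (hA : ∀ a b, (A - A') a b ∈ I)
    (hB : ∀ a b, (B - B') a b ∈ I) (a b : Fin n) : (A * B - A' * B') a b ∈ I := by
  have : A * B - A' * B' = (A - A') * B + A' * (B - B') := by
    rw [sub_mul, mul_sub]
    abel
  rw [this, Matrix.add_apply, Matrix.mul_apply, Matrix.mul_apply]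
  exact add_mem (sum_mem fun i _ => Ideal.mul_mem_right _ _ (hA a i))
    (sum_mem fun i _ => Ideal.mul_mem_left _ _ (hB i b))

theorem main (hL : S_LIM) : S_ZORN := by
  intro k _ _ T _ _ _ _ _ hk G _ _ n ρ ι c C J₁ γ₁ hJ₁ h₁
  let P : Type := {p : Ideal T × (G → Mt n T) // p.1 ≤ J₁ ∧ PL ρ c C p.1 p.2 ∧
    ∀ g a b, (p.2 g - γ₁ g) a b ∈ J₁}
  let r : P → P → Prop := fun p q => q.1.1 ≤ p.1.1 ∧ ∀ g a b, (q.1.2 g - p.1.2 g) a b ∈ p.1.1
  have htrans : ∀ {p q s : P}, r p q → r q s → r p s := by
    intro p q s h1 h2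
    refine ⟨h2.1.trans h1.1, fun g a b => ?_⟩
    have : (s.1.2 g - p.1.2 g) a b = (s.1.2 g - q.1.2 g) a b + (q.1.2 g - p.1.2 g) a b := by
      simp only [Matrix.sub_apply]
      ring
    rw [this]
    exact add_mem (h1.1 (h2.2 g a b)) (h1.2 g a b)
  have hchain : ∀ s : Set P, IsChain r s → ∃ ub : P, ∀ p ∈ s, r p ub := by
    intro s hs
    rcases s.eq_empty_or_nonempty with rfl | hne
    · exact ⟨⟨(J₁, γ₁), le_rfl, h₁, fun g a b => by simp⟩, fun p hp => absurd hp (Set.notMem_empty p)⟩
    · have hcmp : ∀ p ∈ s, ∀ q ∈ s, q.1.1 ≤ p.1.1 → ∀ g a b, (q.1.2 g - p.1.2 g) a b ∈ p.1.1 := by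
        intro p hp q hq hle g a b
        by_cases hpq : p = q
        · subst hpq
          simp
        · rcases hs hp hq hpq with h | h
          · exact h.2 g a b
          · have h1 := hle (h.2 g a b)
            rw [← neg_sub, Matrix.neg_apply]
            exact neg_mem h1
      have hcmp2 : ∀ p ∈ s, ∀ q ∈ s, q.1.1 ≤ p.1.1 ∨ p.1.1 ≤ q.1.1 := by
        intro p hp q hq
        by_cases hpq : p = q
        · subst hpq
          exact Or.inl le_rfl
        · rcases hs hp hq hpq with h | h
          · exact Or.inl h.1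
          · exact Or.inr h.1
      let S : Set (Ideal T) := (fun p : P => p.1.1) '' s
      have hSne : S.Nonempty := hne.image _
      have hSc : IsChain (· ≤ ·) S := by
        rintro _ ⟨p, hp, rfl⟩ _ ⟨q, hq, rfl⟩ _
        rcases hcmp2 p hp q hq with h | h
        · exact Or.inr h
        · exact Or.inl h
      obtain ⟨hL1, hL2⟩ := hL k T hk S hSne hSc
      -- the chosen pairs
      have hch : ∀ I : Ideal T, ∃ γ : G → Mt n T, I ∈ S → ∃ p ∈ s, p.1.1 = I ∧ p.1.2 = γ := by
        intro I
        by_cases hI : I ∈ S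
        · obtain ⟨p, hp, hpI⟩ := hI
          exact ⟨p.1.2, fun _ => ⟨p, hp, hpI, rfl⟩⟩
        · exact ⟨0, fun h => absurd h hI⟩
      choose Γ hΓ using hch
      have hlim : ∀ g a b, ∃ y : T, ∀ I ∈ S, y - Γ I g a b ∈ I := by
        intro g a b
        refine hL1 (fun I => Γ I g a b) ?_
        intro I hI J hJ hJI
        obtain ⟨p, hp, hpI, hpγ⟩ := hΓ I hI
        obtain ⟨q, hq, hqJ, hqγ⟩ := hΓ J hJ
        have := hcmp p hp q hq (by rw [hpI, hqJ]; exact hJI) g a b
        rw [hpI, hpγ, hqγ] at this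
        exact this
      choose y hy using hlim
      let γ : G → Mt n T := fun g => Matrix.of fun a b => y g a b
      have hγ : ∀ p ∈ s, ∀ g a b, (γ g - p.1.2 g) a b ∈ p.1.1 := by
        intro p hp g a b
        have hI : p.1.1 ∈ S := ⟨p, hp, rfl⟩
        obtain ⟨q, hq, hqI, hqγ⟩ := hΓ p.1.1 hI
        have h1 := hy g a b p.1.1 hI
        have h2 := hcmp p hp q hq hqI.le g a b
        rw [hqγ] at h2
        have : (γ g - p.1.2 g) a b = (y g a b - Γ p.1.1 g a b) + (Γ p.1.1 g - p.1.2 g) a b := by
          simp only [Matrix.sub_apply]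
          show y g a b - _ = _
          ring
        rw [this]
        exact add_mem h1 h2
      have hmemS : ∀ x : T, (∀ p ∈ s, x ∈ p.1.1) → x ∈ sInf S := by
        intro x hx
        rw [Submodule.mem_sInf]
        rintro _ ⟨p, hp, rfl⟩
        exact hx p hp
      obtain ⟨p₀, hp₀⟩ := hne
      have hle : sInf S ≤ J₁ := (sInf_le ⟨p₀, hp₀, rfl⟩ : sInf S ≤ p₀.1.1).trans p₀.2.1
      have hPL : PL ρ c C (sInf S) γ := by
        refine ⟨fun g h a b => hmemS _ fun p hp => ?_, fun a b => hmemS _ fun p hp => ?_,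
          fun g a b => ?_, fun j => ?_, fun i a b => hmemS _ fun p hp => ?_⟩
        · have h1 := p.2.2.1.mul g h a b
          have h2 := hγ p hp (g * h) a b
          have h3 := ent_mul p.1.1 (hγ p hp g) (hγ p hp h) a b
          have : (γ (g * h) - γ g * γ h) a b = (γ (g * h) - p.1.2 (g * h)) a b +
              (p.1.2 (g * h) - p.1.2 g * p.1.2 h) a b -
              (γ g * γ h - p.1.2 g * p.1.2 h) a b := by
            simp only [Matrix.sub_apply]
            ring
          rw [this]
          exact sub_mem (add_mem h2 h1) h3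
        · have h1 := p.2.2.1.one a b
          have h2 := hγ p hp 1 a b
          have : (γ 1 - 1) a b = (γ 1 - p.1.2 1) a b + (p.1.2 1 - 1) a b := by
            simp only [Matrix.sub_apply]
            ring
          rw [this]
          exact add_mem h2 h1
        · have h1 := p₀.2.2.1.res g a b
          have h2 := (p₀.2.1.trans hJ₁) (hγ p₀ hp₀ g a b)
          have : (γ g - (ρ g : Mt n k).map (algebraMap k T)) a b = (γ g - p₀.1.2 g) a b +
              (p₀.1.2 g - (ρ g : Mt n k).map (algebraMap k T)) a b := by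
            simp only [Matrix.sub_apply]
            ring
          rw [this]
          exact add_mem h2 h1
        · obtain ⟨_, ⟨p, hp, rfl⟩, hI⟩ := hL2 j
          have h1 := p.2.2.1.cont j
          have e : maximalIdeal T ^ j ⊔ p.1.1 = maximalIdeal T ^ j ⊔ sInf S :=
            le_antisymm (sup_le le_sup_left hI)
              (sup_le_sup_left (sInf_le ⟨p, hp, rfl⟩ : sInf S ≤ p.1.1) _)
          rw [e] at h1
          convert h1 using 1
          ext g
          have hd : ∀ a b, (γ g - p.1.2 g) a b ∈ maximalIdeal T ^ j ⊔ sInf S := fun a b =>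
            hI (hγ p hp g a b)
          have e1 : ∀ a b, (γ g - 1) a b = (γ g - p.1.2 g) a b + (p.1.2 g - 1) a b := by
            intro a b
            simp only [Matrix.sub_apply]
            ring
          constructor
          · intro h a b
            have h2 := h a b
            rw [e1] at h2
            exact (Ideal.add_mem_iff_right _ (hd a b)).1 h2
          · intro h a b
            rw [e1]
            exact add_mem (hd a b) (h a b)
        · have h1 := p.2.2.1.val i a b
          have h2 := hγ p hp (c i) a b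
          have : (γ (c i) - C i) a b = (γ (c i) - p.1.2 (c i)) a b + (p.1.2 (c i) - C i) a b := by
            simp only [Matrix.sub_apply]
            ring
          rw [this]
          exact add_mem h2 h1
      refine ⟨⟨(sInf S, γ), hle, hPL, fun g a b => ?_⟩, fun p hp => ⟨sInf_le ⟨p, hp, rfl⟩, hγ p hp⟩⟩
      have h1 := p₀.2.1 (hγ p₀ hp₀ g a b)
      have h2 := p₀.2.2.2 g a b
      have : (γ g - γ₁ g) a b = (γ g - p₀.1.2 g) a b + (p₀.1.2 g - γ₁ g) a b := by
        simp only [Matrix.sub_apply]
        ring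
      show (γ g - γ₁ g) a b ∈ J₁
      rw [this]
      exact add_mem h1 h2
  obtain ⟨p, hp⟩ := exists_maximal_of_chains_bounded hchain htrans
  refine ⟨p.1.1, p.1.2, p.2.1, p.2.2.1, p.2.2.2, ?_⟩
  intro J' γ' hJ' hPL hγ'
  let q : P := ⟨(J', γ'), hJ'.trans p.2.1, hPL, fun g a b => by
    have : (γ' g - γ₁ g) a b = (γ' g - p.1.2 g) a b + (p.1.2 g - γ₁ g) a b := by
      simp only [Matrix.sub_apply]
      ring
    show (γ' g - γ₁ g) a b ∈ J₁
    rw [this]
    exact add_mem (p.2.1 (hγ' g a b)) (p.2.2.2 g a b)⟩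
  have := hp q ⟨hJ', hγ'⟩
  exact le_antisymm hJ' this.1

end Pool.Agent.Helper3.DB.ZORN
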