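import Pool.Agent.Helper3.DB.Asm
import Pool.Agent.Helper3.DB.SCH
import Pool.Agent.Helper3.DB.CNT
import Pool.Agent.Helper3.DB.LIM
import Pool.Agent.Helper3.DB.ZORN
import Pool.Agent.Helper3.DB.SEC
import Pool.Agent.Helper3.DB.OB1
import Pool.Agent.Helper3.DB.OB2
import Pool.Agent.Helper3.DB.NAK
import Pool.Agent.Helper3.DB.TRING
import Pool.Agent.Helper3.DB.CHN
import Pool.Agent.Helper3.DB.TDIM
import Pool.Agent.Helper3.DB.TAN
import Pool.Agent.Helper3.DB.FI1
import Pool.Agent.Helper3.DB.FI2
import Pool.Agent.Helper3.DB.FI3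

/-!
# MP_aa8fd2_nt, project DB: the main theorem for profinite groups
-/

set_option autoImplicit false

namespace Pool.Agent.Helper3.DB.Fin

theorem main : S_MAIN :=
  main_of SCH.main CNT.main (ZORN.main LIM.main) SEC.main OB1.main OB2.main NAK.main TRING.main
    (TDIM.main CHN.main) TAN.main FI1.main FI2.main FI3.main

end Pool.Agent.Helper3.DB.Fin
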