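import Pool.Agent.Helper3.DB.HYPc

/-!
# MP_aa8fd2_nt, project DB, module HYP: `LocSurj` for all large `S`
-/

set_option autoImplicit false

namespace Pool.Agent.Helper3.DB.HYP

open NumberField IsDedekindDomain MZ HYPc

theorem exK {F E₀ : Type} [Field F] [Field E₀] [Algebra F E₀] [IsGalois F E₀] {k : Type} [Field k] {n : ℕ}
    (ρ₀ : Gal(E₀/F) →* GL (Fin n) k) (hρ₀ : IsOpen (ρ₀.ker : Set Gal(E₀/F))) :
    ∃ K : GL (Fin n) k → IntermediateField F E₀, (∀ A, FiniteDimensional F (K A)) ∧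
      ∀ A (g : Gal(E₀/F)), (∀ x ∈ K A, g x = x) ↔ ρ₀ g ∈ Subgroup.zpowers A := by
  have hDo : ∀ A : GL (Fin n) k, IsOpen (((Subgroup.zpowers A).comap ρ₀ : Subgroup Gal(E₀/F)) : Set Gal(E₀/F)) :=
    fun A => Subgroup.isOpen_mono (H₁ := ρ₀.ker) (fun g hg => by
      rw [Subgroup.mem_comap, (MonoidHom.mem_ker).mp hg]; exact one_mem _) hρ₀
  refine ⟨fun A => IntermediateField.fixedField ((Subgroup.zpowers A).comap ρ₀),
    fun A => (fix_data _ (hDo A)).1, fun A g => ⟨fun h => (fix_data _ (hDo A)).2 g h, fun h x hx => ?_⟩⟩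
  exact (IntermediateField.mem_fixedField_iff _ x).mp hx g h

theorem exData {F Ω : Type} [Field F] [NumberField F] [Field Ω] [Algebra F Ω] [IsAlgClosure F Ω]
    (E₀ : IntermediateField F Ω) [IsGalois F E₀] (hSGN : S_SGN) {k : Type} [Field k] [Finite k] {n : ℕ}
    (ρ₀ : Gal(E₀/F) →* GL (Fin n) k) (hρ₀ : IsOpen (ρ₀.ker : Set Gal(E₀/F))) :
    ∃ (K : GL (Fin n) k → IntermediateField F E₀) (N : ℕ), N ≠ 0 ∧
      (∀ A (g : Gal(E₀/F)), (∀ x ∈ K A, g x = x) ↔ ρ₀ g ∈ Subgroup.zpowers A) ∧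
      ∀ A (τ : K A →+* ℝ), ∃ a : K A, a ≠ 0 ∧ τ a < 0 ∧ (∀ τ' : K A →+* ℝ, τ' ≠ τ → 0 < τ' a) ∧
        IsIntegral ℤ ((N : Ω) * ((a : E₀) : Ω)) ∧ IsIntegral ℤ ((N : Ω) * (((a : E₀) : Ω))⁻¹) := by
  have c0 : CharZero Ω := charZero_of_injective_algebraMap (algebraMap F Ω).injective
  have a0 : Algebra.IsAlgebraic ℚ Ω := Algebra.IsAlgebraic.trans ℚ F Ω
  have a1 : Algebra.IsAlgebraic ℤ ℚ := IsLocalization.isAlgebraic ℚ (nonZeroDivisors ℤ)
  have a2 : Algebra.IsAlgebraic ℤ Ω := Algebra.IsAlgebraic.trans ℤ ℚ Ω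
  obtain ⟨K, hKfin, hK⟩ := exK ρ₀ hρ₀
  have hKnf : ∀ A, NumberField (K A) := fun A =>
    have := hKfin A
    NumberField.of_module_finite F (K A)
  have hs : ∀ (A : GL (Fin n) k) (τ : K A →+* ℝ), ∃ a : K A, a ≠ 0 ∧ τ a < 0 ∧
      ∀ τ' : K A →+* ℝ, τ' ≠ τ → 0 < τ' a := fun A τ =>
    have := hKnf A
    hSGN (K A) τ
  choose a ha0 ha1 ha2 using hs
  have f2 : ∀ A : GL (Fin n) k, Finite (K A →+* ℝ) := fun A =>
    have := hKnf A
    inferInstance
  obtain ⟨N, hN, hNi⟩ := exists_N (P := Σ A : GL (Fin n) k, (K A →+* ℝ))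
    (fun p => (((a p.1 p.2 : K p.1) : E₀) : Ω))
  exact ⟨K, N, hN, hK, fun A τ => ⟨a A τ, ha0 A τ, ha1 A τ, ha2 A τ, hNi ⟨A, τ⟩⟩⟩

theorem main_of (hSGN : S_SGN) (hKUM : S_KUM) (hCOR : S_COR) : S_HYP := by
  intro F Ω _ _ _ _ _ S₀ hS₀ h2 k _ _ _ n ρ₀ hρ₀
  have c0 : CharZero Ω := charZero_of_injective_algebraMap (algebraMap F Ω).injective
  have gal0 : IsGalois F (FSmax S₀ : IntermediateField F Ω) := Pool.Agent.W178.MZK.K7 F Ω S₀
  obtain ⟨K, N, hN, hK, hKa⟩ := exData (FSmax S₀ : IntermediateField F Ω) hSGN ρ₀ hρ₀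
  refine ⟨S₀ ∪ {v | ((2 * N : ℕ) : 𝓞 F) ∈ v.asIdeal},
    hS₀.union (fin_primes (2 * N) (by omega)), Set.subset_union_left, ?_⟩
  intro S hS ρ hinf ι _ c φ hconj hplaces
  have galS : IsGalois F (FSmax S : IntermediateField F Ω) := Pool.Agent.W178.MZK.K7 F Ω S
  have hS0S : S₀ ⊆ S := Set.subset_union_left.trans hS
  have hle : (FSmax S₀ : IntermediateField F Ω) ≤ FSmax S := Pool.Agent.Y808.MZD.FSmax_mono hS0S
  obtain ⟨π, hπs, hπ, rfl⟩ := hinf
  have hπinc : ∀ (g : GFS Ω S) (x : (FSmax S₀ : IntermediateField F Ω)),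
      IntermediateField.inclusion hle (π g x) = g (IntermediateField.inclusion hle x) := by
    intro g x
    apply Subtype.ext
    exact hπ g x (IntermediateField.inclusion hle x) rfl
  have hincinj : Function.Injective (IntermediateField.inclusion hle) :=
    IntermediateField.inclusion_injective hle
  have i1 : Algebra.IsIntegral F (FSmax S : IntermediateField F Ω) := Algebra.IsAlgebraic.isIntegral
  have i2 : CharZero (FSmax S : IntermediateField F Ω) := charZero_of_injective_algebraMap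
    (algebraMap F (FSmax S : IntermediateField F Ω)).injective
  have hπc : Continuous π := by
    refine continuous_of_stab π fun x => ?_
    have h1 : {q : GFS Ω S | π q x = x} =
        {q : GFS Ω S | q (IntermediateField.inclusion hle x) = IntermediateField.inclusion hle x} := by
      ext q
      rw [Set.mem_setOf_eq, Set.mem_setOf_eq, ← hπinc]
      exact ⟨fun h => congrArg _ h, fun h => hincinj h⟩
    rw [h1]
    exact isOpen_stab _
  have hprimes : ∀ v : HeightOneSpectrum (𝓞 F), ((2 * N : ℕ) : 𝓞 F) ∈ v.asIdeal → v ∈ S :=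
    fun v hv => hS (Or.inr hv)
  have ac : IsAlgClosed Ω := IsAlgClosure.isAlgClosed F
  have hsqrt : ∀ x : (FSmax S : IntermediateField F Ω), x ≠ 0 → IsIntegral ℤ ((N : Ω) * (x : Ω)) →
      IsIntegral ℤ ((N : Ω) * (x : Ω)⁻¹) → ∃ r : (FSmax S : IntermediateField F Ω), r ^ 2 = x := by
    intro x hx0 h1 h3
    obtain ⟨y, hy⟩ := IsAlgClosed.exists_pow_nat_eq (x : Ω) (n := 2) (by norm_num)
    refine ⟨⟨y, hKUM F Ω S N hN hprimes x y x.2 (fun h => hx0 (Subtype.ext h)) h1 h3 hy⟩, ?_⟩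
    exact Subtype.ext hy
  obtain ⟨I, hI⟩ := hsqrt (-1) (neg_ne_zero.mpr one_ne_zero) (by
      have := (isIntegral_algebraMap (R := ℤ) (A := Ω) (x := -(N : ℤ)))
      simpa using this) (by
      have := (isIntegral_algebraMap (R := ℤ) (A := Ω) (x := -(N : ℤ)))
      simpa using this)
  have hroot : ∀ A (τ : K A →+* ℝ), ∃ (a : K A) (r : (FSmax S : IntermediateField F Ω)), r ≠ 0 ∧
      r ^ 2 = IntermediateField.inclusion hle a ∧ τ a < 0 ∧
      ∀ τ' : K A →+* ℝ, τ' ≠ τ → 0 < τ' a := by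
    intro A τ
    obtain ⟨a, ha0, ha1, ha2, ha3, ha4⟩ := hKa A τ
    have ha0' : IntermediateField.inclusion hle (a : (FSmax S₀ : IntermediateField F Ω)) ≠ 0 := by
      intro h
      apply ha0
      apply Subtype.ext
      apply hincinj
      rw [h]
      exact (map_zero _).symm
    obtain ⟨r, hr⟩ := hsqrt (IntermediateField.inclusion hle (a : (FSmax S₀ : IntermediateField F Ω)))
      ha0' ha3 ha4
    refine ⟨a, r, ?_, hr, ha1, ha2⟩
    rintro rfl
    apply ha0'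
    rw [← hr]
    exact zero_pow two_ne_zero
  exact core (IntermediateField.inclusion hle) π hπinc ρ₀ (hρ₀.preimage hπc) inferInstance K hK hroot I hI
    hCOR ι c φ hconj hplaces

end Pool.Agent.Helper3.DB.HYP
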