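import Pool.Agent.Helper3.DB.Stm2
import Pool.Graph.R_seed8.Y808.MZ.Gal

/-!
# MP_aa8fd2_nt, project DB, module HYP: `LocSurj` for all large `S`
-/

set_option autoImplicit false

namespace Pool.Agent.Helper3.DB.HYPc

open NumberField IsDedekindDomain MZ

section quad

variable {F E : Type} [Field F] [Field E] [Algebra F E] [CharZero E]

/-- the quadratic character attached to a square root `r` -/
theorem quad (r : E) (hr : r ≠ 0) (H : Subgroup Gal(E/F)) (hH : ∀ h ∈ H, (h : Gal(E/F)) (r ^ 2) = r ^ 2) :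
    ∃ χ : H →* Multiplicative (ZMod 2), ∀ h : H, χ h = 1 ↔ (h : Gal(E/F)) r = r := by
  classical
  have h0 : ∀ h : H, (h : Gal(E/F)) r = r ∨ (h : Gal(E/F)) r = -r := by
    intro h
    have h1 := hH h h.2
    rw [map_pow] at h1
    exact sq_eq_sq_iff_eq_or_eq_neg.mp h1
  have hne : r ≠ -r := by
    intro h
    apply hr
    have h2 : 2 * r = 0 := by linear_combination h
    exact (mul_eq_zero.mp h2).resolve_left two_ne_zero
  let e : Multiplicative (ZMod 2) := Multiplicative.ofAdd 1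
  have he : e * e = 1 := by decide
  have he1 : e ≠ 1 := by decide
  let f : H → Multiplicative (ZMod 2) := fun h => if (h : Gal(E/F)) r = r then 1 else e
  have hf1 : ∀ h : H, (h : Gal(E/F)) r = r → f h = 1 := fun h hh => if_pos hh
  have hf2 : ∀ h : H, (h : Gal(E/F)) r = -r → f h = e := fun h hh => if_neg (by rw [hh]; exact hne.symm)
  refine ⟨{ toFun := f, map_one' := hf1 1 rfl, map_mul' := ?_ }, ?_⟩
  · intro g h
    rcases h0 g with hg | hg <;> rcases h0 h with hh | hh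
    · rw [hf1 g hg, hf1 h hh, hf1 (g * h), mul_one]
      change (g : Gal(E/F)) ((h : Gal(E/F)) r) = r
      rw [hh, hg]
    · rw [hf1 g hg, hf2 h hh, hf2 (g * h), one_mul]
      change (g : Gal(E/F)) ((h : Gal(E/F)) r) = -r
      rw [hh, map_neg, hg]
    · rw [hf2 g hg, hf1 h hh, hf2 (g * h), mul_one]
      change (g : Gal(E/F)) ((h : Gal(E/F)) r) = -r
      rw [hh, hg]
    · rw [hf2 g hg, hf2 h hh, hf1 (g * h), he]
      change (g : Gal(E/F)) ((h : Gal(E/F)) r) = r
      rw [hh, map_neg, hg, neg_neg]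
  · intro h
    change f h = 1 ↔ _
    constructor
    · intro h1
      rcases h0 h with hh | hh
      · exact hh
      · rw [hf2 h hh] at h1; exact absurd h1 he1
    · exact hf1 h

end quad

theorem fin_primes {F : Type} [Field F] [NumberField F] (N : ℕ) (hN : N ≠ 0) :
    {v : HeightOneSpectrum (𝓞 F) | (N : 𝓞 F) ∈ v.asIdeal}.Finite := by
  have h1 : Ideal.span {(N : 𝓞 F)} ≠ 0 := by
    intro h
    rw [Ideal.zero_eq_bot, Ideal.span_singleton_eq_bot] at h
    exact hN (Nat.cast_eq_zero.mp h)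
  refine (Ideal.finite_factors h1).subset fun v hv => ?_
  exact (Ideal.dvd_span_singleton).mpr hv

theorem exists_N1 {Ω : Type} [Field Ω] [CharZero Ω] [Algebra.IsAlgebraic ℤ Ω] (x : Ω) :
    ∃ N : ℕ, N ≠ 0 ∧ IsIntegral ℤ ((N : Ω) * x) := by
  obtain ⟨y, hy, hi⟩ := (Algebra.IsAlgebraic.isAlgebraic (R := ℤ) x).exists_integral_multiple
  refine ⟨y.natAbs, by omega, ?_⟩
  rw [zsmul_eq_mul] at hi
  rcases Int.natAbs_eq y with h | h
  · rw [h] at hi; simpa using hi
  · rw [h] at hi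
    have := hi.neg
    simpa using this

theorem exists_N {Ω : Type} [Field Ω] [CharZero Ω] [Algebra.IsAlgebraic ℤ Ω] {P : Type} [Finite P]
    (x : P → Ω) : ∃ N : ℕ, N ≠ 0 ∧ ∀ p, IsIntegral ℤ ((N : Ω) * x p) ∧ IsIntegral ℤ ((N : Ω) * (x p)⁻¹) := by
  have := Fintype.ofFinite P
  choose A hA hA' using fun p => exists_N1 (x p)
  choose B hB hB' using fun p => exists_N1 ((x p)⁻¹)
  have hint : ∀ m : ℕ, IsIntegral ℤ ((m : Ω)) := fun m => by
    have := isIntegral_algebraMap (R := ℤ) (A := Ω) (x := (m : ℤ))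
    simpa using this
  have key : ∀ (M N : ℕ) (y : Ω), M ∣ N → IsIntegral ℤ ((M : Ω) * y) → IsIntegral ℤ ((N : Ω) * y) := by
    rintro M N y ⟨d, rfl⟩ h
    have : ((M * d : ℕ) : Ω) * y = (d : Ω) * ((M : Ω) * y) := by push_cast; ring
    rw [this]
    exact (hint d).mul h
  refine ⟨∏ p, A p * B p, Finset.prod_ne_zero_iff.mpr fun p _ => mul_ne_zero (hA p) (hB p), fun p => ?_⟩
  have h1 : A p * B p ∣ ∏ p, A p * B p := Finset.dvd_prod_of_mem _ (Finset.mem_univ p)
  exact ⟨key _ _ _ ((Dvd.intro _ rfl).trans h1) (hA' p), key _ _ _ ((Dvd.intro_left _ rfl).trans h1) (hB' p)⟩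

/-- a subgroup containing an open subgroup has a finite dimensional fixed field and is its fixing subgroup -/
theorem fix_data {F E : Type} [Field F] [Field E] [Algebra F E] [IsGalois F E] (H : Subgroup Gal(E/F))
    (hH : IsOpen (H : Set Gal(E/F))) :
    FiniteDimensional F (IntermediateField.fixedField H) ∧
      ∀ g : Gal(E/F), (∀ x ∈ IntermediateField.fixedField H, g x = x) → g ∈ H := by
  have hHc : IsClosed (H : Set Gal(E/F)) := Subgroup.isClosed_of_isOpen _ hH
  have h3 := InfiniteGalois.fixingSubgroup_fixedField (⟨H, hHc⟩ : ClosedSubgroup Gal(E/F))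
  simp only at h3
  constructor
  · rw [← InfiniteGalois.isOpen_iff_finite, h3]
    exact hH
  · intro g hg
    have : g ∈ (IntermediateField.fixedField H).fixingSubgroup := by
      rw [IntermediateField.mem_fixingSubgroup_iff]
      exact hg
    rw [h3] at this
    exact this

section main

theorem conj_two {F : Type} [Field F] {E : Type} [Field E] [Algebra F E] (φ : E →+* ℂ) (c : Gal(E/F))
    (h : ComplexEmbedding.IsConj φ c) : c * c = 1 := by
  ext x
  apply φ.injective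
  change φ (c (c x)) = φ x
  rw [h.eq, h.eq, star_star]

/-- a real valued embedding -/
theorem real_of {K : Type} [Field K] (τ : K →+* ℂ) (h : ∀ x, star (τ x) = τ x) :
    ∃ τ' : K →+* ℝ, ∀ x, (τ' x : ℂ) = τ x := by
  have h1 : ComplexEmbedding.IsReal τ := by
    ext x
    exact h x
  exact ⟨h1.embedding, fun x => h1.coe_embedding_apply x⟩

end main

section core

theorem core {F E₀ E : Type} [Field F] [Field E₀] [Field E] [Algebra F E₀] [Algebra F E] [CharZero E]
    [Algebra.IsIntegral F E] (inc : E₀ →ₐ[F] E) (π : Gal(E/F) →* Gal(E₀/F))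
    (hπinc : ∀ g x, inc (π g x) = g (inc x)) {k : Type} [Field k] [CharP k 2] {n : ℕ}
    (ρ₀ : Gal(E₀/F) →* GL (Fin n) k) (hρo : IsOpen ((ρ₀.comp π).ker : Set Gal(E/F)))
    (hcpt : CompactSpace Gal(E/F))
    (K : GL (Fin n) k → IntermediateField F E₀)
    (hK : ∀ A (g : Gal(E₀/F)), (∀ x ∈ K A, g x = x) ↔ ρ₀ g ∈ Subgroup.zpowers A)
    (hroot : ∀ A (τ : K A →+* ℝ), ∃ (a : K A) (r : E), r ≠ 0 ∧ r ^ 2 = inc a ∧ τ a < 0 ∧
      ∀ τ' : K A →+* ℝ, τ' ≠ τ → 0 < τ' a)
    (I : E) (hI' : I ^ 2 = -1) (hCOR : S_COR)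
    (ι : Type) [Fintype ι] (c : ι → Gal(E/F)) (φ : ι → (E →+* ℂ))
    (hconj : ∀ i, ComplexEmbedding.IsConj (φ i) (c i))
    (hplaces : Function.Injective fun i => InfinitePlace.mk ((φ i).comp (algebraMap F E))) :
    LocSurj (ρ₀.comp π) c := by
  have hincinj : Function.Injective inc := inc.toRingHom.injective
  have hc2 : ∀ i, c i * c i = 1 := fun i => conj_two (φ i) (c i) (hconj i)
  have hA2 : ∀ i, ρ₀ (π (c i)) * ρ₀ (π (c i)) = 1 := fun i => by
    rw [← map_mul, ← map_mul, hc2, map_one, map_one]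
  have hzp : ∀ i (B : GL (Fin n) k), B ∈ Subgroup.zpowers (ρ₀ (π (c i))) ↔ (B = 1 ∨ B = ρ₀ (π (c i))) := by
    intro i B
    have h2 : (ρ₀ (π (c i))) ^ (2 : ℤ) = 1 := by rw [zpow_two, hA2]
    constructor
    · rintro ⟨m, rfl⟩
      rcases Int.even_or_odd' m with ⟨q, rfl | rfl⟩
      · left
        change ρ₀ (π (c i)) ^ (2 * q) = 1
        rw [zpow_mul, h2, one_zpow]
      · right
        change ρ₀ (π (c i)) ^ (2 * q + 1) = ρ₀ (π (c i))
        rw [zpow_add, zpow_mul, h2, one_zpow, one_mul, zpow_one]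
    · rintro (rfl | rfl)
      · exact one_mem _
      · exact Subgroup.mem_zpowers _
  obtain ⟨H, hHdef⟩ : ∃ H : ι → Subgroup Gal(E/F), ∀ i g, g ∈ H i ↔ ρ₀ (π g) ∈ Subgroup.zpowers (ρ₀ (π (c i))) :=
    ⟨fun i => (Subgroup.zpowers (ρ₀ (π (c i)))).comap (ρ₀.comp π), fun i g => Iff.rfl⟩
  have hH : ∀ i g, g ∈ H i ↔ ((ρ₀.comp π) g = 1 ∨ (ρ₀.comp π) g = (ρ₀.comp π) (c i)) := fun i g =>
    (hHdef i g).trans (hzp i _)
  have hHo : ∀ i, IsOpen (H i : Set Gal(E/F)) := fun i =>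
    Subgroup.isOpen_mono (H₁ := (ρ₀.comp π).ker) (fun g hg => (hH i g).mpr (Or.inl hg)) hρo
  have hcH : ∀ i, c i ∈ H i := fun i => (hH i _).mpr (Or.inr rfl)
  have hHfix : ∀ i (g : Gal(E/F)), g ∈ H i ↔ ∀ x ∈ K (ρ₀ (π (c i))), g (inc x) = inc x := by
    intro i g
    rw [hHdef, ← hK]
    refine forall₂_congr fun x _ => ?_
    rw [← hπinc]
    exact ⟨fun h => congrArg inc h, fun h => hincinj h⟩
  have hI0 : I ≠ 0 := by
    rintro rfl
    norm_num at hI'
  obtain ⟨ε, hε⟩ : ∃ ε : Gal(E/F) →* Multiplicative (ZMod 2), ∀ g, ε g = 1 ↔ g I = I := by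
    obtain ⟨ε₀, hε₀⟩ := quad I hI0 (⊤ : Subgroup Gal(E/F)) (fun h _ => by rw [hI']; simp)
    exact ⟨ε₀.comp (Subgroup.topEquiv (G := Gal(E/F))).symm.toMonoidHom, fun g => hε₀ ⟨g, Subgroup.mem_top g⟩⟩
  have hεo : IsOpen (ε.ker : Set Gal(E/F)) := by
    have : (ε.ker : Set Gal(E/F)) = {g : Gal(E/F) | g I = I} := by
      ext g; exact hε g
    rw [this]
    exact isOpen_stab I
  have hεc : ∀ i, ε (c i) ≠ 1 := by
    intro i h
    have h1 := (hε (c i)).mp h
    have h3 := (hconj i).eq I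
    rw [h1] at h3
    have h4 : (φ i I) ^ 2 = -1 := by rw [← map_pow, hI', map_neg, map_one]
    have h5 : (φ i I).im = 0 := Complex.conj_eq_iff_im.mp h3.symm
    have h6 : (φ i I) = ((φ i I).re : ℂ) := Complex.ext rfl (by simpa using h5)
    rw [h6] at h4
    have h7 : ((φ i I).re) ^ 2 = (-1 : ℝ) := by exact_mod_cast h4
    nlinarith [sq_nonneg (φ i I).re]
  have hreal : ∀ (i : ι) (ψ : E →+* ℂ) (s : Gal(E/F)),
      ComplexEmbedding.IsConj ψ s → s ∈ H i →
      ∃ τ : K (ρ₀ (π (c i))) →+* ℝ, ∀ x : K (ρ₀ (π (c i))), (τ x : ℂ) = ψ (inc x) := by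
    intro i ψ s hs hsH
    refine real_of ((ψ.comp inc.toRingHom).comp (algebraMap (K (ρ₀ (π (c i)))) E₀)) ?_
    intro x
    change star (ψ (inc x)) = ψ (inc x)
    rw [← hs.eq, (hHfix i s).mp hsH x x.2]
  choose τ hτ using fun i => hreal i (φ i) (c i) (hconj i) (hcH i)
  choose a r hr0 hr ha1 ha2 using fun i => hroot (ρ₀ (π (c i))) (τ i)
  choose χ hχ using fun i => quad (r i) (hr0 i) (H i) (fun h hh => by
    rw [hr i]; exact (hHfix i h).mp hh _ (a i).2)
  refine hCOR k Gal(E/F) n (ρ₀.comp π) ι c hc2 hρo H hH ε hεo hεc χ ?_ ?_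
  · intro i
    have : (((χ i).ker.map (H i).subtype : Subgroup Gal(E/F)) : Set Gal(E/F)) =
        (H i : Set Gal(E/F)) ∩ {g : Gal(E/F) | g (r i) = r i} := by
      ext g
      constructor
      · rintro ⟨h, hh, rfl⟩
        exact ⟨h.2, (hχ i h).mp hh⟩
      · rintro ⟨hg1, hg2⟩
        exact ⟨⟨g, hg1⟩, (hχ i ⟨g, hg1⟩).mpr hg2, rfl⟩
    rw [this]
    exact (hHo i).inter (isOpen_stab _)
  · intro i j g hs
    obtain ⟨ψ, hψ⟩ : ∃ ψ : E →+* ℂ, ∀ x, ψ x = φ j (g⁻¹ x) :=
      ⟨(φ j).comp ((g⁻¹ : Gal(E/F)) : E ≃ₐ[F] E).toRingEquiv.toRingHom, fun x => rfl⟩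
    have hψc : ComplexEmbedding.IsConj ψ (g * c j * g⁻¹) := by
      refine RingHom.ext fun x => ?_
      change star (ψ x) = ψ ((g * c j * g⁻¹) x)
      rw [hψ, hψ, ← (hconj j).eq]
      congr 1
      rw [AlgEquiv.mul_apply, AlgEquiv.mul_apply, ← AlgEquiv.mul_apply g⁻¹ g, inv_mul_cancel]
      rfl
    obtain ⟨τ', hτ'⟩ := hreal i ψ _ hψc hs
    have hkey : τ' = τ i ↔ (j = i ∧ g ∈ H i) := by
      constructor
      · intro h
        have h1 : ∀ x : K (ρ₀ (π (c i))), φ j (g⁻¹ (inc x)) = φ i (inc x) := by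
          intro x
          rw [← hτ i x, ← h, hτ' x, hψ]
        have hji : j = i := by
          apply hplaces
          change InfinitePlace.mk _ = InfinitePlace.mk _
          congr 1
          refine RingHom.ext fun x => ?_
          have h3 := h1 (algebraMap F (K (ρ₀ (π (c i)))) x)
          have h4 : inc ((algebraMap F (K (ρ₀ (π (c i)))) x : K (ρ₀ (π (c i)))) : E₀) =
              algebraMap F E x := inc.commutes x
          rw [h4, AlgEquiv.commutes] at h3
          exact h3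
        refine ⟨hji, ?_⟩
        subst hji
        rw [← inv_mem_iff, hHfix]
        intro x hx
        exact (φ j).injective (h1 ⟨x, hx⟩)
      · rintro ⟨rfl, hg⟩
        refine RingHom.ext fun x => ?_
        have h3 : ((τ' x : ℝ) : ℂ) = ((τ j x : ℝ) : ℂ) := by
          rw [hτ' x, hτ j x, hψ, (hHfix j g⁻¹).mp (inv_mem hg) x x.2]
        exact_mod_cast h3
    have hsq : (ψ (r i)) ^ 2 = ((τ' (a i) : ℝ) : ℂ) := by
      rw [← map_pow, hr i, hτ']
    rw [← hkey]
    constructor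
    · intro hne1
      by_contra hne
      have hpos := ha2 i τ' hne
      have hcon : ¬ (g * c j * g⁻¹) (r i) = r i := fun h => hne1 ((hχ i ⟨_, hs⟩).mpr h)
      have h3 : (g * c j * g⁻¹) (r i) = - r i := by
        have h4 : ((g * c j * g⁻¹) (r i)) ^ 2 = (r i) ^ 2 := by
          rw [← map_pow, hr i]
          exact (hHfix i _).mp hs _ (a i).2
        rcases sq_eq_sq_iff_eq_or_eq_neg.mp h4 with h5 | h5
        · exact absurd h5 hcon
        · exact h5
      have h4 := hψc.eq (r i)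
      rw [h3, map_neg] at h4
      have h5 : (ψ (r i)).re = 0 := by
        have := congrArg Complex.re h4
        simp at this
        linarith
      have h6 : (ψ (r i)) = ((ψ (r i)).im : ℂ) * Complex.I := by
        apply Complex.ext <;> simp [h5]
      rw [h6, mul_pow, Complex.I_sq] at hsq
      have h7 : -((ψ (r i)).im) ^ 2 = τ' (a i) := by
        have : (((-((ψ (r i)).im) ^ 2 : ℝ)) : ℂ) = ((τ' (a i) : ℝ) : ℂ) := by
          rw [← hsq]; push_cast; ring
        exact_mod_cast this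
      nlinarith [sq_nonneg (ψ (r i)).im]
    · intro heq hfix1
      have hfix : (g * c j * g⁻¹) (r i) = r i := (hχ i ⟨_, hs⟩).mp hfix1
      have hneg := ha1 i
      have h4 := hψc.eq (r i)
      rw [hfix] at h4
      have h5 : (ψ (r i)).im = 0 := Complex.conj_eq_iff_im.mp h4.symm
      have h6 : (ψ (r i)) = ((ψ (r i)).re : ℂ) := Complex.ext rfl (by simpa using h5)
      rw [h6] at hsq
      have h7 : ((ψ (r i)).re) ^ 2 = τ' (a i) := by exact_mod_cast hsq
      rw [heq] at h7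
      nlinarith [sq_nonneg (ψ (r i)).re]

end core

end Pool.Agent.Helper3.DB.HYPc
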