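import Pool.Agent.Helper3.DB.Stm2
import Pool.Graph.R_seed8.W413.MZ.H1

/-!
# MP_aa8fd2_nt, project DB, module KUM: square roots of `S`-units (adapted from the library module W178/MZ/K6)
-/

set_option autoImplicit false

namespace Pool.Agent.Helper3.DB.KUM

open NumberField IsDedekindDomain MZ Polynomial

section step

variable {M E : Type} [Field M] [NumberField M] [Field E] [NumberField E] [Algebra M E]

theorem isInt_nat (E : Type) [Field E] [NumberField E] (N : ℕ) : IsIntegral ℤ ((N : E)) := by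
  have := isIntegral_algebraMap (R := ℤ) (A := E) (x := (N : ℤ))
  simpa using this

/-- adjoining the square root of an element with primes dividing `N` is unramified outside `2N` -/
theorem unram_sqrt (y : E) (x : M) (hx0 : x ≠ 0) (hy : y ^ 2 = algebraMap M E x) (N : ℕ) (hN : N ≠ 0)
    (h1 : IsIntegral ℤ ((N : M) * x)) (h2 : IsIntegral ℤ ((N : M) * x⁻¹))
    (hadj : Algebra.adjoin M {y} = ⊤) (w : HeightOneSpectrum (𝓞 E))
    (hw : ((2 * N : ℕ) : 𝓞 E) ∉ w.asIdeal) : Algebra.IsUnramifiedAt (𝓞 M) w.asIdeal := by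
  rw [← not_dvd_differentIdeal_iff]
  intro hdvd
  have hNE : (N : E) ≠ 0 := Nat.cast_ne_zero.mpr hN
  have hNM : (N : M) ≠ 0 := Nat.cast_ne_zero.mpr hN
  have hyint : IsIntegral ℤ ((N : E) * y) := by
    apply IsIntegral.of_pow (n := 2) (by norm_num)
    have : ((N : E) * y) ^ 2 = (N : E) * algebraMap M E ((N : M) * x) := by
      rw [mul_pow, hy, map_mul, map_natCast]; ring
    rw [this]
    exact (isInt_nat E N).mul (h1.map (algebraMap M E).toIntAlgHom)
  let a : 𝓞 M := ⟨(N : M) * x, h1⟩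
  let b : 𝓞 M := ⟨(N : M) * x⁻¹, h2⟩
  let θ : 𝓞 E := ⟨(N : E) * y, hyint⟩
  have hab : a * b = ((N * N : ℕ) : 𝓞 M) := by
    apply RingOfIntegers.ext
    change ((N : M) * x) * ((N : M) * x⁻¹) = _
    have : (((N * N : ℕ) : 𝓞 M) : M) = (N : M) * N := by
      change algebraMap (𝓞 M) M ((N * N : ℕ) : 𝓞 M) = _
      rw [map_natCast]; push_cast; ring
    rw [this]
    field_simp
  have hθ : θ ^ 2 = algebraMap (𝓞 M) (𝓞 E) ((N : 𝓞 M) * a) := by
    apply RingOfIntegers.ext
    change ((N : E) * y) ^ 2 = algebraMap M E (((N : 𝓞 M) * a : 𝓞 M) : M)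
    have : (((N : 𝓞 M) * a : 𝓞 M) : M) = (N : M) * ((N : M) * x) := by
      change algebraMap (𝓞 M) M ((N : 𝓞 M) * a) = _
      rw [map_mul, map_natCast]
      rfl
    rw [this, mul_pow, hy, map_mul, map_mul, map_natCast]; ring
  have hint : IsIntegral (𝓞 M) θ := Algebra.IsIntegral.isIntegral θ
  have hdv : minpoly (𝓞 M) θ ∣ X ^ 2 - C ((N : 𝓞 M) * a) := by
    apply minpoly.isIntegrallyClosed_dvd hint
    simp [hθ]
  obtain ⟨g, hg⟩ := hdv
  have hder : aeval θ (derivative (minpoly (𝓞 M) θ)) * aeval θ g = 2 * θ := by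
    have h3 := congrArg (fun f => aeval θ (derivative f)) hg
    simp only [derivative_sub, derivative_X_pow, derivative_C, derivative_mul, map_add,
      map_mul, minpoly.aeval, zero_mul, add_zero] at h3
    rw [← h3]
    simp [map_ofNat (algebraMap (𝓞 M) (𝓞 E)) 2]
  have hadj' : Algebra.adjoin M {algebraMap (𝓞 E) E θ} = ⊤ := by
    rw [eq_top_iff, ← hadj, Algebra.adjoin_le_iff]
    intro z hz
    rw [Set.mem_singleton_iff] at hz
    subst hz
    have h4 : z = algebraMap M E (((N : M))⁻¹) * algebraMap (𝓞 E) E θ := by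
      change z = _ * ((N : E) * z)
      rw [map_inv₀, map_natCast]
      field_simp
    rw [h4]
    exact Subalgebra.mul_mem _ (Subalgebra.algebraMap_mem _ _)
      (Algebra.subset_adjoin (Set.mem_singleton _))
  have hmem := aeval_derivative_mem_differentIdeal (𝓞 M) M E θ hadj'
  have hle := Ideal.le_of_dvd hdvd
  have h5 : 2 * θ ∈ w.asIdeal := by
    rw [← hder]
    exact Ideal.mul_mem_right _ _ (hle hmem)
  have hp := w.isPrime
  have hcast : ((2 * N : ℕ) : 𝓞 E) = 2 * (N : 𝓞 E) := by push_cast; ring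
  rcases hp.mem_or_mem h5 with h6 | h6
  · exact hw (by rw [hcast]; exact Ideal.mul_mem_right _ _ h6)
  · have h7 : θ ^ 2 ∈ w.asIdeal := by rw [sq]; exact Ideal.mul_mem_left _ _ h6
    have h8 : algebraMap (𝓞 M) (𝓞 E) ((N : 𝓞 M) * ((N * N : ℕ) : 𝓞 M)) ∈ w.asIdeal := by
      rw [← hab, ← mul_assoc, map_mul, ← hθ]
      exact Ideal.mul_mem_right _ _ h7
    have h9 : ((N : 𝓞 E)) ^ 3 ∈ w.asIdeal := by
      have : algebraMap (𝓞 M) (𝓞 E) ((N : 𝓞 M) * ((N * N : ℕ) : 𝓞 M)) = (N : 𝓞 E) ^ 3 := by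
        rw [map_mul, map_natCast, map_natCast]; push_cast; ring
      rwa [this] at h8
    exact hw (by rw [hcast]; exact Ideal.mul_mem_left _ _ (hp.mem_of_pow_mem _ h9))

end step

section tower

variable {F Ω : Type} [Field F] [NumberField F] [Field Ω] [Algebra F Ω]

/-- The main step. -/
theorem unram_step (S : Set (HeightOneSpectrum (𝓞 F))) (N : ℕ) (hN : N ≠ 0)
    (hS : ∀ v : HeightOneSpectrum (𝓞 F), ((2 * N : ℕ) : 𝓞 F) ∈ v.asIdeal → v ∈ S)
    (M E : IntermediateField F Ω) (hM : FiniteDimensional F M) (hMS : UnramifiedOutside S M)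
    (y : Ω) (hy : y ^ 2 ∈ M) (hy0 : y ^ 2 ≠ 0) (h1 : IsIntegral ℤ ((N : Ω) * y ^ 2))
    (h2 : IsIntegral ℤ ((N : Ω) * (y ^ 2)⁻¹)) (hE : E = M ⊔ IntermediateField.adjoin F {y}) :
    FiniteDimensional F E ∧ UnramifiedOutside S E := by
  have hyint : IsIntegral F y := by
    apply IsIntegral.of_pow (n := 2) (by norm_num)
    have : IsIntegral F (⟨y ^ 2, hy⟩ : M) := Algebra.IsIntegral.isIntegral _
    exact this.map M.val
  have hfin : FiniteDimensional F E := by
    have := IntermediateField.adjoin.finiteDimensional hyint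
    rw [hE]
    infer_instance
  refine ⟨hfin, ?_⟩
  have hME : M ≤ E := by rw [hE]; exact le_sup_left
  have hyE : y ∈ E := by
    rw [hE]
    exact (le_sup_right : _ ≤ M ⊔ IntermediateField.adjoin F {y})
      (IntermediateField.mem_adjoin_simple_self F y)
  let _ : Algebra M E := (IntermediateField.inclusion hME).toRingHom.toAlgebra
  have _ : IsScalarTower F M E := IsScalarTower.of_algebraMap_eq (fun x => rfl)
  have : NumberField M := NumberField.of_module_finite F M
  have : NumberField E := NumberField.of_module_finite F E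
  intro w hw
  have hp := w.isPrime
  have h2w : ((2 * N : ℕ) : 𝓞 E) ∉ w.asIdeal := by
    intro h2
    let v : HeightOneSpectrum (𝓞 F) := ⟨w.asIdeal.comap (algebraMap (𝓞 F) (𝓞 E)),
      Ideal.comap_isPrime _ _, mt Ideal.eq_bot_of_comap_eq_bot w.ne_bot⟩
    refine hw v (hS v ?_) rfl
    change algebraMap (𝓞 F) (𝓞 E) ((2 * N : ℕ) : 𝓞 F) ∈ w.asIdeal
    rwa [map_natCast]
  have inj : Function.Injective (algebraMap M Ω) := (algebraMap M Ω).injective
  have h1' : IsIntegral ℤ ((N : M) * ⟨y ^ 2, hy⟩) := by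
    rw [← isIntegral_algebraMap_iff inj]
    have : algebraMap M Ω ((N : M) * ⟨y ^ 2, hy⟩) = (N : Ω) * y ^ 2 := by
      rw [map_mul, map_natCast]; rfl
    rwa [this]
  have h2' : IsIntegral ℤ ((N : M) * (⟨y ^ 2, hy⟩)⁻¹) := by
    rw [← isIntegral_algebraMap_iff inj]
    have : algebraMap M Ω ((N : M) * (⟨y ^ 2, hy⟩)⁻¹) = (N : Ω) * (y ^ 2)⁻¹ := by
      rw [map_mul, map_natCast, map_inv₀]; rfl
    rwa [this]
  have hx0 : (⟨y ^ 2, hy⟩ : M) ≠ 0 := by
    intro h0
    exact hy0 (congrArg Subtype.val h0)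
  have hadj : Algebra.adjoin M {(⟨y, hyE⟩ : E)} = ⊤ := by
    have hint : IsIntegral M (⟨y, hyE⟩ : E) := Algebra.IsIntegral.isIntegral _
    rw [← IntermediateField.adjoin_simple_toSubalgebra_of_isAlgebraic hint.isAlgebraic]
    suffices h : IntermediateField.adjoin M {(⟨y, hyE⟩ : E)} = ⊤ by rw [h]; rfl
    have key : E ≤ ((IntermediateField.adjoin M {(⟨y, hyE⟩ : E)}).restrictScalars F).map E.val := by
      refine hE.le.trans (sup_le ?_ ?_)
      · intro z hz
        exact ⟨⟨z, hME hz⟩, IntermediateField.algebraMap_mem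
          (IntermediateField.adjoin M {(⟨y, hyE⟩ : E)}) ⟨z, hz⟩, rfl⟩
      · rw [IntermediateField.adjoin_simple_le_iff]
        exact ⟨⟨y, hyE⟩, IntermediateField.mem_adjoin_simple_self M (⟨y, hyE⟩ : E), rfl⟩
    rw [eq_top_iff]
    intro z _
    obtain ⟨z', hz', hz⟩ := key z.2
    have : z' = z := Subtype.ext hz
    rw [← this]
    exact hz'
  have h3 := unram_sqrt (M := M) (E := E) ⟨y, hyE⟩ ⟨y ^ 2, hy⟩ hx0 (Subtype.ext rfl) N hN h1' h2'
    hadj w h2w
  let w1 : HeightOneSpectrum (𝓞 M) := ⟨w.asIdeal.comap (algebraMap (𝓞 M) (𝓞 E)),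
      Ideal.comap_isPrime _ _, mt Ideal.eq_bot_of_comap_eq_bot w.ne_bot⟩
  have h4 := hMS w1 (by
    intro v hv hcon
    apply hw v hv
    rw [← hcon]
    change _ = Ideal.comap _ (Ideal.comap _ _)
    rw [Ideal.comap_comap, ← IsScalarTower.algebraMap_eq])
  have : w.asIdeal.LiesOver w1.asIdeal := ⟨rfl⟩
  have := w1.isPrime
  exact Algebra.IsUnramifiedAt.comp (R := 𝓞 F) w1.asIdeal w.asIdeal

end tower

theorem main : S_KUM := by
  intro F Ω _ _ _ _ _ S N hN hS x y hx hx0 h1 h2 hy
  have hxint : IsIntegral F x := Algebra.IsIntegral.isIntegral x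
  let M : IntermediateField F Ω := IntermediateField.adjoin F {x}
  have hMfin : FiniteDimensional F M := IntermediateField.adjoin.finiteDimensional hxint
  have hMle : M ≤ FSmax S := by
    change IntermediateField.adjoin F {x} ≤ FSmax S
    rw [IntermediateField.adjoin_simple_le_iff]
    exact hx
  have hMS : UnramifiedOutside S M := MZ413.stmExH1 F Ω S M hMfin hMle
  have hxM : x ∈ M := IntermediateField.mem_adjoin_simple_self F x
  have hst := unram_step S N hN hS M (M ⊔ IntermediateField.adjoin F {y}) hMfin hMS y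
    (by rw [hy]; exact hxM) (by rw [hy]; exact hx0) (by rw [hy]; exact h1) (by rw [hy]; exact h2) rfl
  have hle : (M ⊔ IntermediateField.adjoin F {y} : IntermediateField F Ω) ≤ FSmax S :=
    le_iSup (fun K : {K : IntermediateField F Ω //
      FiniteDimensional F K ∧ UnramifiedOutside S K} => K.1)
      ⟨M ⊔ IntermediateField.adjoin F {y}, hst⟩
  exact hle ((le_sup_right : _ ≤ M ⊔ IntermediateField.adjoin F {y})
    (IntermediateField.mem_adjoin_simple_self F y))

end Pool.Agent.Helper3.DB.KUM
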