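import Pool.Agent.Helper3.DB.QERA
import Pool.Agent.Helper74.QE.UNRF
import Pool.Agent.Helper74.QR.KF
import Pool.Agent.Helper74.QR.BETA
import Pool.Agent.Helper74.QR.ZM
import Pool.Agent.Helper74.QR.ACT
import Pool.Agent.Helper74.QR.MOV
import Pool.Agent.Helper74.QR.CHI
import Pool.Agent.Helper74.QR.IND

/-!
# QER: absolutely irreducible representations of degree 3 over finite fields of characteristic 2 with image
of odd order, finitely ramified, over every number field (helpers 15, 27, 30, 74, 90)
-/

set_option autoImplicit false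

namespace Pool.Agent.Helper3.DB.QER

theorem main : S_QER :=
  asm Pool.Agent.Helper74.QR.KF.main Pool.Agent.Helper74.QR.BETA.main Pool.Agent.Helper74.QR.ZM.main
    Pool.Agent.Helper74.QR.ACT.main Pool.Agent.Helper74.QR.MOV.main Pool.Agent.Helper74.QR.CHI.main
    Pool.Agent.Helper74.QR.IND.main Pool.Agent.Helper74.QE.UNRF.main

end Pool.Agent.Helper3.DB.QER
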