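import Pool.Agent.Helper3.DB.Stm4
import Pool.Agent.Helper74.QR.FIN

/-!
# QER: assembly (helper74)
-/

set_option autoImplicit false

namespace Pool.Agent.Helper3.DB.QER

open IsLocalRing MZ NumberField IsDedekindDomain Pool.Agent.Helper74.QR

theorem odd_card {G : Type} [Group G] [Finite G] (m : ℕ) (hm : Odd m) (h : ∀ g : G, g ^ m = 1) :
    Odd (Nat.card G) := by
  rw [← Nat.not_even_iff_odd, even_iff_two_dvd]
  intro h2
  haveI : Fact (Nat.Prime 2) := ⟨Nat.prime_two⟩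
  obtain ⟨g, hg⟩ := exists_prime_orderOf_dvd_card' 2 h2
  have h3 : orderOf g ∣ m := orderOf_dvd_of_pow_eq_one (h g)
  rw [hg] at h3
  exact (Nat.not_even_iff_odd.mpr hm) (even_iff_two_dvd.mpr h3)

theorem asm (hKF : S_KF) (hBETA : S_BETA) (hZM : S_ZM) (hACT : S_ACT) (hMOV : S_MOV) (hCHI : S_CHI)
    (hIND : S_IND) (hU : Pool.Agent.Helper74.QE.S_UNRF) : S_QER := by
  intro F Ω _ _ _ _ _ _
  obtain ⟨S₀, k, i1, i2, i3, ρ₀, h1, h2, h3, h4, h5, m, hm, h6⟩ :=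
    FIN.main hKF hBETA hZM hACT hMOV hCHI hIND hU F Ω
  refine ⟨S₀, k, i1, i2, i3, ρ₀, h1, h2, h3, h4, h5, ?_⟩
  have : Finite (GL (Fin 3) k) := inferInstance
  refine odd_card m hm ?_
  rintro ⟨x, g, rfl⟩
  exact Subtype.ext (h6 g)

end Pool.Agent.Helper3.DB.QER
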