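import Pool.Agent.Helper3.DB.QEXA
import Pool.Agent.Helper74.QE.GALF
import Pool.Agent.Helper74.QE.REPG
import Pool.Agent.Helper74.QE.UNRF

/-!
# QEX: residual representations of odd image over `ℚ`, and over every number field of degree prime to 21
(helpers 15, 27, 74)
-/

set_option autoImplicit false

namespace Pool.Agent.Helper3.DB.QEX

open IsLocalRing MZ NumberField IsDedekindDomain Pool.Agent.Helper74.QE

theorem main : S_QEX := asm UNRF.main REPG.main GAL.main

/-- the same over every number field `F` of degree prime to 21 -/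
theorem mainF (F Ω : Type) [Field F] [NumberField F] [Field Ω] [Algebra F Ω] [IsAlgClosure F Ω]
    (hcop : (Module.finrank ℚ F).Coprime 21) :
    ∃ (S₀ : Set (HeightOneSpectrum (𝓞 F))) (k : Type) (_ : Field k) (_ : Finite k) (_ : CharP k 2)
    (ρ₀ : GFS Ω S₀ →* GL (Fin 3) k),
    S₀.Finite ∧ (∀ v : HeightOneSpectrum (𝓞 F), (2 : 𝓞 F) ∈ v.asIdeal → v ∈ S₀) ∧
    IsOpen (ρ₀.ker : Set (GFS Ω S₀)) ∧ AbsIrred ρ₀ ∧
    (∀ g, g * g = 1 → ρ₀ g = 1) ∧ Nat.card ρ₀.range = 21 := by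
  obtain ⟨L, h1, h2, h3, h4⟩ := GALF.main F Ω hcop
  exact gen F Ω UNRF.main REPG.main L h1 h2 h3 h4

end Pool.Agent.Helper3.DB.QEX
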