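import Pool.Agent.Helper3.DB.Stm3
import Pool.Agent.Helper74.QE.GAL
import Pool.Graph.R_seed8.Y808.MZ.Gal
import Pool.Graph.R_seed8.W178.MZ.K6

/-!
# QEX: assembly (helper74)
-/

set_option autoImplicit false

namespace Pool.Agent.Helper3.DB.QEX

open IsLocalRing MZ NumberField IsDedekindDomain Pool.Agent.Helper74.QE

theorem gen (F Ω : Type) [Field F] [NumberField F] [Field Ω] [Algebra F Ω] [IsAlgClosure F Ω]
    (hU : S_UNRF) (hR : S_REPG)
    (L : IntermediateField F Ω) (hfd : FiniteDimensional F L) (hgal : IsGalois F L)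
    (hcard : Nat.card Gal(L/F) = 21) (hab : ∃ a b : Gal(L/F), a * b ≠ b * a) :
    ∃ (S₀ : Set (HeightOneSpectrum (𝓞 F))) (k : Type) (_ : Field k) (_ : Finite k) (_ : CharP k 2)
    (ρ₀ : GFS Ω S₀ →* GL (Fin 3) k),
    S₀.Finite ∧ (∀ v : HeightOneSpectrum (𝓞 F), (2 : 𝓞 F) ∈ v.asIdeal → v ∈ S₀) ∧
    IsOpen (ρ₀.ker : Set (GFS Ω S₀)) ∧ AbsIrred ρ₀ ∧
    (∀ g, g * g = 1 → ρ₀ g = 1) ∧ Nat.card ρ₀.range = 21 := by
  obtain ⟨S₁, hS₁, hunr⟩ := hU F Ω L
  obtain ⟨k, _, _, _, ρ, hinj, hirr⟩ := hR Gal(L/F) hcard hab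
  have hfin : Finite Gal(L/F) := Nat.finite_of_card_ne_zero (by rw [hcard]; norm_num)
  let S₂ : Set (HeightOneSpectrum (𝓞 F)) := {v | (2 : 𝓞 F) ∈ v.asIdeal}
  have hS₂ : S₂.Finite := by
    have h0 : (Ideal.span {(2 : 𝓞 F)}) ≠ 0 := by
      rw [Ne, Ideal.zero_eq_bot, Ideal.span_singleton_eq_bot]
      norm_num
    refine (Ideal.finite_factors h0).subset ?_
    intro v hv
    show v.asIdeal ∣ _
    rw [Ideal.dvd_iff_le, Ideal.span_singleton_le_iff_mem]
    exact hv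
  let S₀ : Set (HeightOneSpectrum (𝓞 F)) := S₁ ∪ S₂
  have hle : L ≤ (FSmax S₀ : IntermediateField F Ω) := by
    unfold FSmax
    exact le_iSup (fun K : {K : IntermediateField F Ω //
      FiniteDimensional F K ∧ UnramifiedOutside S₀ K} => K.1)
      ⟨L, hfd, fun w hw => hunr w fun v hv => hw v (Or.inl hv)⟩
  have hgS : IsGalois F (FSmax S₀ : IntermediateField F Ω) :=
    Pool.Agent.W178.MZK.K7 F Ω S₀
  obtain ⟨π, hπs, hπq, -, -⟩ := Pool.Agent.Y808.MZD.exists_res' hle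
  have hrange : (ρ.comp π).range = ρ.range := by
    rw [MonoidHom.range_comp, MonoidHom.range_eq_top.mpr hπs, ← MonoidHom.range_eq_map]
  have hcr : Nat.card (ρ.comp π).range = 21 := by
    rw [hrange, ← hcard]
    exact (Nat.card_congr (MonoidHom.ofInjective hinj).toEquiv).symm
  refine ⟨S₀, k, inferInstance, inferInstance, inferInstance, ρ.comp π, hS₁.union hS₂,
    fun v hv => Or.inr hv, ?_, ?_, ?_, hcr⟩
  · have hd : DiscreteTopology Gal(L/F) := inferInstance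
    have : ((ρ.comp π).ker : Set (GFS Ω S₀)) = π ⁻¹' (ρ.ker : Set Gal(L/F)) := rfl
    rw [this]
    exact (isOpen_discrete _).preimage hπq.continuous
  · intro V hV
    apply hirr V
    intro g x hx
    obtain ⟨g', rfl⟩ := hπs g
    exact hV g' x hx
  · intro g hg
    have h1 : (ρ.comp π g) * (ρ.comp π g) = 1 := by rw [← map_mul, hg, map_one]
    have h2 : (⟨ρ.comp π g, g, rfl⟩ : (ρ.comp π).range) ^ 21 = 1 := by
      rw [← hcr]
      exact pow_card_eq_one'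
    have h3 : (ρ.comp π g) ^ 21 = 1 := congrArg Subtype.val h2
    have h4 : (ρ.comp π g) ^ 21 = ((ρ.comp π g) * (ρ.comp π g)) ^ 10 * (ρ.comp π g) := by
      rw [← pow_two, ← pow_mul, ← pow_succ]
    rw [h4, h1, one_pow, one_mul] at h3
    exact h3

theorem asm (hU : S_UNRF) (hR : S_REPG) (hG : S_GAL) : S_QEX := by
  obtain ⟨L, hfd, hgal, hcard, hab⟩ := hG
  have hcl : IsAlgClosure ℚ (AlgebraicClosure ℚ) := ⟨inferInstance, AlgebraicClosure.isAlgebraic ℚ⟩
  exact gen ℚ (AlgebraicClosure ℚ) hU hR L hfd hgal hcard hab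

end Pool.Agent.Helper3.DB.QEX
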