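import Pool.Agent.Helper3.DB.Stm2

/-!
# An element negative at exactly one real embedding (helper71)
-/

set_option autoImplicit false

namespace Pool.Agent.Helper3.DB.SGN

open NumberField

theorem main : S_SGN := by
  intro K _ _ τ
  classical
  let pb := Field.powerBasisOfFiniteOfSeparable ℚ K
  have hinj : ∀ τ' : K →+* ℝ, τ' ≠ τ → τ' pb.gen ≠ τ pb.gen := by
    intro τ' hne h
    apply hne
    have h1 : τ'.toRatAlgHom = τ.toRatAlgHom := pb.algHom_ext h
    ext x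
    exact DFunLike.congr_fun h1 x
  have hfin : {t : ℝ | ∃ τ' : K →+* ℝ, τ' ≠ τ ∧ τ' pb.gen = t}.Finite := by
    have h1 : {t : ℝ | ∃ τ' : K →+* ℝ, τ' ≠ τ ∧ τ' pb.gen = t} ⊆
        Set.range fun τ' : K →+* ℝ => τ' pb.gen := by
      rintro t ⟨τ', -, rfl⟩
      exact ⟨τ', rfl⟩
    exact (Set.finite_range _).subset h1
  have hmem : τ pb.gen ∈ {t : ℝ | ∃ τ' : K →+* ℝ, τ' ≠ τ ∧ τ' pb.gen = t}ᶜ := by
    rintro ⟨τ', hne, h⟩
    exact hinj τ' hne h
  obtain ⟨ε, hε, hball⟩ := Metric.isOpen_iff.1 hfin.isClosed.isOpen_compl _ hmem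
  obtain ⟨p, hp1, hp2⟩ := exists_rat_btwn (show τ pb.gen - ε < τ pb.gen by linarith)
  obtain ⟨q, hq1, hq2⟩ := exists_rat_btwn (show τ pb.gen < τ pb.gen + ε by linarith)
  have hval : ∀ τ' : K →+* ℝ, τ' ((pb.gen - (p : K)) * (pb.gen - (q : K))) =
      (τ' pb.gen - p) * (τ' pb.gen - q) := by
    intro τ'
    rw [map_mul, map_sub, map_sub, map_ratCast, map_ratCast]
  have hneg : τ ((pb.gen - (p : K)) * (pb.gen - (q : K))) < 0 := by
    rw [hval]
    exact mul_neg_of_pos_of_neg (by linarith) (by linarith)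
  refine ⟨(pb.gen - (p : K)) * (pb.gen - (q : K)), ?_, hneg, ?_⟩
  · intro h
    rw [h, map_zero] at hneg
    exact lt_irrefl 0 hneg
  · intro τ' hne
    rw [hval]
    have h1 : τ' pb.gen ∉ Metric.ball (τ pb.gen) ε := fun h => hball h ⟨τ', hne, rfl⟩
    rw [Metric.mem_ball, Real.dist_eq, not_lt] at h1
    rcases le_abs.1 h1 with h2 | h2
    · exact mul_pos (by linarith) (by linarith)
    · exact mul_pos_of_neg_of_neg (by linarith) (by linarith)

end Pool.Agent.Helper3.DB.SGN
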