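import Pool.Agent.Helper3.DB.Defs
import Mathlib

/-!
# MP_aa8fd2_nt, project DB: statements of the modules

Every module proves one of the Props below, hypothesis free:
file `Pool/Agent/Helper3/DB/<NAME>.lean`, `theorem Pool.Agent.Helper3.DB.<NAME>.main : S_<NAME>`.
-/

set_option autoImplicit false

namespace Pool.Agent.Helper3.DB

open IsLocalRing MZ

/-- minimality of a lift `(J, γ)` -/
def Min {k : Type} [Field k] {G : Type} [Group G] [TopologicalSpace G] {n : ℕ} {T : Type} [CommRing T]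
    [IsLocalRing T] [Algebra k T] (ρ : G →* GL (Fin n) k) {ι : Type} (c : ι → G) (C : ι → Mt n T)
    (J : Ideal T) (γ : G → Mt n T) : Prop :=
  ∀ (J' : Ideal T) (γ' : G → Mt n T), J' ≤ J → PL ρ c C J' γ' → (∀ g a b, (γ' g - γ g) a b ∈ J) → J' = J

/-- a lift of `γ` modulo `m J` which is continuous as a map, and exact at `1` and at the `c_i` -/
structure Sec {G : Type} [Group G] [TopologicalSpace G] {n : ℕ} {T : Type} [CommRing T]
    [IsLocalRing T] {ι : Type} (c : ι → G) (C : ι → Mt n T)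
    (J : Ideal T) (γ γ' : G → Mt n T) : Prop where
  near : ∀ g a b, (γ' g - γ g) a b ∈ J
  one : γ' 1 = 1
  val : ∀ i, γ' (c i) = C i
  lc : ∀ j : ℕ, IsLocallyConstant fun g =>
    (γ' g).map (Ideal.Quotient.mk (maximalIdeal T ^ j ⊔ maximalIdeal T * J))

/-- the obstruction 2-cochain of `γ'` with respect to a functional `l : T → k` -/
def obs {k : Type} [Field k] {G : Type} [Group G] {n : ℕ} {T : Type} [CommRing T]
    [Algebra k T] (ρ : G →* GL (Fin n) k) (γ' : G → Mt n T) (l : T →ₗ[k] k) : G × G → Mt n k :=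
  fun p => (γ' p.1 * γ' p.2 - γ' (p.1 * p.2)).map l * (((ρ (p.1 * p.2))⁻¹ : GL (Fin n) k) : Mt n k)

/-- the first order family `g ↦ (1 + ∑ x_j φ_j(g)) ρ(g)` -/
def gam1 {k : Type} [Field k] {G : Type} [Group G] {n : ℕ} {T : Type} [CommRing T]
    [Algebra k T] {z : ℕ} (ρ : G →* GL (Fin n) k) (x : Fin z → T) (φ : Fin z → G → Mt n k) (g : G) : Mt n T :=
  (1 + ∑ j, x j • (φ j g).map (algebraMap k T)) * (ρ g : Mt n k).map (algebraMap k T)

/-- SCH (Schur's lemma): `dim Z¹ ≥ h¹ + n² - 1`. The kernel of `d0` is the commutant of `ρ(G)`; over the algebraic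
closure an eigenspace of a commuting matrix is stable, so the commutant is `k`. `range d0 ≤ Z1` since `ker ρ` is
open. -/
def S_SCH : Prop :=
  ∀ (k : Type) [Field k] (G : Type) [Group G] [TopologicalSpace G] [IsTopologicalGroup G] (n : ℕ)
    (ρ : G →* GL (Fin n) k), 1 ≤ n → IsOpen (ρ.ker : Set G) → AbsIrred ρ → Module.Finite k (Z1 ρ) →
    h1 ρ + n ^ 2 ≤ Module.finrank k (Z1 ρ) + 1

/-- CNT (linear algebra): the dimension of the relative group `H2S`. Proof: `H2S → H²` has image in the kernel of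
`H² → ⨁ M^{c_i}/(1+c_i)M` (`f ↦ f(c_i,c_i)`, for cocycles with `f(1,1)=0`; subtract `d1` of the constant `f(1,1)` to
normalise), which is surjective by `LocSurj`; its kernel embeds into the cokernel of
`Z1 → ⨁ M^{c_i}`, `φ ↦ (φ(c_i))` (if `f = d1 φ ∈ Z2S` then `φ 1 = 0` and `c_i φ(c_i) = -φ(c_i) = φ(c_i)`). Finally
`dim M^c - dim M^c/(1+c)M = dim (1+c)M = n² - dim M^c`. The action of `c_i` on `M` has order `≤ 2`, char `k = 2`. -/
def S_CNT : Prop :=
  ∀ (k : Type) [Field k] [CharP k 2] (G : Type) [Group G] [TopologicalSpace G] [IsTopologicalGroup G] (n : ℕ)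
    (ρ : G →* GL (Fin n) k) (ι : Type) [Fintype ι] (c : ι → G), (∀ i, c i * c i = 1) →
    IsOpen (ρ.ker : Set G) → Module.Finite k (Z1 ρ) → Module.Finite k (H2 ρ) → LocSurj ρ c →
    Module.Finite k (H2S ρ c) ∧
      Module.finrank k (H2S ρ c) + Module.finrank k (Z1 ρ) ≤
        h2 ρ + Module.finrank k (Z1S ρ c) + ∑ i, (n ^ 2 - h0 ρ (c i))

/-- LIM (compactness): `T` complete noetherian local with finite residue field is compact, so chains of congruences
can be solved and `m^j + J` is stationary along a chain. -/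
def S_LIM : Prop :=
  ∀ (k : Type) [Field k] [Finite k] (T : Type) [CommRing T] [IsLocalRing T] [IsNoetherianRing T]
    [IsAdicComplete (maximalIdeal T) T] [Algebra k T], ResK k T →
    ∀ S : Set (Ideal T), S.Nonempty → IsChain (· ≤ ·) S →
      (∀ x : Ideal T → T, (∀ I ∈ S, ∀ J ∈ S, J ≤ I → x J - x I ∈ I) → ∃ y : T, ∀ I ∈ S, y - x I ∈ I) ∧
      ∀ j : ℕ, ∃ I ∈ S, I ≤ maximalIdeal T ^ j ⊔ sInf S

/-- ZORN: below every lift there is a minimal one (Zorn's lemma for the pairs `(J, γ)`, where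
`(J', γ') ≤ (J, γ)` iff `J' ≤ J` and `γ' ≡ γ` mod `J`; chains have lower bounds by LIM). -/
def S_ZORN : Prop :=
  ∀ (k : Type) [Field k] [Finite k] (T : Type) [CommRing T] [IsLocalRing T] [IsNoetherianRing T]
    [IsAdicComplete (maximalIdeal T) T] [Algebra k T], ResK k T →
    ∀ (G : Type) [Group G] [TopologicalSpace G] (n : ℕ) (ρ : G →* GL (Fin n) k) (ι : Type) (c : ι → G)
      (C : ι → Mt n T) (J₁ : Ideal T) (γ₁ : G → Mt n T), J₁ ≤ maximalIdeal T → PL ρ c C J₁ γ₁ →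
      ∃ (J : Ideal T) (γ : G → Mt n T), J ≤ J₁ ∧ PL ρ c C J γ ∧ (∀ g a b, (γ g - γ₁ g) a b ∈ J₁) ∧
        Min ρ c C J γ

/-- SEC: continuous modification of a lift. For large `j` one has `m^j ⊓ J ≤ m J` (Artin-Rees), so there is a
`k`-linear projection `π : T → J` modulo `m J` killing `m^j`; take `g ↦ γ g - π (γ g)` (it depends only on `γ g`
modulo `J`), and change it by a locally constant function at the finitely many distinct points `1, c_i`. -/
def S_SEC : Prop :=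
  ∀ (k : Type) [Field k] [Finite k] (T : Type) [CommRing T] [IsLocalRing T] [IsNoetherianRing T]
    [IsAdicComplete (maximalIdeal T) T] [Algebra k T], ResK k T →
    ∀ (G : Type) [Group G] [TopologicalSpace G] [IsTopologicalGroup G] [CompactSpace G]
      [TotallyDisconnectedSpace G] (n : ℕ) (ρ : G →* GL (Fin n) k) (ι : Type) [Finite ι] (c : ι → G)
      (C : ι → Mt n T) (J : Ideal T) (γ : G → Mt n T), Function.Injective c → (∀ i, c i ≠ 1) →
      J ≤ maximalIdeal T → PL ρ c C J γ → ∃ γ' : G → Mt n T, Sec c C J γ γ'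

/-- OB1: the obstruction cochain is a relative 2-cocycle (continuity by Artin-Rees `m^j ⊓ J ≤ m J`). -/
def S_OB1 : Prop :=
  ∀ (k : Type) [Field k] (T : Type) [CommRing T] [IsLocalRing T] [IsNoetherianRing T] [Algebra k T],
    ResK k T →
    ∀ (G : Type) [Group G] [TopologicalSpace G] [IsTopologicalGroup G] (n : ℕ) (ρ : G →* GL (Fin n) k)
      (ι : Type) (c : ι → G) (C : ι → Mt n T) (J : Ideal T) (γ γ' : G → Mt n T), IsOpen (ρ.ker : Set G) →
      (∀ i, c i * c i = 1) → (∀ i, C i * C i = 1) → J ≤ maximalIdeal T → PL ρ c C J γ → Sec c C J γ γ' →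
      ∀ l : T →ₗ[k] k, (∀ x ∈ maximalIdeal T * J, l x = 0) → obs ρ γ' l ∈ Z2S ρ c

/-- OB2: if the obstruction vanishes then the lift exists modulo `J' = J ∩ ker l`, so `l = 0` on `J` by minimality:
if `l e = 1` with `e ∈ J` and `obs = d1 φ`, take `γ''(g) = (1 - e φ(g)) γ'(g)`. -/
def S_OB2 : Prop :=
  ∀ (k : Type) [Field k] (T : Type) [CommRing T] [IsLocalRing T] [IsNoetherianRing T] [Algebra k T],
    ResK k T →
    ∀ (G : Type) [Group G] [TopologicalSpace G] [IsTopologicalGroup G] (n : ℕ) (ρ : G →* GL (Fin n) k)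
      (ι : Type) (c : ι → G) (C : ι → Mt n T) (J : Ideal T) (γ γ' : G → Mt n T), IsOpen (ρ.ker : Set G) →
      J ≤ maximalIdeal T → PL ρ c C J γ → Min ρ c C J γ → Sec c C J γ γ' →
      ∀ l : T →ₗ[k] k, (∀ x ∈ maximalIdeal T * J, l x = 0) → obs ρ γ' l ∈ B2S ρ c → ∀ x ∈ J, l x = 0

/-- NAK: number of generators of `J` from the dimension of the space of functionals on `J / m J`. -/
def S_NAK : Prop :=
  ∀ (k : Type) [Field k] (T : Type) [CommRing T] [IsLocalRing T] [IsNoetherianRing T] [Algebra k T],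
    ResK k T → ∀ (J : Ideal T) (V : Type) [AddCommGroup V] [Module k V] [Module.Finite k V]
      (L : (Submodule.restrictScalars k (maximalIdeal T * J)).dualAnnihilator →ₗ[k] V),
      (∀ l, L l = 0 → ∀ x ∈ J, (l : Module.Dual k T) x = 0) →
      ∃ s : Finset T, s.card ≤ Module.finrank k V ∧ Ideal.span (s : Set T) = J

/-- TRING: structure of `TT z A`. -/
def S_TRING : Prop :=
  ∀ (k : Type) [Field k] (n : ℕ) (ι : Type) [Finite ι] (z : ℕ) (A : ι → Mt n k), (∀ i, A i * A i = 1) →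
    ∃ _ : IsLocalRing (TT z A), IsAdicComplete (maximalIdeal (TT z A)) (TT z A) ∧
      Good A (CC z A) (xx z A)

/-- CHN (chain of primes): `Φ : T → k[[V]]` such that for every variable `v` some `f ∈ T` has `Φ f = X_v δ` with
`δ` not vanishing when all variables `≥ v` are put equal to `0`. -/
def S_CHN : Prop :=
  ∀ (k : Type) [Field k] (V : Type) [LinearOrder V] [Fintype V] (T : Type) [CommRing T]
    (Φ : T →+* MvPowerSeries V k),
    (∀ v : V, ∃ (f : T) (δ : MvPowerSeries V k), Φ f = MvPowerSeries.X v * δ ∧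
      ∃ m : V →₀ ℕ, (∀ w, v ≤ w → m w = 0) ∧ MvPowerSeries.coeff m δ ≠ 0) →
    ((Fintype.card V : ℕ) : WithBot ℕ∞) ≤ ringKrullDim T

/-- TDIM: `dim TT ≥ z + ∑_i 2 ⌊n/2⌋ (n - ⌊n/2⌋)`. With `A_i = 1 + N_i`, `N_i² = 0` (char 2), a change of basis over
`k` brings `N_i` to the form `[0 B; 0 0]`, `B` of size `r × (n-r)`, `r = n/2` (`im N_i ⊆ W ⊆ ker N_i`, `dim W = r`);
the family `N = [-(B+Y)Z, B+Y; -Z(B+Y)Z, Z(B+Y)]` (`Y` of size `r × (n-r)`, `Z` of size `(n-r) × r`, all entries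
variables) has `N² = 0` and defines `Φ : TT → k[[Y_i, Z_i, x]]`. Apply CHN with all `x` and `Y` before all `Z`:
`f = X_ab`-type elements for `x`, `Y`, and the entries of `N_22' adj(N_12')` for `Z` (`'` = first `r` columns), which
map to `Z_ab det((B+Y)')`. -/
def S_TDIM : Prop :=
  ∀ (k : Type) [Field k] [CharP k 2] (n : ℕ) (ι : Type) [Fintype ι] (z : ℕ) (A : ι → Mt n k),
    (∀ i, A i * A i = 1) →
    ((Fintype.card ι * (2 * (n / 2) * (n - n / 2)) + z : ℕ) : WithBot ℕ∞) ≤ ringKrullDim (TT z A)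

/-- TAN: the first order family is a lift modulo `(entries of C_i - A_i) + m²`. -/
def S_TAN : Prop :=
  ∀ (k : Type) [Field k] (T : Type) [CommRing T] [IsLocalRing T] [Algebra k T] (G : Type) [Group G]
    [TopologicalSpace G] [IsTopologicalGroup G] (n : ℕ) (ρ : G →* GL (Fin n) k) (ι : Type) (c : ι → G)
    (C : ι → Mt n T) (z : ℕ) (x : Fin z → T), IsOpen (ρ.ker : Set G) →
    Good (fun i => (ρ (c i) : Mt n k)) C x → ∀ φ : Fin z → G → Mt n k, (∀ j, φ j ∈ Z1S ρ c) →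
    PL ρ c C (entI (fun i => (ρ (c i) : Mt n k)) C ⊔ maximalIdeal T ^ 2) (gam1 ρ x φ)

/-- FI1: the universal property applied to the lift `γ` modulo `J`; `M` is normalised by `M 0 0 = 1`.
(Build the object `CNL p k` on `T ⧸ J`, with `W(k) → k → T ⧸ J`.) -/
def S_FI1 : Prop :=
  ∀ (p : ℕ) [Fact p.Prime] (k : Type) [Field k] [Finite k] [CharP k p] (T : Type) [CommRing T]
    [IsLocalRing T] [IsNoetherianRing T] [IsAdicComplete (maximalIdeal T) T] [Algebra k T], ResK k T →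
    ∀ (G : Type) [Group G] [TopologicalSpace G] (n : ℕ) (ρ : G →* GL (Fin (n + 1)) k)
      (J : Ideal T) (γ : G → Mt (n + 1) T), J ≤ maximalIdeal T →
      (∀ g h a b, (γ (g * h) - γ g * γ h) a b ∈ J) → (∀ a b, (γ 1 - 1) a b ∈ J) →
      (∀ g a b, (γ g - (ρ g : Mt (n + 1) k).map (algebraMap k T)) a b ∈ maximalIdeal T) →
      (∀ j : ℕ, IsOpen {g : G | ∀ a b, (γ g - 1) a b ∈ maximalIdeal T ^ j ⊔ J}) →
      ∀ (R : CNL p k) (ρu : G →* GL (Fin (n + 1)) R.A), IsUniversal ρ R ρu →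
      ∃ (f : R.A →+* T ⧸ J) (M : GL (Fin (n + 1)) (T ⧸ J)), f (p : R.A) = 0 ∧
        (∀ r ∈ maximalIdeal R.A, ∃ t ∈ maximalIdeal T, Ideal.Quotient.mk J t = f r) ∧
        (∀ r : R.A, f r - algebraMap k (T ⧸ J) (R.res r) ∈ (maximalIdeal R.A).map f) ∧
        (M : Mt (n + 1) (T ⧸ J)) 0 0 = 1 ∧
        (∀ a b, ∃ t ∈ maximalIdeal T, Ideal.Quotient.mk J t = ((M : Mt (n + 1) (T ⧸ J)) - 1) a b) ∧
        ∀ g, (γ g).map (Ideal.Quotient.mk J) * (M : Mt (n + 1) (T ⧸ J)) =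
          (M : Mt (n + 1) (T ⧸ J)) * ((ρu g : Mt (n + 1) R.A).map f)

/-- FI2: `m_{T/J}` is generated by `f(m_R)` and the entries of `M - 1`. Modulo these, `γ = ρ`, so the entries of
`C_i - ρ(c_i)` vanish, and modulo `m²` also `∑ x_j φ_j(g)`, so all `x_j` (linear independence of the `φ_j` : the vectors `(φ_j(g)_ab)_j` span `k^z`);
conclude by Nakayama. -/
def S_FI2 : Prop :=
  ∀ (p : ℕ) [Fact p.Prime] (k : Type) [Field k] [CharP k p] (T : Type) [CommRing T]
    [IsLocalRing T] [IsNoetherianRing T] [Algebra k T] (G : Type) [Group G] [TopologicalSpace G] (n : ℕ)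
    (ρ : G →* GL (Fin (n + 1)) k) (ι : Type) (c : ι → G) (C : ι → Mt (n + 1) T) (z : ℕ) (x : Fin z → T),
    Good (fun i => (ρ (c i) : Mt (n + 1) k)) C x → ∀ φ : Fin z → G → Mt (n + 1) k, LinearIndependent k φ →
    ∀ (J : Ideal T) (γ : G → Mt (n + 1) T), PL ρ c C J γ →
      J ≤ entI (fun i => (ρ (c i) : Mt (n + 1) k)) C ⊔ maximalIdeal T ^ 2 →
      (∀ g a b, (γ g - gam1 ρ x φ g) a b ∈
        entI (fun i => (ρ (c i) : Mt (n + 1) k)) C ⊔ maximalIdeal T ^ 2) →
      ∀ (R : CNL p k) (ρu : G →* GL (Fin (n + 1)) R.A), IsLift ρ R ρu →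
      ∀ (f : R.A →+* T ⧸ J) (M : GL (Fin (n + 1)) (T ⧸ J)),
        (∀ r ∈ maximalIdeal R.A, ∃ t ∈ maximalIdeal T, Ideal.Quotient.mk J t = f r) →
        (∀ r : R.A, f r - algebraMap k (T ⧸ J) (R.res r) ∈ (maximalIdeal R.A).map f) →
        (∀ a b, ∃ t ∈ maximalIdeal T, Ideal.Quotient.mk J t = ((M : Mt (n + 1) (T ⧸ J)) - 1) a b) →
        (∀ g, (γ g).map (Ideal.Quotient.mk J) * (M : Mt (n + 1) (T ⧸ J)) =
          (M : Mt (n + 1) (T ⧸ J)) * ((ρu g : Mt (n + 1) R.A).map f)) →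
        (maximalIdeal T).map (Ideal.Quotient.mk J) ≤ (maximalIdeal R.A).map f ⊔
          Ideal.span (Set.range fun q : Fin (n + 1) × Fin (n + 1) => ((M : Mt (n + 1) (T ⧸ J)) - 1) q.1 q.2)

/-- FI3 (commutative algebra, Krull): `B` local noetherian, `m_B` generated by `f(m_R)` and `N` further elements,
`f a = 0`; then `dim B ≤ dim R/a + N` (system of parameters of `R/a`). -/
def S_FI3 : Prop :=
  ∀ (R B : Type) [CommRing R] [CommRing B] [IsLocalRing R] [IsLocalRing B] [IsNoetherianRing R]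
    [IsNoetherianRing B] (f : R →+* B) (a : R), a ∈ maximalIdeal R → f a = 0 →
    (∀ r ∈ maximalIdeal R, f r ∈ maximalIdeal B) → ∀ (s : Finset B), (∀ y ∈ s, y ∈ maximalIdeal B) →
    maximalIdeal B ≤ (maximalIdeal R).map f ⊔ Ideal.span (s : Set B) →
    ringKrullDim B ≤ ringKrullDim (R ⧸ Ideal.span {a}) + (s.card : WithBot ℕ∞)

/-- COR (corestriction): the surjectivity `LocSurj` from quadratic characters. `H_i` is the inverse image of
`{1, ρ(c_i)}`, `ε` a character of `G` nontrivial on all `c_i`, and `χ_i : H_i → ±1` is nontrivial at `c_i` and trivial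
at all other conjugates `g c_j g⁻¹ ∈ H_i` (`j ≠ i` or `g ∉ H_i`). For `m ∈ M^{c_i}` the corestriction
`φ(g) = ∑_{t ∈ G/H_i} χ_i(t'⁻¹ g t) t' m` (`t'` = representative of `g t H_i`, `1` is the representative of `H_i`) is
a cocycle with `φ(c_i) ∈ m + (1+c_i)M`, `φ(c_j) ∈ (1+c_j)M`; take `f(g,h) = ε(g) g φ(h)`. -/
def S_COR : Prop :=
  ∀ (k : Type) [Field k] [CharP k 2] (G : Type) [Group G] [TopologicalSpace G] [IsTopologicalGroup G]
    [CompactSpace G] (n : ℕ) (ρ : G →* GL (Fin n) k) (ι : Type) [Fintype ι] (c : ι → G),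
    (∀ i, c i * c i = 1) → IsOpen (ρ.ker : Set G) →
    ∀ (H : ι → Subgroup G), (∀ i g, g ∈ H i ↔ (ρ g = 1 ∨ ρ g = ρ (c i))) →
    ∀ (ε : G →* Multiplicative (ZMod 2)), IsOpen (ε.ker : Set G) → (∀ i, ε (c i) ≠ 1) →
    ∀ (χ : ∀ i, H i →* Multiplicative (ZMod 2)), (∀ i, IsOpen ((χ i).ker.map (H i).subtype : Set G)) →
    (∀ i j g (h : g * c j * g⁻¹ ∈ H i), χ i ⟨g * c j * g⁻¹, h⟩ ≠ 1 ↔ (j = i ∧ g ∈ H i)) →
    LocSurj ρ c

/-- The main theorem for profinite groups. -/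
def S_MAIN : Prop :=
  ∀ (k : Type) [Field k] [Finite k] [CharP k 2] (G : Type) [Group G] [TopologicalSpace G]
    [IsTopologicalGroup G] [CompactSpace G] [TotallyDisconnectedSpace G] (n : ℕ), 1 ≤ n →
    ∀ (ρ : G →* GL (Fin n) k), IsOpen (ρ.ker : Set G) → AbsIrred ρ →
    ∀ (ι : Type) [Fintype ι] (c : ι → G), (∀ i, c i * c i = 1) → (∀ i, c i ≠ 1) → Function.Injective c →
    Module.Finite k (Z1 ρ) → Module.Finite k (H2 ρ) → LocSurj ρ c →
    ∀ (R : CNL 2 k) (ρu : G →* GL (Fin n) R.A), IsUniversal ρ R ρu →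
    ((h1 ρ + Fintype.card ι * (2 * (n / 2) * (n - n / 2)) : ℕ) : WithBot ℕ∞) ≤
      ringKrullDim (R.A ⧸ Ideal.span {((2 : ℕ) : R.A)}) + ((h2 ρ + ∑ i, (n ^ 2 - h0 ρ (c i)) : ℕ) : WithBot ℕ∞)

end Pool.Agent.Helper3.DB
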