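import Pool.Agent.Helper3.DB.Stm

/-!
# MP_aa8fd2_nt, project DB: statements of the number theoretic modules
-/

set_option autoImplicit false

namespace Pool.Agent.Helper3.DB

open IsLocalRing MZ NumberField IsDedekindDomain

/-- `ρ'` is the inflation of the representation `ρ` of `G_{F,S}` to `G_{F,S'}` -/
def IsInfl {F Ω : Type} [Field F] [NumberField F] [Field Ω] [Algebra F Ω]
    {S S' : Set (HeightOneSpectrum (𝓞 F))} {k : Type} [Field k] {n : ℕ}
    (ρ : GFS Ω S →* GL (Fin n) k) (ρ' : GFS Ω S' →* GL (Fin n) k) : Prop :=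
  ∃ π : GFS Ω S' →* GFS Ω S, Function.Surjective π ∧
    (∀ (g : GFS Ω S') (x : (FSmax S : IntermediateField F Ω))
      (y : (FSmax S' : IntermediateField F Ω)), (x : Ω) = y → (π g x : Ω) = g y) ∧
    ρ' = ρ.comp π

/-- SGN: `a = (θ - p)(θ - q)`, `θ` a primitive element, `p < τ θ < q` rational numbers enclosing no other real
conjugate of `θ`. -/
def S_SGN : Prop :=
  ∀ (K : Type) [Field K] [NumberField K] (τ : K →+* ℝ),
    ∃ a : K, a ≠ 0 ∧ τ a < 0 ∧ ∀ τ' : K →+* ℝ, τ' ≠ τ → 0 < τ' a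

/-- KUM: square roots of elements of `F_S` whose only primes divide `N` (all primes dividing `2N` in `S`). -/
def S_KUM : Prop :=
  ∀ (F Ω : Type) [Field F] [NumberField F] [Field Ω] [Algebra F Ω] [IsAlgClosure F Ω]
    (S : Set (HeightOneSpectrum (𝓞 F))) (N : ℕ), N ≠ 0 →
    (∀ v : HeightOneSpectrum (𝓞 F), ((2 * N : ℕ) : 𝓞 F) ∈ v.asIdeal → v ∈ S) →
    ∀ x y : Ω, x ∈ (FSmax S : IntermediateField F Ω) → x ≠ 0 → IsIntegral ℤ ((N : Ω) * x) →
      IsIntegral ℤ ((N : Ω) * x⁻¹) → y ^ 2 = x → y ∈ (FSmax S : IntermediateField F Ω)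

/-- HYP: `LocSurj` for all large `S` -/
def S_HYP : Prop :=
  ∀ (F Ω : Type) [Field F] [NumberField F] [Field Ω] [Algebra F Ω] [IsAlgClosure F Ω]
    (S₀ : Set (HeightOneSpectrum (𝓞 F))), S₀.Finite →
    (∀ v : HeightOneSpectrum (𝓞 F), (2 : 𝓞 F) ∈ v.asIdeal → v ∈ S₀) →
    ∀ (k : Type) [Field k] [Finite k] [CharP k 2] (n : ℕ) (ρ₀ : GFS Ω S₀ →* GL (Fin n) k),
      IsOpen (ρ₀.ker : Set (GFS Ω S₀)) →
      ∃ S₁ : Set (HeightOneSpectrum (𝓞 F)), S₁.Finite ∧ S₀ ⊆ S₁ ∧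
        ∀ S : Set (HeightOneSpectrum (𝓞 F)), S₁ ⊆ S →
        ∀ ρ : GFS Ω S →* GL (Fin n) k, IsInfl ρ₀ ρ →
        ∀ (ι : Type) [Fintype ι] (c : ι → GFS Ω S)
          (φ : ι → ((FSmax S : IntermediateField F Ω) →+* ℂ)),
          (∀ i, ComplexEmbedding.IsConj (φ i) (c i)) →
          (Function.Injective fun i =>
            InfinitePlace.mk ((φ i).comp (algebraMap F (FSmax S : IntermediateField F Ω)))) →
          LocSurj ρ c

/-- Z1F: finiteness of `Z¹(G_{F,S}, Ad ρ)`. Restrict to `N = ker ρ`: finitely many homomorphisms `N → M_n(k)` by the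
library theorem `MZEX.StmExH` (proved: see `R_seed8/W294/MZ/ExFinal.lean`), and a cocycle vanishing on `N` is a function
on the finite set `G/N`. -/
def S_Z1F : Prop :=
  ∀ (F Ω : Type) [Field F] [NumberField F] [Field Ω] [Algebra F Ω] [IsAlgClosure F Ω]
    (S : Set (HeightOneSpectrum (𝓞 F))), S.Finite →
    (∀ v : HeightOneSpectrum (𝓞 F), (2 : 𝓞 F) ∈ v.asIdeal → v ∈ S) →
    ∀ (k : Type) [Field k] [Finite k] [CharP k 2] (n : ℕ) (ρ : GFS Ω S →* GL (Fin n) k),
      IsOpen (ρ.ker : Set (GFS Ω S)) → Module.Finite k (Z1 ρ)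

/-- DEL: complex conjugations `c_v` (`v` real) generating the stabilisers of the places `w v`, and the formula for `δ`
(`n` odd, char 2: the centraliser of `ρ(c)` is the sum of its trace zero part and of the scalars, and a trivial
stabiliser at the complex places; at the real places the stabiliser is nontrivial since `√-1 ∈ F_S`; see
`R_seed8/W505/MZ/Delta.lean`, `R_seed8/Y808/MZ/Gal.lean`). -/
def S_DEL : Prop :=
  ∀ (F Ω : Type) [Field F] [NumberField F] [Field Ω] [Algebra F Ω] [IsAlgClosure F Ω]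
    (S : Set (HeightOneSpectrum (𝓞 F))),
    (∀ v : HeightOneSpectrum (𝓞 F), (2 : 𝓞 F) ∈ v.asIdeal → v ∈ S) →
    ∀ (k : Type) [Field k] [CharP k 2] (n : ℕ), Odd n → ∀ (ρ : GFS Ω S →* GL (Fin n) k)
      (w : InfinitePlace F → InfinitePlace (FSmax S : IntermediateField F Ω)),
      (∀ v : InfinitePlace F,
        (w v).comap (algebraMap F (FSmax S : IntermediateField F Ω)) = v) →
      ∃ (c : {v : InfinitePlace F // v.IsReal} → GFS Ω S)
        (φ : {v : InfinitePlace F // v.IsReal} → ((FSmax S : IntermediateField F Ω) →+* ℂ)),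
        (∀ v, ComplexEmbedding.IsConj (φ v) (c v)) ∧ (∀ v, c v ≠ 1) ∧ (∀ v, c v * c v = 1) ∧
        Function.Injective c ∧
        (∀ v, InfinitePlace.mk ((φ v).comp (algebraMap F (FSmax S : IntermediateField F Ω))) = v.1) ∧
        (∀ v g, g ∈ MulAction.stabilizer (GFS Ω S) (w v.1) ↔ g = 1 ∨ g = c v) ∧
        delta S ρ w = 1 + (InfinitePlace.nrComplexPlaces F : ℤ) * (n : ℤ) ^ 2 +
          ∑ᶠ v, ((n : ℤ) ^ 2 - (h0 ρ (c v) : ℤ))

/-- CEN: the centraliser of a unipotent involution in characteristic 2: with `r = rank (ρ(c) - 1)` one has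
`2 r ≤ n` and `dim = n² - 2 r (n - r)`. -/
def S_CEN : Prop :=
  ∀ (k : Type) [Field k] [CharP k 2] (G : Type) [Group G] [TopologicalSpace G] (n : ℕ)
    (ρ : G →* GL (Fin n) k) (c : G), c * c = 1 →
    2 * ((ρ c : Mt n k) - 1).rank ≤ n ∧
      h0 ρ c + 2 * ((ρ c : Mt n k) - 1).rank * (n - ((ρ c : Mt n k) - 1).rank) = n ^ 2

end Pool.Agent.Helper3.DB
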