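import Pool.Agent.Helper3.DB.Stm2

/-!
# MP_aa8fd2_nt, project DB: a residual representation of `Gal(ℚ_S/ℚ)` of odd order image
-/

set_option autoImplicit false

namespace Pool.Agent.Helper3.DB

open IsLocalRing MZ NumberField IsDedekindDomain

/-- QEX (helper74): an absolutely irreducible `ρ₀ : G_{ℚ,S₀} → GL₃(k)`, `k` finite of characteristic 2, which is
trivial on all elements of order 2 (image of order 21, cut out by the totally real field of the polynomial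
`θ⁷ - 8θ⁵ - 2θ⁴ + 16θ³ + 6θ² - 6θ - 2`). -/
def S_QEX : Prop :=
  ∃ (S₀ : Set (HeightOneSpectrum (𝓞 ℚ))) (k : Type) (_ : Field k) (_ : Finite k) (_ : CharP k 2)
    (ρ₀ : GFS (AlgebraicClosure ℚ) S₀ →* GL (Fin 3) k),
    S₀.Finite ∧ (∀ v : HeightOneSpectrum (𝓞 ℚ), (2 : 𝓞 ℚ) ∈ v.asIdeal → v ∈ S₀) ∧
    IsOpen (ρ₀.ker : Set (GFS (AlgebraicClosure ℚ) S₀)) ∧ AbsIrred ρ₀ ∧
    (∀ g, g * g = 1 → ρ₀ g = 1) ∧ Nat.card ρ₀.range = 21

/-- QER (helper74): an absolutely irreducible `ρ₀ : G_{F,S₀} → GL₃(k)` of odd order image, over every number field with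
a real place -/
def S_QER : Prop :=
  ∀ (F Ω : Type) [Field F] [NumberField F] [Field Ω] [Algebra F Ω] [IsAlgClosure F Ω],
    (∃ v : InfinitePlace F, v.IsReal) →
    ∃ (S₀ : Set (HeightOneSpectrum (𝓞 F))) (k : Type) (_ : Field k) (_ : Finite k) (_ : CharP k 2)
      (ρ₀ : GFS Ω S₀ →* GL (Fin 3) k),
      S₀.Finite ∧ (∀ v : HeightOneSpectrum (𝓞 F), (2 : 𝓞 F) ∈ v.asIdeal → v ∈ S₀) ∧
      IsOpen (ρ₀.ker : Set (GFS Ω S₀)) ∧ AbsIrred ρ₀ ∧
      (∀ g, g * g = 1 → ρ₀ g = 1) ∧ Odd (Nat.card ρ₀.range)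

end Pool.Agent.Helper3.DB
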