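import Pool.Agent.Helper3.DB.Stm3

/-!
# MP_aa8fd2_nt, project DB: the definitions used in the final statement
-/

set_option autoImplicit false

namespace Pool.Agent.Helper3.DB

open IsLocalRing MZ NumberField IsDedekindDomain

/-- `dim H²(G, Ad ρ) ∈ ℕ ∪ {∞}` -/
noncomputable def h2E {k : Type} [Field k] {G : Type} [Group G] [TopologicalSpace G] {n : ℕ}
    (ρ : G →* GL (Fin n) k) : ℕ∞ := Cardinal.toENat (Module.rank k (H2 ρ))

/-- Tate's theorem for `Ad ρ`: `H²(G_{F,S}, Ad ρ)` is finite, of dimension `h²`, and `h¹ - h² = δ(ρ)` (the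
Euler-Poincaré formula, listed as known in the problem). -/
def EulerPoincare {F Ω : Type} [Field F] [NumberField F] [Field Ω] [Algebra F Ω]
    (S : Set (HeightOneSpectrum (𝓞 F))) {k : Type} [Field k] {n : ℕ} (ρ : GFS Ω S →* GL (Fin n) k)
    (w : InfinitePlace F → InfinitePlace (FSmax S : IntermediateField F Ω)) : Prop :=
  ∃ m : ℕ, h2E ρ = m ∧ (h1 ρ : ℤ) - m = delta S ρ w

/-- a universal deformation ring of `ρ` exists, and every universal deformation ring `R` has
`dim R/2R ≥ N` -/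
def DimGe {k : Type} [Field k] [CharP k 2] {G : Type} [Group G] [TopologicalSpace G] {n : ℕ}
    (ρ : G →* GL (Fin n) k) (N : ℕ) : Prop :=
  (∃ (R : CNL 2 k) (ρu : G →* GL (Fin n) R.A), IsUniversal ρ R ρu) ∧
  ∀ (R : CNL 2 k) (ρu : G →* GL (Fin n) R.A), IsUniversal ρ R ρu →
    (N : WithBot ℕ∞) ≤ ringKrullDim (R.A ⧸ Ideal.span {((2 : ℕ) : R.A)})

/-- a universal deformation ring of `ρ` exists, and every universal deformation ring `R` has
`dim R/2R ≥ h¹ - h² + e` -/
def Exceeds {k : Type} [Field k] [CharP k 2] {G : Type} [Group G] [TopologicalSpace G] {n : ℕ}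
    (ρ : G →* GL (Fin n) k) (e : ℕ) : Prop :=
  (∃ (R : CNL 2 k) (ρu : G →* GL (Fin n) R.A), IsUniversal ρ R ρu) ∧
  ∀ (R : CNL 2 k) (ρu : G →* GL (Fin n) R.A), IsUniversal ρ R ρu →
    ((h1 ρ + e : ℕ) : WithBot ℕ∞) ≤
      ringKrullDim (R.A ⧸ Ideal.span {((2 : ℕ) : R.A)}) + ((h2E ρ : ℕ∞) : WithBot ℕ∞)

/-- `c v` is the complex conjugation at the place `w v` of `F_S`, for every real place `v` of `F` -/
def IsCC {F Ω : Type} [Field F] [NumberField F] [Field Ω] [Algebra F Ω]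
    (S : Set (HeightOneSpectrum (𝓞 F)))
    (w : InfinitePlace F → InfinitePlace (FSmax S : IntermediateField F Ω))
    (c : {v : InfinitePlace F // v.IsReal} → GFS Ω S) : Prop :=
  ∀ v, c v ≠ 1 ∧ c v ∈ MulAction.stabilizer (GFS Ω S) (w v.1)

/-- the rank of `ρ(c) - 1` -/
noncomputable def rk {k : Type} [Field k] {G : Type} [Group G] {n : ℕ}
    (ρ : G →* GL (Fin n) k) (c : G) : ℕ := ((ρ c : Mt n k) - 1).rank

end Pool.Agent.Helper3.DB
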