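import Pool.Agent.Helper3.DB.Stm4

/-!
# MP_aa8fd2_nt, project DB: the four parts of the final statement
-/

set_option autoImplicit false

namespace Pool.Agent.Helper3.DB

open IsLocalRing MZ NumberField IsDedekindDomain

/-- (A) Profinite groups. `c_i` are distinct elements of order 2 such that `H²(G, Ad ρ) → ⨁ H²(⟨c_i⟩, Ad ρ)` is
surjective, `r_i` the rank of `ρ(c_i) - 1`. Then
`dim R/2R ≥ h¹ - h² + ∑_i (2 ⌊n/2⌋ (n - ⌊n/2⌋) - 2 r_i (n - r_i))`. -/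
def InvolutionBound : Prop :=
  ∀ (k : Type) [Field k] [Finite k] [CharP k 2] (G : Type) [Group G] [TopologicalSpace G]
    [IsTopologicalGroup G] [CompactSpace G] [TotallyDisconnectedSpace G] (n : ℕ), 1 ≤ n →
    ∀ (ρ : G →* GL (Fin n) k), IsOpen (ρ.ker : Set G) → AbsIrred ρ → Module.Finite k (Z1 ρ) →
    ∀ (ι : Type) [Fintype ι] (c : ι → G), (∀ i, c i * c i = 1) → (∀ i, c i ≠ 1) → Function.Injective c →
    LocSurj ρ c →
    ∀ (R : CNL 2 k) (ρu : G →* GL (Fin n) R.A), IsUniversal ρ R ρu →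
      ((h1 ρ + ∑ i, (2 * (n / 2) * (n - n / 2) - 2 * rk ρ (c i) * (n - rk ρ (c i))) : ℕ) : WithBot ℕ∞) ≤
        ringKrullDim (R.A ⧸ Ideal.span {((2 : ℕ) : R.A)}) + ((h2E ρ : ℕ∞) : WithBot ℕ∞)

/-- (B), the statement for one representation of `G_{F,S}` -/
def RealBound {F Ω : Type} [Field F] [NumberField F] [Field Ω] [Algebra F Ω]
    (S : Set (HeightOneSpectrum (𝓞 F))) {k : Type} [Field k] [CharP k 2] {n : ℕ}
    (ρ : GFS Ω S →* GL (Fin n) k)
    (w : InfinitePlace F → InfinitePlace (FSmax S : IntermediateField F Ω))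
    (c : {v : InfinitePlace F // v.IsReal} → GFS Ω S) : Prop :=
  (∀ v, 2 * rk ρ (c v) ≤ n - 1) ∧
  delta S ρ w = 1 + InfinitePlace.nrComplexPlaces F * (n : ℤ) ^ 2 +
    ∑ᶠ v, 2 * (rk ρ (c v) : ℤ) * ((n : ℤ) - rk ρ (c v)) ∧
  (LocSurj ρ c → Exceeds ρ (∑ᶠ v, ((n ^ 2 - 1) / 2 - 2 * rk ρ (c v) * (n - rk ρ (c v))))) ∧
  (LocSurj ρ c → EulerPoincare S ρ w →
    DimGe ρ (1 + InfinitePlace.nrComplexPlaces F * n ^ 2 +
      InfinitePlace.nrRealPlaces F * ((n ^ 2 - 1) / 2)))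

/-- (B) Number fields: the formula for `δ`, and the bound for every `S` for which the localisation map at the real
places is surjective. -/
def RealPlaces : Prop :=
  ∀ (F Ω : Type) [Field F] [NumberField F] [Field Ω] [Algebra F Ω] [IsAlgClosure F Ω]
    (S : Set (HeightOneSpectrum (𝓞 F))) (k : Type) [Field k] [Finite k] [CharP k 2] (n : ℕ)
    (ρ : GFS Ω S →* GL (Fin n) k)
    (w : InfinitePlace F → InfinitePlace (FSmax S : IntermediateField F Ω)),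
    IsDatum F Ω S 2 k n ρ w →
    ∀ c : {v : InfinitePlace F // v.IsReal} → GFS Ω S, IsCC S w c → RealBound S ρ w c

/-- the localisation map `H²(G_{F,S}, Ad ρ) → ⨁_{v real} H²(G_v, Ad ρ)` is surjective -/
def LocSurjFor {F Ω : Type} [Field F] [NumberField F] [Field Ω] [Algebra F Ω]
    (S : Set (HeightOneSpectrum (𝓞 F))) {k : Type} [Field k] {n : ℕ} (ρ : GFS Ω S →* GL (Fin n) k) : Prop :=
  ∀ w : InfinitePlace F → InfinitePlace (FSmax S : IntermediateField F Ω),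
    (∀ v : InfinitePlace F, (w v).comap (algebraMap F (FSmax S : IntermediateField F Ω)) = v) →
    ∀ c : {v : InfinitePlace F // v.IsReal} → GFS Ω S, IsCC S w c → LocSurj ρ c

/-- (C) The localisation map is surjective for all large `S`. -/
def LargeS : Prop :=
  ∀ (F Ω : Type) [Field F] [NumberField F] [Field Ω] [Algebra F Ω] [IsAlgClosure F Ω]
    (S₀ : Set (HeightOneSpectrum (𝓞 F))), S₀.Finite →
    (∀ v : HeightOneSpectrum (𝓞 F), (2 : 𝓞 F) ∈ v.asIdeal → v ∈ S₀) →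
    ∀ (k : Type) [Field k] [Finite k] [CharP k 2] (n : ℕ), Odd n → ∀ (ρ₀ : GFS Ω S₀ →* GL (Fin n) k),
      IsOpen (ρ₀.ker : Set (GFS Ω S₀)) →
      ∃ S₁ : Set (HeightOneSpectrum (𝓞 F)), S₁.Finite ∧ S₀ ⊆ S₁ ∧
        ∀ S : Set (HeightOneSpectrum (𝓞 F)), S₁ ⊆ S →
          (∃ ρ : GFS Ω S →* GL (Fin n) k, IsInfl ρ₀ ρ) ∧
          ∀ ρ : GFS Ω S →* GL (Fin n) k, IsInfl ρ₀ ρ → LocSurjFor S ρ

end Pool.Agent.Helper3.DB
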