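import Pool.Agent.Helper3.DB.Stm4

/-!
# MP_aa8fd2_nt: the bounds for one representation of `G_{F,S}`
-/

set_option autoImplicit false

namespace Pool.Agent.Helper3.DB

open IsLocalRing MZ NumberField IsDedekindDomain

/-- `r_v = rank (ρ(c_v) - 1)` for the complex conjugation `c_v = c v` at the real place `v`: `r_v ≤ (n-1)/2`,
`δ(ρ) = 1 + r₂ n² + ∑_v 2 r_v (n - r_v)`, a universal deformation ring `R` exists and
`dim R/2R ≥ h¹ - h² + ∑_v ((n²-1)/2 - 2 r_v (n - r_v))`, and `dim R/2R ≥ 1 + r₂ n² + r₁ (n²-1)/2` if `h¹ - h² = δ(ρ)`. -/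
def Bounds {F Ω : Type} [Field F] [NumberField F] [Field Ω] [Algebra F Ω]
    (S : Set (HeightOneSpectrum (𝓞 F))) {k : Type} [Field k] [CharP k 2] {n : ℕ}
    (ρ : GFS Ω S →* GL (Fin n) k)
    (w : InfinitePlace F → InfinitePlace (FSmax S : IntermediateField F Ω))
    (c : {v : InfinitePlace F // v.IsReal} → GFS Ω S) : Prop :=
  (∀ v, 2 * rk ρ (c v) ≤ n - 1) ∧
  delta S ρ w = 1 + InfinitePlace.nrComplexPlaces F * (n : ℤ) ^ 2 +
    ∑ᶠ v, 2 * (rk ρ (c v) : ℤ) * ((n : ℤ) - rk ρ (c v)) ∧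
  Exceeds ρ (∑ᶠ v, ((n ^ 2 - 1) / 2 - 2 * rk ρ (c v) * (n - rk ρ (c v)))) ∧
  (EulerPoincare S ρ w →
    DimGe ρ (1 + InfinitePlace.nrComplexPlaces F * n ^ 2 +
      InfinitePlace.nrRealPlaces F * ((n ^ 2 - 1) / 2)))

end Pool.Agent.Helper3.DB
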