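import Pool.Agent.Helper3.DB.Stm4

/-!
# MP_aa8fd2_nt: counterexamples with image of odd order
-/

set_option autoImplicit false

namespace Pool.Agent.Helper3.DB

open IsLocalRing MZ NumberField IsDedekindDomain

/-- the data are as in the problem (`p = 2`), the image of `ρ` has odd order, `δ(ρ) = 1 + r₂ n²`, a universal
deformation ring `R` exists, `dim R/2R ≥ h¹ - h² + r₁ (n²-1)/2`, and `dim R/2R ≥ 1 + r₂ n² + r₁ (n²-1)/2` if
`h¹ - h² = δ(ρ)` -/
def Cex {F Ω : Type} [Field F] [NumberField F] [Field Ω] [Algebra F Ω]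
    (S : Set (HeightOneSpectrum (𝓞 F))) {k : Type} [Field k] [CharP k 2] {n : ℕ}
    (ρ : GFS Ω S →* GL (Fin n) k)
    (w : InfinitePlace F → InfinitePlace (FSmax S : IntermediateField F Ω)) : Prop :=
  IsDatum F Ω S 2 k n ρ w ∧ Odd (Nat.card ρ.range) ∧
  delta S ρ w = 1 + InfinitePlace.nrComplexPlaces F * (n : ℤ) ^ 2 ∧
  Exceeds ρ (InfinitePlace.nrRealPlaces F * ((n ^ 2 - 1) / 2)) ∧
  (EulerPoincare S ρ w →
    DimGe ρ (1 + InfinitePlace.nrComplexPlaces F * n ^ 2 + InfinitePlace.nrRealPlaces F * ((n ^ 2 - 1) / 2)))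

end Pool.Agent.Helper3.DB
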