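import Pool.Agent.Helper3.DB.Stm2
import Pool.Graph.R_seed8.W294.MZ.ExFinal

/-!
# MP_aa8fd2_nt, project DB, module Z1F (helper40): `Z¹(G_{F,S}, Ad ρ)` is finite
-/

set_option autoImplicit false

namespace Pool.Agent.Helper3.DB.Z1F

open MZ NumberField IsDedekindDomain

variable {k : Type} [Field k] {G : Type} [Group G] [TopologicalSpace G] {n : ℕ}

theorem map_one (ρ : G →* GL (Fin n) k) {φ : G → Mt n k} (h : φ ∈ Z1 ρ) : φ 1 = 0 := by
  have h1 := h.2 1 1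
  have h2 : ad ρ 1 (φ 1) = φ 1 := by
    show (ρ 1 : Mt n k) * φ 1 * ((ρ 1)⁻¹ : GL (Fin n) k) = φ 1
    simp
  rw [h2, mul_one] at h1
  exact left_eq_add.1 h1

theorem map_mul (ρ : G →* GL (Fin n) k) {φ : G → Mt n k} (h : φ ∈ Z1 ρ) (a : ρ.ker) (b : G) :
    φ (a * b) = φ a + φ b := by
  rw [h.2]
  congr 1
  show (ρ a : Mt n k) * φ b * ((ρ a)⁻¹ : GL (Fin n) k) = φ b
  have : ρ (a : G) = 1 := a.2
  rw [this]
  simp

/-- the character `ℓ ∘ φ` of the kernel -/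
def chi (ρ : G →* GL (Fin n) k) (φ : Z1 ρ) (ℓ : Mt n k →+ ZMod 2) :
    {χ : ρ.ker →* Multiplicative (ZMod 2) // IsOpen (χ.ker : Set ρ.ker)} where
  val :=
    { toFun := fun h => Multiplicative.ofAdd (ℓ (φ.1 h))
      map_one' := by
        rw [OneMemClass.coe_one, map_one ρ φ.2, map_zero, ofAdd_zero]
      map_mul' := fun a b => by
        rw [Subgroup.coe_mul, map_mul ρ φ.2, map_add, ofAdd_add] }
  property := by
    have h1 : IsLocallyConstant fun h : ρ.ker => ℓ (φ.1 h) :=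
      (φ.2.1.comp ℓ).comp_continuous continuous_subtype_val
    have h2 := h1.isOpen_fiber 0
    convert h2 using 1
    ext x
    exact Iff.rfl

theorem sep [CharP k 2] (x : Mt n k) (h : ∀ ℓ : Mt n k →+ ZMod 2, ℓ x = 0) : x = 0 := by
  let _ : Module (ZMod 2) (Mt n k) := AddCommGroup.zmodModule (n := 2) (fun x => by
    ext i j
    rw [Matrix.smul_apply, two_nsmul, CharTwo.add_self_eq_zero, Matrix.zero_apply])
  refine (Module.forall_dual_apply_eq_zero_iff (ZMod 2) x).1 fun f => ?_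
  exact h f.toAddMonoidHom

theorem fin [IsTopologicalGroup G] [CompactSpace G] [Finite k] [CharP k 2]
    (ρ : G →* GL (Fin n) k) (hρ : IsOpen (ρ.ker : Set G))
    (hN : Finite {χ : ρ.ker →* Multiplicative (ZMod 2) // IsOpen (χ.ker : Set ρ.ker)}) :
    Finite (Z1 ρ) := by
  have hfin : Finite (G ⧸ ρ.ker) := Subgroup.quotient_finite_of_isOpen _ hρ
  have hM : Finite (Mt n k) := inferInstanceAs (Finite (Fin n → Fin n → k))
  have hMd : Finite (Mt n k →+ ZMod 2) :=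
    Finite.of_injective (fun f => (f : Mt n k → ZMod 2)) DFunLike.coe_injective
  refine Finite.of_injective (fun φ : Z1 ρ => ((fun ℓ => chi ρ φ ℓ : (Mt n k →+ ZMod 2) →
    {χ : ρ.ker →* Multiplicative (ZMod 2) // IsOpen (χ.ker : Set ρ.ker)}),
    (fun x => φ.1 (Quotient.out x) : (G ⧸ ρ.ker) → Mt n k))) ?_
  intro φ ψ h
  rw [Prod.mk.injEq] at h
  obtain ⟨h1, h2⟩ := h
  have h3 : ∀ a : ρ.ker, φ.1 a = ψ.1 a := by
    intro a
    rw [← sub_eq_zero]
    refine sep _ fun ℓ => ?_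
    rw [map_sub, sub_eq_zero]
    have h4 := congrFun h1 ℓ
    have h5 := congrArg (fun χ => Multiplicative.toAdd (χ.1 a)) h4
    exact h5
  refine Subtype.ext (funext fun g => ?_)
  set r : G := Quotient.out (g : G ⧸ ρ.ker) with hr
  have h6 : φ.1 r = ψ.1 r := congrFun h2 (g : G ⧸ ρ.ker)
  have h7 : r⁻¹ * g ∈ ρ.ker := by
    have : ((r : G) : G ⧸ ρ.ker) = (g : G ⧸ ρ.ker) := Quotient.out_eq' _
    exact QuotientGroup.eq.1 this
  have h8 : g = r * (⟨r⁻¹ * g, h7⟩ : ρ.ker) := by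
    show g = r * (r⁻¹ * g)
    group
  rw [h8, φ.2.2, ψ.2.2, h6, h3]

theorem main : S_Z1F := by
  intro F Ω _ _ _ _ _ S hS h2 k _ _ _ n ρ hρ
  have : IsGalois F (FSmax S : IntermediateField F Ω) := Pool.Agent.W178.MZK.K7 F Ω S
  have : Finite (Z1 ρ) := fin ρ hρ (MZEX.stmExH F Ω S hS h2 ρ.ker hρ)
  exact Module.Finite.of_finite

end Pool.Agent.Helper3.DB.Z1F
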