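import Pool.Agent.Helper3.DB.Stm5
import Pool.Agent.Helper3.DB.Fin
import Pool.Agent.Helper3.DB.HYP
import Pool.Agent.Helper3.DB.Z1F
import Pool.Agent.Helper3.DB.DEL
import Pool.Agent.Helper3.DB.CEN
import Pool.Agent.Helper3.DB.SGN
import Pool.Agent.Helper3.DB.KUM
import Pool.Agent.Helper3.DB.COR
import Pool.Graph.R_seed8.Y808.MZ.Gal

/-!
# MP_aa8fd2_nt, project DB: the final theorem
-/

set_option autoImplicit false

namespace Pool.Agent.Helper3.DB.Thm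

open IsLocalRing MZ NumberField IsDedekindDomain

lemma dimQ {k : Type} [Field k] [CharP k 2] (R : CNL 2 k) :
    ∃ d : ℕ, ringKrullDim (R.A ⧸ Ideal.span {((2 : ℕ) : R.A)}) = (d : WithBot ℕ∞) := by
  have hR2 : Ideal.span {((2 : ℕ) : R.A)} ≠ ⊤ := by
    intro h
    rw [Ideal.span_singleton_eq_top] at h
    have h1 := h.map R.res
    rw [map_natCast] at h1
    have h2 : ((2 : ℕ) : k) = 0 := CharP.cast_eq_zero k 2
    rw [h2] at h1
    exact not_isUnit_zero h1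
  have : Nontrivial (R.A ⧸ Ideal.span {((2 : ℕ) : R.A)}) := Ideal.Quotient.nontrivial_iff.mpr hR2
  have : IsLocalRing (R.A ⧸ Ideal.span {((2 : ℕ) : R.A)}) :=
    IsLocalRing.of_surjective' (Ideal.Quotient.mk _) Ideal.Quotient.mk_surjective
  exact dimNat _

lemma h2E_fin {k : Type} [Field k] {G : Type} [Group G] [TopologicalSpace G] {n : ℕ}
    (ρ : G →* GL (Fin n) k) (hfin : Module.Finite k (H2 ρ)) : h2E ρ = (h2 ρ : ℕ∞) := by
  rw [h2E, h2, ← Module.finrank_eq_rank, Cardinal.toENat_nat]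

lemma h2E_top {k : Type} [Field k] {G : Type} [Group G] [TopologicalSpace G] {n : ℕ}
    (ρ : G →* GL (Fin n) k) (hfin : ¬ Module.Finite k (H2 ρ)) : h2E ρ = ⊤ := by
  rw [h2E, Cardinal.toENat_eq_top]
  by_contra hcon
  exact hfin (Module.rank_lt_aleph0_iff.mp (not_le.mp hcon))

lemma conv {k : Type} [Field k] [CharP k 2] {G : Type} [Group G] [TopologicalSpace G] {n : ℕ}
    (ρ : G →* GL (Fin n) k) (R : CNL 2 k) (Z : ℕ)
    (h : Module.Finite k (H2 ρ) → ∀ d : ℕ, ringKrullDim (R.A ⧸ Ideal.span {((2 : ℕ) : R.A)}) = d →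
      h1 ρ + Z ≤ d + h2 ρ) :
    ((h1 ρ + Z : ℕ) : WithBot ℕ∞) ≤
      ringKrullDim (R.A ⧸ Ideal.span {((2 : ℕ) : R.A)}) + ((h2E ρ : ℕ∞) : WithBot ℕ∞) := by
  obtain ⟨d, hd⟩ := dimQ R
  rw [hd]
  by_cases hfin : Module.Finite k (H2 ρ)
  · rw [h2E_fin ρ hfin]
    have := h hfin d hd
    exact_mod_cast this
  · rw [h2E_top ρ hfin]
    have h4 : ((d : ℕ) : WithBot ℕ∞) + ((⊤ : ℕ∞) : WithBot ℕ∞) = ((⊤ : ℕ∞) : WithBot ℕ∞) := by
      have : ((d : ℕ) : WithBot ℕ∞) = (((d : ℕ) : ℕ∞) : WithBot ℕ∞) := rfl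
      rw [this, ← WithBot.coe_add, add_top]
    rw [h4]
    have h5 : ((h1 ρ + Z : ℕ) : WithBot ℕ∞) = (((h1 ρ + Z : ℕ) : ℕ∞) : WithBot ℕ∞) := rfl
    rw [h5, WithBot.coe_le_coe]
    exact le_top

/-- orbit dimensions are at most `2 ⌊n/2⌋ (n - ⌊n/2⌋)` -/
lemma orb_le (n r : ℕ) (h : 2 * r ≤ n) : 2 * r * (n - r) ≤ 2 * (n / 2) * (n - n / 2) := by
  have h1 : r ≤ n / 2 := by omega
  obtain ⟨a, ha⟩ := Nat.exists_eq_add_of_le h1
  obtain ⟨b, hb⟩ : ∃ b, n = 2 * (n / 2) + b := ⟨n % 2, by omega⟩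
  have h2 : n - r = r + 2 * a + b := by omega
  have h3 : n - n / 2 = r + a + b := by omega
  rw [h2, h3, ha]
  nlinarith [Nat.zero_le a, Nat.zero_le b, Nat.zero_le r, Nat.zero_le (a * b)]

lemma coreA (k : Type) [Field k] [Finite k] [CharP k 2] (G : Type) [Group G] [TopologicalSpace G]
    [IsTopologicalGroup G] [CompactSpace G] [TotallyDisconnectedSpace G] (n : ℕ) (hn : 1 ≤ n)
    (ρ : G →* GL (Fin n) k) (hρ : IsOpen (ρ.ker : Set G)) (hirr : AbsIrred ρ) (hZ1 : Module.Finite k (Z1 ρ))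
    (ι : Type) [Fintype ι] (c : ι → G) (hc : ∀ i, c i * c i = 1) (hc1 : ∀ i, c i ≠ 1)
    (hinj : Function.Injective c) (hloc : LocSurj ρ c) (R : CNL 2 k) (ρu : G →* GL (Fin n) R.A)
    (hu : IsUniversal ρ R ρu) (hH2 : Module.Finite k (H2 ρ)) (d : ℕ)
    (hd : ringKrullDim (R.A ⧸ Ideal.span {((2 : ℕ) : R.A)}) = d) :
    h1 ρ + Fintype.card ι * (2 * (n / 2) * (n - n / 2)) ≤
      d + (h2 ρ + ∑ i, 2 * rk ρ (c i) * (n - rk ρ (c i))) := by
  have h := Fin.main k G n hn ρ hρ hirr ι c hc hc1 hinj hZ1 hH2 hloc R ρu hu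
  rw [hd] at h
  have h' : h1 ρ + Fintype.card ι * (2 * (n / 2) * (n - n / 2)) ≤
      d + (h2 ρ + ∑ i, (n ^ 2 - h0 ρ (c i))) := by exact_mod_cast h
  have hcen : ∀ i, n ^ 2 - h0 ρ (c i) = 2 * rk ρ (c i) * (n - rk ρ (c i)) := by
    intro i
    have := (CEN.main k G n ρ (c i) (hc i)).2
    have h4 : h0 ρ (c i) + 2 * rk ρ (c i) * (n - rk ρ (c i)) = n ^ 2 := this
    omega
  rwa [Finset.sum_congr rfl (fun i _ => hcen i)] at h'

theorem partA : InvolutionBound := by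
  intro k _ _ _ G _ _ _ _ _ n hn ρ hρ hirr hZ1 ι _ c hc hc1 hinj hloc R ρu hu
  apply conv
  intro hH2 d hd
  have h := coreA k G n hn ρ hρ hirr hZ1 ι c hc hc1 hinj hloc R ρu hu hH2 d hd
  have hle : ∀ i, 2 * rk ρ (c i) * (n - rk ρ (c i)) ≤ 2 * (n / 2) * (n - n / 2) := fun i =>
    orb_le n _ (CEN.main k G n ρ (c i) (hc i)).1
  have h2 : ∑ i, (2 * (n / 2) * (n - n / 2) - 2 * rk ρ (c i) * (n - rk ρ (c i))) +
      ∑ i, 2 * rk ρ (c i) * (n - rk ρ (c i)) = Fintype.card ι * (2 * (n / 2) * (n - n / 2)) := by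
    rw [← Finset.sum_add_distrib, Finset.sum_congr rfl (fun i _ => Nat.sub_add_cancel (hle i)),
      Finset.sum_const, Finset.card_univ, smul_eq_mul]
  omega

lemma cc_data {F Ω : Type} [Field F] [NumberField F] [Field Ω] [Algebra F Ω] [IsAlgClosure F Ω]
    (S : Set (HeightOneSpectrum (𝓞 F)))
    (hS : ∀ v : HeightOneSpectrum (𝓞 F), (2 : 𝓞 F) ∈ v.asIdeal → v ∈ S)
    {k : Type} [Field k] [CharP k 2] {n : ℕ} (hn : Odd n) (ρ : GFS Ω S →* GL (Fin n) k)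
    (w : InfinitePlace F → InfinitePlace (FSmax S : IntermediateField F Ω))
    (hw : ∀ v : InfinitePlace F,
      (w v).comap (algebraMap F (FSmax S : IntermediateField F Ω)) = v)
    (c : {v : InfinitePlace F // v.IsReal} → GFS Ω S) (hc : IsCC S w c) :
    (∃ φ : {v : InfinitePlace F // v.IsReal} → ((FSmax S : IntermediateField F Ω) →+* ℂ),
      (∀ v, ComplexEmbedding.IsConj (φ v) (c v)) ∧
      (∀ v, InfinitePlace.mk ((φ v).comp (algebraMap F (FSmax S : IntermediateField F Ω))) = v.1)) ∧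
    (∀ v, c v * c v = 1) ∧
    delta S ρ w = 1 + (InfinitePlace.nrComplexPlaces F : ℤ) * (n : ℤ) ^ 2 +
      ∑ᶠ v, ((n : ℤ) ^ 2 - (h0 ρ (c v) : ℤ)) := by
  obtain ⟨c', φ, h1, h2, h3, h4, h5, h6⟩ := DEL.main F Ω S hS k n hn ρ w hw
  have hcc : c = c' := by
    funext v
    exact ((h5 v (c v)).mp (hc v).2).resolve_left (hc v).1
  subst hcc
  exact ⟨⟨φ, h1, h4⟩, h3, h6⟩

lemma odd_half {n : ℕ} (hn : Odd n) : 2 * (n / 2) * (n - n / 2) = (n ^ 2 - 1) / 2 := by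
  obtain ⟨m, rfl⟩ := hn
  have e1 : (2 * m + 1) / 2 = m := by omega
  have e2 : ((2 * m + 1) ^ 2 - 1) / 2 = 2 * m * (m + 1) := by
    have : (2 * m + 1) ^ 2 - 1 = 2 * (2 * m * (m + 1)) := by
      have : (2 * m + 1) ^ 2 = 2 * (2 * m * (m + 1)) + 1 := by ring
      omega
    rw [this]
    omega
  rw [e1, e2]
  have e3 : 2 * m + 1 - m = m + 1 := by omega
  rw [e3]

theorem partB : RealPlaces := by
  intro F Ω _ _ _ _ _ S k _ _ _ n ρ w hD c hc
  obtain ⟨hn1, hcop, hSf, hS2, hop, hirr, hw⟩ := hD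
  have hn : Odd n := Nat.coprime_two_left.mp hcop
  have hS2' : ∀ v : HeightOneSpectrum (𝓞 F), (2 : 𝓞 F) ∈ v.asIdeal → v ∈ S :=
    fun v hv => hS2 v (by exact_mod_cast hv)
  obtain ⟨-, hcc, hdel⟩ := cc_data S hS2' hn ρ w hw c hc
  have hcen : ∀ v, 2 * rk ρ (c v) ≤ n ∧ h0 ρ (c v) + 2 * rk ρ (c v) * (n - rk ρ (c v)) = n ^ 2 :=
    fun v => CEN.main k (GFS Ω S) n ρ (c v) (hcc v)
  have hr : ∀ v, 2 * rk ρ (c v) ≤ n - 1 := by
    intro v
    obtain ⟨m, rfl⟩ := hn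
    have := (hcen v).1
    omega
  have hterm : ∀ v, (n : ℤ) ^ 2 - (h0 ρ (c v) : ℤ) = 2 * (rk ρ (c v) : ℤ) * ((n : ℤ) - rk ρ (c v)) := by
    intro v
    have h1 := (hcen v).2
    have h2 : rk ρ (c v) ≤ n := by have := hr v; omega
    have h3 : ((h0 ρ (c v) + 2 * rk ρ (c v) * (n - rk ρ (c v)) : ℕ) : ℤ) = ((n ^ 2 : ℕ) : ℤ) := by
      rw [h1]
    push_cast [Nat.cast_sub h2] at h3
    linarith
  have hdel' : delta S ρ w = 1 + InfinitePlace.nrComplexPlaces F * (n : ℤ) ^ 2 +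
        ∑ᶠ v, 2 * (rk ρ (c v) : ℤ) * ((n : ℤ) - rk ρ (c v)) := by
    rw [hdel]
    congr 1
    exact finsum_congr hterm
  have hex := MZEX.stmEx F Ω S hSf hS2' k n hn1 ρ hop hirr
  have galS : IsGalois F (FSmax S : IntermediateField F Ω) := Pool.Agent.W178.MZK.K7 F Ω S
  classical
  have hkey : LocSurj ρ c → ∀ (R : CNL 2 k) (ρu : GFS Ω S →* GL (Fin n) R.A), IsUniversal ρ R ρu →
      Module.Finite k (H2 ρ) → ∀ d : ℕ, ringKrullDim (R.A ⧸ Ideal.span {((2 : ℕ) : R.A)}) = d →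
      h1 ρ + InfinitePlace.nrRealPlaces F * ((n ^ 2 - 1) / 2) ≤
        d + (h2 ρ + ∑ v, 2 * rk ρ (c v) * (n - rk ρ (c v))) := by
    intro hloc R ρu hu hH2 d hd
    have h := coreA k (GFS Ω S) n hn1 ρ hop hirr (Z1F.main F Ω S hSf hS2' k n ρ hop)
      {v : InfinitePlace F // v.IsReal} c hcc (fun v => (hc v).1) (DEL.inj hn ρ c hloc) hloc R ρu hu hH2 d hd
    rw [odd_half hn] at h
    have hr1 : Fintype.card {v : InfinitePlace F // v.IsReal} = InfinitePlace.nrRealPlaces F := by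
      rw [InfinitePlace.nrRealPlaces]
    rw [hr1] at h
    exact h
  unfold RealBound
  refine ⟨hr, hdel', fun hloc => ⟨hex, fun R ρu hu => ?_⟩, fun hloc hEP => ⟨hex, fun R ρu hu => ?_⟩⟩
  · apply conv
    intro hH2 d hd
    have h := hkey hloc R ρu hu hH2 d hd
    rw [finsum_eq_sum_of_fintype]
    have hle : ∀ v, 2 * rk ρ (c v) * (n - rk ρ (c v)) ≤ (n ^ 2 - 1) / 2 := fun v => by
      rw [← odd_half hn]
      exact orb_le n _ (hcen v).1
    have h2 : ∑ v, ((n ^ 2 - 1) / 2 - 2 * rk ρ (c v) * (n - rk ρ (c v))) +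
        ∑ v, 2 * rk ρ (c v) * (n - rk ρ (c v)) = InfinitePlace.nrRealPlaces F * ((n ^ 2 - 1) / 2) := by
      rw [← Finset.sum_add_distrib, Finset.sum_congr rfl (fun i _ => Nat.sub_add_cancel (hle i)),
        Finset.sum_const, Finset.card_univ, smul_eq_mul, InfinitePlace.nrRealPlaces]
    omega
  · obtain ⟨m, hm, hep⟩ := hEP
    have hH2 : Module.Finite k (H2 ρ) := by
      by_contra hcon
      rw [h2E_top ρ hcon] at hm
      exact ENat.coe_ne_top m hm.symm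
    have hm2 : m = h2 ρ := by
      rw [h2E_fin ρ hH2] at hm
      exact_mod_cast hm.symm
    subst hm2
    obtain ⟨d, hd⟩ := dimQ R
    have hle := hkey hloc R ρu hu hH2 d hd
    rw [hd]
    have hterm2 : ∀ v, 2 * (rk ρ (c v) : ℤ) * ((n - rk ρ (c v) : ℕ) : ℤ) =
        2 * (rk ρ (c v) : ℤ) * ((n : ℤ) - rk ρ (c v)) := by
      intro v
      have h2 : rk ρ (c v) ≤ n := by have := hr v; omega
      rw [Nat.cast_sub h2]
    rw [hdel', finsum_eq_sum_of_fintype, ← Finset.sum_congr rfl (fun v _ => hterm2 v)] at hep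
    generalize (n ^ 2 - 1) / 2 = D at hle ⊢
    have h7 : (1 + InfinitePlace.nrComplexPlaces F * n ^ 2 + InfinitePlace.nrRealPlaces F * D : ℕ) ≤ d := by
      have hle' : (h1 ρ : ℤ) + InfinitePlace.nrRealPlaces F * D ≤
          d + (h2 ρ + ∑ v, 2 * (rk ρ (c v) : ℤ) * ((n - rk ρ (c v) : ℕ) : ℤ)) := by exact_mod_cast hle
      have h8 : ((1 + InfinitePlace.nrComplexPlaces F * n ^ 2 + InfinitePlace.nrRealPlaces F * D : ℕ) : ℤ) ≤
          (d : ℤ) := by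
        push_cast
        linarith
      exact_mod_cast h8
    exact_mod_cast h7

theorem partC : LargeS := by
  intro F Ω _ _ _ _ _ S₀ hS₀ h2 k _ _ _ n hn ρ₀ hρ₀
  obtain ⟨S₁, hS₁, hS01, hH⟩ := HYP.main_of SGN.main KUM.main COR.main F Ω S₀ hS₀ h2 k n ρ₀ hρ₀
  refine ⟨S₁, hS₁, hS01, fun S hS => ⟨?_, ?_⟩⟩
  · have gal0 : IsGalois F (FSmax S₀ : IntermediateField F Ω) := Pool.Agent.W178.MZK.K7 F Ω S₀
    have galS : IsGalois F (FSmax S : IntermediateField F Ω) := Pool.Agent.W178.MZK.K7 F Ω S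
    obtain ⟨π, hs, hq, hcm, -, -⟩ := Pool.Agent.Y808.MZD.exists_res' (F := F) (Ω := Ω)
      (Pool.Agent.Y808.MZD.FSmax_mono (Ω := Ω) (hS01.trans hS))
    exact ⟨ρ₀.comp π, π, hs, hcm, rfl⟩
  · intro ρ hinf w hw c hc
    classical
    obtain ⟨⟨φ, hφ1, hφ2⟩, -, -⟩ := cc_data S (fun v hv => hS (hS01 (h2 v hv))) hn ρ w hw c hc
    refine hH S hS ρ hinf {v : InfinitePlace F // v.IsReal} c φ hφ1 ?_
    intro v v' hvv
    apply Subtype.ext
    have h3 : InfinitePlace.mk ((φ v).comp (algebraMap F (FSmax S : IntermediateField F Ω))) =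
      InfinitePlace.mk ((φ v').comp (algebraMap F (FSmax S : IntermediateField F Ω))) := hvv
    rw [hφ2, hφ2] at h3
    exact h3

end Pool.Agent.Helper3.DB.Thm
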