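import Pool.Agent.Helper3.DB.StmB
import Pool.Agent.Helper3.DB.Thm

/-!
# MP_aa8fd2_nt, project DB: the bounds for every residual representation and all large `S`
-/

set_option autoImplicit false

namespace Pool.Agent.Helper3.DB.ThmB

open IsLocalRing MZ NumberField IsDedekindDomain Thm

theorem main (F Ω : Type) [Field F] [NumberField F] [Field Ω] [Algebra F Ω] [IsAlgClosure F Ω]
    (S₀ : Set (HeightOneSpectrum (𝓞 F))) (hS₀ : S₀.Finite)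
    (h2 : ∀ v : HeightOneSpectrum (𝓞 F), (2 : 𝓞 F) ∈ v.asIdeal → v ∈ S₀)
    (k : Type) [Field k] [Finite k] [CharP k 2] (n : ℕ) (hn : Odd n) (ρ₀ : GFS Ω S₀ →* GL (Fin n) k)
    (hop₀ : IsOpen (ρ₀.ker : Set (GFS Ω S₀))) (hirr₀ : AbsIrred ρ₀) :
    ∃ S₁ : Set (HeightOneSpectrum (𝓞 F)), S₁.Finite ∧ S₀ ⊆ S₁ ∧
      ∀ S : Set (HeightOneSpectrum (𝓞 F)), S.Finite → S₁ ⊆ S →
        (∃ ρ : GFS Ω S →* GL (Fin n) k, IsInfl ρ₀ ρ) ∧
        ∀ ρ : GFS Ω S →* GL (Fin n) k, IsInfl ρ₀ ρ →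
        ∀ w : InfinitePlace F → InfinitePlace (FSmax S : IntermediateField F Ω),
          (∀ v : InfinitePlace F, (w v).comap (algebraMap F (FSmax S : IntermediateField F Ω)) = v) →
          IsDatum F Ω S 2 k n ρ w ∧
          ∃ c : {v : InfinitePlace F // v.IsReal} → GFS Ω S, IsCC S w c ∧ Bounds S ρ w c := by
  obtain ⟨S₁, hS₁, hS01, hH⟩ := partC F Ω S₀ hS₀ h2 k n hn ρ₀ hop₀
  refine ⟨S₁, hS₁, hS01, fun S hSf hS => ⟨(hH S hS).1, fun ρ hinf w hw => ?_⟩⟩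
  have hloc := (hH S hS).2 ρ hinf w hw
  obtain ⟨π, hs, hcm, rfl⟩ := hinf
  have gal0 : IsGalois F (FSmax S₀ : IntermediateField F Ω) := Pool.Agent.W178.MZK.K7 F Ω S₀
  have galS : IsGalois F (FSmax S : IntermediateField F Ω) := Pool.Agent.W178.MZK.K7 F Ω S
  obtain ⟨π', hs', hq', hcm', -, -⟩ := Pool.Agent.Y808.MZD.exists_res' (F := F) (Ω := Ω)
      (Pool.Agent.Y808.MZD.FSmax_mono (Ω := Ω) (hS01.trans hS))
  have hS2 : ∀ v : HeightOneSpectrum (𝓞 F), (2 : 𝓞 F) ∈ v.asIdeal → v ∈ S :=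
    fun v hv => hS (hS01 (h2 v hv))
  have hππ : π = π' := by
    ext g x
    have hx : (x : Ω) ∈ (FSmax S : IntermediateField F Ω) :=
      Pool.Agent.Y808.MZD.FSmax_mono (Ω := Ω) (hS01.trans hS) x.2
    rw [hcm g x ⟨(x : Ω), hx⟩ rfl, hcm' g x ⟨(x : Ω), hx⟩ rfl]
  subst hππ
  have hopen : IsOpen ((ρ₀.comp π).ker : Set (GFS Ω S)) := hop₀.preimage hq'.continuous
  have hirr : AbsIrred (ρ₀.comp π) := by
    intro V hV
    refine hirr₀ V fun g x hx => ?_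
    obtain ⟨g', rfl⟩ := hs g
    exact hV g' x hx
  have hD : IsDatum F Ω S 2 k n (ρ₀.comp π) w :=
    ⟨hn.pos, Nat.coprime_two_left.mpr hn, hSf, fun v hv => hS2 v (by exact_mod_cast hv), hopen, hirr, hw⟩
  obtain ⟨c, φ, c1, c2, c3, c4, c5, c6⟩ := DEL.main F Ω S hS2 k n hn (ρ₀.comp π) w hw
  have hc : IsCC S w c := fun v => ⟨c2 v, (c5 v (c v)).mpr (Or.inr rfl)⟩
  obtain ⟨hb1, hb2, hb4, hb3⟩ := partB F Ω S k n (ρ₀.comp π) w hD c hc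
  exact ⟨hD, c, hc, hb1, hb2, hb4 (hloc c hc), hb3 (hloc c hc)⟩

end Pool.Agent.Helper3.DB.ThmB
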