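import Pool.Agent.Helper3.DB.StmD
import Pool.Agent.Helper3.DB.Thm
import Pool.Agent.Helper74.QN.All

/-!
# MP_aa8fd2_nt, project DB: counterexamples over every number field with a real place
-/

set_option autoImplicit false

namespace Pool.Agent.Helper3.DB.ThmD

open IsLocalRing MZ NumberField IsDedekindDomain Thm

/-- from a residual representation trivial at all complex conjugations to counterexamples -/
theorem cex_of (F Ω : Type) [Field F] [NumberField F] [Field Ω] [Algebra F Ω] [IsAlgClosure F Ω]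
    (n : ℕ) (hn : Odd n) (S₀ : Set (HeightOneSpectrum (𝓞 F))) (k : Type) [Field k] [Finite k] [CharP k 2]
    (ρ₀ : GFS Ω S₀ →* GL (Fin n) k) (hS₀ : S₀.Finite)
    (h2 : ∀ v : HeightOneSpectrum (𝓞 F), (2 : 𝓞 F) ∈ v.asIdeal → v ∈ S₀)
    (hop₀ : IsOpen (ρ₀.ker : Set (GFS Ω S₀))) (hirr₀ : AbsIrred ρ₀)
    (hodd : Odd (Nat.card ρ₀.range)) :
    ∃ S₁ : Set (HeightOneSpectrum (𝓞 F)), S₁.Finite ∧
      ∀ S : Set (HeightOneSpectrum (𝓞 F)), S.Finite → S₁ ⊆ S →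
        ∃ (ρ : GFS Ω S →* GL (Fin n) k)
          (w : InfinitePlace F → InfinitePlace (FSmax S : IntermediateField F Ω)), Cex S ρ w := by
  have htriv : ∀ g, g * g = 1 → ρ₀ g = 1 := by
    intro g hg
    have h3 : (⟨ρ₀ g, ⟨g, rfl⟩⟩ : ρ₀.range) ^ 2 = 1 := by
      apply Subtype.ext
      change (ρ₀ g) ^ 2 = 1
      rw [pow_two, ← map_mul, hg, map_one]
    have h4 : orderOf (⟨ρ₀ g, ⟨g, rfl⟩⟩ : ρ₀.range) ∣ 2 := orderOf_dvd_of_pow_eq_one h3
    have h5 : orderOf (⟨ρ₀ g, ⟨g, rfl⟩⟩ : ρ₀.range) ∣ Nat.card ρ₀.range := orderOf_dvd_natCard _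
    have h6 : orderOf (⟨ρ₀ g, ⟨g, rfl⟩⟩ : ρ₀.range) = 1 := by
      have h7 : Nat.Coprime 2 (Nat.card ρ₀.range) := Nat.coprime_two_left.mpr hodd
      exact Nat.eq_one_of_dvd_coprimes h7 h4 h5
    exact congrArg Subtype.val (orderOf_eq_one_iff.mp h6)
  obtain ⟨S₁, hS₁, hS01, hH⟩ := partC F Ω S₀ hS₀ h2 k n hn ρ₀ hop₀
  refine ⟨S₁, hS₁, fun S hSf hS => ?_⟩
  have gal0 : IsGalois F (FSmax S₀ : IntermediateField F Ω) := Pool.Agent.W178.MZK.K7 F Ω S₀
  have galS : IsGalois F (FSmax S : IntermediateField F Ω) := Pool.Agent.W178.MZK.K7 F Ω S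
  obtain ⟨π, hs, hq, hcm, -, -⟩ := Pool.Agent.Y808.MZD.exists_res' (F := F) (Ω := Ω)
      (Pool.Agent.Y808.MZD.FSmax_mono (Ω := Ω) (hS01.trans hS))
  have hS2 : ∀ v : HeightOneSpectrum (𝓞 F), (2 : 𝓞 F) ∈ v.asIdeal → v ∈ S :=
    fun v hv => hS (hS01 (h2 v hv))
  have hopen : IsOpen ((ρ₀.comp π).ker : Set (GFS Ω S)) := hop₀.preimage hq.continuous
  have hirr : AbsIrred (ρ₀.comp π) := by
    intro V hV
    refine hirr₀ V fun g x hx => ?_
    obtain ⟨g', rfl⟩ := hs g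
    exact hV g' x hx
  have halg : Algebra.IsAlgebraic F (FSmax S : IntermediateField F Ω) := inferInstance
  have hex : ∀ v : InfinitePlace F, ∃ u : InfinitePlace (FSmax S : IntermediateField F Ω),
      u.comap (algebraMap F (FSmax S : IntermediateField F Ω)) = v := fun v =>
    InfinitePlace.comap_surjective (k := F) (K := (FSmax S : IntermediateField F Ω)) v
  choose w hw using hex
  have hD : IsDatum F Ω S 2 k n (ρ₀.comp π) w :=
    ⟨hn.pos, Nat.coprime_two_left.mpr hn, hSf, fun v hv => hS2 v (by exact_mod_cast hv), hopen, hirr, hw⟩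
  obtain ⟨c, φ, c1, c2, c3, c4, c5, c6⟩ := DEL.main F Ω S hS2 k n hn (ρ₀.comp π) w hw
  have hc : IsCC S w c := fun v => ⟨c2 v, (c5 v (c v)).mpr (Or.inr rfl)⟩
  obtain ⟨hb1, hb2, hb4, hb3⟩ := partB F Ω S k n (ρ₀.comp π) w hD c hc
  have hloc : LocSurj (ρ₀.comp π) c := (hH S hS).2 (ρ₀.comp π) ⟨π, hs, hcm, rfl⟩ w hw c hc
  have hrk : ∀ v, rk (ρ₀.comp π) (c v) = 0 := by
    intro v
    have h1 : (ρ₀.comp π) (c v) = 1 := by
      apply htriv
      rw [← map_mul, c3 v, map_one]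
    rw [rk, h1, Units.val_one, sub_self, Matrix.rank_zero]
  refine ⟨ρ₀.comp π, w, hD, ?_, ?_, ?_, ?_⟩
  · have : (ρ₀.comp π).range = ρ₀.range := by
      rw [MonoidHom.range_comp, MonoidHom.range_eq_top.mpr hs, ← MonoidHom.range_eq_map]
    rw [this]
    exact hodd
  · rw [hb2]
    have : ∀ v, 2 * (rk (ρ₀.comp π) (c v) : ℤ) * ((n : ℤ) - rk (ρ₀.comp π) (c v)) = 0 := by
      intro v
      rw [hrk v]
      simp
    rw [finsum_congr this, finsum_zero, add_zero]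
  · have h4 := hb4 hloc
    classical
    have h5 : ∑ᶠ v, ((n ^ 2 - 1) / 2 - 2 * rk (ρ₀.comp π) (c v) * (n - rk (ρ₀.comp π) (c v))) =
        InfinitePlace.nrRealPlaces F * ((n ^ 2 - 1) / 2) := by
      rw [finsum_eq_sum_of_fintype,
        Finset.sum_congr rfl (fun v _ => show (n ^ 2 - 1) / 2 - 2 * rk (ρ₀.comp π) (c v) *
          (n - rk (ρ₀.comp π) (c v)) = (n ^ 2 - 1) / 2 by rw [hrk v]; simp),
        Finset.sum_const, Finset.card_univ, smul_eq_mul, InfinitePlace.nrRealPlaces]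
    rw [h5] at h4
    exact h4
  · exact fun hep => hb3 hloc hep

theorem main (F Ω : Type) [Field F] [NumberField F] [Field Ω] [Algebra F Ω] [IsAlgClosure F Ω] (n : ℕ) (hn : Odd n) :
    ∃ (S₁ : Set (HeightOneSpectrum (𝓞 F))) (k : Type) (_ : Field k) (_ : Finite k) (_ : CharP k 2),
      S₁.Finite ∧ ∀ S : Set (HeightOneSpectrum (𝓞 F)), S.Finite → S₁ ⊆ S →
        ∃ (ρ : GFS Ω S →* GL (Fin n) k)
          (w : InfinitePlace F → InfinitePlace (FSmax S : IntermediateField F Ω)), Cex S ρ w := by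
  obtain ⟨S₀, k, _, _, _, ρ₀, hS₀, h2, hop₀, hirr₀, -, hodd⟩ := Pool.Agent.Helper74.QN.all F Ω n hn
  obtain ⟨S₁, hS₁, hH⟩ := cex_of F Ω n hn S₀ k ρ₀ hS₀ h2 hop₀ hirr₀ hodd
  exact ⟨S₁, k, inferInstance, inferInstance, inferInstance, hS₁, hH⟩

end Pool.Agent.Helper3.DB.ThmD
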